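import Pool.Agent.Lib.MP_aafd8a_gt.Spec

/-!
# MP_aafd8a_gt: simplicial approximation by Lebesgue numbers
-/

set_option autoImplicit false

open Topology

namespace Pool.Agent.MPaafd8a

/-- **Simplicial approximation.** -/
theorem pApp : SCrd → SKuhn → SApp := by
  intro hCrd hKuhn V K D F
  by_cases hV : Nonempty V
  · -- the sets where a coordinate is positive
    have hopen : ∀ v : V, IsOpen {x : CSph D | 0 < (F x).1 v} := fun v =>
      isOpen_lt continuous_const ((hCrd V K v).comp F.continuous)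
    have hcov : (Set.univ : Set (CSph D)) ⊆ ⋃ v : V, {x : CSph D | 0 < (F x).1 v} := by
      intro x _
      obtain ⟨v, hv⟩ := support_nonempty_of_sum (F x).2.2.1
      rw [Set.mem_iUnion]
      exact ⟨v, lt_of_le_of_ne ((F x).2.1 v) (Ne.symm (Finsupp.mem_support_iff.1 hv))⟩
    obtain ⟨η, hη, hball⟩ := lebesgue_number_lemma_of_metric isCompact_univ hopen hcov
    obtain ⟨A, hA, ψ, h1, h2, h3, h4, h5⟩ := hKuhn D η hη
    have hw : ∀ a : A, ∃ v : V, ∀ x, 0 < ψ a x → 0 < (F x).1 v := by
      intro a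
      by_cases ha : ∃ x₀, 0 < ψ a x₀
      · obtain ⟨x₀, hx₀⟩ := ha
        obtain ⟨v, hv⟩ := hball x₀ (Set.mem_univ _)
        refine ⟨v, fun x hx => ?_⟩
        exact hv (Metric.mem_ball.2 (h4 a x x₀ hx hx₀))
      · exact ⟨hV.some, fun x hx => absurd ⟨x, hx⟩ ha⟩
    choose w hw using hw
    exact ⟨A, hA, ψ, w, h1, h2, h3, hw, h5⟩
  · -- then the sphere is empty
    have hE : IsEmpty (CSph D) := by
      refine ⟨fun x => hV ?_⟩
      obtain ⟨v, _⟩ := support_nonempty_of_sum (F x).2.2.1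
      exact ⟨v⟩
    refine ⟨Empty, inferInstance, fun a => a.elim, fun a => a.elim, fun a => a.elim, fun a => a.elim,
      fun x => hE.elim x, fun a => a.elim, fun x => hE.elim x⟩

end Pool.Agent.MPaafd8a
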