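import Pool.Agent.Lib.MP_aafd8a_gt.Spec

/-!
# MP_aafd8a_gt: maps into a finite subcomplex
-/

set_option autoImplicit false

open Topology

namespace Pool.Agent.MPaafd8a

namespace ConAux

theorem sum_sub {V : Type} {K : AbstractSimplicialComplex V} (p : Geo K) {W : Finset V}
    (h : p.1.support ⊆ W) : ∑ v ∈ W, p.1 v = 1 := by
  have h1 := p.2.2.1
  rw [Finsupp.sum_of_support_subset _ h _ (fun _ _ => rfl)] at h1
  exact h1

theorem continuous_simplexMap {V : Type} (K : AbstractSimplicialComplex V) (σ : Finset V) (hσ : σ ∈ K) :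
    Continuous (simplexMap K σ hσ) :=
  continuous_iff_coinduced_le.2 (le_iSup (fun σ : {σ : Finset V // σ ∈ K} =>
    TopologicalSpace.coinduced (simplexMap K σ.1 σ.2) inferInstance) ⟨σ, hσ⟩)

end ConAux

theorem pCon : SCon := by
  classical
  intro V K T _ W G hW hG
  let ι := {σ : {σ : Finset V // σ ∈ K} // σ.1 ⊆ W}
  have hfin : Finite ι := by
    apply Finite.of_injective (fun σ : ι => (⟨σ.1.1, by
      rw [Finset.mem_powerset]; exact σ.2⟩ : {τ // τ ∈ W.powerset}))
    intro σ τ h
    simp only [Subtype.mk.injEq] at h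
    exact Subtype.ext (Subtype.ext h)
  let A : ι → Set T := fun σ => {t | (G t).1.support ⊆ σ.1.1}
  have hAc : ∀ σ, IsClosed (A σ) := by
    intro σ
    have : A σ = ⋂ v ∈ {v | v ∉ σ.1.1}, {t | (G t).1 v = 0} := by
      ext t
      simp only [A, Set.mem_setOf_eq, Set.mem_iInter]
      constructor
      · intro h v hv
        by_contra hne
        exact hv (h (Finsupp.mem_support_iff.2 hne))
      · intro h v hv
        by_contra h'
        exact Finsupp.mem_support_iff.1 hv (h v h')
    rw [this]
    apply isClosed_biInter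
    intro v _
    exact isClosed_eq (hG v) continuous_const
  have hcov : ⋃ σ, A σ = Set.univ := by
    rw [Set.eq_univ_iff_forall]
    intro t
    rw [Set.mem_iUnion]
    exact ⟨⟨⟨(G t).1.support, (G t).2.2.2⟩, hW t⟩, fun v hv => hv⟩
  refine (locallyFinite_of_finite A).continuous hcov hAc ?_
  intro σ
  rw [continuousOn_iff_continuous_restrict]
  let f : A σ → stdSimplex ℝ (σ.1.1 : Finset V) := fun t =>
    ⟨fun v => (G t.1).1 v.1, fun v => (G t.1).2.1 _, by
      rw [Finset.sum_coe_sort σ.1.1 (fun v => (G t.1).1 v)]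
      exact ConAux.sum_sub (G t.1) t.2⟩
  have hf : Continuous f := by
    apply Continuous.subtype_mk
    apply continuous_pi
    intro v
    exact (hG v.1).comp continuous_subtype_val
  have : (A σ).domRestrict G = simplexMap K σ.1.1 σ.1.2 ∘ f := by
    funext t
    apply Subtype.ext
    apply Finsupp.ext
    intro v
    by_cases hv : v ∈ σ.1.1
    · exact (ext0_mem (f t).1 hv).symm
    · refine Eq.trans ?_ (ext0_notMem (f t).1 hv).symm
      by_contra hne
      exact hv (t.2 (Finsupp.mem_support_iff.2 hne))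
  rw [this]
  exact (ConAux.continuous_simplexMap K σ.1.1 σ.1.2).comp hf

end Pool.Agent.MPaafd8a
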