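import Pool.Agent.Lib.MP_aafd8a_gt.Spec

/-!
# MP_aafd8a_gt: compact sets lie in finite subcomplexes
-/

set_option autoImplicit false

open Topology

namespace Pool.Agent.MPaafd8a

namespace CptAux

theorem simplexMap_injective {V : Type} (K : AbstractSimplicialComplex V) (σ : Finset V) (hσ : σ ∈ K) :
    Function.Injective (simplexMap K σ hσ) := by
  intro g g' hg
  apply Subtype.ext
  funext v
  have h1 : (simplexMap K σ hσ g).1 v = g.1 v := ext0_mem g.1 v.2
  have h2 : (simplexMap K σ hσ g').1 v = g'.1 v := ext0_mem g'.1 v.2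
  rw [← h1, ← h2, hg]

theorem isClosed_of_finite {V : Type} (K : AbstractSimplicialComplex V) (s : Set (Geo K))
    (h : ∀ (σ : Finset V) (hσ : σ ∈ K), (s ∩ Set.range (simplexMap K σ hσ)).Finite) : IsClosed s := by
  rw [isClosed_iSup_iff]
  intro σ
  rw [isClosed_coinduced]
  apply Set.Finite.isClosed
  have : simplexMap K σ.1 σ.2 ⁻¹' s =
      simplexMap K σ.1 σ.2 ⁻¹' (s ∩ Set.range (simplexMap K σ.1 σ.2)) := by
    ext g
    simp
  rw [this]
  exact (h σ.1 σ.2).preimage (simplexMap_injective K σ.1 σ.2).injOn

end CptAux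

theorem pCpt : SCpt := by
  classical
  intro V K C hC
  let A : Set V := {v | ∃ p ∈ C, v ∈ p.1.support}
  have hA : ∀ v : A, ∃ p ∈ C, v.1 ∈ p.1.support := fun v => v.2
  choose x hxC hx using hA
  have hfin' : ∀ (s : Set (Geo K)), s ⊆ Set.range x → IsClosed s := by
    intro s hs
    apply CptAux.isClosed_of_finite
    intro σ hσ
    apply Set.Finite.subset (s := x '' {v : A | v.1 ∈ σ})
    · apply Set.Finite.image
      apply Set.Finite.preimage (s := (σ : Set V)) (f := Subtype.val)
        Subtype.val_injective.injOn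
      exact Finset.finite_toSet _
    · rintro p ⟨hp, q, hpq⟩
      obtain ⟨v, rfl⟩ := hs hp
      refine ⟨v, ?_, rfl⟩
      have h1 : v.1 ∈ (x v).1.support := hx v
      rw [← hpq] at h1
      exact ext0_support q.1 h1
  have hdisc : IsDiscrete (Set.range x) := by
    rw [isDiscrete_iff_forall_exists_isOpen]
    intro p hp
    refine ⟨(Set.range x \ {p})ᶜ, (hfin' _ Set.diff_subset).isOpen_compl, ?_⟩
    ext q
    simp only [Set.mem_inter_iff, Set.mem_compl_iff, Set.mem_diff, Set.mem_singleton_iff]
    constructor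
    · rintro ⟨h1, h2⟩
      by_contra h3
      exact h1 ⟨h2, h3⟩
    · rintro rfl
      exact ⟨fun h => h.2 rfl, hp⟩
  have hcomp : IsCompact (Set.range x) :=
    hC.of_isClosed_subset (hfin' _ subset_rfl) (by rintro _ ⟨v, rfl⟩; exact hxC v)
  have hrange : (Set.range x).Finite := hcomp.finite hdisc
  have hAfin : (Set.univ : Set A).Finite := by
    apply Set.Finite.of_finite_fibers (f := x)
    · rw [Set.image_univ]; exact hrange
    · intro p _
      apply Set.Finite.subset (s := {v : A | v.1 ∈ p.1.support})
      · apply Set.Finite.preimage (s := (p.1.support : Set V)) (f := Subtype.val)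
          Subtype.val_injective.injOn
        exact Finset.finite_toSet _
      · rintro v ⟨_, hv⟩
        simp only [Set.mem_preimage, Set.mem_singleton_iff] at hv
        rw [← hv]
        exact hx v
  have : Finite A := Set.finite_univ_iff.1 hAfin
  have hAf : A.Finite := Set.toFinite A
  exact ⟨hAf.toFinset, fun p hp v hv => by rw [Set.Finite.mem_toFinset]; exact ⟨p, hp, hv⟩⟩

end Pool.Agent.MPaafd8a
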