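import Pool.Agent.Lib.MP_aafd8a_gt.Spec

/-!
# MP_aafd8a_gt: coordinates are continuous
-/

set_option autoImplicit false

open Topology

namespace Pool.Agent.MPaafd8a

theorem pCrd : SCrd := by
  intro V K v
  rw [continuous_iSup_dom]
  intro σ
  rw [continuous_coinduced_dom]
  by_cases hv : v ∈ σ.1
  · have : (fun p : Geo K => p.1 v) ∘ simplexMap K σ.1 σ.2 = fun q => q.1 ⟨v, hv⟩ := by
      funext q
      exact ext0_mem q.1 hv
    rw [this]
    exact (continuous_apply _).comp continuous_subtype_val
  · have : (fun p : Geo K => p.1 v) ∘ simplexMap K σ.1 σ.2 = fun q => 0 := by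
      funext q
      exact ext0_notMem q.1 hv
    rw [this]
    exact continuous_const

end Pool.Agent.MPaafd8a
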