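import Pool.Agent.Lib.MP_aafd8a_gt.Spec2

/-!
# MP_aafd8a_gt: truncation and witnesses
-/

set_option autoImplicit false

open Topology RealInnerProductSpace

namespace Pool.Agent.MPaafd8a

/-- Normalisation of a family of nonnegative functions. -/
private theorem Cut_norm {X A : Type} [TopologicalSpace X] [Fintype A] (h : A → X → ℝ)
    (hc : ∀ a, Continuous (h a)) (h0 : ∀ a x, 0 ≤ h a x) (hp : ∀ x, ∃ a, 0 < h a x) :
    ∃ p : A → X → ℝ, (∀ a, Continuous (p a)) ∧ (∀ a x, 0 ≤ p a x) ∧ (∀ x, ∑ a, p a x = 1) ∧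
      ∀ a x, 0 < p a x → 0 < h a x := by
  have hs : ∀ x, 0 < ∑ a, h a x := by
    intro x
    obtain ⟨a, ha⟩ := hp x
    exact Finset.sum_pos' (fun a _ => h0 a x) ⟨a, Finset.mem_univ a, ha⟩
  refine ⟨fun a x => h a x / ∑ b, h b x, fun a => ?_, fun a x => ?_, fun x => ?_, fun a x hx => ?_⟩
  · exact (hc a).div (continuous_finset_sum _ fun b _ => hc b) (fun x => (hs x).ne')
  · exact div_nonneg (h0 a x) (hs x).le
  · show ∑ a, h a x / ∑ b, h b x = 1
    rw [← Finset.sum_div]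
    exact div_self (hs x).ne'
  · by_contra hn
    have h1 : h a x = 0 := le_antisymm (not_lt.1 hn) (h0 a x)
    have h2 : (0 : ℝ) < h a x / ∑ b, h b x := hx
    rw [h1, zero_div] at h2
    exact lt_irrefl _ h2

private theorem Cut_mem {V : Type} {K : AbstractSimplicialComplex V} (p : Geo K) {v : V} (h : 0 < p.1 v) :
    v ∈ p.1.support := Finsupp.mem_support_iff.2 h.ne'

private theorem Cut_pos {V : Type} {K : AbstractSimplicialComplex V} (p : Geo K) {v : V} (h : v ∈ p.1.support) :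
    0 < p.1 v := lt_of_le_of_ne (p.2.1 v) (Ne.symm (Finsupp.mem_support_iff.1 h))

private theorem Cut_ex {V : Type} {K : AbstractSimplicialComplex V} (p : Geo K) : ∃ v, 0 < p.1 v := by
  obtain ⟨v, hv⟩ := support_nonempty_of_sum p.2.2.1
  exact ⟨v, Cut_pos p hv⟩

theorem pCut : SCrd → SCpt → SMk → SCut := by
  intro hCrd hCpt hMk n c K hK X _ _ P
  obtain ⟨T, hT⟩ := hCpt _ K _ (isCompact_range P.continuous)
  have hT' : ∀ x, (P x).1.support ⊆ T := fun x => hT _ (Set.mem_range_self x)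
  set θ : ℝ := 1 / ((T.card : ℝ) + 1) with hθ
  have hθpos : 0 < θ := by positivity
  have hsum : ∀ x, ∑ v ∈ T, (P x).1 v = 1 := by
    intro x
    have h1 := (P x).2.2.1
    rw [Finsupp.sum_of_support_subset _ (hT' x) _ (fun _ _ => rfl)] at h1
    exact h1
  have hbig : ∀ x, ∃ a : {v // v ∈ T}, θ < (P x).1 a.1 := by
    intro x
    by_contra hno
    have h1 : ∑ v ∈ T, (P x).1 v ≤ ∑ _v ∈ T, θ := by
      refine Finset.sum_le_sum fun v hv => ?_
      by_contra hlt
      exact hno ⟨⟨v, hv⟩, not_le.1 hlt⟩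
    rw [hsum, Finset.sum_const, nsmul_eq_mul, hθ, mul_one_div, le_div_iff₀ (by positivity)] at h1
    linarith
  -- the truncation
  have hcrd : ∀ v, Continuous fun x => (P x).1 v := fun v => (hCrd _ K v).comp P.continuous
  obtain ⟨p, pc, p0, p1, pp⟩ := Cut_norm (X := X) (A := {v // v ∈ T})
    (fun a x => max 0 ((P x).1 a.1 - θ))
    (fun a => continuous_const.max ((hcrd a.1).sub continuous_const))
    (fun a x => le_max_left _ _)
    (fun x => by
      obtain ⟨a, ha⟩ := hbig x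
      exact ⟨a, lt_max_of_lt_right (sub_pos.2 ha)⟩)
  have pp' : ∀ a x, 0 < p a x → θ < (P x).1 a.1 := by
    intro a x hx
    have h1 : 0 < max 0 ((P x).1 a.1 - θ) := pp a x hx
    rw [lt_max_iff] at h1
    rcases h1 with h1 | h1
    · exact absurd h1 (lt_irrefl _)
    · exact sub_pos.1 h1
  obtain ⟨f, hf⟩ := hMk _ K X {v // v ∈ T} p (fun a => a.1) pc p0 p1 (by
    intro x σ hσ hv
    refine face_of_subset K (P x).2.2.2 (fun v hv' => ?_) hσ
    obtain ⟨a, ha, rfl⟩ := hv v hv'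
    exact Cut_mem _ (hθpos.trans (pp' a x ha)))
  have hf' : ∀ x v, 0 < (f x).1 v → v ∈ T ∧ θ < (P x).1 v := by
    intro x v hv
    obtain ⟨a, ha, rfl⟩ := hf x v hv
    exact ⟨a.2, pp' a x ha⟩
  -- uniform continuity
  have huc : UniformContinuous (fun x => (fun v : {v // v ∈ T} => (P x).1 v.1)) :=
    CompactSpace.uniformContinuous_of_continuous (continuous_pi fun v => hcrd v.1)
  obtain ⟨η, hη, hη'⟩ := Metric.uniformContinuous_iff.1 huc θ hθpos
  -- the net
  obtain ⟨B, -, hBf, hB⟩ := (isCompact_univ (X := X)).finite_cover_balls hη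
  haveI : Fintype {b // b ∈ B} := hBf.fintype
  obtain ⟨β, bc, b0, b1, bp⟩ := Cut_norm (X := X) (A := {b // b ∈ B})
    (fun b x => max 0 (η - dist x b.1))
    (fun b => continuous_const.max (continuous_const.sub (continuous_id.dist continuous_const)))
    (fun a x => le_max_left _ _)
    (fun x => by
      have h1 := hB (Set.mem_univ x)
      simp only [Set.mem_iUnion, Metric.mem_ball, exists_prop] at h1
      obtain ⟨b, hb, hb'⟩ := h1
      exact ⟨⟨b, hb⟩, lt_max_of_lt_right (sub_pos.2 hb')⟩)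
  have bp' : ∀ b x, 0 < β b x → dist x b.1 < η := by
    intro a x hx
    have h1 : 0 < max 0 (η - dist x a.1) := bp a x hx
    rw [lt_max_iff] at h1
    rcases h1 with h1 | h1
    · exact absurd h1 (lt_irrefl _)
    · exact sub_pos.1 h1
  have hy : ∀ b : X, ∃ y : Sph n, ∀ v ∈ (P b).1.support, ⟪(v : Eu n), (y : Eu n)⟫ < c := by
    intro b
    exact ((hK _).1 (P b).2.2.2).2
  choose y hy using hy
  have key : ∀ x v (b : {b // b ∈ B}), 0 < (f x).1 v → 0 < β b x →
      ⟪(v : Eu n), (y b.1 : Eu n)⟫ < c := by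
    intro x v b hv hb
    obtain ⟨hvT, hvθ⟩ := hf' x v hv
    have h1 := hη' (bp' b x hb)
    rw [dist_pi_lt_iff hθpos] at h1
    have h2 := h1 ⟨v, hvT⟩
    rw [Real.dist_eq, abs_lt] at h2
    refine hy b.1 v (Cut_mem _ ?_)
    have h3 : (P x).1 v - (P b.1).1 v < θ := h2.2
    linarith
  obtain ⟨q, hq⟩ := hMk _ K X {b // b ∈ B} β (fun b => y b.1) bc b0 b1 (by
    intro x σ hσ hv
    obtain ⟨v, hv'⟩ := Cut_ex (f x)
    refine (hK σ).2 ⟨hσ, v, fun w hw => ?_⟩
    obtain ⟨b, hb, rfl⟩ := hv w hw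
    rw [real_inner_comm]
    exact key x v b hv' hb)
  refine ⟨f, q, fun x v hv => hθpos.trans (hf' x v hv).2, fun x v w hv hw => ?_⟩
  obtain ⟨b, hb, rfl⟩ := hq x w hw
  exact key x v b hv hb

end Pool.Agent.MPaafd8a
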