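import Pool.Agent.Lib.MP_aafd8a_gt.Spec2

/-!
# MP_aafd8a_gt: filling a pair
-/

set_option autoImplicit false

open Topology RealInnerProductSpace

namespace Pool.Agent.MPaafd8a

private theorem Fil_pos {V : Type} {K : AbstractSimplicialComplex V} (p : Geo K) {v : V} (h : v ∈ p.1.support) :
    0 < p.1 v := lt_of_le_of_ne (p.2.1 v) (Ne.symm (Finsupp.mem_support_iff.1 h))

private theorem Fil_ex {V : Type} {K : AbstractSimplicialComplex V} (p : Geo K) : ∃ v, 0 < p.1 v := by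
  obtain ⟨v, hv⟩ := support_nonempty_of_sum p.2.2.1
  exact ⟨v, Fil_pos p hv⟩

private theorem Fil_trans {n : ℕ} {c : ℝ} {K : AbstractSimplicialComplex (Sph n)} {X : Type} [TopologicalSpace X]
    {p q p' q' p'' q'' : C(X, Geo K)} (h : PH c p q p' q') (h' : PH c p' q' p'' q'') : PH c p q p'' q'' := by
  obtain ⟨F, G, hFG⟩ := h
  obtain ⟨F', G', hFG'⟩ := h'
  refine ⟨F.trans F', G.trans G', fun t x => ?_⟩
  rw [ContinuousMap.Homotopy.trans_apply, ContinuousMap.Homotopy.trans_apply]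
  by_cases ht : ((t, x) : unitInterval × X).1.1 ≤ 1 / 2
  · rw [dif_pos ht, dif_pos ht]
    exact hFG _ _
  · rw [dif_neg ht, dif_neg ht]
    exact hFG' _ _

private theorem Fil_left (hL : SLin) {n : ℕ} {c : ℝ} {K : AbstractSimplicialComplex (Sph n)}
    (hK : ∀ σ, σ ∈ K ↔ CapFace n c σ) {X : Type} [TopologicalSpace X] [CompactSpace X]
    (p p' q : C(X, Geo K)) (h : ∀ x, Comp c (p x) (q x)) (h' : ∀ x, Comp c (p' x) (q x)) : PH c p q p' q := by
  obtain ⟨H, hH⟩ := hL _ K X p p' (by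
    intro x σ hσ hv
    obtain ⟨w, hw⟩ := Fil_ex (q x)
    refine (hK σ).2 ⟨hσ, w, fun v hv' => ?_⟩
    rcases hv v hv' with h1 | h1
    · exact h x v w h1 hw
    · exact h' x v w h1 hw)
  refine ⟨H, ContinuousMap.Homotopy.refl q, fun t x v w hv hw => ?_⟩
  have hw' : 0 < (q x).1 w := hw
  rcases hH t x v hv with h1 | h1
  · exact h x v w h1 hw'
  · exact h' x v w h1 hw'

private theorem Fil_comm {n : ℕ} {c : ℝ} {K : AbstractSimplicialComplex (Sph n)} {p q : Geo K}
    (h : Comp c p q) : Comp c q p := by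
  intro v w hv hw
  rw [real_inner_comm]
  exact h w v hw hv

private theorem Fil_right (hL : SLin) {n : ℕ} {c : ℝ} {K : AbstractSimplicialComplex (Sph n)}
    (hK : ∀ σ, σ ∈ K ↔ CapFace n c σ) {X : Type} [TopologicalSpace X] [CompactSpace X]
    (p q q' : C(X, Geo K)) (h : ∀ x, Comp c (p x) (q x)) (h' : ∀ x, Comp c (p x) (q' x)) : PH c p q p q' := by
  obtain ⟨F, G, hFG⟩ := Fil_left hL hK q q' p (fun x => Fil_comm (h x)) (fun x => Fil_comm (h' x))
  exact ⟨G, F, fun t x => Fil_comm (hFG t x)⟩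

theorem pFil : SLin → SCut → SFil := by
  intro hL hC n c K hK X _ _ p q a hpq hP
  obtain ⟨P⟩ := hP
  obtain ⟨f, g, hf, hfg⟩ := hC n c K hK (unitInterval × X) P.toContinuousMap
  let sl : C(unitInterval × X, Geo K) → unitInterval → C(X, Geo K) := fun h t =>
    ⟨fun x => h (t, x), h.continuous.comp (by fun_prop)⟩
  have hsl : ∀ h t x, sl h t x = h (t, x) := fun h t x => rfl
  have hf0 : ∀ x v, 0 < (sl f 0 x).1 v → 0 < (p x).1 v := by
    intro x v hv
    have h1 := hf (0, x) v hv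
    have h2 : P.toContinuousMap (0, x) = p x := P.map_zero_left x
    rwa [h2] at h1
  have hf1 : ∀ x v, 0 < (sl f 1 x).1 v → 0 < a.1 v := by
    intro x v hv
    have h1 := hf (1, x) v hv
    have h2 : P.toContinuousMap (1, x) = a := P.map_one_left x
    rwa [h2] at h1
  obtain ⟨y₀, hy₀⟩ := ((hK _).1 a.2.2.2).2
  have hab : Comp c a (vtx K y₀) := by
    intro v w hv hw
    have h1 : w = y₀ := by
      by_contra hne
      have h2 : (vtx K y₀).1 w = 0 := Finsupp.single_eq_of_ne hne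
      rw [h2] at hw
      exact lt_irrefl _ hw
    rw [h1]
    exact hy₀ v (Finsupp.mem_support_iff.2 hv.ne')
  refine ⟨vtx K y₀, ?_⟩
  -- step 1
  have s1 : PH c p q (sl f 0) q := Fil_left hL hK _ _ _ hpq
    (fun x v w hv hw => hpq x v w (hf0 x v hv) hw)
  -- step 2
  have s2 : PH c (sl f 0) q (sl f 0) (sl g 0) := Fil_right hL hK _ _ _
    (fun x v w hv hw => hpq x v w (hf0 x v hv) hw) (fun x => hfg (0, x))
  -- step 3
  have s3 : PH c (sl f 0) (sl g 0) (sl f 1) (sl g 1) :=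
    ⟨⟨f, fun x => rfl, fun x => rfl⟩, ⟨g, fun x => rfl, fun x => rfl⟩, fun t x => hfg (t, x)⟩
  -- step 4
  have s4 : PH c (sl f 1) (sl g 1) (sl f 1) (ContinuousMap.const X (vtx K y₀)) :=
    Fil_right hL hK _ _ _ (fun x => hfg (1, x)) (fun x v w hv hw => hab v w (hf1 x v hv) hw)
  -- step 5
  have s5 : PH c (sl f 1) (ContinuousMap.const X (vtx K y₀)) (ContinuousMap.const X a)
      (ContinuousMap.const X (vtx K y₀)) :=
    Fil_left hL hK _ _ _ (fun x v w hv hw => hab v w (hf1 x v hv) hw) (fun x => hab)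
  exact Fil_trans s1 (Fil_trans s2 (Fil_trans s3 (Fil_trans s4 s5)))

end Pool.Agent.MPaafd8a
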