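import Pool.Agent.Lib.MP_aafd8a_gt.Spec2

/-!
# MP_aafd8a_gt, second part: straight line homotopy with control of the supports
-/

set_option autoImplicit false

open Topology

namespace Pool.Agent.MPaafd8a

namespace LinAux

theorem sum_sub {V : Type} {K : AbstractSimplicialComplex V} (p : Geo K) {W : Finset V}
    (h : p.1.support ⊆ W) : ∑ v ∈ W, p.1 v = 1 := by
  have h1 := p.2.2.1
  rw [Finsupp.sum_of_support_subset _ h _ (fun _ _ => rfl)] at h1
  exact h1

/-- The point `(1 - s) p + s q`. -/
noncomputable def line {V : Type} {K : AbstractSimplicialComplex V} (p q : Geo K) (s : ℝ) (h0 : 0 ≤ s)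
    (h1 : s ≤ 1) (h : ∀ σ : Finset V, σ.Nonempty → (∀ v ∈ σ, 0 < p.1 v ∨ 0 < q.1 v) → σ ∈ K) : Geo K :=
  ⟨(1 - s) • p.1 + s • q.1, by
    classical
    have hval : ∀ v, ((1 - s) • p.1 + s • q.1 : V →₀ ℝ) v = (1 - s) * p.1 v + s * q.1 v := fun v => rfl
    have hsum : (((1 - s) • p.1 + s • q.1 : V →₀ ℝ).sum fun _ a => a) = 1 := by
      have hsub : ((1 - s) • p.1 + s • q.1 : V →₀ ℝ).support ⊆ p.1.support ∪ q.1.support := by
        intro v hv
        by_contra h'
        rw [Finset.mem_union, not_or, Finsupp.notMem_support_iff, Finsupp.notMem_support_iff] at h'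
        rw [Finsupp.mem_support_iff, hval, h'.1, h'.2] at hv
        simp at hv
      rw [Finsupp.sum_of_support_subset _ hsub _ (fun _ _ => rfl)]
      simp only [hval]
      rw [Finset.sum_add_distrib, ← Finset.mul_sum, ← Finset.mul_sum,
        sum_sub p Finset.subset_union_left, sum_sub q Finset.subset_union_right]
      ring
    refine ⟨fun v => ?_, hsum, ?_⟩
    · rw [hval]
      exact add_nonneg (mul_nonneg (by linarith) (p.2.1 v)) (mul_nonneg h0 (q.2.1 v))
    · apply h _ (support_nonempty_of_sum hsum)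
      intro v hv
      by_contra h'
      rw [not_or] at h'
      have hp : p.1 v = 0 := le_antisymm (not_lt.1 h'.1) (p.2.1 v)
      have hq : q.1 v = 0 := le_antisymm (not_lt.1 h'.2) (q.2.1 v)
      rw [Finsupp.mem_support_iff, hval, hp, hq] at hv
      simp at hv⟩

theorem line_apply {V : Type} {K : AbstractSimplicialComplex V} (p q : Geo K) (s : ℝ) (h0 : 0 ≤ s)
    (h1 : s ≤ 1) (h : ∀ σ : Finset V, σ.Nonempty → (∀ v ∈ σ, 0 < p.1 v ∨ 0 < q.1 v) → σ ∈ K) (v : V) :
    (line p q s h0 h1 h).1 v = (1 - s) * p.1 v + s * q.1 v := rfl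

end LinAux

theorem pLin (hCrd : SCrd) (hCon : SCon) (hCpt : SCpt) : SLin := by
  classical
  intro V K X _ _ F G h
  obtain ⟨W, hW⟩ := hCpt V K _ (isCompact_range F.continuous)
  obtain ⟨W', hW'⟩ := hCpt V K _ (isCompact_range G.continuous)
  refine ⟨⟨⟨fun x => LinAux.line (F x.2) (G x.2) x.1.1 x.1.2.1 x.1.2.2 (h x.2), ?_⟩, ?_, ?_⟩, ?_⟩
  · apply hCon V K _ (W ∪ W')
    · intro x v hv
      rw [Finsupp.mem_support_iff, LinAux.line_apply] at hv
      by_contra h'
      rw [Finset.mem_union, not_or] at h'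
      have hp : (F x.2).1 v = 0 := by
        by_contra hne
        exact h'.1 (hW _ ⟨x.2, rfl⟩ (Finsupp.mem_support_iff.2 hne))
      have hq : (G x.2).1 v = 0 := by
        by_contra hne
        exact h'.2 (hW' _ ⟨x.2, rfl⟩ (Finsupp.mem_support_iff.2 hne))
      rw [hp, hq] at hv
      simp at hv
    · intro v
      simp only [LinAux.line_apply]
      have h1 : Continuous (fun x : unitInterval × X => (F x.2).1 v) :=
        (hCrd V K v).comp (F.continuous.comp continuous_snd)
      have h2 : Continuous (fun x : unitInterval × X => (G x.2).1 v) :=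
        (hCrd V K v).comp (G.continuous.comp continuous_snd)
      have h3 : Continuous (fun x : unitInterval × X => (x.1.1 : ℝ)) :=
        continuous_subtype_val.comp continuous_fst
      exact ((continuous_const.sub h3).mul h1).add (h3.mul h2)
  · intro t
    apply Subtype.ext
    apply Finsupp.ext
    intro v
    change (1 - (0 : ℝ)) * (F t).1 v + 0 * (G t).1 v = (F t).1 v
    ring
  · intro t
    apply Subtype.ext
    apply Finsupp.ext
    intro v
    change (1 - (1 : ℝ)) * (F t).1 v + 1 * (G t).1 v = (G t).1 v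
    ring
  · intro t x v hv
    change 0 < (1 - t.1) * (F x).1 v + t.1 * (G x).1 v at hv
    by_contra h'
    rw [not_or] at h'
    have hp : (F x).1 v = 0 := le_antisymm (not_lt.1 h'.1) ((F x).2.1 v)
    have hq : (G x).1 v = 0 := le_antisymm (not_lt.1 h'.2) ((G x).2.1 v)
    rw [hp, hq] at hv
    simp at hv

end Pool.Agent.MPaafd8a
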