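import Pool.Agent.Lib.MP_aafd8a_gt.Spec

/-!
# MP_aafd8a_gt: maps given by weights
-/

set_option autoImplicit false

open Topology

namespace Pool.Agent.MPaafd8a

theorem pMk (hCon : SCon) : SMk := by
  classical
  intro V K X _ A _ p u hp h0 h1 hK
  -- the coordinates
  let c : X → V → ℝ := fun x v => ∑ a, if u a = v then p a x else 0
  have hc0 : ∀ x v, 0 ≤ c x v := by
    intro x v
    apply Finset.sum_nonneg
    intro a _
    split_ifs
    · exact h0 a x
    · exact le_rfl
  have hpos : ∀ x v, c x v ≠ 0 → ∃ a, 0 < p a x ∧ u a = v := by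
    intro x v hv
    by_contra h
    push Not at h
    apply hv
    apply Finset.sum_eq_zero
    intro a _
    by_cases ha : u a = v
    · rw [if_pos ha]
      by_contra hne
      exact h a (lt_of_le_of_ne (h0 a x) (Ne.symm hne)) ha
    · rw [if_neg ha]
  let T : Finset V := Finset.univ.image u
  have hT : ∀ x v, c x v ≠ 0 → v ∈ T := by
    intro x v hv
    obtain ⟨a, _, ha⟩ := hpos x v hv
    exact Finset.mem_image.2 ⟨a, Finset.mem_univ _, ha⟩
  let f : X → V →₀ ℝ := fun x => Finsupp.onFinset T (c x) (hT x)
  have hfv : ∀ x v, f x v = c x v := fun x v => rfl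
  have hsupp : ∀ x, (f x).support ⊆ T := fun x => Finsupp.support_onFinset_subset
  have hsum : ∀ x, ((f x).sum fun _ a => a) = 1 := by
    intro x
    rw [Finsupp.sum_of_support_subset _ (hsupp x) _ (fun _ _ => rfl)]
    simp only [hfv, c]
    rw [Finset.sum_comm, ← h1 x]
    apply Finset.sum_congr rfl
    intro a _
    rw [Finset.sum_ite_eq]
    rw [if_pos (Finset.mem_image.2 ⟨a, Finset.mem_univ _, rfl⟩)]
  have hface : ∀ x, (f x).support ∈ K := by
    intro x
    apply hK x _ (support_nonempty_of_sum (hsum x))
    intro v hv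
    rw [Finsupp.mem_support_iff, hfv] at hv
    exact hpos x v hv
  let F : X → Geo K := fun x => ⟨f x, fun v => hc0 x v, hsum x, hface x⟩
  have hF : Continuous F := by
    apply hCon V K X T F hsupp
    intro v
    change Continuous (fun x => ∑ a, if u a = v then p a x else 0)
    apply continuous_finset_sum
    intro a _
    by_cases ha : u a = v
    · simp only [if_pos ha]
      exact hp a
    · simp only [if_neg ha]
      exact continuous_const
  refine ⟨⟨F, hF⟩, ?_⟩
  intro x v hv
  exact hpos x v (ne_of_gt hv)

end Pool.Agent.MPaafd8a
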