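import Pool.Agent.Lib.MP_aafd8a_gt.Spec

set_option autoImplicit false

open Topology RealInnerProductSpace

namespace Pool.Agent.MPaafd8a

theorem pNet : SNet := by
  classical
  intro n η hη
  obtain ⟨t, -, hfin, hcov⟩ := finite_cover_balls_of_compact (isCompact_univ (X := Sph n)) hη
  have := hfin.fintype
  let g : t → Sph n → ℝ := fun b v => max 0 (η - dist (b : Sph n) v)
  have hg0 : ∀ b v, 0 ≤ g b v := fun b v => le_max_left _ _
  have hgc : ∀ b, Continuous (g b) := fun b =>
    continuous_const.max (continuous_const.sub (continuous_const.dist continuous_id))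
  have hs : ∀ v, 0 < ∑ b, g b v := by
    intro v
    obtain ⟨b, hb, hbv⟩ := Set.mem_iUnion₂.mp (hcov (Set.mem_univ v))
    apply Finset.sum_pos' (fun b _ => hg0 b v)
    refine ⟨⟨b, hb⟩, Finset.mem_univ _, ?_⟩
    apply lt_max_of_lt_right
    rw [Metric.mem_ball, dist_comm] at hbv
    linarith
  refine ⟨t, inferInstance, fun b => b, fun b v => g b v / ∑ b', g b' v, ?_, ?_, ?_, ?_⟩
  · intro b
    exact (hgc b).div (continuous_finsetSum _ fun b _ => hgc b) fun v => (hs v).ne'
  · intro b v
    exact div_nonneg (hg0 b v) (hs v).le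
  · intro v
    rw [← Finset.sum_div, div_self (hs v).ne']
  · intro b v h
    have h1 : 0 < g b v := by
      by_contra h0
      have h2 : g b v = 0 := le_antisymm (not_lt.mp h0) (hg0 b v)
      have h3 : 0 < g b v / ∑ b', g b' v := h
      rw [h2, zero_div] at h3
      exact lt_irrefl _ h3
    rcases lt_max_iff.mp h1 with h2 | h2
    · exact absurd h2 (lt_irrefl _)
    · linarith

end Pool.Agent.MPaafd8a
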