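import Pool.Agent.Lib.MP_aafd8a_gt.Spec2

/-!
# MP_aafd8a_gt, second part: spheres are contracted if the homotopy groups vanish
-/

set_option autoImplicit false

open Topology RealInnerProductSpace

namespace Pool.Agent.MPaafd8a

namespace NulAux

open scoped unitInterval

/-- First coordinate as a function of the norm. -/
noncomputable def aa (s : ℝ) : ℝ := max (-1) (min 1 (8 * s - 5))

/-- Factor of the other coordinates as a function of the norm. -/
noncomputable def bb (s : ℝ) : ℝ := min 1 (4 * (1 - s)) / max s (1 / 2)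

theorem aa_cont : Continuous aa := by
  unfold aa
  fun_prop

theorem bb_cont : Continuous bb := by
  unfold bb
  refine Continuous.div (by fun_prop) (by fun_prop) fun s => ?_
  have : (1 / 2 : ℝ) ≤ max s (1 / 2) := le_max_right _ _
  linarith

theorem aa_low {s : ℝ} (h : s ≤ 1 / 2) : aa s = -1 := by
  unfold aa
  rw [max_eq_left]
  exact (min_le_right _ _).trans (by linarith)

theorem aa_mid {s : ℝ} (h : 1 / 2 ≤ s) (h' : s ≤ 3 / 4) : aa s = 8 * s - 5 := by
  unfold aa
  rw [min_eq_right (by linarith), max_eq_right (by linarith)]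

theorem aa_high {s : ℝ} (h : 3 / 4 ≤ s) : aa s = 1 := by
  unfold aa
  rw [min_eq_left (by linarith), max_eq_right (by norm_num)]

theorem bb_low {s : ℝ} (h : s ≤ 1 / 2) : bb s = 2 := by
  unfold bb
  rw [min_eq_left (by linarith), max_eq_right h]
  norm_num

theorem bb_mid {s : ℝ} (h : 1 / 2 ≤ s) (h' : s ≤ 3 / 4) : bb s = 1 / s := by
  unfold bb
  rw [min_eq_left (by linarith), max_eq_left h]

theorem bb_high {s : ℝ} (h : 3 / 4 ≤ s) : bb s = 4 * (1 - s) / s := by
  unfold bb
  rw [min_eq_right (by linarith), max_eq_left (by linarith)]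

theorem bb_nonneg {s : ℝ} (h : s ≤ 1) : 0 ≤ bb s := by
  unfold bb
  refine div_nonneg (le_min zero_le_one (by linarith)) ?_
  exact le_trans (by norm_num) (le_max_right s (1 / 2))

theorem abs_aa (s : ℝ) : |aa s| ≤ 1 := by
  unfold aa
  rw [abs_le]
  exact ⟨le_max_left _ _, max_le (by norm_num) (min_le_left _ _)⟩

variable {d : ℕ}

/-- The cube `[-1, 1]^d`. -/
noncomputable def yy (z : Fin d → I) : Fin d → ℝ := fun j => 2 * (z j : ℝ) - 1

theorem yy_cont : Continuous (yy (d := d)) := by
  unfold yy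
  fun_prop

theorem yy_le (z : Fin d → I) : ‖yy z‖ ≤ 1 := by
  refine (pi_norm_le_iff_of_nonneg zero_le_one).2 fun j => ?_
  have h1 := (z j).2.1
  have h2 := (z j).2.2
  change |2 * (z j : ℝ) - 1| ≤ 1
  rw [abs_le]
  constructor <;> linarith

theorem yy_inj {z z' : Fin d → I} (h : yy z = yy z') : z = z' := by
  funext j
  have h1 : 2 * (z j : ℝ) - 1 = 2 * (z' j : ℝ) - 1 := congrFun h j
  exact Subtype.ext (by linarith)

/-- The point of the cube with given coordinates. -/
theorem yy_surj (y : Fin d → ℝ) (h : ‖y‖ ≤ 1) : ∃ z : Fin d → I, yy z = y := by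
  have h1 : ∀ j, |y j| ≤ 1 := fun j => (norm_le_pi_norm y j).trans h
  refine ⟨fun j => ⟨(y j + 1) / 2, ?_, ?_⟩, ?_⟩
  · have := (abs_le.1 (h1 j)).1
    linarith
  · have := (abs_le.1 (h1 j)).2
    linarith
  · funext j
    change 2 * ((y j + 1) / 2) - 1 = y j
    ring

theorem yy_bdry {z : Fin d → I} : z ∈ Cube.boundary (Fin d) ↔ ‖yy z‖ = 1 := by
  constructor
  · rintro ⟨j, hj⟩
    refine le_antisymm (yy_le z) ?_
    have h1 : |yy z j| = 1 := by
      change |2 * ((z j : I) : ℝ) - 1| = 1
      rcases hj with h | h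
      · rw [h]
        norm_num
      · rw [h]
        norm_num
    rw [← h1]
    exact norm_le_pi_norm (yy z) j
  · intro h
    by_contra hc
    have h1 : ∀ j, |yy z j| < 1 := by
      intro j
      refine lt_of_le_of_ne ((norm_le_pi_norm (yy z) j).trans (yy_le z)) ?_
      intro he
      apply hc
      refine ⟨j, ?_⟩
      rcases (abs_eq (zero_le_one' ℝ)).1 he with h2 | h2
      · right
        apply Subtype.ext
        change 2 * ((z j : I) : ℝ) - 1 = 1 at h2
        change ((z j : I) : ℝ) = 1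
        linarith
      · left
        apply Subtype.ext
        change 2 * ((z j : I) : ℝ) - 1 = -1 at h2
        change ((z j : I) : ℝ) = 0
        linarith
    have h3 : ‖yy z‖ < 1 := (pi_norm_lt_iff zero_lt_one).2 fun j => h1 j
    linarith

/-- The map of the cube onto the sphere, as a vector. -/
noncomputable def tv (z : Fin d → I) : Fin (d + 1) → ℝ :=
  Fin.cons (aa ‖yy z‖) (fun j => bb ‖yy z‖ * yy z j)

theorem tv_zero (z : Fin d → I) : tv z 0 = aa ‖yy z‖ := rfl

theorem tv_succ (z : Fin d → I) (j : Fin d) : tv z j.succ = bb ‖yy z‖ * yy z j := rfl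

theorem tv_cont : Continuous (tv (d := d)) := by
  refine continuous_pi fun j => ?_
  refine Fin.cases ?_ (fun j => ?_) j
  · simp only [tv_zero]
    exact aa_cont.comp (continuous_norm.comp yy_cont)
  · simp only [tv_succ]
    exact (bb_cont.comp (continuous_norm.comp yy_cont)).mul ((continuous_apply j).comp yy_cont)

theorem cons_norm_le {a : ℝ} {v : Fin d → ℝ} {C : ℝ} (hC : 0 ≤ C) (h0 : |a| ≤ C) (h1 : ‖v‖ ≤ C) :
    ‖(Fin.cons a v : Fin (d + 1) → ℝ)‖ ≤ C := by
  refine (pi_norm_le_iff_of_nonneg hC).2 fun j => ?_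
  refine Fin.cases ?_ (fun j => ?_) j
  · rw [Fin.cons_zero]
    exact h0
  · rw [Fin.cons_succ]
    exact (norm_le_pi_norm v j).trans h1

theorem le_cons_norm (a : ℝ) (v : Fin d → ℝ) : |a| ≤ ‖(Fin.cons a v : Fin (d + 1) → ℝ)‖ :=
  norm_le_pi_norm (Fin.cons a v : Fin (d + 1) → ℝ) 0

theorem le_cons_norm' (a : ℝ) (v : Fin d → ℝ) : ‖v‖ ≤ ‖(Fin.cons a v : Fin (d + 1) → ℝ)‖ := by
  refine (pi_norm_le_iff_of_nonneg (norm_nonneg _)).2 fun j => ?_
  exact norm_le_pi_norm (Fin.cons a v : Fin (d + 1) → ℝ) j.succ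

theorem tv_eq (z : Fin d → I) : tv z = Fin.cons (aa ‖yy z‖) (bb ‖yy z‖ • yy z) := rfl

theorem bb_mul_norm (z : Fin d → I) : ‖bb ‖yy z‖ • yy z‖ = bb ‖yy z‖ * ‖yy z‖ := by
  rw [norm_smul, Real.norm_eq_abs, abs_of_nonneg (bb_nonneg (yy_le z))]

theorem bb_mul_le (s : ℝ) : bb s * s ≤ 1 := by
  rcases le_total s (1 / 2) with h | h
  · rw [bb_low h]
    linarith
  · rcases le_total s (3 / 4) with h' | h'
    · rw [bb_mid h h', one_div, inv_mul_cancel₀ (by linarith)]
    · rw [bb_high h', div_mul_cancel₀ _ (by linarith)]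
      linarith

theorem tv_norm (z : Fin d → I) : ‖tv z‖ = 1 := by
  rw [tv_eq]
  refine le_antisymm (cons_norm_le zero_le_one (abs_aa _) ?_) ?_
  · rw [bb_mul_norm]
    exact bb_mul_le _
  · rcases le_total ‖yy z‖ (1 / 2) with h | h
    · have h1 := le_cons_norm (aa ‖yy z‖) (bb ‖yy z‖ • yy z)
      rw [aa_low h, abs_neg, abs_one] at h1
      rw [aa_low h]
      exact h1
    · rcases le_total ‖yy z‖ (3 / 4) with h' | h'
      · have h1 := le_cons_norm' (aa ‖yy z‖) (bb ‖yy z‖ • yy z)
        rw [bb_mul_norm, bb_mid h h', one_div, inv_mul_cancel₀ (by linarith)] at h1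
        rw [bb_mid h h', one_div]
        exact h1
      · have h1 := le_cons_norm (aa ‖yy z‖) (bb ‖yy z‖ • yy z)
        rw [aa_high h', abs_one] at h1
        rw [aa_high h']
        exact h1

/-- The map of the cube onto the sphere. -/
noncomputable def th (z : Fin d → I) : CSph (d + 1) := ⟨tv z, by rw [mem_sphere_zero_iff_norm]; exact tv_norm z⟩

theorem th_cont : Continuous (th (d := d)) := tv_cont.subtype_mk _

/-- The image of the boundary. -/
noncomputable def nn (d : ℕ) : CSph (d + 1) := ⟨Fin.cons 1 (fun _ => 0), by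
  rw [mem_sphere_zero_iff_norm]
  refine le_antisymm (cons_norm_le zero_le_one (by rw [abs_one]) ?_) ?_
  · have : ((fun _ => 0) : Fin d → ℝ) = 0 := rfl
    rw [this, norm_zero]
    exact zero_le_one
  · have h1 := le_cons_norm (1 : ℝ) (fun _ : Fin d => (0 : ℝ))
    rw [abs_one] at h1
    exact h1⟩

theorem th_bdry {z : Fin d → I} (h : ‖yy z‖ = 1) : th z = nn d := by
  apply Subtype.ext
  change tv z = Fin.cons 1 (fun _ => 0)
  funext j
  refine Fin.cases ?_ (fun j => ?_) j
  · rw [tv_zero, h, Fin.cons_zero]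
    exact aa_high (by norm_num)
  · rw [tv_succ, h, Fin.cons_succ, bb_high (by norm_num)]
    norm_num

theorem th_surj (hd : 0 < d) : Function.Surjective (th (d := d)) := by
  intro u
  obtain ⟨v, hv⟩ : ∃ v : Fin d → ℝ, v = fun j => u.1 j.succ := ⟨_, rfl⟩
  have hu : ‖u.1‖ = 1 := mem_sphere_zero_iff_norm.1 u.2
  have huc : u.1 = Fin.cons (u.1 0) v := by
    funext j
    refine Fin.cases ?_ (fun j => ?_) j
    · rfl
    · rw [Fin.cons_succ, hv]
  have h0 : |u.1 0| ≤ 1 := (norm_le_pi_norm u.1 0).trans hu.le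
  have h1 : ‖v‖ ≤ 1 := by
    refine (pi_norm_le_iff_of_nonneg zero_le_one).2 fun j => ?_
    rw [hv]
    exact (norm_le_pi_norm u.1 j.succ).trans hu.le
  have hb := abs_le.1 h0
  suffices h : ∃ y : Fin d → ℝ, ‖y‖ ≤ 1 ∧ aa ‖y‖ = u.1 0 ∧ bb ‖y‖ • y = v by
    obtain ⟨y, hy, h2, h3⟩ := h
    obtain ⟨z, hz⟩ := yy_surj y hy
    refine ⟨z, Subtype.ext ?_⟩
    change tv z = u.1
    rw [tv_eq, hz, h2, h3, ← huc]
  by_cases hm : u.1 0 = -1
  · have hn : ‖(1 / 2 : ℝ) • v‖ = ‖v‖ / 2 := by
      rw [norm_smul, Real.norm_eq_abs, abs_of_pos (by norm_num)]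
      ring
    refine ⟨(1 / 2 : ℝ) • v, ?_, ?_, ?_⟩
    · rw [hn]
      linarith
    · rw [hn, hm, aa_low (by linarith)]
    · rw [hn, bb_low (by linarith), smul_smul]
      norm_num
  by_cases hv1 : ‖v‖ = 1
  · obtain ⟨s, hs⟩ : ∃ s : ℝ, s = (u.1 0 + 5) / 8 := ⟨_, rfl⟩
    have hs0 : 1 / 2 ≤ s := by linarith
    have hs1 : s ≤ 3 / 4 := by linarith
    have hn : ‖s • v‖ = s := by
      rw [norm_smul, Real.norm_eq_abs, abs_of_pos (by linarith), hv1, mul_one]
    refine ⟨s • v, ?_, ?_, ?_⟩
    · rw [hn]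
      linarith
    · rw [hn, aa_mid hs0 hs1, hs]
      ring
    · rw [hn, bb_mid hs0 hs1, smul_smul, one_div, inv_mul_cancel₀ (by linarith), one_smul]
  · have hv2 : ‖v‖ < 1 := lt_of_le_of_ne h1 hv1
    have hu1 : u.1 0 = 1 := by
      have h2 : |u.1 0| = 1 := by
        by_contra hc
        have h3 : |u.1 0| < 1 := lt_of_le_of_ne h0 hc
        have h4 : ‖u.1‖ ≤ max |u.1 0| ‖v‖ := by
          conv_lhs => rw [huc]
          exact cons_norm_le (le_max_of_le_left (abs_nonneg _)) (le_max_left _ _) (le_max_right _ _)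
        have h5 : max |u.1 0| ‖v‖ < 1 := max_lt h3 hv2
        linarith
      rcases (abs_eq (zero_le_one' ℝ)).1 h2 with h3 | h3
      · exact h3
      · exact absurd h3 hm
    by_cases hv0 : v = 0
    · have : Nonempty (Fin d) := ⟨⟨0, hd⟩⟩
      have hn : ‖(fun _ => 1 : Fin d → ℝ)‖ = 1 := by rw [pi_norm_const, norm_one]
      refine ⟨fun _ => 1, hn.le, ?_, ?_⟩
      · rw [hn, hu1]
        exact aa_high (by norm_num)
      · rw [hn, bb_high (by norm_num), hv0]
        norm_num
    · have hvp : 0 < ‖v‖ := norm_pos_iff.2 hv0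
      obtain ⟨s, hs⟩ : ∃ s : ℝ, s = 1 - ‖v‖ / 4 := ⟨_, rfl⟩
      have hs0 : 3 / 4 ≤ s := by linarith
      have hn : ‖(s / ‖v‖) • v‖ = s := by
        rw [norm_smul, Real.norm_eq_abs, abs_of_pos (div_pos (by linarith) hvp), div_mul_cancel₀ _ hvp.ne']
      refine ⟨(s / ‖v‖) • v, ?_, ?_, ?_⟩
      · rw [hn]
        linarith
      · rw [hn, aa_high hs0, hu1]
      · rw [hn, bb_high hs0, smul_smul]
        have h2 : 4 * (1 - s) = ‖v‖ := by rw [hs]; ring
        rw [h2, div_mul_div_cancel₀ (by linarith), div_self hvp.ne', one_smul]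

theorem th_inj {z z' : Fin d → I} (h : th z = th z') : z = z' ∨ (‖yy z‖ = 1 ∧ ‖yy z'‖ = 1) := by
  have h0 : tv z = tv z' := congrArg Subtype.val h
  have ha : aa ‖yy z‖ = aa ‖yy z'‖ := congrFun h0 0
  have hb : bb ‖yy z‖ • yy z = bb ‖yy z'‖ • yy z' := by
    funext j
    exact congrFun h0 j.succ
  have hc : bb ‖yy z‖ * ‖yy z‖ = bb ‖yy z'‖ * ‖yy z'‖ := by
    rw [← bb_mul_norm, ← bb_mul_norm, hb]
  have hs : ‖yy z‖ = ‖yy z'‖ := by
    rcases le_total ‖yy z‖ (1 / 2) with h1 | h1
    · rw [aa_low h1] at ha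
      have h2 : ‖yy z'‖ ≤ 1 / 2 := by
        by_contra h3
        push Not at h3
        rcases le_total ‖yy z'‖ (3 / 4) with h4 | h4
        · rw [aa_mid h3.le h4] at ha
          linarith
        · rw [aa_high h4] at ha
          norm_num at ha
      rw [bb_low h1, bb_low h2] at hc
      linarith
    · rcases le_total ‖yy z‖ (3 / 4) with h1' | h1'
      · rw [aa_mid h1 h1'] at ha
        rcases le_total ‖yy z'‖ (1 / 2) with h2 | h2
        · rw [aa_low h2] at ha
          have h3 : ‖yy z‖ = 1 / 2 := by linarith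
          rw [h3, bb_low le_rfl, bb_low h2] at hc
          linarith
        · rcases le_total ‖yy z'‖ (3 / 4) with h2' | h2'
          · rw [aa_mid h2 h2'] at ha
            linarith
          · rw [aa_high h2'] at ha
            have h3 : ‖yy z‖ = 3 / 4 := by linarith
            rw [h3, bb_high le_rfl, bb_high h2', div_mul_cancel₀ _ (by linarith), div_mul_cancel₀ _ (by linarith)] at hc
            linarith
      · rw [aa_high h1'] at ha
        have h2 : 3 / 4 ≤ ‖yy z'‖ := by
          by_contra h3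
          push Not at h3
          rcases le_total ‖yy z'‖ (1 / 2) with h4 | h4
          · rw [aa_low h4] at ha
            norm_num at ha
          · rw [aa_mid h4 h3.le] at ha
            linarith
        rw [bb_high h1', bb_high h2, div_mul_cancel₀ _ (by linarith), div_mul_cancel₀ _ (by linarith)] at hc
        linarith
  by_cases h1 : ‖yy z‖ = 1
  · exact Or.inr ⟨h1, by rw [← hs]; exact h1⟩
  · left
    have h2 : ‖yy z‖ < 1 := lt_of_le_of_ne (yy_le z) h1
    have h3 : bb ‖yy z‖ ≠ 0 := by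
      rcases le_total ‖yy z‖ (1 / 2) with h4 | h4
      · rw [bb_low h4]
        norm_num
      · rcases le_total ‖yy z‖ (3 / 4) with h5 | h5
        · rw [bb_mid h4 h5]
          exact one_div_ne_zero (by linarith)
        · rw [bb_high h5]
          exact div_ne_zero (by linarith) (by linarith)
    rw [← hs] at hb
    exact yy_inj (smul_right_injective _ h3 hb)

end NulAux

open scoped unitInterval in
open NulAux in
theorem pNul : SNul := by
  classical
  intro X _ d hX F
  rcases Nat.eq_zero_or_pos d with hd | hd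
  · subst hd
    obtain ⟨ep, hep⟩ : ∃ e : CSph (0 + 1), e.1 0 = 1 :=
      ⟨⟨fun _ => 1, by rw [mem_sphere_zero_iff_norm, pi_norm_const, norm_one]⟩, rfl⟩
    obtain ⟨em, hem⟩ : ∃ e : CSph (0 + 1), e.1 0 = -1 :=
      ⟨⟨fun _ => -1, by rw [mem_sphere_zero_iff_norm, pi_norm_const, norm_neg, norm_one]⟩, rfl⟩
    have hz : ∀ j : Fin (0 + 1), j = 0 := fun j => Fin.ext (by omega)
    have habs : ∀ u : CSph (0 + 1), |u.1 0| = 1 := by
      intro u
      have h1 : ‖u.1‖ = 1 := mem_sphere_zero_iff_norm.1 u.2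
      have h2 : u.1 = fun _ => u.1 0 := by
        funext j
        rw [hz j]
      rw [h2, pi_norm_const, Real.norm_eq_abs] at h1
      exact h1
    have huniq : ∀ u v : CSph (0 + 1), u.1 0 = v.1 0 → u = v := by
      intro u v h
      apply Subtype.ext
      funext j
      rw [hz j]
      exact h
    have hb : ∀ (x y : X), ∀ z ∈ Cube.boundary (Fin 0), (ContinuousMap.const (Fin 0 → I) y) z = x := by
      rintro x y z ⟨j, _⟩
      exact j.elim0
    have hpath : ∃ γ : C(I, X), γ 0 = F em ∧ γ 1 = F ep := by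
      have h1 := hX (F ep)
      have h2 : (Quotient.mk (GenLoop.Homotopic.setoid (Fin 0) (F ep)) ⟨ContinuousMap.const _ (F em), hb _ _⟩ :
          HomotopyGroup (Fin 0) X (F ep)) =
          Quotient.mk (GenLoop.Homotopic.setoid (Fin 0) (F ep)) ⟨ContinuousMap.const _ (F ep), hb _ _⟩ :=
        h1.elim _ _
      obtain ⟨H⟩ : GenLoop.Homotopic _ _ := Quotient.exact h2
      refine ⟨⟨fun t => H (t, fun j => j.elim0), ?_⟩, ?_, ?_⟩
      · exact H.continuous.comp (continuous_id.prodMk continuous_const)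
      · exact H.apply_zero _
      · exact H.apply_one _
    obtain ⟨γ, hγ0, hγ1⟩ := hpath
    refine ⟨F ep, ⟨⟨⟨fun p => if p.2.1 0 ≤ 0 then γ p.1 else F ep, ?_⟩, ?_, ?_⟩⟩⟩
    · refine Continuous.if_le (γ.continuous.comp continuous_fst) continuous_const
        ((continuous_apply 0).comp (continuous_subtype_val.comp continuous_snd)) continuous_const ?_
      intro p hp
      exfalso
      have h1 := habs p.2
      rw [hp, abs_zero] at h1
      exact zero_ne_one h1
    · intro u
      change (if u.1 0 ≤ 0 then γ 0 else F ep) = F u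
      split_ifs with h
      · rw [hγ0]
        congr 1
        apply huniq
        rw [hem]
        rcases (abs_eq (zero_le_one' ℝ)).1 (habs u) with h1 | h1
        · linarith
        · exact h1.symm
      · congr 1
        apply huniq
        rw [hep]
        rcases (abs_eq (zero_le_one' ℝ)).1 (habs u) with h1 | h1
        · exact h1.symm
        · exfalso
          apply h
          linarith
    · intro u
      change (if u.1 0 ≤ 0 then γ 1 else F ep) = F ep
      split_ifs with h
      · exact hγ1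
      · rfl
  · -- the loop
    have hf : ∀ z ∈ Cube.boundary (Fin d), (F.comp ⟨th, th_cont⟩) z = F (nn d) := by
      intro z hz
      change F (th z) = F (nn d)
      rw [th_bdry (yy_bdry.1 hz)]
    have h1 := hX (F (nn d))
    have h2 : (Quotient.mk (GenLoop.Homotopic.setoid (Fin d) (F (nn d))) ⟨F.comp ⟨th, th_cont⟩, hf⟩ :
        HomotopyGroup (Fin d) X (F (nn d))) =
        Quotient.mk (GenLoop.Homotopic.setoid (Fin d) (F (nn d))) GenLoop.const := h1.elim _ _
    obtain ⟨H⟩ : GenLoop.Homotopic _ _ := Quotient.exact h2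
    have hHb : ∀ (t : I) (z : Fin d → I), ‖yy z‖ = 1 → H (t, z) = F (nn d) := by
      intro t z hz
      have h3 := H.eq_fst t (yy_bdry.2 hz)
      have h4 : (F.comp ⟨th, th_cont⟩) z = F (nn d) := hf z (yy_bdry.2 hz)
      exact h3.trans h4
    -- a section
    choose sec hsec using th_surj hd
    have hsecH : ∀ (t : I) (z : Fin d → I), H (t, sec (th z)) = H (t, z) := by
      intro t z
      rcases th_inj (hsec (th z)) with h | ⟨h, h'⟩
      · rw [h]
      · rw [hHb t _ h, hHb t _ h']
    have hq : IsQuotientMap (Prod.map id th : I × (Fin d → I) → I × CSph (d + 1)) := by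
      have hc : Continuous (Prod.map id th : I × (Fin d → I) → I × CSph (d + 1)) := continuous_id.prodMap th_cont
      exact hc.isClosedMap.isQuotientMap hc (Function.surjective_id.prodMap (th_surj hd))
    refine ⟨F (nn d), ⟨⟨⟨fun p => H (p.1, sec p.2), ?_⟩, ?_, ?_⟩⟩⟩
    · rw [hq.continuous_iff]
      have h3 : ((fun p : I × CSph (d + 1) => H (p.1, sec p.2)) ∘ (Prod.map id th : I × (Fin d → I) → I × CSph (d + 1))) =
          fun p => H p := by
        funext p
        exact hsecH p.1 p.2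
      rw [h3]
      exact H.continuous
    · intro u
      change H (0, sec u) = F u
      have h3 : H (0, sec u) = F (th (sec u)) := H.apply_zero _
      rw [h3, hsec]
    · intro u
      exact H.apply_one _

end Pool.Agent.MPaafd8a
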