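import Pool.Agent.Lib.MP_aafd8a_gt.Spec3

/-!
# MP_aafd8a_gt: change of the complex
-/

set_option autoImplicit false

open Topology RealInnerProductSpace

namespace Pool.Agent.MPaafd8a

theorem pSub : SCrd → SCon → SCpt → SSub := by
  intro hCrd hCon hCpt V K K' X _ _ h hK'
  obtain ⟨T, hT⟩ := hCpt V K (Set.range h) (isCompact_range h.continuous)
  let h' : X → Geo K' := fun x => ⟨(h x).1, (h x).2.1, (h x).2.2.1, hK' x⟩
  have hc : Continuous h' := by
    apply hCon V K' X T h'
    · intro x
      exact hT (h x) ⟨x, rfl⟩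
    · intro v
      exact (hCrd V K v).comp h.continuous
  exact ⟨⟨h', hc⟩, fun x => rfl⟩

end Pool.Agent.MPaafd8a
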