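import Pool.Agent.Lib.MP_aafd8a_gt.Spec2

/-!
# MP_aafd8a_gt, second part: covering numbers are monotone
-/

set_option autoImplicit false

open Topology RealInnerProductSpace

namespace Pool.Agent.MPaafd8a

private theorem CMon_norm {n : ℕ} (x : Sph n) : ‖(x : Eu n)‖ = 1 := mem_sphere_zero_iff_norm.1 x.2

private theorem CMon_cos {n : ℕ} (x y : Sph n) : Real.cos (gd x y) = ⟪(x : Eu n), (y : Eu n)⟫ := by
  unfold gd
  rw [InnerProductGeometry.cos_angle, CMon_norm, CMon_norm, mul_one, div_one]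

private theorem CMon_mem {n : ℕ} (x y : Sph n) : gd x y ∈ Set.Icc 0 Real.pi :=
  ⟨InnerProductGeometry.angle_nonneg _ _, InnerProductGeometry.angle_le_pi _ _⟩

/-- There is a finite cover. -/
private theorem CMon_fin (n : ℕ) {ρ : ℝ} (h0 : 0 < ρ) (h1 : ρ < Real.pi / 2) :
    ∃ s : Finset (Sph n), ∀ y : Sph n, ∃ x ∈ s, gd x y ≤ ρ := by
  have hρ : ρ ∈ Set.Icc 0 Real.pi := ⟨h0.le, by linarith [Real.pi_pos]⟩
  have hK : CompactSpace (Sph n) := isCompact_iff_compactSpace.1 (isCompact_sphere _ _)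
  obtain ⟨s, hs⟩ := isCompact_univ.elim_finite_subcover
    (fun x : Sph n => {y : Sph n | Real.cos ρ < ⟪(x : Eu n), (y : Eu n)⟫})
    (fun x => isOpen_lt continuous_const (continuous_const.inner continuous_subtype_val))
    (by
      intro y _
      rw [Set.mem_iUnion]
      refine ⟨y, ?_⟩
      rw [Set.mem_ofPred_eq, ← CMon_cos, gd_self]
      exact Real.strictAntiOn_cos ⟨le_rfl, Real.pi_pos.le⟩ hρ h0)
  refine ⟨s, fun y => ?_⟩
  have h2 := hs (Set.mem_univ y)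
  rw [Set.mem_iUnion₂] at h2
  obtain ⟨x, hx, h3⟩ := h2
  refine ⟨x, hx, ?_⟩
  rw [Set.mem_ofPred_eq, ← CMon_cos] at h3
  exact ((Real.strictAntiOn_cos.lt_iff_gt hρ (CMon_mem x y)).1 h3).le

theorem pCMon : SCMon := by
  intro n ρ ρ' h0 h
  have hne : {k | ∃ s : Finset (Sph n), s.card = k ∧ ∀ y : Sph n, ∃ x ∈ s, gd x y ≤ ρ}.Nonempty := by
    obtain ⟨s, hs⟩ := CMon_fin n (ρ := min ρ 1) (lt_min h0 one_pos)
      (lt_of_le_of_lt (min_le_right _ _) (by linarith [Real.pi_gt_three]))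
    refine ⟨s.card, s, rfl, fun y => ?_⟩
    obtain ⟨x, hx, hxy⟩ := hs y
    exact ⟨x, hx, hxy.trans (min_le_left _ _)⟩
  obtain ⟨s, hs, hcov⟩ := Nat.sInf_mem hne
  have h2 : covNum n ρ' ≤ s.card := by
    refine Nat.sInf_le ⟨s, rfl, fun y => ?_⟩
    obtain ⟨x, hx, hxy⟩ := hcov y
    exact ⟨x, hx, hxy.trans h⟩
  rw [hs] at h2
  exact h2

end Pool.Agent.MPaafd8a
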