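import Pool.Agent.Lib.MP_aafd8a_gt.Spec2

/-!
# Colours (helper50)
-/

set_option autoImplicit false

open Topology RealInnerProductSpace

namespace Pool.Agent.MPaafd8a

private theorem Col_norm {n : ℕ} (x : Sph n) : ‖(x : Eu n)‖ = 1 := mem_sphere_zero_iff_norm.1 x.2

private theorem Col_cos {n : ℕ} (x y : Sph n) : Real.cos (gd x y) = ⟪(x : Eu n), (y : Eu n)⟫ := by
  unfold gd
  rw [InnerProductGeometry.cos_angle, Col_norm, Col_norm, mul_one, div_one]

private theorem Col_mem {n : ℕ} (x y : Sph n) : gd x y ∈ Set.Icc 0 Real.pi :=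
  ⟨InnerProductGeometry.angle_nonneg _ _, InnerProductGeometry.angle_le_pi _ _⟩

/-- There is a finite cover. -/
private theorem Col_fin (n : ℕ) {ρ : ℝ} (h0 : 0 < ρ) (h1 : ρ < Real.pi / 2) :
    ∃ s : Finset (Sph n), ∀ y : Sph n, ∃ x ∈ s, gd x y ≤ ρ := by
  have hρ : ρ ∈ Set.Icc 0 Real.pi := ⟨h0.le, by linarith [Real.pi_pos]⟩
  have hK : CompactSpace (Sph n) := isCompact_iff_compactSpace.1 (isCompact_sphere _ _)
  obtain ⟨s, hs⟩ := isCompact_univ.elim_finite_subcover
    (fun x : Sph n => {y : Sph n | Real.cos ρ < ⟪(x : Eu n), (y : Eu n)⟫})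
    (fun x => isOpen_lt continuous_const (continuous_const.inner continuous_subtype_val))
    (by
      intro y _
      rw [Set.mem_iUnion]
      refine ⟨y, ?_⟩
      rw [Set.mem_ofPred_eq, ← Col_cos, gd_self]
      exact Real.strictAntiOn_cos ⟨le_rfl, Real.pi_pos.le⟩ hρ h0)
  refine ⟨s, fun y => ?_⟩
  have h2 := hs (Set.mem_univ y)
  rw [Set.mem_iUnion₂] at h2
  obtain ⟨x, hx, h3⟩ := h2
  refine ⟨x, hx, ?_⟩
  rw [Set.mem_ofPred_eq, ← Col_cos] at h3
  exact ((Real.strictAntiOn_cos.lt_iff_gt hρ (Col_mem x y)).1 h3).le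

/-- The colouring. -/
private theorem Col_col (n : ℕ) (r : ℝ) (h0 : 0 < r) (h1 : r < Real.pi) :
    ∃ (m : ℕ) (col : Sph n → Fin (m + 1)), covNum n ((Real.pi - r) / 2) = m + 1 ∧
      ∀ v w, col v = col w → -Real.cos r ≤ ⟪(v : Eu n), (w : Eu n)⟫ := by
  obtain ⟨s0, hs0⟩ := Col_fin n (ρ := (Real.pi - r) / 2) (by linarith) (by linarith)
  obtain ⟨s, hsc, hs⟩ : covNum n ((Real.pi - r) / 2) ∈
      {k | ∃ s : Finset (Sph n), s.card = k ∧ ∀ y : Sph n, ∃ x ∈ s, gd x y ≤ (Real.pi - r) / 2} :=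
    Nat.sInf_mem ⟨s0.card, s0, rfl, hs0⟩
  have hne : s.Nonempty := by
    have h2 : (Metric.sphere (0 : Eu n) 1).Nonempty := NormedSpace.sphere_nonempty.2 zero_le_one
    obtain ⟨y, hy⟩ := h2
    obtain ⟨x, hx, -⟩ := hs ⟨y, hy⟩
    exact ⟨x, hx⟩
  obtain ⟨m, hm⟩ : ∃ m, s.card = m + 1 := ⟨s.card - 1, by
    have := Finset.card_pos.2 hne
    omega⟩
  choose c hc1 hc2 using hs
  refine ⟨m, fun v => (finCongr hm) (s.equivFin ⟨c v, hc1 v⟩), hsc.symm.trans hm, ?_⟩
  intro v w hvw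
  have h2 := s.equivFin.injective ((finCongr hm).injective hvw)
  have h3 : c v = c w := congrArg Subtype.val h2
  have h4 : gd v w ≤ Real.pi - r := by
    have h5 := InnerProductGeometry.angle_le_angle_add_angle (v : Eu n) (c v : Eu n) (w : Eu n)
    have h6 : gd (c v) v ≤ (Real.pi - r) / 2 := hc2 v
    have h7 : gd (c w) w ≤ (Real.pi - r) / 2 := hc2 w
    rw [← h3] at h7
    unfold gd at h6 h7 ⊢
    rw [InnerProductGeometry.angle_comm] at h6
    linarith
  rw [← Col_cos, ← Real.cos_pi_sub]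
  exact Real.cos_le_cos_of_nonneg_of_le_pi (Col_mem v w).1 (by linarith) h4

/-- Extension by zero. -/
private noncomputable def Col_ext {m D : ℕ} (y : Fin (m + 1) → ℝ) : Fin D → ℝ :=
  fun i => if h : (i : ℕ) < m + 1 then y ⟨i, h⟩ else 0

private theorem Col_ext_cont {m D : ℕ} : Continuous (Col_ext : (Fin (m + 1) → ℝ) → (Fin D → ℝ)) := by
  refine continuous_pi fun i => ?_
  unfold Col_ext
  by_cases h : (i : ℕ) < m + 1
  · simp only [h, dite_true]
    exact continuous_apply _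
  · simp only [h, dite_false]
    exact continuous_const

private theorem Col_ext_neg {m D : ℕ} (y : Fin (m + 1) → ℝ) :
    (Col_ext (-y) : Fin D → ℝ) = -Col_ext y := by
  funext i
  unfold Col_ext
  rw [Pi.neg_apply]
  split_ifs with h
  · rfl
  · rw [neg_zero]

private theorem Col_ext_ne {m D : ℕ} (hD : m + 1 ≤ D) {y : Fin (m + 1) → ℝ} (hy : y ≠ 0) :
    (Col_ext y : Fin D → ℝ) ≠ 0 := by
  intro h
  apply hy
  funext k
  have h2 := congrFun h ⟨k, lt_of_lt_of_le k.2 hD⟩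
  unfold Col_ext at h2
  rw [dif_pos k.2] at h2
  exact h2

/-- Normalisation. -/
private noncomputable def Col_nrm {m D : ℕ} (hD : m + 1 ≤ D) (y : Fin (m + 1) → ℝ) (hy : y ≠ 0) :
    CSph D :=
  ⟨‖(Col_ext y : Fin D → ℝ)‖⁻¹ • Col_ext y, by
    rw [mem_sphere_zero_iff_norm, norm_smul, norm_inv, norm_norm,
      inv_mul_cancel₀ (norm_ne_zero_iff.2 (Col_ext_ne hD hy))]⟩

private theorem Col_nrm_neg {m D : ℕ} (hD : m + 1 ≤ D) (y : Fin (m + 1) → ℝ) (hy : y ≠ 0)
    (hy' : -y ≠ 0) : Col_nrm hD (-y) hy' = -Col_nrm hD y hy := by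
  apply Subtype.ext
  unfold Col_nrm
  simp only [Col_ext_neg, norm_neg, smul_neg]
  rfl

open Classical in
theorem pCol : BU.SBU → SCrd → SCpt → SCol := by
  intro hBU hCrd hCpt n r h0 h1 K hK D P hP
  obtain ⟨m, col, hcov, hcol⟩ := Col_col n r h0 h1
  rw [hcov]
  by_contra hcon
  have hD : m + 1 ≤ D := not_lt.1 hcon
  have hK2 : CompactSpace (CSph D) := isCompact_iff_compactSpace.1 (isCompact_sphere _ _)
  obtain ⟨T, hT⟩ := hCpt (Sph n) K (Set.range P) (isCompact_range P.continuous)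
  have hT' : ∀ x, (P x).1.support ⊆ T := fun x => hT _ (Set.mem_range_self x)
  have hsum : ∀ x, ∑ v ∈ T, (P x).1 v = 1 := by
    intro x
    have h2 := (P x).2.2.1
    rw [Finsupp.sum_of_support_subset _ (hT' x) _ (fun _ _ => rfl)] at h2
    exact h2
  let ψ : Fin (m + 1) → CSph D → ℝ := fun j x =>
    ∑ v ∈ T with col v = j, ((P x).1 v - (P (-x)).1 v)
  have hψc : ∀ j, Continuous (ψ j) := by
    intro j
    refine continuous_finsetSum _ fun v _ => ?_
    exact ((hCrd _ K v).comp P.continuous).sub ((hCrd _ K v).comp (P.continuous.comp continuous_neg))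
  have hψo : ∀ j x, ψ j (-x) = -ψ j x := by
    intro j x
    simp only [ψ]
    rw [neg_neg, ← Finset.sum_neg_distrib]
    exact Finset.sum_congr rfl fun v _ => by ring
  have hψs : ∀ x, ∑ j, ψ j x = 0 := by
    intro x
    simp only [ψ]
    rw [Finset.sum_fiberwise, Finset.sum_sub_distrib, hsum, hsum, sub_self]
  have hψn : ∀ x, ∃ j, ψ j x ≠ 0 := by
    intro x
    obtain ⟨v, hv⟩ := support_nonempty_of_sum (P x).2.2.1
    have hv0 : 0 < (P x).1 v := lt_of_le_of_ne ((P x).2.1 v) (Ne.symm (Finsupp.mem_support_iff.1 hv))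
    refine ⟨col v, ne_of_gt ?_⟩
    have hz : ∀ w, col w = col v → (P (-x)).1 w = 0 := by
      intro w hw
      by_contra hne
      have hw0 : 0 < (P (-x)).1 w := lt_of_le_of_ne ((P (-x)).2.1 w) (Ne.symm hne)
      have h2 := hP x v w hv0 hw0
      have h3 := hcol v w hw.symm
      linarith
    have h4 : (P x).1 v ≤ ψ (col v) x := by
      have h5 : ψ (col v) x = ∑ w ∈ T with col w = col v, (P x).1 w := by
        refine Finset.sum_congr rfl fun w hw => ?_
        rw [hz w (Finset.mem_filter.1 hw).2, sub_zero]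
      rw [h5]
      exact Finset.single_le_sum (f := fun w => (P x).1 w) (fun w _ => (P x).2.1 w)
        (Finset.mem_filter.2 ⟨hT' x hv, rfl⟩)
    linarith
  let g : (Fin (m + 1) → ℝ) → (Fin m → ℝ) := fun y j =>
    if hy : y ≠ 0 then ψ j.castSucc (Col_nrm hD y hy) else 0
  have hgc : ContinuousOn g {0}ᶜ := by
    rw [continuousOn_iff_continuous_domRestrict]
    refine continuous_pi fun j => ?_
    have hsub : ∀ y : ↥({0}ᶜ : Set (Fin (m + 1) → ℝ)), y.1 ≠ 0 := fun y => y.2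
    have h2 : (fun y : ↥({0}ᶜ : Set (Fin (m + 1) → ℝ)) => g y.1 j) =
        fun y => ψ j.castSucc (Col_nrm hD y.1 (hsub y)) := funext fun y => dif_pos (hsub y)
    have h4 : Continuous (fun y : ↥({0}ᶜ : Set (Fin (m + 1) → ℝ)) => g y.1 j) := by
      rw [h2]
      refine (hψc _).comp ?_
      unfold Col_nrm
      refine Continuous.subtype_mk ?_ _
      have h3 : Continuous fun y : ↥({0}ᶜ : Set (Fin (m + 1) → ℝ)) => (Col_ext y.1 : Fin D → ℝ) :=
        Col_ext_cont.comp continuous_subtype_val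
      exact (h3.norm.inv₀ fun y => norm_ne_zero_iff.2 (Col_ext_ne hD (hsub y))).smul h3
    exact h4
  have hgo : ∀ y, g (-y) = -g y := by
    intro y
    funext j
    simp only [g, Pi.neg_apply]
    by_cases hy : y ≠ 0
    · have hy' : -y ≠ 0 := neg_ne_zero.2 hy
      rw [dif_pos hy, dif_pos hy', Col_nrm_neg hD y hy hy', hψo]
    · have hy' : ¬ (-y ≠ 0) := fun h => hy (neg_ne_zero.1 h)
      rw [dif_neg hy, dif_neg hy', neg_zero]
  obtain ⟨y, hy, hgy⟩ := hBU m g hgc hgo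
  obtain ⟨j, hj⟩ := hψn (Col_nrm hD y hy)
  have hz : ∀ i : Fin m, ψ i.castSucc (Col_nrm hD y hy) = 0 := by
    intro i
    have h2 := congrFun hgy i
    simp only [g] at h2
    rw [dif_pos hy] at h2
    exact h2
  have hl : ψ (Fin.last m) (Col_nrm hD y hy) = 0 := by
    have h2 := hψs (Col_nrm hD y hy)
    rw [Fin.sum_univ_castSucc, Finset.sum_eq_zero (fun i _ => hz i), zero_add] at h2
    exact h2
  apply hj
  rcases Fin.eq_castSucc_or_eq_last j with ⟨i, rfl⟩ | rfl
  · exact hz i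
  · exact hl

end Pool.Agent.MPaafd8a
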