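import Pool.Agent.Lib.MP_aafd8a_gt.Spec

/-!
# At least `n + 2` balls of radius less than `π / 2` are needed to cover the `n`-sphere
-/

set_option autoImplicit false

open Topology RealInnerProductSpace

namespace Pool.Agent.MPaafd8a

private theorem Cov_norm {n : ℕ} (x : Sph n) : ‖(x : Eu n)‖ = 1 := mem_sphere_zero_iff_norm.1 x.2

private theorem Cov_cos {n : ℕ} (x y : Sph n) : Real.cos (gd x y) = ⟪(x : Eu n), (y : Eu n)⟫ := by
  unfold gd
  rw [InnerProductGeometry.cos_angle, Cov_norm, Cov_norm, mul_one, div_one]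

private theorem Cov_mem {n : ℕ} (x y : Sph n) : gd x y ∈ Set.Icc 0 Real.pi :=
  ⟨InnerProductGeometry.angle_nonneg _ _, InnerProductGeometry.angle_le_pi _ _⟩

/-- There is a finite cover. -/
private theorem Cov_fin (n : ℕ) {ρ : ℝ} (h0 : 0 < ρ) (h1 : ρ < Real.pi / 2) :
    ∃ s : Finset (Sph n), ∀ y : Sph n, ∃ x ∈ s, gd x y ≤ ρ := by
  have hρ : ρ ∈ Set.Icc 0 Real.pi := ⟨h0.le, by linarith [Real.pi_pos]⟩
  have hK : CompactSpace (Sph n) := isCompact_iff_compactSpace.1 (isCompact_sphere _ _)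
  obtain ⟨s, hs⟩ := isCompact_univ.elim_finite_subcover
    (fun x : Sph n => {y : Sph n | Real.cos ρ < ⟪(x : Eu n), (y : Eu n)⟫})
    (fun x => isOpen_lt continuous_const (continuous_const.inner continuous_subtype_val))
    (by
      intro y _
      rw [Set.mem_iUnion]
      refine ⟨y, ?_⟩
      rw [Set.mem_setOf_eq, ← Cov_cos, gd_self]
      exact Real.strictAntiOn_cos ⟨le_rfl, Real.pi_pos.le⟩ hρ h0)
  refine ⟨s, fun y => ?_⟩
  have h2 := hs (Set.mem_univ y)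
  rw [Set.mem_iUnion₂] at h2
  obtain ⟨x, hx, h3⟩ := h2
  refine ⟨x, hx, ?_⟩
  rw [Set.mem_setOf_eq, ← Cov_cos] at h3
  exact ((Real.strictAntiOn_cos.lt_iff_gt hρ (Cov_mem x y)).1 h3).le

/-- A small set of points has a vector which has no positive product with them. -/
private theorem Cov_vec (n : ℕ) (s : Finset (Sph n)) (hs : s.Nonempty) (hc : s.card ≤ n + 1) :
    ∃ v : Eu n, v ≠ 0 ∧ ∀ x ∈ s, ⟪(x : Eu n), v⟫ ≤ 0 := by
  let T : Eu n →ₗ[ℝ] (s → ℝ) := LinearMap.pi fun x => (innerSL ℝ ((x : Sph n) : Eu n)).toLinearMap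
  have hT : ∀ v (x : s), T v x = ⟪((x : Sph n) : Eu n), v⟫ := fun v x => rfl
  by_cases hi : Function.Injective T
  · have h1 : Module.finrank ℝ (Eu n) = n + 1 := by simp
    have h2 : Module.finrank ℝ (s → ℝ) = s.card := by simp
    have h3 := LinearMap.finrank_le_finrank_of_injective hi
    have h4 : Module.finrank ℝ (Eu n) = Module.finrank ℝ (s → ℝ) := by omega
    have h5 : Function.Surjective T := (LinearMap.injective_iff_surjective_of_finrank_eq_finrank h4).1 hi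
    obtain ⟨v, hv⟩ := h5 (fun _ => -1)
    refine ⟨v, ?_, fun x hx => ?_⟩
    · rintro rfl
      obtain ⟨x, hx⟩ := hs
      have h6 := congrFun hv ⟨x, hx⟩
      rw [map_zero] at h6
      simp at h6
    · have h6 := congrFun hv ⟨x, hx⟩
      rw [hT] at h6
      rw [h6]
      norm_num
  · rw [← LinearMap.ker_eq_bot, ← ne_eq, Submodule.ne_bot_iff] at hi
    obtain ⟨v, hv, hv0⟩ := hi
    refine ⟨v, hv0, fun x hx => ?_⟩
    have h6 := congrFun (LinearMap.mem_ker.1 hv) ⟨x, hx⟩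
    rw [hT] at h6
    exact h6.le

theorem pCov : SCov := by
  intro n ρ h0 h1
  have hρ : ρ ∈ Set.Icc 0 Real.pi := ⟨h0.le, by linarith [Real.pi_pos]⟩
  obtain ⟨s0, hs0⟩ := Cov_fin n h0 h1
  obtain ⟨s, hsc, hs⟩ : covNum n ρ ∈ {k | ∃ s : Finset (Sph n), s.card = k ∧ ∀ y : Sph n, ∃ x ∈ s, gd x y ≤ ρ} :=
    Nat.sInf_mem ⟨s0.card, s0, rfl, hs0⟩
  by_contra hcon
  have hc : s.card ≤ n + 1 := by omega
  have hne : s.Nonempty := by
    have h2 : (Metric.sphere (0 : Eu n) 1).Nonempty := NormedSpace.sphere_nonempty.2 zero_le_one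
    obtain ⟨y, hy⟩ := h2
    obtain ⟨x, hx, -⟩ := hs ⟨y, hy⟩
    exact ⟨x, hx⟩
  obtain ⟨v, hv0, hv⟩ := Cov_vec n s hne hc
  have hn : ‖v‖ ≠ 0 := norm_ne_zero_iff.2 hv0
  let y : Sph n := ⟨‖v‖⁻¹ • v, by
    rw [mem_sphere_zero_iff_norm, norm_smul, norm_inv, norm_norm, inv_mul_cancel₀ hn]⟩
  obtain ⟨x, hx, h2⟩ := hs y
  have h3 : Real.cos (gd x y) ≤ 0 := by
    rw [Cov_cos]
    change ⟪(x : Eu n), ‖v‖⁻¹ • v⟫ ≤ 0
    rw [real_inner_smul_right]
    exact mul_nonpos_of_nonneg_of_nonpos (inv_nonneg.2 (norm_nonneg _)) (hv x hx)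
  have h4 : 0 < Real.cos (gd x y) := Real.cos_pos_of_mem_Ioo ⟨by linarith [(Cov_mem x y).1, Real.pi_pos], by linarith⟩
  linarith

end Pool.Agent.MPaafd8a
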