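import Pool.Agent.Lib.MP_aafd8a_gt.Spec

/-!
# MP_aafd8a_gt, module Cube: homotopy groups from the boundary of the cube
-/

set_option autoImplicit false

open Topology RealInnerProductSpace

namespace Pool.Agent.MPaafd8a

namespace CubeAux

open scoped unitInterval

/-- A point of the boundary of the cube. -/
private noncomputable def e0 (i : ℕ) : CSph (i + 1) :=
  ⟨fun _ => 1, by rw [mem_sphere_zero_iff_norm, pi_norm_const, norm_one]⟩

private noncomputable def nrm (i : ℕ) (v : Fin (i + 1) → ℝ) : CSph (i + 1) := by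
  classical
  exact if h : v = 0 then e0 i else
    ⟨‖v‖⁻¹ • v, by
      rw [mem_sphere_zero_iff_norm, norm_smul, norm_inv, norm_norm, inv_mul_cancel₀ (norm_ne_zero_iff.2 h)]⟩

private theorem nrm_val (i : ℕ) (v : Fin (i + 1) → ℝ) (h : v ≠ 0) : (nrm i v).1 = ‖v‖⁻¹ • v := by
  unfold nrm
  rw [dif_neg h]

private theorem nrm_one (i : ℕ) (v : Fin (i + 1) → ℝ) (h : ‖v‖ = 1) : (nrm i v).1 = v := by
  have hv : v ≠ 0 := by
    intro h0
    rw [h0, norm_zero] at h
    exact zero_ne_one h
  rw [nrm_val i v hv, h, inv_one, one_smul]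

private theorem nrm_cont (i : ℕ) : ContinuousOn (nrm i) {v : Fin (i + 1) → ℝ | (1 / 2 : ℝ) ≤ ‖v‖} := by
  rw [Topology.IsInducing.subtypeVal.continuousOn_iff]
  have h0 : ∀ v ∈ {v : Fin (i + 1) → ℝ | (1 / 2 : ℝ) ≤ ‖v‖}, v ≠ 0 := by
    intro v hv h
    rw [Set.mem_ofPred_eq, h, norm_zero] at hv
    norm_num at hv
  have h1 : ContinuousOn (fun v : Fin (i + 1) → ℝ => ‖v‖⁻¹ • v) {v : Fin (i + 1) → ℝ | (1 / 2 : ℝ) ≤ ‖v‖} := by
    refine ContinuousOn.smul (ContinuousOn.inv₀ continuous_norm.continuousOn ?_) continuousOn_id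
    intro v hv
    exact norm_ne_zero_iff.2 (h0 v hv)
  exact h1.congr fun v hv => nrm_val i v (h0 v hv)

/-- The last coordinates of a point. -/
private def tl {i : ℕ} (u : Fin (i + 1) → ℝ) : Fin i → ℝ := fun j => u j.succ

private theorem tl_cont {i : ℕ} : Continuous (tl (i := i)) := by
  unfold tl
  fun_prop

private noncomputable def pj {i : ℕ} (u : Fin (i + 1) → ℝ) : Fin i → I :=
  fun j => Set.projIcc (0 : ℝ) 1 zero_le_one ((u j.succ + 1) / 2)

private theorem pj_cont {i : ℕ} : Continuous (pj (i := i)) := by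
  unfold pj
  refine continuous_pi fun j => continuous_projIcc.comp ?_
  fun_prop

/-- If `u 0 = - ‖u'‖` then `pj u` is in the boundary. -/
private theorem pj_bdry {i : ℕ} (u : Fin (i + 1) → ℝ) (hu : ‖u‖ = 1) (h : |u 0| = ‖tl u‖) :
    pj u ∈ Cube.boundary (Fin i) := by
  have h1 : ∃ j : Fin i, |u j.succ| = 1 := by
    by_contra hc
    push Not at hc
    have h2 : ∀ j : Fin i, |u j.succ| < 1 := by
      intro j
      refine lt_of_le_of_ne ?_ (hc j)
      have := norm_le_pi_norm u j.succ
      rw [hu] at this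
      exact this
    have h3 : ‖tl u‖ < 1 := (pi_norm_lt_iff zero_lt_one).2 fun j => h2 j
    have h4 : ‖u‖ < 1 := by
      refine (pi_norm_lt_iff zero_lt_one).2 fun j => ?_
      refine Fin.cases ?_ (fun j => ?_) j
      · rw [Real.norm_eq_abs, h]; exact h3
      · exact h2 j
    linarith
  obtain ⟨j, hj⟩ := h1
  refine ⟨j, ?_⟩
  rcases (abs_eq (zero_le_one' ℝ)).1 hj with h2 | h2
  · right
    unfold pj
    rw [h2]
    norm_num
  · left
    unfold pj
    rw [h2]
    norm_num

variable {X : Type} [TopologicalSpace X] {i : ℕ} {x₀ : X}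

private noncomputable def FF (f : GenLoop (Fin i) X x₀) (u : CSph (i + 1)) : X := by
  classical
  exact if u.1 0 ≤ -‖tl u.1‖ then f (pj u.1) else x₀

private theorem FF_cont (f : GenLoop (Fin i) X x₀) : Continuous (FF f) := by
  classical
  unfold FF
  refine Continuous.if_le (f.1.continuous.comp (pj_cont.comp continuous_subtype_val)) continuous_const ?_ ?_ ?_
  · exact (continuous_apply 0).comp continuous_subtype_val
  · exact (continuous_norm.comp (tl_cont.comp continuous_subtype_val)).neg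
  · intro u hu
    apply f.2
    apply pj_bdry
    · exact mem_sphere_zero_iff_norm.1 u.2
    · rw [hu, abs_neg, abs_of_nonneg (norm_nonneg _)]

private noncomputable def EE (y : X) (H : I × CSph (i + 1) → X) (v : Fin (i + 1) → ℝ) : X := by
  classical
  exact if ‖v‖ ≤ 1 / 2 then y else H (Set.projIcc (0 : ℝ) 1 zero_le_one (2 - 2 * ‖v‖), nrm i v)

private theorem EE_cont (y : X) (H : I × CSph (i + 1) → X) (hH : Continuous H) (h1 : ∀ u, H (1, u) = y) :
    Continuous (EE y H) := by
  classical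
  unfold EE
  refine continuous_if_le continuous_norm continuous_const continuousOn_const ?_ ?_
  · refine hH.comp_continuousOn ?_
    refine ContinuousOn.prodMk ?_ (nrm_cont i)
    refine Continuous.continuousOn (continuous_projIcc.comp ?_)
    fun_prop
  · intro v hv
    have e1 : Set.projIcc (0 : ℝ) 1 zero_le_one (2 - 2 * ‖v‖) = 1 := by
      rw [hv]
      norm_num
    rw [e1, h1]

omit [TopologicalSpace X] in
private theorem EE_one (y : X) (H : I × CSph (i + 1) → X) (v : Fin (i + 1) → ℝ) (hv : ‖v‖ = 1) :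
    EE y H v = H (0, nrm i v) := by
  classical
  unfold EE
  have e1 : Set.projIcc (0 : ℝ) 1 zero_le_one (2 - 2 * ‖v‖) = 0 := by
    rw [hv]
    norm_num
  rw [e1, hv, if_neg (by norm_num)]

/-- The point of the cube with the parameters `t`, `z`. -/
private noncomputable def pt (p : I × (Fin i → I)) : Fin (i + 1) → ℝ :=
  Fin.cons (2 * (p.1 : ℝ) - 1) (fun j => 2 * (p.2 j : ℝ) - 1)

private theorem pt_cont : Continuous (pt (i := i)) := by
  unfold pt
  refine continuous_pi fun j => ?_
  refine Fin.cases ?_ (fun j => ?_) j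
  · simp only [Fin.cons_zero]
    fun_prop
  · simp only [Fin.cons_succ]
    fun_prop

private theorem pt_zero (p : I × (Fin i → I)) : pt p 0 = 2 * (p.1 : ℝ) - 1 := rfl

private theorem pt_succ (p : I × (Fin i → I)) (j : Fin i) : pt p j.succ = 2 * (p.2 j : ℝ) - 1 := rfl

private theorem abs_I (t : I) : |2 * (t : ℝ) - 1| ≤ 1 := by
  have h1 := t.2.1
  have h2 := t.2.2
  rw [abs_le]
  constructor <;> linarith

private theorem pt_le (p : I × (Fin i → I)) : ‖pt p‖ ≤ 1 := by
  refine (pi_norm_le_iff_of_nonneg zero_le_one).2 fun j => ?_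
  refine Fin.cases ?_ (fun j => ?_) j
  · exact abs_I _
  · exact abs_I _

private theorem pt_tl_le (p : I × (Fin i → I)) : ‖tl (pt p)‖ ≤ 1 :=
  (pi_norm_le_iff_of_nonneg zero_le_one).2 fun _ => abs_I _

private theorem pt_norm (p : I × (Fin i → I)) (j : Fin (i + 1)) (h : |pt p j| = 1) : ‖pt p‖ = 1 := by
  refine le_antisymm (pt_le p) ?_
  rw [← h]
  exact norm_le_pi_norm (pt p) j

private theorem pj_pt (p : I × (Fin i → I)) : pj (pt p) = p.2 := by
  funext j
  unfold pj
  rw [pt_succ]
  have e1 : (2 * ((p.2 j : I) : ℝ) - 1 + 1) / 2 = (p.2 j : ℝ) := by ring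
  rw [e1]
  exact Set.projIcc_val _ _

private theorem main (f : GenLoop (Fin i) X x₀) (y : X) (H : I × CSph (i + 1) → X) (hH : Continuous H)
    (h0 : ∀ u, H (0, u) = FF f u) (h1 : ∀ u, H (1, u) = y) : GenLoop.Homotopic f GenLoop.const := by
  classical
  have hval : ∀ p : I × (Fin i → I), ‖pt p‖ = 1 →
      EE y H (pt p) = if pt p 0 ≤ -‖tl (pt p)‖ then f p.2 else x₀ := by
    intro p hp
    rw [EE_one y H _ hp, h0]
    unfold FF
    rw [nrm_one i _ hp, pj_pt]
  refine ⟨⟨⟨⟨fun p => EE y H (pt p), (EE_cont y H hH h1).comp pt_cont⟩, ?_, ?_⟩, ?_⟩⟩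
  · intro z
    have e1 : pt ((0 : I), z) 0 = -1 := by
      rw [pt_zero]
      norm_num
    have e2 : ‖pt ((0 : I), z)‖ = 1 := pt_norm _ 0 (by rw [e1]; norm_num)
    have e3 := hval ((0 : I), z) e2
    rw [e1, if_pos (by have := pt_tl_le ((0 : I), z); linarith)] at e3
    exact e3
  · intro z
    have e1 : pt ((1 : I), z) 0 = 1 := by
      rw [pt_zero]
      norm_num
    have e2 : ‖pt ((1 : I), z)‖ = 1 := pt_norm _ 0 (by rw [e1]; norm_num)
    have e3 := hval ((1 : I), z) e2
    rw [e1, if_neg (by have := norm_nonneg (tl (pt ((1 : I), z))); linarith)] at e3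
    exact e3
  · intro t z hz
    obtain ⟨j, hj⟩ := hz
    have e1 : |pt (t, z) j.succ| = 1 := by
      rw [pt_succ]
      rcases hj with h | h
      · change |2 * ((z j : I) : ℝ) - 1| = 1
        rw [h]
        norm_num
      · change |2 * ((z j : I) : ℝ) - 1| = 1
        rw [h]
        norm_num
    have e2 : ‖pt (t, z)‖ = 1 := pt_norm _ _ e1
    have e3 := hval (t, z) e2
    have e4 : f z = x₀ := f.2 z ⟨j, hj⟩
    change EE y H (pt (t, z)) = f z
    rw [e3]
    split_ifs
    · rfl
    · exact e4.symm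

end CubeAux

theorem pCube : SCube := by
  intro X _ i hF x
  have key : ∀ f : GenLoop (Fin i) X x, GenLoop.Homotopic f GenLoop.const := by
    intro f
    obtain ⟨y, ⟨H⟩⟩ := hF ⟨CubeAux.FF f, CubeAux.FF_cont f⟩
    exact CubeAux.main f y (fun p => H p) H.continuous (fun u => H.apply_zero u) (fun u => H.apply_one u)
  constructor
  intro a b
  change HomotopyGroup (Fin i) X x at a b
  induction a using Quotient.inductionOn with
  | _ f =>
    induction b using Quotient.inductionOn with
    | _ g => exact Quotient.sound ((key f).trans (key g).symm)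

end Pool.Agent.MPaafd8a
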