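import Mathlib

/-!
# MP_aafd8a_gt: connectivity of Cech complexes of spheres. Definitions

* `Geo K`: the geometric realization of the abstract simplicial complex `K` with the weak topology (a set is open iff its
  preimage in every closed simplex is open). A point is its finitely supported function of barycentric coordinates.
* `Sph n`: the unit sphere of dimension `n`, `gd` its geodesic distance.
* `cech n r hr`: the Cech complex of the open balls of radius `r`.
* `covNum n ρ`: the least number of closed balls of radius `ρ` which cover `Sph n`.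
* `ConnAtLeast k Y`: `Y` is not empty and `π_i(Y, y)` is trivial for `i ≤ k` and every base point.
* `CSph D`: the boundary of the cube `[-1, 1]^D`.
* `cap n c`: the complex on `Sph n` with faces the nonempty finite `σ` for which some `y` has `⟪x, y⟫ < c` for all `x ∈ σ`.
-/

set_option autoImplicit false

open Topology RealInnerProductSpace

namespace Pool.Agent.MPaafd8a

section Realization

variable {V : Type}

/-- The points of the geometric realization of `K`. -/
def Geo (K : AbstractSimplicialComplex V) : Type :=
  {f : V →₀ ℝ // (∀ v, 0 ≤ f v) ∧ (f.sum fun _ a => a) = 1 ∧ f.support ∈ K}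

/-- The extension by zero of a function on a finite set. -/
noncomputable def ext0 {σ : Finset V} (p : σ → ℝ) : V →₀ ℝ := by
  classical
  exact Finsupp.onFinset σ (fun v => if h : v ∈ σ then p ⟨v, h⟩ else 0) (fun v hv => by
    by_contra h
    exact hv (dif_neg h))

theorem ext0_mem {σ : Finset V} (p : σ → ℝ) {v : V} (h : v ∈ σ) : ext0 p v = p ⟨v, h⟩ := by
  unfold ext0
  rw [Finsupp.onFinset_apply]
  exact dif_pos h

theorem ext0_notMem {σ : Finset V} (p : σ → ℝ) {v : V} (h : v ∉ σ) : ext0 p v = 0 := by
  unfold ext0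
  rw [Finsupp.onFinset_apply]
  exact dif_neg h

theorem ext0_support {σ : Finset V} (p : σ → ℝ) : (ext0 p).support ⊆ σ := by
  intro v hv
  by_contra h
  exact (Finsupp.mem_support_iff.1 hv) (ext0_notMem p h)

theorem ext0_sum {σ : Finset V} (p : σ → ℝ) : ((ext0 p).sum fun _ a => a) = ∑ v, p v := by
  rw [Finsupp.sum_of_support_subset _ (ext0_support p) _ (fun _ _ => rfl), ← Finset.sum_coe_sort σ]
  exact Finset.sum_congr rfl fun v _ => ext0_mem p v.2

/-- A nonempty subset of a face is a face. -/
theorem face_of_subset (K : AbstractSimplicialComplex V) {σ τ : Finset V} (hσ : σ ∈ K) (h : τ ⊆ σ) (hτ : τ.Nonempty) :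
    τ ∈ K := (K.isRelLowerSet_faces hσ).2 h hτ

theorem face_nonempty (K : AbstractSimplicialComplex V) {σ : Finset V} (hσ : σ ∈ K) : σ.Nonempty :=
  (K.isRelLowerSet_faces hσ).1

theorem support_nonempty_of_sum {f : V →₀ ℝ} (h : (f.sum fun _ a => a) = 1) : f.support.Nonempty := by
  by_contra h0
  rw [Finset.not_nonempty_iff_eq_empty, Finsupp.support_eq_empty] at h0
  rw [h0, Finsupp.sum_zero_index] at h
  exact zero_ne_one h

/-- The closed simplex of the face `σ` in the realization. -/
noncomputable def simplexMap (K : AbstractSimplicialComplex V) (σ : Finset V) (hσ : σ ∈ K) (p : stdSimplex ℝ σ) : Geo K :=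
  ⟨ext0 p.1, by
    refine ⟨fun v => ?_, ?_, ?_⟩
    · by_cases h : v ∈ σ
      · rw [ext0_mem _ h]
        exact p.2.1 _
      · rw [ext0_notMem _ h]
    · rw [ext0_sum]
      exact p.2.2
    · exact face_of_subset K hσ (ext0_support _) (support_nonempty_of_sum (by rw [ext0_sum]; exact p.2.2))⟩

/-- The weak topology: the finest topology for which all closed simplices are continuous. -/
noncomputable instance (K : AbstractSimplicialComplex V) : TopologicalSpace (Geo K) :=
  ⨆ σ : {σ : Finset V // σ ∈ K}, TopologicalSpace.coinduced (simplexMap K σ.1 σ.2) inferInstance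

/-- The vertex `v` as a point of the realization. -/
noncomputable def vtx (K : AbstractSimplicialComplex V) (v : V) : Geo K :=
  ⟨Finsupp.single v 1, by
    classical
    refine ⟨fun w => ?_, ?_, ?_⟩
    · rw [Finsupp.single_apply]
      split_ifs
      · exact zero_le_one
      · exact le_rfl
    · rw [Finsupp.sum_single_index rfl]
    · rw [Finsupp.support_single v (one_ne_zero (α := ℝ))]
      exact K.singleton_mem v⟩

end Realization

/-- `Y` is nonempty and its homotopy groups in degrees `≤ k` are trivial at every base point: `conn Y ≥ k`. -/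
def ConnAtLeast (k : ℤ) (Y : Type) [TopologicalSpace Y] : Prop :=
  Nonempty Y ∧ ∀ i : ℕ, (i : ℤ) ≤ k → ∀ y : Y, Subsingleton (HomotopyGroup.Pi i Y y)

/-- The ambient Euclidean space. -/
abbrev Eu (n : ℕ) : Type := EuclideanSpace ℝ (Fin (n + 1))

/-- The unit sphere of dimension `n`. -/
abbrev Sph (n : ℕ) : Type := Metric.sphere (0 : Eu n) 1

/-- The geodesic distance of the sphere. -/
noncomputable def gd {n : ℕ} (x y : Sph n) : ℝ := InnerProductGeometry.angle (x : Eu n) (y : Eu n)

theorem gd_self {n : ℕ} (x : Sph n) : gd x x = 0 := by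
  unfold gd
  apply InnerProductGeometry.angle_self
  intro h
  have h1 := x.2
  rw [h, mem_sphere_zero_iff_norm, norm_zero] at h1
  exact zero_ne_one h1

/-- The Cech complex of the open balls of radius `r > 0` in the sphere: the nerve of the family of all these balls. -/
def cech (n : ℕ) (r : ℝ) (hr : 0 < r) : AbstractSimplicialComplex (Sph n) where
  faces := {σ | σ.Nonempty ∧ ∃ y : Sph n, ∀ x ∈ σ, gd x y < r}
  isRelLowerSet_faces := by
    intro σ hσ
    refine ⟨hσ.1, fun τ hτ hne => ⟨hne, ?_⟩⟩
    obtain ⟨y, hy⟩ := hσ.2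
    exact ⟨y, fun x hx => hy x (hτ hx)⟩
  singleton_mem := by
    intro v
    refine ⟨Finset.singleton_nonempty v, v, fun x hx => ?_⟩
    rw [Finset.mem_singleton] at hx
    rw [hx, gd_self]
    exact hr

/-- The least number of closed balls of radius `ρ` which cover the sphere. -/
noncomputable def covNum (n : ℕ) (ρ : ℝ) : ℕ :=
  sInf {k | ∃ s : Finset (Sph n), s.card = k ∧ ∀ y : Sph n, ∃ x ∈ s, gd x y ≤ ρ}

/-- The boundary of the cube `[-1, 1]^D`. -/
abbrev CSph (D : ℕ) : Type := Metric.sphere (0 : Fin D → ℝ) 1

/-- The condition for the faces of the Cech complex in terms of inner products. -/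
def CapFace (n : ℕ) (c : ℝ) (σ : Finset (Sph n)) : Prop :=
  σ.Nonempty ∧ ∃ y : Sph n, ∀ x ∈ σ, ⟪(x : Eu n), (y : Eu n)⟫ < c

/-- The indices at which `f` is positive. -/
noncomputable def sp {A : Type} [Fintype A] (f : A → ℝ) : Finset A := by
  classical
  exact Finset.univ.filter (fun a => 0 < f a)

/-- The indices at which `f` is at least `θ`. -/
noncomputable def up {A : Type} [Fintype A] (θ : ℝ) (f : A → ℝ) : Finset A := by
  classical
  exact Finset.univ.filter (fun a => θ ≤ f a)

theorem mem_sp {A : Type} [Fintype A] {f : A → ℝ} {a : A} : a ∈ sp f ↔ 0 < f a := by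
  classical
  unfold sp
  rw [Finset.mem_filter]
  exact ⟨fun h => h.2, fun h => ⟨Finset.mem_univ a, h⟩⟩

theorem mem_up {A : Type} [Fintype A] {θ : ℝ} {f : A → ℝ} {a : A} : a ∈ up θ f ↔ θ ≤ f a := by
  classical
  unfold up
  rw [Finset.mem_filter]
  exact ⟨fun h => h.2, fun h => ⟨Finset.mem_univ a, h⟩⟩

/-- `η` is a margin for sets of at most `m` points: every finite set near at most `m` points is a face. -/
def Margin (n : ℕ) (c : ℝ) (m : ℕ) (η : ℝ) : Prop :=
  ∀ P : Finset (Sph n), P.Nonempty → P.card ≤ m → ∀ σ : Finset (Sph n), σ.Nonempty →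
    (∀ x ∈ σ, ∃ p ∈ P, dist x p < η) → CapFace n c σ

end Pool.Agent.MPaafd8a
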