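import Pool.Agent.Lib.MP_aafd8a_gt.Spec2

/-!
# MP_aafd8a_gt, third part (exact connectivity for `π / 2 < r ≤ arccos (-1 / (n + 1))`): definitions

* `capK n c hc`: the complex of all nonempty finite subsets of `Sph n` which have a witness (`CapFace n c`), `c > -1`.
* `bar p`, `mo p`: first moment (a vector) and second moment (a symmetric operator) of a finitely supported weight `p`.
* `ex p f`: the mean of the function `f` for the weight `p`.
* `W0 n`: the space of pairs `(a, S)`, `a` a vector, `S` a symmetric operator of trace `0`. Its dimension is `dm n = n (n + 5) / 2 + 1`.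
* `qd w`: the quadratic function `⟪a, z⟫ + ⟪S z, z⟫` of `w = (a, S)`.
* `Pw p`: `p` is a probability weight (nonnegative, sum one).
* `Cpt2 c p q`: all inner products of points of the supports of `p` and `q` are `< c`.
-/

set_option autoImplicit false

open Topology RealInnerProductSpace

namespace Pool.Agent.MPaafd8a

theorem capFace_of_subset {n : ℕ} {c : ℝ} {σ τ : Finset (Sph n)} (h : CapFace n c σ) (hs : τ ⊆ σ) (hn : τ.Nonempty) :
    CapFace n c τ := by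
  obtain ⟨-, y, hy⟩ := h
  exact ⟨hn, y, fun x hx => hy x (hs hx)⟩

theorem capFace_mono {n : ℕ} {c c' : ℝ} {σ : Finset (Sph n)} (h : CapFace n c σ) (hc : c ≤ c') : CapFace n c' σ := by
  obtain ⟨hn, y, hy⟩ := h
  exact ⟨hn, y, fun x hx => (hy x hx).trans_le hc⟩

/-- The complex of the finite sets with a witness. -/
def capK (n : ℕ) (c : ℝ) (hc : -1 < c) : AbstractSimplicialComplex (Sph n) where
  faces := {σ | CapFace n c σ}
  isRelLowerSet_faces := by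
    intro σ hσ
    exact ⟨hσ.1, fun τ hτ hne => capFace_of_subset hσ hτ hne⟩
  singleton_mem := by
    intro v
    refine ⟨Finset.singleton_nonempty v, -v, fun x hx => ?_⟩
    rw [Finset.mem_singleton] at hx
    subst hx
    have h1 : ‖(x : Eu n)‖ = 1 := mem_sphere_zero_iff_norm.1 x.2
    have h2 : ⟪(x : Eu n), ((-x : Sph n) : Eu n)⟫ = -1 := by
      change ⟪(x : Eu n), -(x : Eu n)⟫ = -1
      rw [inner_neg_right, real_inner_self_eq_norm_sq, h1]
      norm_num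
    rw [h2]
    exact hc

theorem mem_capK {n : ℕ} {c : ℝ} {hc : -1 < c} {σ : Finset (Sph n)} : σ ∈ capK n c hc ↔ CapFace n c σ := Iff.rfl

/-- A probability weight. -/
def Pw {n : ℕ} (p : Sph n →₀ ℝ) : Prop := (∀ v, 0 ≤ p v) ∧ (p.sum fun _ a => a) = 1

theorem pw_of_geo {n : ℕ} {K : AbstractSimplicialComplex (Sph n)} (p : Geo K) : Pw p.1 := ⟨p.2.1, p.2.2.1⟩

/-- All inner products of points of the two supports are `< c`. -/
def Cpt2 {n : ℕ} (c : ℝ) (p q : Sph n →₀ ℝ) : Prop :=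
  ∀ v w : Sph n, 0 < p v → 0 < q w → ⟪(v : Eu n), (w : Eu n)⟫ < c

/-- The mean of a function. -/
noncomputable def ex {n : ℕ} (p : Sph n →₀ ℝ) (f : Sph n → ℝ) : ℝ := p.sum fun v a => a * f v

/-- The first moment. -/
noncomputable def bar {n : ℕ} (p : Sph n →₀ ℝ) : Eu n := p.sum fun v a => a • (v : Eu n)

/-- The second moment. -/
noncomputable def mo {n : ℕ} (p : Sph n →₀ ℝ) : Eu n →L[ℝ] Eu n :=
  p.sum fun v a => a • (innerSL ℝ (v : Eu n)).smulRight (v : Eu n)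

/-- The quadratic function of a pair. -/
noncomputable def qd {n : ℕ} (w : Eu n × (Eu n →L[ℝ] Eu n)) (z : Sph n) : ℝ :=
  ⟪w.1, (z : Eu n)⟫ + ⟪w.2 (z : Eu n), (z : Eu n)⟫

/-- Pairs of a vector and a symmetric operator of trace zero. -/
noncomputable def W0 (n : ℕ) : Submodule ℝ (Eu n × (Eu n →L[ℝ] Eu n)) where
  carrier := {w | (∀ x y, ⟪w.2 x, y⟫ = ⟪x, w.2 y⟫) ∧ LinearMap.trace ℝ (Eu n) (w.2 : Eu n →ₗ[ℝ] Eu n) = 0}
  add_mem' := by
    rintro w w' ⟨h1, h2⟩ ⟨h1', h2'⟩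
    refine ⟨fun x y => ?_, ?_⟩
    · change ⟪w.2 x + w'.2 x, y⟫ = ⟪x, w.2 y + w'.2 y⟫
      rw [inner_add_left, inner_add_right, h1, h1']
    · change LinearMap.trace ℝ (Eu n) ((w.2 + w'.2 : Eu n →L[ℝ] Eu n) : Eu n →ₗ[ℝ] Eu n) = 0
      have h3 : ((w.2 + w'.2 : Eu n →L[ℝ] Eu n) : Eu n →ₗ[ℝ] Eu n) = (w.2 : Eu n →ₗ[ℝ] Eu n) + (w'.2 : Eu n →ₗ[ℝ] Eu n) := rfl
      rw [h3, map_add, h2, h2', add_zero]
  zero_mem' := by
    refine ⟨fun x y => ?_, ?_⟩
    · change ⟪(0 : Eu n), y⟫ = ⟪x, (0 : Eu n)⟫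
      rw [inner_zero_left, inner_zero_right]
    · change LinearMap.trace ℝ (Eu n) ((0 : Eu n →L[ℝ] Eu n) : Eu n →ₗ[ℝ] Eu n) = 0
      have h3 : ((0 : Eu n →L[ℝ] Eu n) : Eu n →ₗ[ℝ] Eu n) = 0 := rfl
      rw [h3, map_zero]
  smul_mem' := by
    rintro c w ⟨h1, h2⟩
    refine ⟨fun x y => ?_, ?_⟩
    · change ⟪c • w.2 x, y⟫ = ⟪x, c • w.2 y⟫
      rw [inner_smul_left, inner_smul_right, h1]
      rfl
    · change LinearMap.trace ℝ (Eu n) ((c • w.2 : Eu n →L[ℝ] Eu n) : Eu n →ₗ[ℝ] Eu n) = 0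
      have h3 : ((c • w.2 : Eu n →L[ℝ] Eu n) : Eu n →ₗ[ℝ] Eu n) = c • (w.2 : Eu n →ₗ[ℝ] Eu n) := rfl
      rw [h3, map_smul, h2, smul_zero]

theorem mem_W0 {n : ℕ} {w : Eu n × (Eu n →L[ℝ] Eu n)} :
    w ∈ W0 n ↔ (∀ x y, ⟪w.2 x, y⟫ = ⟪x, w.2 y⟫) ∧ LinearMap.trace ℝ (Eu n) (w.2 : Eu n →ₗ[ℝ] Eu n) = 0 := Iff.rfl

/-- The dimension of `W0 n`. -/
def dm (n : ℕ) : ℕ := n * (n + 5) / 2 + 1

/-- The threshold `1 / (n + 1)`. -/
noncomputable def c2 (n : ℕ) : ℝ := 1 / ((n : ℝ) + 1)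

/-- The difference of the moments, the second one with the factor `η`. -/
noncomputable def Dm {n : ℕ} (η : ℝ) (p q : Sph n →₀ ℝ) : Eu n × (Eu n →L[ℝ] Eu n) :=
  (bar p - bar q, η • (mo p - mo q))

/-- The separating quadratic function of two weights. -/
noncomputable def gq {n : ℕ} (p q : Sph n →₀ ℝ) (z : Sph n) : ℝ :=
  ⟪(mo p - mo q) (z : Eu n), (z : Eu n)⟫ + (1 - c2 n) * ⟪bar p - bar q, (z : Eu n)⟫

end Pool.Agent.MPaafd8a
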