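import Pool.Agent.Lib.MP_aafd8a_gt.Spec3

/-!
# MP_aafd8a_gt: the dimension of the space `W0 n`

`W0 n` is linearly equivalent to a space of families: the coordinates of the vector, the entries of the
operator above the diagonal, and the first `n` diagonal entries.
-/

set_option autoImplicit false

open Topology RealInnerProductSpace

namespace Pool.Agent.MPaafd8a

namespace DimM

/-- the standard orthonormal basis -/
noncomputable abbrev bs (n : ℕ) : OrthonormalBasis (Fin (n + 1)) ℝ (Eu n) :=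
  EuclideanSpace.basisFun (Fin (n + 1)) ℝ

/-- the index set of the entries above the diagonal -/
abbrev Up (n : ℕ) : Type := Σ j : Fin (n + 1), Fin (j : ℕ)

/-- the row index of an entry above the diagonal -/
def rw' {n : ℕ} (e : Up n) : Fin (n + 1) := ⟨(e.2 : ℕ), e.2.isLt.trans e.1.isLt⟩

/-- the coordinates of a pair -/
noncomputable def co (n : ℕ) :
    (Eu n × (Eu n →L[ℝ] Eu n)) →ₗ[ℝ] ((Fin (n + 1) → ℝ) × (Up n → ℝ) × (Fin n → ℝ)) where
  toFun w := (fun i => w.1 i, fun e => (w.2 (bs n e.1)) (rw' e),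
    fun k => (w.2 (bs n k.castSucc)) k.castSucc)
  map_add' w w' := rfl
  map_smul' c w := rfl

/-- the matrix with given entries -/
noncomputable def mat {n : ℕ} (f : Up n → ℝ) (g : Fin n → ℝ) :
    Matrix (Fin (n + 1)) (Fin (n + 1)) ℝ := fun i j =>
  if h : (i : ℕ) < j then f ⟨j, ⟨i, h⟩⟩ else if h : (j : ℕ) < i then f ⟨i, ⟨j, h⟩⟩ else
    Fin.lastCases (motive := fun _ => ℝ) (-∑ k, g k) g i

theorem mat_symm {n : ℕ} (f : Up n → ℝ) (g : Fin n → ℝ) (i j : Fin (n + 1)) :
    mat f g i j = mat f g j i := by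
  unfold mat
  by_cases h1 : (i : ℕ) < j
  · have h2 : ¬ (j : ℕ) < i := by omega
    rw [dif_pos h1, dif_neg h2, dif_pos h1]
  · by_cases h2 : (j : ℕ) < i
    · rw [dif_neg h1, dif_pos h2, dif_pos h2]
    · have h3 : i = j := by
        apply Fin.ext
        omega
      subst h3
      rfl

theorem mat_up {n : ℕ} (f : Up n → ℝ) (g : Fin n → ℝ) (e : Up n) :
    mat f g (rw' e) e.1 = f e := by
  obtain ⟨j, i⟩ := e
  unfold mat
  have h1 : ((rw' (⟨j, i⟩ : Up n) : Fin (n + 1)) : ℕ) < j := i.isLt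
  rw [dif_pos h1]
  rfl

theorem mat_diag {n : ℕ} (f : Up n → ℝ) (g : Fin n → ℝ) (i : Fin (n + 1)) :
    mat f g i i = Fin.lastCases (motive := fun _ => ℝ) (-∑ k, g k) g i := by
  unfold mat
  rw [dif_neg (lt_irrefl _), dif_neg (lt_irrefl _)]

/-- the operator with given entries -/
noncomputable def op {n : ℕ} (f : Up n → ℝ) (g : Fin n → ℝ) : Eu n →L[ℝ] Eu n :=
  LinearMap.toContinuousLinearMap (Matrix.toEuclideanLin (mat f g))

theorem op_apply {n : ℕ} (f : Up n → ℝ) (g : Fin n → ℝ) (i j : Fin (n + 1)) :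
    (op f g (bs n j)) i = mat f g i j := by
  have h1 : op f g (bs n j) = Matrix.toEuclideanLin (mat f g) (bs n j) := rfl
  rw [h1, bs, EuclideanSpace.basisFun_apply]
  simp

theorem trace_eq {n : ℕ} (S : Eu n →L[ℝ] Eu n) :
    LinearMap.trace ℝ (Eu n) (S : Eu n →ₗ[ℝ] Eu n) = ∑ i, (S (bs n i)) i := by
  rw [LinearMap.trace_eq_sum_inner _ (bs n)]
  refine Finset.sum_congr rfl fun i _ => ?_
  exact EuclideanSpace.basisFun_inner _ ℝ (S (bs n i)) i

theorem op_mem {n : ℕ} (a : Eu n) (f : Up n → ℝ) (g : Fin n → ℝ) : (a, op f g) ∈ W0 n := by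
  refine mem_W0.2 ⟨?_, ?_⟩
  · have h1 : (Matrix.toEuclideanLin (mat f g)).IsSymmetric := by
      refine Matrix.isSymmetric_toEuclideanLin_iff.2 ?_
      ext i j
      rw [Matrix.conjTranspose_apply, mat_symm]
      rfl
    exact fun x y => h1 x y
  · change LinearMap.trace ℝ (Eu n) (op f g : Eu n →ₗ[ℝ] Eu n) = 0
    rw [trace_eq]
    simp only [op_apply, mat_diag]
    rw [Fin.sum_univ_castSucc]
    simp

theorem co_inj {n : ℕ} (w : Eu n × (Eu n →L[ℝ] Eu n)) (hw : w ∈ W0 n) (h : co n w = 0) : w = 0 := by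
  obtain ⟨h1, h2⟩ := mem_W0.1 hw
  have ha : ∀ i, w.1 i = 0 := fun i => congrFun (congrArg Prod.fst h) i
  have hf : ∀ e : Up n, (w.2 (bs n e.1)) (rw' e) = 0 := fun e =>
    congrFun (congrArg (fun z => z.2.1) h) e
  have hg : ∀ k : Fin n, (w.2 (bs n k.castSucc)) k.castSucc = 0 := fun k =>
    congrFun (congrArg (fun z => z.2.2) h) k
  have hsym : ∀ i j, (w.2 (bs n j)) i = (w.2 (bs n i)) j := by
    intro i j
    have h3 := h1 (bs n i) (bs n j)
    rw [real_inner_comm, EuclideanSpace.basisFun_inner, EuclideanSpace.basisFun_inner] at h3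
    exact h3.symm
  have hup : ∀ i j : Fin (n + 1), (i : ℕ) < j → (w.2 (bs n j)) i = 0 := fun i j hij =>
    hf ⟨j, ⟨i, hij⟩⟩
  have hall : ∀ i j : Fin (n + 1), (w.2 (bs n j)) i = 0 := by
    intro i j
    rcases lt_trichotomy (i : ℕ) (j : ℕ) with h4 | h4 | h4
    · exact hup i j h4
    · have h5 : i = j := Fin.ext h4
      subst h5
      rw [trace_eq, Fin.sum_univ_castSucc] at h2
      simp only [hg, Finset.sum_const_zero, zero_add] at h2
      refine Fin.lastCases ?_ (fun k => ?_) i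
      · exact h2
      · exact hg k
    · rw [hsym]
      exact hup j i h4
  refine Prod.ext ?_ ?_
  · ext i
    exact ha i
  · have h6 : (w.2 : Eu n →ₗ[ℝ] Eu n) = 0 := by
      refine (bs n).toBasis.ext fun j => ?_
      ext i
      simpa using hall i j
    ext x i
    exact congrFun (congrArg WithLp.ofLp (LinearMap.congr_fun h6 x)) i

/-- the coordinates of the elements of `W0 n` -/
noncomputable def cw (n : ℕ) : W0 n →ₗ[ℝ] ((Fin (n + 1) → ℝ) × (Up n → ℝ) × (Fin n → ℝ)) :=
  (co n).comp (W0 n).subtype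

theorem cw_bij (n : ℕ) : Function.Bijective (cw n) := by
  constructor
  · refine (injective_iff_map_eq_zero _).2 fun w hw => ?_
    exact Subtype.ext (co_inj w.1 w.2 hw)
  · rintro ⟨a, f, g⟩
    refine ⟨⟨(WithLp.toLp 2 a, op f g), op_mem _ f g⟩, ?_⟩
    refine Prod.ext ?_ (Prod.ext ?_ ?_)
    · rfl
    · funext e
      exact (op_apply f g (rw' e) e.1).trans (mat_up f g e)
    · funext k
      refine (op_apply f g k.castSucc k.castSucc).trans ?_
      rw [mat_diag]
      simp

end DimM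

open DimM in
theorem pDim : SDim := by
  intro n
  rw [(LinearEquiv.ofBijective (cw n) (cw_bij n)).finrank_eq]
  rw [Module.finrank_prod, Module.finrank_prod, Module.finrank_fintype_fun_eq_card,
    Module.finrank_fintype_fun_eq_card, Module.finrank_fintype_fun_eq_card, Fintype.card_sigma]
  simp only [Fintype.card_fin]
  rw [Fin.sum_univ_eq_sum_range (fun i => i) (n + 1)]
  have h1 := Finset.sum_range_id_mul_two (n + 1)
  unfold dm
  have h2 : n * (n + 5) = (n + 1) * n + 4 * n := by ring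
  rw [Nat.add_sub_cancel] at h1
  omega

end Pool.Agent.MPaafd8a
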