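import Pool.Agent.Lib.MP_aafd8a_gt.Spec3

/-!
# MP_aafd8a_gt: down to small `c`
-/

set_option autoImplicit false

open Topology RealInnerProductSpace

namespace Pool.Agent.MPaafd8a

namespace DownM

/-- if `c ≤ c'` then a map to the complex for `c` is a map to the complex for `c'` -/
theorem up_map (hSub : SSub) {n : ℕ} {c c' : ℝ} (hc : -1 < c) (hc' : -1 < c') (h : c ≤ c')
    {X : Type} [TopologicalSpace X] [CompactSpace X] (f : C(X, Geo (capK n c hc))) :
    ∃ f' : C(X, Geo (capK n c' hc')), ∀ x, (f' x).1 = (f x).1 :=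
  hSub (Sph n) (capK n c hc) (capK n c' hc') X f fun x => capFace_mono (f x).2.2.2 h

end DownM

open DownM in
theorem pDown (hSub : SSub) (hStep : SStepD) : SDown := by
  intro n hn c₀ c h₀ hc hc₀ hc2 hc02 X _ _ f hcc
  set c₁ : ℝ := max c ((c₀ + c2 n) / 2) with hc₁
  have h1 : c₀ < c₁ := lt_of_lt_of_le (by linarith) (le_max_right _ _)
  have h2 : c₁ < c2 n := max_lt hc2 (by linarith)
  obtain ⟨ε, hε, hε1, hS⟩ := hStep n hn c₀ c₁ hc₀ h1 h2
  have key : ∀ m : ℕ, ∀ (d : ℝ) (hd : -1 < d), d ≤ c₁ → d ≤ c₀ + m * ε →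
      ∀ g : C(X, Geo (capK n d hd)), ∃ (f₀ : C(X, Geo (capK n c₀ h₀)))
        (f₁ : C(X, Geo (capK n d hd))), (∀ x, (f₁ x).1 = (f₀ x).1) ∧ g.Homotopic f₁ := by
    intro m
    induction m with
    | zero =>
      intro d hd hd1 hd2 g
      have h3 : d ≤ c₀ := by simpa using hd2
      obtain ⟨g', hg'⟩ := up_map hSub hd h₀ h3 g
      exact ⟨g', g, fun x => (hg' x).symm, ContinuousMap.Homotopic.refl g⟩
    | succ m ih =>
      intro d hd hd1 hd2 g
      by_cases h3 : d ≤ c₀
      · obtain ⟨g', hg'⟩ := up_map hSub hd h₀ h3 g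
        exact ⟨g', g, fun x => (hg' x).symm, ContinuousMap.Homotopic.refl g⟩
      · have h4 : c₀ < d := not_le.1 h3
        have hd' : -1 < d - ε := by linarith
        obtain ⟨f', f'', hf, hh⟩ := hS d hd hd' h4.le hd1 X g
        obtain ⟨f₀, f₁', h5, ⟨H⟩⟩ := ih (d - ε) hd' (by linarith) (by
          push_cast at hd2
          linarith) f'
        obtain ⟨H', hH'⟩ := up_map hSub hd' hd (by linarith) H.toContinuousMap
        let f₁ : C(X, Geo (capK n d hd)) :=
          ⟨fun x => H' (1, x), H'.continuous.comp (Continuous.prodMk_right 1)⟩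
        have h6 : ∀ x, (f₁ x).1 = (f₁' x).1 := by
          intro x
          change (H' (1, x)).1 = _
          rw [hH']
          exact congrArg Subtype.val (H.apply_one x)
        refine ⟨f₀, f₁, fun x => (h6 x).trans (h5 x), hh.trans ⟨⟨H', ?_, ?_⟩⟩⟩
        · intro x
          refine Subtype.ext ?_
          change (H' (0, x)).1 = _
          rw [hH', hf x]
          exact congrArg Subtype.val (H.apply_zero x)
        · intro x
          rfl
  obtain ⟨m, hm⟩ := exists_nat_ge ((c - c₀) / ε)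
  have h7 : c ≤ c₀ + m * ε := by
    rw [div_le_iff₀ hε] at hm
    linarith
  exact key m c hc (le_max_left _ _) h7 f

end Pool.Agent.MPaafd8a
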