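import Pool.Agent.Lib.MP_aafd8a_gt.Spec3

/-!
# MP_aafd8a_gt: the maxima of a quadratic function lie in a closed hemisphere
-/

set_option autoImplicit false

open Topology RealInnerProductSpace

namespace Pool.Agent.MPaafd8a

namespace Eig

theorem continuous_qd {n : ℕ} (w : Eu n × (Eu n →L[ℝ] Eu n)) : Continuous (qd w) := by
  unfold qd
  have h1 : Continuous (fun z : Sph n => (z : Eu n)) := continuous_subtype_val
  exact (continuous_const.inner h1).add ((w.2.continuous.comp h1).inner h1)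

theorem nonempty_sph (n : ℕ) : Nonempty (Sph n) := by
  refine ⟨⟨EuclideanSpace.single 0 1, ?_⟩⟩
  rw [mem_sphere_zero_iff_norm]
  simp

theorem exists_unit {n : ℕ} (K : Submodule ℝ (Eu n)) (hK : K ≠ ⊤) :
    ∃ y : Sph n, ∀ u ∈ K, ⟪u, (y : Eu n)⟫ = 0 := by
  have h1 : Kᗮ ≠ ⊥ := by
    intro h
    exact hK ((Submodule.orthogonal_eq_bot_iff (K := K)).1 h)
  obtain ⟨y, hy, hy0⟩ := Submodule.exists_mem_ne_zero_of_ne_bot h1
  have hn : ‖y‖ ≠ 0 := norm_ne_zero_iff.2 hy0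
  refine ⟨⟨(‖y‖⁻¹ : ℝ) • y, ?_⟩, ?_⟩
  · rw [mem_sphere_zero_iff_norm, norm_smul, norm_inv, norm_norm, inv_mul_cancel₀ hn]
  · intro u hu
    change ⟪u, (‖y‖⁻¹ : ℝ) • y⟫ = 0
    rw [inner_smul_right, (Submodule.mem_orthogonal K y).1 hy u hu, mul_zero]

theorem exists_unit' {n : ℕ} (K : Submodule ℝ (Eu n)) (hK : K ≠ ⊤) (z₀ : Sph n) :
    ∃ y : Sph n, (∀ u ∈ K, ⟪u, (y : Eu n)⟫ = 0) ∧ ⟪(z₀ : Eu n), (y : Eu n)⟫ ≤ 0 := by
  obtain ⟨y, hy⟩ := exists_unit K hK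
  rcases le_total ⟪(z₀ : Eu n), (y : Eu n)⟫ 0 with h | h
  · exact ⟨y, hy, h⟩
  · refine ⟨-y, fun u hu => ?_, ?_⟩
    · change ⟪u, -(y : Eu n)⟫ = 0
      rw [inner_neg_right, hy u hu, neg_zero]
    · change ⟪(z₀ : Eu n), -(y : Eu n)⟫ ≤ 0
      rw [inner_neg_right]
      linarith

end Eig

open Eig in
theorem pEig : SLag → SEig := by
  intro hLag n w hw hw0
  obtain ⟨a, S⟩ := w
  obtain ⟨hsym, htr⟩ := mem_W0.1 hw
  have := nonempty_sph n
  obtain ⟨z₀, -, hz₀⟩ := isCompact_univ.exists_isMaxOn Set.univ_nonempty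
    (continuous_qd (a, S)).continuousOn
  have hz₀' : ∀ z, qd (a, S) z ≤ qd (a, S) z₀ := fun z => hz₀ (Set.mem_univ z)
  obtain ⟨Λ, h1, _, h3⟩ := hLag n a S hsym z₀ hz₀'
  let Q : Eu n →ₗ[ℝ] Eu n := Λ • LinearMap.id - (S : Eu n →ₗ[ℝ] Eu n)
  have hQ : ∀ u, Q u = Λ • u - S u := fun u => rfl
  have hker : LinearMap.ker Q ≠ ⊤ := by
    intro h
    have hS : ∀ u, S u = Λ • u := by
      intro u
      have h4 : u ∈ LinearMap.ker Q := by rw [h]; exact Submodule.mem_top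
      rw [LinearMap.mem_ker, hQ, sub_eq_zero] at h4
      exact h4.symm
    have hS' : (S : Eu n →ₗ[ℝ] Eu n) = Λ • LinearMap.id := by
      ext1 u
      exact hS u
    have hΛ : Λ = 0 := by
      change LinearMap.trace ℝ (Eu n) (S : Eu n →ₗ[ℝ] Eu n) = 0 at htr
      rw [hS', map_smul, LinearMap.trace_id, finrank_euclideanSpace_fin, smul_eq_mul] at htr
      rcases mul_eq_zero.1 htr with h5 | h5
      · exact h5
      · exfalso
        have h6 : ((n + 1 : ℕ) : ℝ) ≠ 0 := Nat.cast_ne_zero.2 (Nat.succ_ne_zero n)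
        exact h6 h5
    subst hΛ
    have hS0 : S = 0 := by
      ext1 u
      rw [hS u, zero_smul]
      rfl
    have ha : a = 0 := by
      rw [hS0] at h1
      simpa using h1
    apply hw0
    rw [ha, hS0]
    rfl
  obtain ⟨y, hy1, hy2⟩ := exists_unit' (LinearMap.ker Q) hker z₀
  refine ⟨y, fun z hz => ?_⟩
  have h4 : (z : Eu n) - z₀ ∈ LinearMap.ker Q := by
    rw [LinearMap.mem_ker, hQ, h3 z hz, sub_self]
  have h5 := hy1 _ h4
  rw [inner_sub_left] at h5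
  linarith

end Pool.Agent.MPaafd8a
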