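import Pool.Agent.Lib.MP_aafd8a_gt.Spec3

/-!
# MP_aafd8a_gt, third part: exact connectivity
-/

set_option autoImplicit false

open Topology RealInnerProductSpace

namespace Pool.Agent.MPaafd8a

theorem pExact : SFace → SUpper → SLow → SExact := by
  intro hFace hUpper hLow n hn r h0 hr hrpi hcos
  have hc0 : 0 < -Real.cos r := by
    have := Real.cos_neg_of_pi_div_two_lt_of_lt hr (by linarith [Real.pi_pos])
    linarith
  have hc : -1 < -Real.cos r := by linarith
  have hc2 : -Real.cos r ≤ c2 n := hcos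
  have heq : cech n r h0 = capK n (-Real.cos r) hc := by
    apply SetLike.ext
    intro σ
    exact (hFace n r h0 hrpi).1 σ
  rw [heq]
  have hlow := hLow n hn (-Real.cos r) hc hc0 hc2
  have hup := hUpper n hn (-Real.cos r) hc hc2
  have heven : Even (n * (n + 5)) := by
    rcases Nat.even_or_odd n with h | h
    · exact h.mul_right _
    · exact (h.add_odd (by decide)).mul_left _
  have hN : ((n * (n + 5) / 2 : ℕ) : ℝ) = (n : ℝ) * ((n : ℝ) + 5) / 2 := by
    rw [Nat.cast_div heven.two_dvd (by norm_num)]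
    push_cast
    ring
  unfold conn
  refine le_antisymm (sSup_le ?_) (le_sSup ?_)
  · rintro a ⟨k, hk, rfl⟩
    have hkN : k ≤ ((n * (n + 5) / 2 : ℕ) : ℤ) - 1 := by
      by_contra hcon
      push Not at hcon
      apply hup
      exact ⟨hk.1, fun i hi y => hk.2 i (by omega) y⟩
    rw [EReal.coe_le_coe_iff]
    have h1 : (k : ℝ) ≤ ((((n * (n + 5) / 2 : ℕ) : ℤ) - 1 : ℤ) : ℝ) := by exact_mod_cast hkN
    rw [Int.cast_sub, Int.cast_natCast, Int.cast_one, hN] at h1
    exact h1
  · refine ⟨((n * (n + 5) / 2 : ℕ) : ℤ) - 1, hlow, ?_⟩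
    rw [Int.cast_sub, Int.cast_natCast, Int.cast_one, hN]

end Pool.Agent.MPaafd8a
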