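import Pool.Agent.Lib.MP_aafd8a_gt.Spec

/-!
# Faces of the Cech complex in terms of inner products
-/

set_option autoImplicit false

open Topology RealInnerProductSpace

namespace Pool.Agent.MPaafd8a

private theorem Face_norm {n : ℕ} (x : Sph n) : ‖(x : Eu n)‖ = 1 := mem_sphere_zero_iff_norm.1 x.2

private theorem Face_cos {n : ℕ} (x y : Sph n) : Real.cos (gd x y) = ⟪(x : Eu n), (y : Eu n)⟫ := by
  unfold gd
  rw [InnerProductGeometry.cos_angle, Face_norm, Face_norm, mul_one, div_one]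

private theorem Face_mem {n : ℕ} (x y : Sph n) : gd x y ∈ Set.Icc 0 Real.pi :=
  ⟨InnerProductGeometry.angle_nonneg _ _, InnerProductGeometry.angle_le_pi _ _⟩

private theorem Face_lt {n : ℕ} {s : ℝ} (hs : s ∈ Set.Icc 0 Real.pi) (x y : Sph n) :
    gd x y < s ↔ Real.cos s < ⟪(x : Eu n), (y : Eu n)⟫ := by
  rw [← Face_cos]
  exact (Real.strictAntiOn_cos.lt_iff_gt hs (Face_mem x y)).symm

private theorem Face_gt {n : ℕ} {s : ℝ} (hs : s ∈ Set.Icc 0 Real.pi) (x y : Sph n) :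
    s < gd x y ↔ ⟪(x : Eu n), (y : Eu n)⟫ < Real.cos s := by
  rw [← Face_cos]
  exact (Real.strictAntiOn_cos.lt_iff_gt (Face_mem x y) hs).symm

theorem pFace : SFace := by
  intro n r h0 h1
  refine ⟨fun σ => ?_, fun σ hσ hc => ⟨hσ, ?_⟩⟩
  · have h2 : σ ∈ cech n r h0 ↔ (σ.Nonempty ∧ ∃ y : Sph n, ∀ x ∈ σ, gd x y < r) := Iff.rfl
    rw [h2]
    unfold CapFace
    have hr : r ∈ Set.Icc 0 Real.pi := ⟨h0.le, h1.le⟩
    refine and_congr_right fun _ => ⟨?_, ?_⟩
    · rintro ⟨y, hy⟩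
      refine ⟨-y, fun x hx => ?_⟩
      have h3 := (Face_lt hr x y).1 (hy x hx)
      rw [coe_neg_sphere, inner_neg_right]
      linarith
    · rintro ⟨y, hy⟩
      refine ⟨-y, fun x hx => ?_⟩
      rw [Face_lt hr]
      have h3 := hy x hx
      rw [coe_neg_sphere, inner_neg_right]
      linarith
  · have hr : Real.pi - r ∈ Set.Icc 0 Real.pi := ⟨by linarith, by linarith⟩
    have h2 := Nat.notMem_of_lt_sInf hc
    rw [Set.mem_setOf_eq] at h2
    push Not at h2
    obtain ⟨y, hy⟩ := h2 σ rfl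
    refine ⟨y, fun x hx => ?_⟩
    have h3 := (Face_gt hr x y).1 (hy x hx)
    rwa [Real.cos_pi_sub] at h3

end Pool.Agent.MPaafd8a
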