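import Pool.Agent.Lib.MP_aafd8a_gt.Spec3

/-! # MP_aafd8a_gt, third part: the final claim (`pFin`) -/

set_option autoImplicit false

open Topology RealInnerProductSpace Filter

namespace Pool.Agent.MPaafd8a

namespace FinX

theorem nv {n : ℕ} (v : Sph n) : ‖(v : Eu n)‖ = 1 := mem_sphere_zero_iff_norm.1 v.2

theorem ex_add {n : ℕ} (p : Sph n →₀ ℝ) (f g : Sph n → ℝ) : ex p (fun v => f v + g v) = ex p f + ex p g := by
  unfold ex Finsupp.sum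
  rw [← Finset.sum_add_distrib]
  exact Finset.sum_congr rfl fun v _ => mul_add _ _ _

theorem ex_mul {n : ℕ} (p : Sph n →₀ ℝ) (k : ℝ) (f : Sph n → ℝ) : ex p (fun v => k * f v) = k * ex p f := by
  unfold ex Finsupp.sum
  rw [Finset.mul_sum]
  exact Finset.sum_congr rfl fun v _ => by ring

theorem ex_sum {n : ℕ} {ι : Type} (s : Finset ι) (p : Sph n →₀ ℝ) (f : ι → Sph n → ℝ) :
    ex p (fun v => ∑ i ∈ s, f i v) = ∑ i ∈ s, ex p (f i) := by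
  unfold ex Finsupp.sum
  rw [Finset.sum_comm]
  exact Finset.sum_congr rfl fun v _ => Finset.mul_sum _ _ _

theorem ex_one {n : ℕ} {p : Sph n →₀ ℝ} (hp : Pw p) : ex p (fun _ => (1 : ℝ)) = 1 := by
  unfold ex
  simp only [mul_one]
  exact hp.2

theorem ex_mono {n : ℕ} {p : Sph n →₀ ℝ} (hp : Pw p) {f g : Sph n → ℝ} (h : ∀ v, f v ≤ g v) : ex p f ≤ ex p g := by
  unfold ex Finsupp.sum
  exact Finset.sum_le_sum fun v _ => mul_le_mul_of_nonneg_left (h v) (hp.1 v)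

theorem mo_apply {n : ℕ} (q : Sph n →₀ ℝ) (u : Eu n) :
    mo q u = ∑ v ∈ q.support, q v • (⟪(v : Eu n), u⟫ • (v : Eu n)) := by
  unfold mo Finsupp.sum
  rw [sum_apply]
  rfl

theorem mm (hMo : SMo) {n : ℕ} {p q : Sph n →₀ ℝ} (hp : Pw p) (hq : Pw q) (u : Eu n) :
    ‖mo p (mo q u)‖ ^ 2 ≤ ‖u‖ ^ 2 * ex q (fun y => ⟪mo p (y : Eu n), (y : Eu n)⟫) := by
  obtain ⟨m, hm⟩ : ∃ m, m = ex q (fun y => ‖mo p (y : Eu n)‖) := ⟨_, rfl⟩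
  have h1 : ‖mo p (mo q u)‖ ≤ ‖u‖ * m := by
    rw [hm, mo_apply q u, map_sum]
    refine (norm_sum_le _ _).trans ?_
    unfold ex Finsupp.sum
    rw [Finset.mul_sum]
    refine Finset.sum_le_sum fun v _ => ?_
    rw [map_smul, map_smul, norm_smul, norm_smul, Real.norm_eq_abs, abs_of_nonneg (hq.1 v)]
    have h2 : ‖⟪(v : Eu n), u⟫‖ ≤ ‖u‖ := by
      have := norm_inner_le_norm (𝕜 := ℝ) (v : Eu n) u
      rwa [nv v, one_mul] at this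
    have h3 := hq.1 v
    have h4 := norm_nonneg (mo p (v : Eu n))
    calc q v * (‖⟪(v : Eu n), u⟫‖ * ‖mo p (v : Eu n)‖) ≤ q v * (‖u‖ * ‖mo p (v : Eu n)‖) := by gcongr
      _ = ‖u‖ * (q v * ‖mo p (v : Eu n)‖) := by ring
  have h5 : m ^ 2 ≤ ex q (fun y => ‖mo p (y : Eu n)‖ ^ 2) := by
    have h6 : 0 ≤ ex q (fun y => (‖mo p (y : Eu n)‖ - m) ^ 2) := by
      unfold ex Finsupp.sum
      exact Finset.sum_nonneg fun v _ => mul_nonneg (hq.1 v) (sq_nonneg _)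
    have h7 : ex q (fun y => (‖mo p (y : Eu n)‖ - m) ^ 2)
        = ex q (fun y => ‖mo p (y : Eu n)‖ ^ 2) + (-2 * m) * m + m ^ 2 * 1 := by
      rw [show (fun y : Sph n => (‖mo p (y : Eu n)‖ - m) ^ 2)
        = fun y : Sph n => (‖mo p (y : Eu n)‖ ^ 2 + (-2 * m) * ‖mo p (y : Eu n)‖) + m ^ 2 * 1 from funext fun y => by ring]
      rw [ex_add, ex_add, ex_mul, ex_mul, ex_one hq, ← hm]
    nlinarith
  have h8 : ex q (fun y => ‖mo p (y : Eu n)‖ ^ 2) ≤ ex q (fun y => ⟪mo p (y : Eu n), (y : Eu n)⟫) :=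
    ex_mono hq fun y => (hMo n p p hp hp).2.2.2.2.2.1 _
  have h9 : 0 ≤ ‖mo p (mo q u)‖ := norm_nonneg _
  calc ‖mo p (mo q u)‖ ^ 2 ≤ (‖u‖ * m) ^ 2 := pow_le_pow_left₀ h9 h1 2
    _ = ‖u‖ ^ 2 * m ^ 2 := by ring
    _ ≤ ‖u‖ ^ 2 * ex q (fun y => ⟪mo p (y : Eu n), (y : Eu n)⟫) :=
      mul_le_mul_of_nonneg_left (h5.trans h8) (sq_nonneg _)

theorem bb (hMo : SMo) {n : ℕ} {p q : Sph n →₀ ℝ} (hp : Pw p) (hq : Pw q) {c₀ : ℝ} (hc : Cpt2 c₀ p q) :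
    ⟪bar p, bar q⟫ ≤ c₀ := by
  obtain ⟨-, -, -, -, -, -, -, hav, hlin, -⟩ := hMo n p p hp hp
  obtain ⟨-, -, -, -, -, -, -, hav', hlin', -⟩ := hMo n q q hq hq
  obtain ⟨v, hv, hv'⟩ := (hav (fun v => ⟪bar q, (v : Eu n)⟫)).2
  rw [hlin] at hv'
  obtain ⟨y, hy, hy'⟩ := (hav' (fun y => ⟪(v : Eu n), (y : Eu n)⟫)).2
  rw [hlin'] at hy'
  have h1 := hc v y hv hy
  rw [real_inner_comm] at hv'
  rw [real_inner_comm] at hy'
  linarith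

theorem ee (hMo : SMo) {n : ℕ} {p q : Sph n →₀ ℝ} (hp : Pw p) (hq : Pw q) {c₀ : ℝ} (hc : Cpt2 c₀ p q) (h0 : 0 < c₀)
    (h1 : c₀ ≤ 1) : ex q (fun y => ⟪mo p (y : Eu n), (y : Eu n)⟫) + ⟪bar p, bar q⟫ ≤ 2 * c₀ := by
  obtain ⟨-, -, -, -, -, -, -, hav, hlin, hquad⟩ := hMo n p p hp hp
  obtain ⟨-, -, -, -, -, -, -, hav', hlin', -⟩ := hMo n q q hq hq
  have h2 : ex q (fun y => ⟪mo p (y : Eu n), (y : Eu n)⟫ + ⟪bar p, (y : Eu n)⟫)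
      = ex q (fun y => ⟪mo p (y : Eu n), (y : Eu n)⟫) + ⟪bar p, bar q⟫ := by
    rw [ex_add, hlin']
  rw [← h2]
  obtain ⟨y, hy, hy'⟩ := (hav' (fun y => ⟪mo p (y : Eu n), (y : Eu n)⟫ + ⟪bar p, (y : Eu n)⟫)).2
  refine hy'.trans ?_
  have h3 : ex p (fun v => ⟪(v : Eu n), (y : Eu n)⟫ ^ 2 + ⟪(y : Eu n), (v : Eu n)⟫)
      = ⟪mo p (y : Eu n), (y : Eu n)⟫ + ⟪bar p, (y : Eu n)⟫ := by
    rw [ex_add, hquad, hlin, real_inner_comm (bar p)]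
  obtain ⟨v, hv, hv'⟩ := (hav (fun v => ⟪(v : Eu n), (y : Eu n)⟫ ^ 2 + ⟪(y : Eu n), (v : Eu n)⟫)).2
  rw [h3] at hv'
  refine hv'.trans ?_
  change ⟪(v : Eu n), (y : Eu n)⟫ ^ 2 + ⟪(y : Eu n), (v : Eu n)⟫ ≤ 2 * c₀
  rw [real_inner_comm (v : Eu n) (y : Eu n)]
  have h4 := hc v y hv hy
  have h5 : -1 ≤ ⟪(v : Eu n), (y : Eu n)⟫ := by
    have h6 := neg_le_of_abs_le (abs_real_inner_le_norm (v : Eu n) (y : Eu n))
    rw [nv, nv] at h6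
    linarith
  obtain ⟨t, ht⟩ : ∃ t, t = ⟪(v : Eu n), (y : Eu n)⟫ := ⟨_, rfl⟩
  rw [← ht] at h4 h5 ⊢
  rcases le_or_gt 0 t with h7 | h7
  · nlinarith
  · nlinarith

theorem qd_Dm {n : ℕ} (η : ℝ) (p q : Sph n →₀ ℝ) (z : Sph n) :
    qd (Dm η p q) z = ⟪bar p - bar q, (z : Eu n)⟫ + η * ⟪(mo p - mo q) (z : Eu n), (z : Eu n)⟫ := by
  unfold qd Dm
  change ⟪bar p - bar q, (z : Eu n)⟫ + ⟪η • ((mo p - mo q) (z : Eu n)), (z : Eu n)⟫ = _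
  rw [real_inner_smul_left]

theorem moz (hMo : SMo) {n : ℕ} {p : Sph n →₀ ℝ} (hp : Pw p) (z : Sph n) :
    0 ≤ ⟪mo p (z : Eu n), (z : Eu n)⟫ ∧ ⟪mo p (z : Eu n), (z : Eu n)⟫ ≤ 1 := by
  obtain ⟨-, -, h1, -, h2, -, -, -, -, -⟩ := hMo n p p hp hp
  refine ⟨h2 _, ?_⟩
  have h3 := real_inner_le_norm (mo p (z : Eu n)) (z : Eu n)
  have h4 := (mo p).le_opNorm (z : Eu n)
  rw [nv] at h3 h4
  linarith

theorem step1 (hMo : SMo) {n : ℕ} {c : ℝ} (hc : 0 < c) {R : ℝ} (hR0 : 0 < R) (hR1 : 10 / R ≤ (c / 2) ^ 2) (hR2 : 1 / R < c / 2)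
    {η : ℝ} (h0 : 0 < η) (h1 : η ≤ 1) {p q : Sph n →₀ ℝ} (hp : Pw p) (hq : Pw q) (hcp : Cpt2 (η ^ 2) p q)
    (hst : ∀ y, 0 < q y → ∃ z : Sph n, (∀ z', qd (Dm η p q) z' ≤ qd (Dm η p q) z + η ^ 2) ∧ c ≤ ⟪(z : Eu n), (y : Eu n)⟫) :
    ‖bar p - bar q‖ ≤ R * η := by
  by_contra hcon
  push Not at hcon
  obtain ⟨a, ha⟩ : ∃ a, a = bar p - bar q := ⟨_, rfl⟩
  rw [← ha] at hcon
  have hapos : 0 < ‖a‖ := lt_trans (mul_pos hR0 h0) hcon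
  obtain ⟨-, -, -, -, -, -, -, hav', hlin', -⟩ := hMo n q q hq hq
  obtain ⟨y, hy, hy'⟩ := (hav' (fun y => ⟪a, (y : Eu n)⟫)).1
  rw [hlin'] at hy'
  have h2 : ⟪a, bar q⟫ ≤ η ^ 2 := by
    rw [ha, inner_sub_left]
    have h3 := bb hMo hp hq hcp
    have h4 : 0 ≤ ⟪bar q, bar q⟫ := real_inner_self_nonneg
    linarith
  obtain ⟨z, hz, hzy⟩ := hst y hy
  have hη2 : η ^ 2 ≤ η := by nlinarith
  obtain ⟨ah, hah⟩ : ∃ ah : Sph n, (ah : Eu n) = ‖a‖⁻¹ • a := by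
    refine ⟨⟨‖a‖⁻¹ • a, ?_⟩, rfl⟩
    rw [mem_sphere_zero_iff_norm, norm_smul, norm_inv, norm_norm, inv_mul_cancel₀ hapos.ne']
  have h5 := hz ah
  rw [qd_Dm, qd_Dm, ← ha] at h5
  have h6 : ⟪a, (ah : Eu n)⟫ = ‖a‖ := by
    rw [hah, real_inner_smul_right, real_inner_self_eq_norm_sq]
    field_simp
  have hsub : ∀ z : Sph n, ⟪(mo p - mo q) (z : Eu n), (z : Eu n)⟫
      = ⟪mo p (z : Eu n), (z : Eu n)⟫ - ⟪mo q (z : Eu n), (z : Eu n)⟫ := by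
    intro z
    rw [sub_apply, inner_sub_left]
  rw [h6, hsub, hsub] at h5
  obtain ⟨m1, m1'⟩ := moz hMo hp ah
  obtain ⟨m2, m2'⟩ := moz hMo hq ah
  obtain ⟨m3, m3'⟩ := moz hMo hp z
  obtain ⟨m4, m4'⟩ := moz hMo hq z
  have h7 : ‖a‖ - 5 * η ≤ ⟪a, (z : Eu n)⟫ := by
    nlinarith
  have h8 : ⟪(ah : Eu n), (z : Eu n)⟫ = ⟪a, (z : Eu n)⟫ / ‖a‖ := by
    rw [hah, real_inner_smul_left, div_eq_inv_mul]
  have h9 : 1 - 5 / R ≤ ⟪(ah : Eu n), (z : Eu n)⟫ := by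
    rw [h8, le_div_iff₀ hapos]
    have h10 : 5 * η ≤ 5 / R * ‖a‖ := by
      rw [div_mul_eq_mul_div, le_div_iff₀ hR0]
      nlinarith
    nlinarith
  have h11 : ‖(z : Eu n) - ah‖ ^ 2 ≤ (c / 2) ^ 2 := by
    rw [norm_sub_sq_real, nv, nv, real_inner_comm]
    have : 10 / R = 2 * (5 / R) := by ring
    linarith
  have h12 : ‖(z : Eu n) - ah‖ ≤ c / 2 := by
    exact le_of_sq_le_sq h11 (by positivity)
  have h13 : ⟪(z : Eu n), (y : Eu n)⟫ = ⟪(ah : Eu n), (y : Eu n)⟫ + ⟪(z : Eu n) - ah, (y : Eu n)⟫ := by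
    rw [inner_sub_left]
    ring
  have h14 : ⟪(z : Eu n) - ah, (y : Eu n)⟫ ≤ c / 2 := by
    have := real_inner_le_norm ((z : Eu n) - ah) (y : Eu n)
    rw [nv, mul_one] at this
    linarith
  have h15 : ⟪(ah : Eu n), (y : Eu n)⟫ ≤ 1 / R := by
    rw [hah, real_inner_smul_left, ← div_eq_inv_mul, div_le_iff₀ hapos, div_mul_eq_mul_div, le_div_iff₀ hR0, one_mul]
    have h16 : ⟪a, (y : Eu n)⟫ ≤ η ^ 2 := hy'.trans h2
    nlinarith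
  linarith

theorem trace_cont (n : ℕ) : Continuous (fun T : Eu n →L[ℝ] Eu n => LinearMap.trace ℝ (Eu n) (T : Eu n →ₗ[ℝ] Eu n)) :=
  LinearMap.continuous_of_finiteDimensional ((LinearMap.trace ℝ (Eu n)) ∘ₗ (ContinuousLinearMap.coeLM ℝ))

theorem inner_le_of_mem {n : ℕ} (U : Submodule ℝ (Eu n)) (b : OrthonormalBasis (Fin (Module.finrank ℝ U)) ℝ U) (d : Eu n)
    (hd : d ∈ U) (y : Eu n) : ⟪d, y⟫ ^ 2 ≤ ‖d‖ ^ 2 * ∑ i, ⟪y, (b i : Eu n)⟫ ^ 2 := by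
  have h1 : d = ∑ i, ⟪(b i : Eu n), d⟫ • (b i : Eu n) := by
    have h2 := congrArg (fun u : U => (u : Eu n)) (b.sum_repr' ⟨d, hd⟩)
    simp only [Submodule.coe_sum, Submodule.coe_smul, Submodule.coe_inner] at h2
    exact h2.symm
  have h3 : ‖d‖ ^ 2 = ∑ i, ⟪(b i : Eu n), d⟫ ^ 2 := by
    rw [← real_inner_self_eq_norm_sq]
    conv_lhs => rw [h1]
    rw [sum_inner]
    refine Finset.sum_congr rfl fun i _ => ?_
    rw [← h1, real_inner_smul_left]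
    ring
  have h4 : ⟪d, y⟫ = ∑ i, ⟪(b i : Eu n), d⟫ * ⟪y, (b i : Eu n)⟫ := by
    conv_lhs => rw [h1]
    rw [sum_inner]
    refine Finset.sum_congr rfl fun i _ => ?_
    rw [real_inner_smul_left, real_inner_comm y]
  rw [h3, h4]
  exact Finset.sum_mul_sq_le_sq_mul_sq _ _ _

theorem clm_lim {n : ℕ} {ι : Type} {l : Filter ι} {T : ι → Eu n →L[ℝ] Eu n} {M : Eu n →L[ℝ] Eu n} (h : Tendsto T l (𝓝 M))
    {x : ι → Eu n} {x₀ : Eu n} (hx : Tendsto x l (𝓝 x₀)) : Tendsto (fun j => T j (x j)) l (𝓝 (M x₀)) := by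
  have h1 : Continuous (fun w : (Eu n →L[ℝ] Eu n) × Eu n => w.1 w.2) := isBoundedBilinearMap_apply.continuous
  exact (h1.tendsto (M, x₀)).comp (h.prodMk_nhds hx)

end FinX

open FinX

theorem pFin (hMo : SMo) (hLim : SLim) : SFin := by
  intro n c hc
  by_contra hcon
  push Not at hcon
  -- the constant `R`
  obtain ⟨R, hR⟩ : ∃ R : ℝ, R = 40 / c ^ 2 + 2 / c + 1 := ⟨_, rfl⟩
  have hR0 : 0 < R := by rw [hR]; positivity
  have hR1 : 10 / R ≤ (c / 2) ^ 2 := by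
    rw [div_le_iff₀ hR0, hR]
    have h1 : (c / 2) ^ 2 * (40 / c ^ 2) = 10 := by field_simp; norm_num
    have h2 : 0 ≤ (c / 2) ^ 2 * (2 / c + 1) := by positivity
    nlinarith
  have hR2 : 1 / R < c / 2 := by
    rw [div_lt_iff₀ hR0, hR]
    have h1 : c / 2 * (2 / c) = 1 := by field_simp
    have h2 : 0 < c / 2 * (40 / c ^ 2 + 1) := by positivity
    nlinarith
  -- the sequences
  obtain ⟨η, hη⟩ : ∃ η : ℕ → ℝ, η = fun j : ℕ => 1 / ((j : ℝ) + 1) := ⟨_, rfl⟩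
  have hη0 : ∀ j, 0 < η j := by intro j; rw [hη]; positivity
  have hη1 : ∀ j, η j ≤ 1 := by
    intro j
    rw [hη]
    change 1 / ((j : ℝ) + 1) ≤ 1
    rw [div_le_one (by positivity)]
    have : (0 : ℝ) ≤ j := Nat.cast_nonneg j
    linarith
  have hηlim : Tendsto η atTop (𝓝 0) := by
    rw [hη]
    exact tendsto_one_div_add_atTop_nhds_zero_nat
  have hseq := fun j => hcon (η j) (hη0 j) (hη1 j) (η j ^ 2) (pow_pos (hη0 j) 2) (η j ^ 2) (pow_pos (hη0 j) 2)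
  choose p q hp hq hcp hst using hseq
  have hs1 : ∀ j, ‖bar (p j) - bar (q j)‖ ≤ R * η j := fun j =>
    step1 hMo hc hR0 hR1 hR2 (hη0 j) (hη1 j) (hp j) (hq j) (hcp j) (hst j)
  -- step 2
  have hB : ∀ j, ‖bar (p j)‖ ^ 2 + ‖bar (q j)‖ ^ 2 = ‖bar (p j) - bar (q j)‖ ^ 2 + 2 * ⟪bar (p j), bar (q j)⟫ := by
    intro j
    rw [norm_sub_sq_real]
    ring
  have hbb : ∀ j, ⟪bar (p j), bar (q j)⟫ ≤ η j ^ 2 := fun j => bb hMo (hp j) (hq j) (hcp j)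
  have hsq : ∀ j, ‖bar (p j) - bar (q j)‖ ^ 2 ≤ (R * η j) ^ 2 := fun j => pow_le_pow_left₀ (norm_nonneg _) (hs1 j) 2
  have hbq : ∀ j, ‖bar (q j)‖ ≤ (R + 2) * η j := by
    intro j
    refine le_of_sq_le_sq ?_ (by have := hη0 j; positivity)
    have h1 := hB j
    have h2 := hbb j
    have h3 := hsq j
    have h4 := sq_nonneg ‖bar (p j)‖
    have h5 : 0 ≤ R * η j ^ 2 := by positivity
    nlinarith [sq_nonneg (η j)]
  have hE : ∀ j, ex (q j) (fun y => ⟪mo (p j) (y : Eu n), (y : Eu n)⟫) ≤ (R ^ 2 + 2) * η j ^ 2 := by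
    intro j
    have h1 := hB j
    have h2 := hsq j
    have h3 := ee hMo (hp j) (hq j) (hcp j) (pow_pos (hη0 j) 2) (pow_le_one₀ (hη0 j).le (hη1 j))
    have h4 := sq_nonneg ‖bar (p j)‖
    have h5 := sq_nonneg ‖bar (q j)‖
    have h6 : 0 ≤ R ^ 2 * η j ^ 2 := by positivity
    nlinarith
  -- the first subsequence
  have hprop : ProperSpace (Eu n →L[ℝ] Eu n) := FiniteDimensional.proper_real _
  obtain ⟨X, hX⟩ : ∃ X : ℕ → Eu n × (Eu n →L[ℝ] Eu n) × (Eu n →L[ℝ] Eu n),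
      X = fun j => ((η j)⁻¹ • (bar (p j) - bar (q j)), mo (p j), mo (q j)) := ⟨_, rfl⟩
  have hXb : ∀ j, X j ∈ Metric.closedBall (0 : Eu n × (Eu n →L[ℝ] Eu n) × (Eu n →L[ℝ] Eu n)) (R + 1) := by
    intro j
    rw [mem_closedBall_zero_iff, hX]
    rw [norm_prod_le_iff, norm_prod_le_iff]
    refine ⟨?_, ?_, ?_⟩
    · change ‖(η j)⁻¹ • (bar (p j) - bar (q j))‖ ≤ R + 1
      rw [norm_smul, norm_inv, Real.norm_eq_abs, abs_of_pos (hη0 j)]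
      have h1 : (η j)⁻¹ * ‖bar (p j) - bar (q j)‖ ≤ (η j)⁻¹ * (R * η j) :=
        mul_le_mul_of_nonneg_left (hs1 j) (inv_nonneg.2 (hη0 j).le)
      have h2 : (η j)⁻¹ * (R * η j) = R := by
        have := (hη0 j).ne'
        field_simp
      linarith
    · change ‖mo (p j)‖ ≤ R + 1
      have := (hMo n (p j) (p j) (hp j) (hp j)).2.2.1
      linarith
    · change ‖mo (q j)‖ ≤ R + 1
      have := (hMo n (q j) (q j) (hq j) (hq j)).2.2.1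
      linarith
  obtain ⟨⟨A, M, M'⟩, -, φ, hφ, hlim⟩ := tendsto_subseq_of_bounded Metric.isBounded_closedBall hXb
  have hφt : Tendsto φ atTop atTop := hφ.tendsto_atTop
  have hAl : Tendsto (fun j => (η (φ j))⁻¹ • (bar (p (φ j)) - bar (q (φ j)))) atTop (𝓝 A) := by
    have h1 := (continuous_fst.tendsto _).comp hlim
    rw [hX] at h1
    exact h1
  have hMl : Tendsto (fun j => mo (p (φ j))) atTop (𝓝 M) := by
    have h1 := ((continuous_fst.comp continuous_snd).tendsto _).comp hlim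
    rw [hX] at h1
    exact h1
  have hM'l : Tendsto (fun j => mo (q (φ j))) atTop (𝓝 M') := by
    have h1 := ((continuous_snd.comp continuous_snd).tendsto _).comp hlim
    rw [hX] at h1
    exact h1
  have hηφ : Tendsto (fun j => η (φ j)) atTop (𝓝 0) := hηlim.comp hφt
  have hMx : ∀ x, Tendsto (fun j => mo (p (φ j)) x) atTop (𝓝 (M x)) := fun x => clm_lim hMl tendsto_const_nhds
  have hM'x : ∀ x, Tendsto (fun j => mo (q (φ j)) x) atTop (𝓝 (M' x)) := fun x => clm_lim hM'l tendsto_const_nhds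
  -- the hypotheses of `SLim`
  have k1 : ∀ x y, ⟪M x, y⟫ = ⟪x, M y⟫ := by
    intro x y
    have h1 : Tendsto (fun j => ⟪mo (p (φ j)) x, y⟫) atTop (𝓝 ⟪M x, y⟫) := (hMx x).inner tendsto_const_nhds
    have h2 : Tendsto (fun j => ⟪x, mo (p (φ j)) y⟫) atTop (𝓝 ⟪x, M y⟫) := tendsto_const_nhds.inner (hMx y)
    refine tendsto_nhds_unique h1 (h2.congr fun j => ?_)
    exact ((hMo n _ _ (hp (φ j)) (hp (φ j))).2.2.2.1 x y).symm
  have k2 : ∀ x y, ⟪M' x, y⟫ = ⟪x, M' y⟫ := by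
    intro x y
    have h1 : Tendsto (fun j => ⟪mo (q (φ j)) x, y⟫) atTop (𝓝 ⟪M' x, y⟫) := (hM'x x).inner tendsto_const_nhds
    have h2 : Tendsto (fun j => ⟪x, mo (q (φ j)) y⟫) atTop (𝓝 ⟪x, M' y⟫) := tendsto_const_nhds.inner (hM'x y)
    refine tendsto_nhds_unique h1 (h2.congr fun j => ?_)
    exact ((hMo n _ _ (hq (φ j)) (hq (φ j))).2.2.2.1 x y).symm
  have k3 : ∀ z, ‖M z‖ ^ 2 ≤ ⟪M z, z⟫ := by
    intro z
    refine le_of_tendsto_of_tendsto' ((hMx z).norm.pow 2) ((hMx z).inner tendsto_const_nhds) fun j => ?_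
    exact (hMo n _ _ (hp (φ j)) (hp (φ j))).2.2.2.2.2.1 z
  have k4 : ∀ z, 0 ≤ ⟪M' z, z⟫ := by
    intro z
    refine ge_of_tendsto' ((hM'x z).inner tendsto_const_nhds) fun j => ?_
    exact (hMo n _ _ (hq (φ j)) (hq (φ j))).2.2.2.2.1 z
  have k5 : M ≠ 0 := by
    intro h0
    have h1 : Tendsto (fun j => LinearMap.trace ℝ (Eu n) (mo (p (φ j)) : Eu n →ₗ[ℝ] Eu n)) atTop
        (𝓝 (LinearMap.trace ℝ (Eu n) (M : Eu n →ₗ[ℝ] Eu n))) := ((trace_cont n).tendsto M).comp hMl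
    have h2 : Tendsto (fun j => LinearMap.trace ℝ (Eu n) (mo (p (φ j)) : Eu n →ₗ[ℝ] Eu n)) atTop (𝓝 1) := by
      refine tendsto_const_nhds.congr fun j => ?_
      exact ((hMo n _ _ (hp (φ j)) (hp (φ j))).2.2.2.2.2.2.1).symm
    have h3 := tendsto_nhds_unique h1 h2
    have h4 : ((0 : Eu n →L[ℝ] Eu n) : Eu n →ₗ[ℝ] Eu n) = 0 := rfl
    rw [h0, h4, map_zero] at h3
    exact zero_ne_one h3
  have k6 : ∀ z, M (M' z) = 0 := by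
    intro z
    have h1 : Tendsto (fun j => mo (p (φ j)) (mo (q (φ j)) z)) atTop (𝓝 (M (M' z))) := clm_lim hMl (hM'x z)
    have h2 : Tendsto (fun j => ‖mo (p (φ j)) (mo (q (φ j)) z)‖ ^ 2) atTop (𝓝 (‖M (M' z)‖ ^ 2)) := h1.norm.pow 2
    have h3 : Tendsto (fun j => ‖z‖ ^ 2 * ((R ^ 2 + 2) * η (φ j) ^ 2)) atTop (𝓝 (‖z‖ ^ 2 * ((R ^ 2 + 2) * 0 ^ 2))) :=
      ((hηφ.pow 2).const_mul _).const_mul _
    have h4 : ‖M (M' z)‖ ^ 2 ≤ ‖z‖ ^ 2 * ((R ^ 2 + 2) * 0 ^ 2) := by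
      refine le_of_tendsto_of_tendsto' h2 h3 fun j => ?_
      exact (mm hMo (hp (φ j)) (hq (φ j)) z).trans (mul_le_mul_of_nonneg_left (hE (φ j)) (sq_nonneg _))
    have h5 : ‖M (M' z)‖ ^ 2 = 0 := le_antisymm (by simpa using h4) (sq_nonneg _)
    exact norm_eq_zero.1 (pow_eq_zero_iff (two_ne_zero) |>.1 h5)
  obtain ⟨z₀, hz₀, hker⟩ := hLim n A M M' k1 k2 k3 k4 k5 k6
  -- the kernel of `M'`
  obtain ⟨U, hU⟩ : ∃ U : Submodule ℝ (Eu n), U = LinearMap.ker (M' : Eu n →ₗ[ℝ] Eu n) := ⟨_, rfl⟩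
  have hmemU : ∀ x, x ∈ U ↔ M' x = 0 := by
    intro x
    rw [hU, LinearMap.mem_ker]
    rfl
  obtain ⟨b, hb⟩ : ∃ b : OrthonormalBasis (Fin (Module.finrank ℝ U)) ℝ U, b = stdOrthonormalBasis ℝ U := ⟨_, rfl⟩
  obtain ⟨K, hK⟩ : ∃ K : ℝ, K = 16 / c ^ 2 := ⟨_, rfl⟩
  have hK0 : 0 < K := by rw [hK]; positivity
  obtain ⟨F, hF⟩ : ∃ F : Sph n → ℝ, F = fun y : Sph n => ⟪(z₀ : Eu n), (y : Eu n)⟫ + K * ∑ i, ⟪(y : Eu n), (b i : Eu n)⟫ ^ 2 := ⟨_, rfl⟩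
  have hmean : ∀ j, ex (q j) F = ⟪(z₀ : Eu n), bar (q j)⟫ + K * ∑ i, ⟪mo (q j) (b i : Eu n), (b i : Eu n)⟫ := by
    intro j
    obtain ⟨-, -, -, -, -, -, -, -, hlin, hquad⟩ := hMo n _ _ (hq j) (hq j)
    rw [hF, ex_add, ex_mul, ex_sum, hlin]
    have h1 : ∀ i, ex (q j) (fun y => ⟪(y : Eu n), (b i : Eu n)⟫ ^ 2) = ⟪mo (q j) (b i : Eu n), (b i : Eu n)⟫ :=
      fun i => hquad _
    rw [Finset.sum_congr rfl fun i _ => h1 i]
  have hyj : ∀ j, ∃ y, 0 < q j y ∧ F y ≤ ex (q j) F := fun j => ((hMo n _ _ (hq j) (hq j)).2.2.2.2.2.2.2.1 F).1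
  choose y hy0 hyF using hyj
  have hzj : ∀ j, ∃ z : Sph n, (∀ z', qd (Dm (η j) (p j) (q j)) z' ≤ qd (Dm (η j) (p j) (q j)) z + η j ^ 2) ∧
      c ≤ ⟪(z : Eu n), (y j : Eu n)⟫ := fun j => hst j (y j) (hy0 j)
  choose z hzmax hzc using hzj
  -- the second subsequence
  obtain ⟨⟨yl, zl⟩, ψ, hψ, hlim2⟩ := CompactSpace.tendsto_subseq (fun j => ((y (φ j), z (φ j)) : Sph n × Sph n))
  have hψt : Tendsto ψ atTop atTop := hψ.tendsto_atTop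
  have hyl : Tendsto (fun j => y (φ (ψ j))) atTop (𝓝 yl) := (continuous_fst.tendsto _).comp hlim2
  have hzl : Tendsto (fun j => z (φ (ψ j))) atTop (𝓝 zl) := (continuous_snd.tendsto _).comp hlim2
  have hyl' : Tendsto (fun j => (y (φ (ψ j)) : Eu n)) atTop (𝓝 (yl : Eu n)) := (continuous_subtype_val.tendsto _).comp hyl
  have hzl' : Tendsto (fun j => (z (φ (ψ j)) : Eu n)) atTop (𝓝 (zl : Eu n)) := (continuous_subtype_val.tendsto _).comp hzl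
  -- `zl` is a maximum
  have hSl : Tendsto (fun j => mo (p (φ (ψ j))) - mo (q (φ (ψ j)))) atTop (𝓝 (M - M')) :=
    (hMl.comp hψt).sub (hM'l.comp hψt)
  have hAl' : Tendsto (fun j => (η (φ (ψ j)))⁻¹ • (bar (p (φ (ψ j))) - bar (q (φ (ψ j))))) atTop (𝓝 A) := hAl.comp hψt
  have hηψ : Tendsto (fun j => η (φ (ψ j))) atTop (𝓝 0) := hηφ.comp hψt
  have hmaxl : ∀ z', qd (A, M - M') z' ≤ qd (A, M - M') zl := by
    intro z'
    have h1 : Tendsto (fun j => ⟪(η (φ (ψ j)))⁻¹ • (bar (p (φ (ψ j))) - bar (q (φ (ψ j)))), (z' : Eu n)⟫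
        + ⟪(mo (p (φ (ψ j))) - mo (q (φ (ψ j)))) (z' : Eu n), (z' : Eu n)⟫) atTop (𝓝 (qd (A, M - M') z')) :=
      (hAl'.inner tendsto_const_nhds).add ((clm_lim hSl tendsto_const_nhds).inner tendsto_const_nhds)
    have h2 : Tendsto (fun j => (⟪(η (φ (ψ j)))⁻¹ • (bar (p (φ (ψ j))) - bar (q (φ (ψ j)))), (z (φ (ψ j)) : Eu n)⟫
        + ⟪(mo (p (φ (ψ j))) - mo (q (φ (ψ j)))) (z (φ (ψ j)) : Eu n), (z (φ (ψ j)) : Eu n)⟫) + η (φ (ψ j))) atTop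
        (𝓝 (qd (A, M - M') zl + 0)) :=
      ((hAl'.inner hzl').add ((clm_lim hSl hzl').inner hzl')).add hηψ
    rw [add_zero] at h2
    refine le_of_tendsto_of_tendsto' h1 h2 fun j => ?_
    have h3 := hzmax (φ (ψ j)) z'
    rw [qd_Dm, qd_Dm] at h3
    have h4 := hη0 (φ (ψ j))
    rw [real_inner_smul_left, real_inner_smul_left]
    have h5 : (η (φ (ψ j)))⁻¹ * η (φ (ψ j)) = 1 := inv_mul_cancel₀ h4.ne'
    have h6 := mul_le_mul_of_nonneg_left h3 (inv_nonneg.2 h4.le)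
    have h7 : (η (φ (ψ j)))⁻¹ * (⟪bar (p (φ (ψ j))) - bar (q (φ (ψ j))), (z' : Eu n)⟫
        + η (φ (ψ j)) * ⟪(mo (p (φ (ψ j))) - mo (q (φ (ψ j)))) (z' : Eu n), (z' : Eu n)⟫)
        = (η (φ (ψ j)))⁻¹ * ⟪bar (p (φ (ψ j))) - bar (q (φ (ψ j))), (z' : Eu n)⟫
          + ⟪(mo (p (φ (ψ j))) - mo (q (φ (ψ j)))) (z' : Eu n), (z' : Eu n)⟫ := by
      rw [mul_add, ← mul_assoc, h5, one_mul]
    have h8 : (η (φ (ψ j)))⁻¹ * (⟪bar (p (φ (ψ j))) - bar (q (φ (ψ j))), (z (φ (ψ j)) : Eu n)⟫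
        + η (φ (ψ j)) * ⟪(mo (p (φ (ψ j))) - mo (q (φ (ψ j)))) (z (φ (ψ j)) : Eu n), (z (φ (ψ j)) : Eu n)⟫ + η (φ (ψ j)) ^ 2)
        = (η (φ (ψ j)))⁻¹ * ⟪bar (p (φ (ψ j))) - bar (q (φ (ψ j))), (z (φ (ψ j)) : Eu n)⟫
          + ⟪(mo (p (φ (ψ j))) - mo (q (φ (ψ j)))) (z (φ (ψ j)) : Eu n), (z (φ (ψ j)) : Eu n)⟫ + η (φ (ψ j)) := by
      rw [mul_add, mul_add, ← mul_assoc, h5, one_mul, pow_two, ← mul_assoc, h5, one_mul]
    rw [h7, h8] at h6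
    exact h6
  -- `F yl ≤ 0`
  have hFc : Continuous F := by
    rw [hF]
    refine (continuous_const.inner continuous_subtype_val).add (continuous_const.mul ?_)
    refine continuous_finsetSum _ fun i _ => ?_
    exact (continuous_subtype_val.inner continuous_const).pow 2
  have hmeanl : Tendsto (fun j => ex (q (φ (ψ j))) F) atTop (𝓝 0) := by
    have h1 : Tendsto (fun j => bar (q (φ (ψ j)))) atTop (𝓝 0) := by
      refine squeeze_zero_norm (fun j => hbq (φ (ψ j))) ?_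
      have := hηψ.const_mul (R + 2)
      rwa [mul_zero] at this
    have h2 : Tendsto (fun j => ⟪(z₀ : Eu n), bar (q (φ (ψ j)))⟫ + K * ∑ i, ⟪mo (q (φ (ψ j))) (b i : Eu n), (b i : Eu n)⟫) atTop
        (𝓝 (⟪(z₀ : Eu n), 0⟫ + K * ∑ i, ⟪M' (b i : Eu n), (b i : Eu n)⟫)) := by
      refine (tendsto_const_nhds.inner h1).add (Tendsto.const_mul _ ?_)
      refine tendsto_finsetSum _ fun i _ => ?_
      exact (((hM'x (b i : Eu n)).comp hψt)).inner tendsto_const_nhds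
    have h3 : ⟪(z₀ : Eu n), 0⟫ + K * ∑ i, ⟪M' (b i : Eu n), (b i : Eu n)⟫ = 0 := by
      have h4 : ∀ i, ⟪M' (b i : Eu n), (b i : Eu n)⟫ = 0 := by
        intro i
        rw [(hmemU _).1 (b i).2, inner_zero_left]
      rw [inner_zero_right, Finset.sum_congr rfl fun i _ => h4 i]
      simp
    rw [h3] at h2
    exact h2.congr fun j => (hmean _).symm
  have hFyl : F yl ≤ 0 :=
    le_of_tendsto_of_tendsto' ((hFc.tendsto yl).comp hyl) hmeanl fun j => hyF (φ (ψ j))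
  have hzyl : c ≤ ⟪(zl : Eu n), (yl : Eu n)⟫ := ge_of_tendsto' (hzl'.inner hyl') fun j => hzc (φ (ψ j))
  -- conclusion
  have hN0 : 0 ≤ ∑ i, ⟪(yl : Eu n), (b i : Eu n)⟫ ^ 2 := Finset.sum_nonneg fun i _ => sq_nonneg _
  rw [hF] at hFyl
  obtain ⟨N, hN⟩ : ∃ N : ℝ, N = ∑ i, ⟪(yl : Eu n), (b i : Eu n)⟫ ^ 2 := ⟨_, rfl⟩
  change ⟪(z₀ : Eu n), (yl : Eu n)⟫ + K * ∑ i, ⟪(yl : Eu n), (b i : Eu n)⟫ ^ 2 ≤ 0 at hFyl
  rw [← hN] at hFyl hN0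
  have h1 : -1 ≤ ⟪(z₀ : Eu n), (yl : Eu n)⟫ := by
    have h6 := neg_le_of_abs_le (abs_real_inner_le_norm (z₀ : Eu n) (yl : Eu n))
    rw [nv, nv] at h6
    linarith
  have h2 : ⟪(z₀ : Eu n), (yl : Eu n)⟫ ≤ 0 := by
    have := mul_nonneg hK0.le hN0
    linarith
  have h3 : K * N ≤ 1 := by linarith
  have h4 := inner_le_of_mem U b ((zl : Eu n) - z₀) ((hmemU _).2 (hker zl hmaxl)) (yl : Eu n)
  rw [← hN] at h4
  have h5 : ‖(zl : Eu n) - z₀‖ ≤ 2 := by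
    have := norm_sub_le (zl : Eu n) (z₀ : Eu n)
    rw [nv, nv] at this
    linarith
  have h6 : ‖(zl : Eu n) - z₀‖ ^ 2 ≤ 4 := by
    have := norm_nonneg ((zl : Eu n) - z₀)
    nlinarith
  have h7 : N ≤ c ^ 2 / 16 := by
    rw [hK, div_mul_eq_mul_div, div_le_one (by positivity)] at h3
    linarith
  have h8 : ⟪(zl : Eu n) - z₀, (yl : Eu n)⟫ ^ 2 ≤ (c / 2) ^ 2 := by
    have := mul_le_mul h6 h7 hN0 (by norm_num : (0 : ℝ) ≤ 4)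
    nlinarith
  have h9 : ⟪(zl : Eu n) - z₀, (yl : Eu n)⟫ ≤ c / 2 := le_of_sq_le_sq h8 (by positivity)
  rw [inner_sub_left] at h9
  linarith

end Pool.Agent.MPaafd8a
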