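import Pool.Agent.Lib.MP_aafd8a_gt.Spec

/-!
# MP_aafd8a_gt: generic choice of witnesses (`SGen`)
-/

set_option autoImplicit false

open Topology

namespace Pool.Agent.MPaafd8a

/-- A point of a nonempty open set of the sphere outside finitely many proper subspaces. -/
private theorem gen_point {n : ℕ} (O : Set (Sph n)) (hO : IsOpen O) (hne : O.Nonempty)
    {κ : Type} (T : Finset κ) (W : κ → Submodule ℝ (Eu n)) (hW : ∀ k ∈ T, W k ≠ ⊤) :
    ∃ z : Sph n, z ∈ O ∧ ∀ k ∈ T, (z : Eu n) ∉ W k := by
  obtain ⟨U, hU, hUO⟩ := isOpen_induced_iff.1 hO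
  have hcont : ContinuousOn (fun x : Eu n => ‖x‖⁻¹ • x) {x | x ≠ 0} := by
    refine ContinuousOn.smul (ContinuousOn.inv₀ continuous_norm.continuousOn ?_) continuousOn_id
    intro x hx
    exact norm_ne_zero_iff.2 hx
  have hopen : IsOpen ({x : Eu n | x ≠ 0} ∩ (fun x : Eu n => ‖x‖⁻¹ • x) ⁻¹' U) :=
    hcont.isOpen_inter_preimage isOpen_ne hU
  have hnon : ({x : Eu n | x ≠ 0} ∩ (fun x : Eu n => ‖x‖⁻¹ • x) ⁻¹' U).Nonempty := by
    obtain ⟨z, hz⟩ := hne
    have hz1 : ‖(z : Eu n)‖ = 1 := mem_sphere_zero_iff_norm.1 z.2
    refine ⟨(z : Eu n), ?_, ?_⟩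
    · intro h
      rw [h, norm_zero] at hz1
      exact zero_ne_one hz1
    · show ‖(z : Eu n)‖⁻¹ • (z : Eu n) ∈ U
      rw [hz1, inv_one, one_smul]
      have : z ∈ Subtype.val ⁻¹' U := by
        rw [hUO]
        exact hz
      exact this
  have hdense : Dense (⋂ k ∈ (T : Set κ), ((W k : Set (Eu n))ᶜ)) := by
    refine dense_biInter_of_isOpen ?_ T.countable_toSet ?_
    · intro k _
      exact (Submodule.closed_of_finiteDimensional (W k)).isOpen_compl
    · intro k hk
      rw [← interior_eq_empty_iff_dense_compl]
      by_contra h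
      exact hW k hk (Submodule.eq_top_of_nonempty_interior' (W k) (Set.nonempty_iff_ne_empty.2 h))
  obtain ⟨x, hx, hxG⟩ := hdense.inter_open_nonempty _ hopen hnon
  have hx0 : x ≠ 0 := hx.1
  have hxn : ‖x‖ ≠ 0 := norm_ne_zero_iff.2 hx0
  have hz1 : ‖(‖x‖⁻¹ • x : Eu n)‖ = 1 := by
    rw [norm_smul, norm_inv, norm_norm]
    exact inv_mul_cancel₀ hxn
  refine ⟨⟨‖x‖⁻¹ • x, mem_sphere_zero_iff_norm.2 hz1⟩, ?_, ?_⟩
  · rw [← hUO]
    exact hx.2
  · intro k hk hmem
    have h1 : x ∈ W k := by
      have h2 := (W k).smul_mem ‖x‖ hmem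
      rw [smul_smul, mul_inv_cancel₀ hxn, one_smul] at h2
      exact h2
    exact (Set.mem_iInter₂.1 hxG k (Finset.mem_coe.2 hk)) h1

theorem pGen : SGen := by
  classical
  intro n ι _ O hO hne
  have claim : ∀ J : Finset ι, ∃ y : ι → Sph n, (∀ i ∈ J, y i ∈ O i) ∧
      ∀ S : Finset ι, S ⊆ J → S.card ≤ n + 1 →
        LinearIndepOn ℝ (fun i => (y i : Eu n)) (S : Set ι) := by
    intro J
    induction J using Finset.induction_on with
    | empty =>
      refine ⟨fun i => (hne i).some, fun i hi => absurd hi (Finset.notMem_empty i), ?_⟩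
      intro S hS _
      rw [Finset.subset_empty.1 hS, Finset.coe_empty]
      exact linearIndepOn_empty _ _
    | insert j J hj ih =>
      obtain ⟨y, hy, hind⟩ := ih
      obtain ⟨z, hz, hzW⟩ := gen_point (O j) (hO j) (hne j) (J.powerset.filter (fun S => S.card ≤ n))
        (fun S => Submodule.span ℝ ((fun i => (y i : Eu n)) '' (S : Set ι))) (by
          intro S hS htop
          have hc : S.card ≤ n := (Finset.mem_filter.1 hS).2
          have h1 : Module.finrank ℝ (Submodule.span ℝ ((fun i => (y i : Eu n)) '' (S : Set ι))) ≤ n := by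
            have h2 := finrank_span_finset_le_card (R := ℝ) (S.image (fun i => (y i : Eu n)))
            rw [Finset.coe_image] at h2
            exact h2.trans (Finset.card_image_le.trans hc)
          rw [htop, finrank_top, finrank_euclideanSpace_fin] at h1
          omega)
      refine ⟨Function.update y j z, ?_, ?_⟩
      · intro i hi
        rcases Finset.mem_insert.1 hi with h | h
        · subst h
          rw [Function.update_self]
          exact hz
        · have hij : i ≠ j := fun h' => hj (h' ▸ h)
          rw [Function.update_of_ne hij]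
          exact hy i h
      · intro S hS hcard
        have hcongr : ∀ T : Finset ι, T ⊆ J →
            Set.EqOn (fun i => (y i : Eu n)) (fun i => (Function.update y j z i : Eu n)) (T : Set ι) := by
          intro T hT i hi
          have hij : i ≠ j := fun h' => hj (h' ▸ hT hi)
          show (y i : Eu n) = (Function.update y j z i : Eu n)
          rw [Function.update_of_ne hij]
        by_cases hjS : j ∈ S
        · have hT : S.erase j ⊆ J := by
            intro i hi
            rcases Finset.mem_insert.1 (hS (Finset.mem_of_mem_erase hi)) with h | h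
            · exact absurd h (Finset.ne_of_mem_erase hi)
            · exact h
          have hTc : (S.erase j).card ≤ n := by
            rw [Finset.card_erase_of_mem hjS]
            omega
          have h1 : LinearIndepOn ℝ (fun i => (Function.update y j z i : Eu n)) ((S.erase j : Finset ι) : Set ι) :=
            (linearIndepOn_congr (hcongr _ hT)).1 (hind _ hT (by omega))
          have h2 : (Function.update y j z j : Eu n) ∉
              Submodule.span ℝ ((fun i => (Function.update y j z i : Eu n)) '' ((S.erase j : Finset ι) : Set ι)) := by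
            rw [Function.update_self, ← Set.EqOn.image_eq (hcongr _ hT)]
            exact hzW _ (Finset.mem_filter.2 ⟨Finset.mem_powerset.2 hT, hTc⟩)
          have h3 := h1.insert h2
          rw [← Finset.coe_insert, Finset.insert_erase hjS] at h3
          exact h3
        · have hT : S ⊆ J := by
            intro i hi
            rcases Finset.mem_insert.1 (hS hi) with h | h
            · exact absurd (h ▸ hi) hjS
            · exact h
          exact (linearIndepOn_congr (hcongr _ hT)).1 (hind _ hT hcard)
  obtain ⟨y, hy, hind⟩ := claim Finset.univ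
  exact ⟨y, fun i => hy i (Finset.mem_univ i), fun S hS => hind S (Finset.subset_univ S) hS⟩

end Pool.Agent.MPaafd8a
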