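import Pool.Agent.Lib.MP_aafd8a_gt.Spec3

/-!
# MP_aafd8a_gt: general position of vectors (`SGenV`)
-/

set_option autoImplicit false

open MeasureTheory

namespace Pool.Agent.MPaafd8a

namespace GenVAux

/-- a point in a ball outside finitely many proper subspaces -/
theorem exists_avoid {D : ℕ} (F : Finset (Submodule ℝ (Fin D → ℝ))) (hF : ∀ p ∈ F, p ≠ ⊤)
    (x : Fin D → ℝ) {δ : ℝ} (hδ : 0 < δ) : ∃ y, dist y x < δ ∧ ∀ p ∈ F, y ∉ p := by
  by_contra hcon
  push Not at hcon
  have h1 : Metric.ball x δ ⊆ ⋃ p ∈ F, ((p : Submodule ℝ (Fin D → ℝ)) : Set (Fin D → ℝ)) := by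
    intro y hy
    obtain ⟨p, hp, hyp⟩ := hcon y hy
    exact Set.mem_iUnion₂.mpr ⟨p, hp, hyp⟩
  have h2 : (volume : Measure (Fin D → ℝ))
      (⋃ p ∈ F, ((p : Submodule ℝ (Fin D → ℝ)) : Set (Fin D → ℝ))) = 0 :=
    (measure_biUnion_null_iff F.countable_toSet).mpr
      (fun p hp => Measure.addHaar_submodule volume p (hF p hp))
  have h3 : 0 < (volume : Measure (Fin D → ℝ)) (Metric.ball x δ) :=
    Metric.measure_ball_pos volume x hδ
  exact h3.ne' (measure_mono_null h1 h2)

/-- few vectors span a proper subspace -/
theorem span_ne_top {D : ℕ} {ι : Type} (w : ι → Fin D → ℝ) (S : Finset ι) (hS : S.card < D) :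
    Submodule.span ℝ (w '' (S : Set ι)) ≠ ⊤ := by
  classical
  intro htop
  have h1 : Module.finrank ℝ (Submodule.span ℝ ((S.image w : Finset (Fin D → ℝ)) :
      Set (Fin D → ℝ))) ≤ (S.image w).card := finrank_span_finset_le_card _
  rw [Finset.coe_image, htop, finrank_top, Module.finrank_fin_fun] at h1
  have h2 : (S.image w).card ≤ S.card := Finset.card_image_le
  omega

/-- the induction -/
theorem main {D : ℕ} {ι : Type} [DecidableEq ι] (h : ι → Fin D → ℝ) {δ : ℝ} (hδ : 0 < δ)
    (T : Finset ι) : ∃ w : ι → Fin D → ℝ, (∀ i, dist (w i) (h i) < δ) ∧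
      ∀ S : Finset ι, S ⊆ T → S.card ≤ D → LinearIndepOn ℝ w (S : Set ι) := by
  classical
  induction T using Finset.induction_on with
  | empty =>
    refine ⟨h, fun i => by rw [dist_self]; exact hδ, fun S hS _ => ?_⟩
    rw [Finset.subset_empty.mp hS, Finset.coe_empty]
    exact linearIndepOn_empty ℝ h
  | insert j T hj ih =>
    obtain ⟨w, hw, hlin⟩ := ih
    obtain ⟨y, hy, hyp⟩ := exists_avoid
      ((T.powerset.filter (fun S => S.card < D)).image
        (fun S : Finset ι => Submodule.span ℝ (w '' (S : Set ι))))
      (fun p hp => by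
        obtain ⟨S, hS, rfl⟩ := Finset.mem_image.mp hp
        exact span_ne_top w S (Finset.mem_filter.mp hS).2) (h j) hδ
    refine ⟨Function.update w j y, fun i => ?_, fun S hS hcard => ?_⟩
    · by_cases hij : i = j
      · subst hij
        rw [Function.update_self]
        exact hy
      · rw [Function.update_of_ne hij]
        exact hw i
    · have hcongr : ∀ S' : Finset ι, j ∉ S' → ∀ i ∈ (S' : Set ι), Function.update w j y i = w i := by
        intro S' hS' i hi
        have hne : i ≠ j := by
          rintro rfl
          exact hS' (Finset.mem_coe.mp hi)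
        exact Function.update_of_ne hne _ _
      by_cases hjS : j ∈ S
      · have hins : S = insert j (S.erase j) := (Finset.insert_erase hjS).symm
        have hnot : j ∉ S.erase j := Finset.notMem_erase j S
        have hsub : S.erase j ⊆ T := by
          intro i hi
          have h1 := Finset.mem_erase.mp hi
          rcases Finset.mem_insert.mp (hS h1.2) with h2 | h2
          · exact absurd h2 h1.1
          · exact h2
        have hc : (S.erase j).card < D := by
          have h1 := Finset.card_erase_of_mem hjS
          have h2 : 0 < S.card := Finset.card_pos.mpr ⟨j, hjS⟩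
          omega
        have hlin' : LinearIndepOn ℝ (Function.update w j y) ((S.erase j : Finset ι) : Set ι) :=
          (linearIndepOn_congr (fun i hi => hcongr _ hnot i hi)).mpr (hlin _ hsub hc.le)
        have himg : Function.update w j y '' ((S.erase j : Finset ι) : Set ι) =
            w '' ((S.erase j : Finset ι) : Set ι) :=
          Set.image_congr (fun i hi => hcongr _ hnot i hi)
        rw [hins, Finset.coe_insert]
        refine (linearIndepOn_insert (by exact_mod_cast hnot)).mpr ⟨hlin', ?_⟩
        rw [Function.update_self, himg]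
        exact hyp _ (Finset.mem_image.mpr ⟨S.erase j, Finset.mem_filter.mpr
          ⟨Finset.mem_powerset.mpr hsub, hc⟩, rfl⟩)
      · have hsub : S ⊆ T := by
          intro i hi
          rcases Finset.mem_insert.mp (hS hi) with h2 | h2
          · exact absurd (h2 ▸ hi) hjS
          · exact h2
        exact (linearIndepOn_congr (fun i hi => hcongr _ hjS i hi)).mpr (hlin _ hsub hcard)

end GenVAux

/-- **General position of vectors.** -/
theorem pGenV : SGenV := by
  intro D ι _ h δ hδ
  classical
  obtain ⟨w, hw, hlin⟩ := GenVAux.main h hδ (Finset.univ : Finset ι)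
  exact ⟨w, hw, fun S hS => hlin S (Finset.subset_univ S) hS⟩

end Pool.Agent.MPaafd8a
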