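import Pool.Agent.Lib.MP_aafd8a_gt.Spec2

/-!
# MP_aafd8a_gt: one dimension more
-/

set_option autoImplicit false

open Topology RealInnerProductSpace

namespace Pool.Agent.MPaafd8a

namespace HemiAux

variable {d : ℕ}

/-- a point of the sphere -/
noncomputable def pt0 (d : ℕ) : CSph (d + 1) := ⟨fun _ => 1, by
  rw [mem_sphere_zero_iff_norm, pi_norm_const, norm_one]⟩

/-- the direction of a vector -/
noncomputable def dir (w : Fin (d + 1) → ℝ) : CSph (d + 1) := by
  classical
  exact if h : w = 0 then pt0 d else ⟨‖w‖⁻¹ • w, by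
    rw [mem_sphere_zero_iff_norm, norm_smul, norm_inv, norm_norm,
      inv_mul_cancel₀ (norm_ne_zero_iff.2 h)]⟩

theorem dir_coe {w : Fin (d + 1) → ℝ} (h : w ≠ 0) : (dir w : Fin (d + 1) → ℝ) = ‖w‖⁻¹ • w := by
  unfold dir
  rw [dif_neg h]

theorem dir_neg {w : Fin (d + 1) → ℝ} (h : w ≠ 0) : dir (-w) = -dir w := by
  apply Subtype.ext
  rw [dir_coe (neg_ne_zero.2 h), norm_neg, smul_neg]
  change _ = -(dir w : Fin (d + 1) → ℝ)
  rw [dir_coe h]

/-- the tail of a point of the sphere -/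
def tl (u : CSph (d + 2)) : Fin (d + 1) → ℝ := fun i => (u : Fin (d + 2) → ℝ) i.succ

/-- the first coordinate -/
def hd (u : CSph (d + 2)) : ℝ := (u : Fin (d + 2) → ℝ) 0

theorem tl_neg (u : CSph (d + 2)) : tl (-u) = -tl u := rfl

theorem hd_neg (u : CSph (d + 2)) : hd (-u) = -hd u := rfl

theorem continuous_tl : Continuous (tl : CSph (d + 2) → Fin (d + 1) → ℝ) :=
  continuous_pi fun i => (continuous_apply i.succ).comp continuous_subtype_val

theorem continuous_hd : Continuous (hd : CSph (d + 2) → ℝ) :=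
  (continuous_apply 0).comp continuous_subtype_val

theorem abs_hd_le (u : CSph (d + 2)) : |hd u| ≤ 1 := by
  have h1 := norm_le_pi_norm (u : Fin (d + 2) → ℝ) 0
  rw [mem_sphere_zero_iff_norm.1 u.2] at h1
  exact h1

theorem abs_hd_eq (u : CSph (d + 2)) (h : ‖tl u‖ < 1) : |hd u| = 1 := by
  by_contra h1
  have h2 : |hd u| < 1 := lt_of_le_of_ne (abs_hd_le u) h1
  have h3 : ‖(u : Fin (d + 2) → ℝ)‖ < 1 := by
    rw [pi_norm_lt_iff zero_lt_one]
    intro i
    refine Fin.cases ?_ (fun j => ?_) i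
    · exact h2
    · exact (norm_le_pi_norm (tl u) j).trans_lt h
  rw [mem_sphere_zero_iff_norm.1 u.2] at h3
  exact lt_irrefl _ h3

variable {Y : Type} [TopologicalSpace Y]

/-- the map on the upper hemisphere -/
noncomputable def fn (H : C(unitInterval × CSph (d + 1), Y)) (a : Y) (u : CSph (d + 2)) : Y := by
  classical
  exact if (1 / 2 : ℝ) ≤ ‖tl u‖ then H (⟨|hd u|, abs_nonneg _, abs_hd_le u⟩, dir (tl u)) else a

theorem fn_pos (H : C(unitInterval × CSph (d + 1), Y)) (a : Y) {u : CSph (d + 2)}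
    (h : (1 / 2 : ℝ) ≤ ‖tl u‖) :
    fn H a u = H (⟨|hd u|, abs_nonneg _, abs_hd_le u⟩, dir (tl u)) := by
  unfold fn
  rw [if_pos h]

theorem fn_neg (H : C(unitInterval × CSph (d + 1), Y)) (a : Y) {u : CSph (d + 2)}
    (h : ¬ (1 / 2 : ℝ) ≤ ‖tl u‖) : fn H a u = a := by
  unfold fn
  rw [if_neg h]

theorem tl_ne {u : CSph (d + 2)} (h : (1 / 2 : ℝ) ≤ ‖tl u‖) : tl u ≠ 0 := by
  intro h0
  rw [h0, norm_zero] at h
  linarith

theorem continuous_fn (H : C(unitInterval × CSph (d + 1), Y)) (a : Y) (hH : ∀ x, H (1, x) = a) :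
    Continuous (fn H a) := by
  classical
  have h0 : fn H a = fun u => if (1 / 2 : ℝ) ≤ ‖tl u‖ then
      H (⟨|hd u|, abs_nonneg _, abs_hd_le u⟩, dir (tl u)) else a := by
    funext u
    by_cases h : (1 / 2 : ℝ) ≤ ‖tl u‖
    · rw [fn_pos H a h, if_pos h]
    · rw [fn_neg H a h, if_neg h]
  rw [h0]
  refine continuous_if_le continuous_const continuous_tl.norm ?_ continuousOn_const
    (fun u hu => ?_)
  · refine H.continuous.comp_continuousOn (ContinuousOn.prodMk ?_ ?_)
    · exact (continuous_hd.abs.subtype_mk _).continuousOn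
    · rw [IsInducing.subtypeVal.continuousOn_iff]
      have h1 : ContinuousOn (fun u : CSph (d + 2) => ‖tl u‖⁻¹ • tl u)
          {u | (1 / 2 : ℝ) ≤ ‖tl u‖} := by
        refine ContinuousOn.smul (continuous_tl.norm.continuousOn.inv₀ fun u hu => ?_)
          continuous_tl.continuousOn
        exact norm_ne_zero_iff.2 (tl_ne hu)
      exact h1.congr fun u hu => dir_coe (tl_ne hu)
  · rw [← hH (dir (tl u))]
    have h1 : |hd u| = 1 := abs_hd_eq u (by rw [← hu]; norm_num)
    congr 2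
    exact Subtype.ext h1

theorem fn_zero (H : C(unitInterval × CSph (d + 1), Y)) (a : Y) {u : CSph (d + 2)}
    (h : hd u = 0) : tl u ≠ 0 ∧ fn H a u = H (0, dir (tl u)) := by
  have h1 : ¬ ‖tl u‖ < 1 := by
    intro h1
    have := abs_hd_eq u h1
    rw [h, abs_zero] at this
    exact zero_ne_one this
  have h2 : (1 / 2 : ℝ) ≤ ‖tl u‖ := by linarith
  refine ⟨tl_ne h2, ?_⟩
  rw [fn_pos H a h2]
  congr 2
  apply Subtype.ext
  change |hd u| = 0
  rw [h, abs_zero]

end HemiAux

open HemiAux in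
theorem pHemi : SHemi := by
  classical
  intro n c K d P N a b hN hPH
  obtain ⟨F, G, hFG⟩ := hPH
  have hF1 : ∀ x, F.toContinuousMap (1, x) = a := fun x => F.apply_one x
  have hG1 : ∀ x, G.toContinuousMap (1, x) = b := fun x => G.apply_one x
  have hsymm : ∀ p q : Geo K, Comp c p q → Comp c q p := by
    intro p q h v w hv hw
    rw [real_inner_comm]
    exact h w v hw hv
  have hFc := continuous_fn F.toContinuousMap a hF1
  have hGc := continuous_fn G.toContinuousMap b hG1
  have hcomp : ∀ u : CSph (d + 2), Comp c (fn F.toContinuousMap a u) (fn G.toContinuousMap b u) := by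
    intro u
    by_cases h : (1 / 2 : ℝ) ≤ ‖tl u‖
    · rw [fn_pos _ _ h, fn_pos _ _ h]
      exact hFG _ _
    · rw [fn_neg _ _ h, fn_neg _ _ h, ← hF1 (pt0 d), ← hG1 (pt0 d)]
      exact hFG _ _
  have hzero : ∀ u : CSph (d + 2), 0 = hd u →
      fn F.toContinuousMap a u = fn G.toContinuousMap b (-u) := by
    intro u hu
    obtain ⟨h1, h2⟩ := fn_zero F.toContinuousMap a hu.symm
    obtain ⟨-, h3⟩ := fn_zero G.toContinuousMap b (u := -u) (by rw [hd_neg, ← hu, neg_zero])
    rw [h2, h3, tl_neg, dir_neg h1]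
    have h4 : F.toContinuousMap (0, dir (tl u)) = P (dir (tl u)) := F.apply_zero _
    have h5 : G.toContinuousMap (0, -dir (tl u)) = N (-dir (tl u)) := G.apply_zero _
    rw [h4, h5, hN, neg_neg]
  let P' : C(CSph (d + 2), Geo K) :=
    ⟨fun u => if 0 ≤ hd u then fn F.toContinuousMap a u else fn G.toContinuousMap b (-u),
      Continuous.if_le hFc (hGc.comp continuous_neg) continuous_const continuous_hd hzero⟩
  have hP1 : ∀ u, 0 ≤ hd u → P' u = fn F.toContinuousMap a u := fun u hu => if_pos hu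
  have hP2 : ∀ u, hd u ≤ 0 → P' u = fn G.toContinuousMap b (-u) := by
    intro u hu
    by_cases h : 0 ≤ hd u
    · rw [hP1 u h]
      exact hzero u (le_antisymm h hu)
    · exact if_neg h
  refine ⟨P', fun u => ?_⟩
  rcases le_total 0 (hd u) with h | h
  · rw [hP1 u h, hP2 (-u) (by rw [hd_neg]; linarith), neg_neg]
    exact hcomp u
  · rw [hP2 u h, hP1 (-u) (by rw [hd_neg]; linarith)]
    exact hsymm _ _ (hcomp (-u))

end Pool.Agent.MPaafd8a
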