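import Pool.Agent.Lib.MP_aafd8a_gt.Spec

/-!
# MP_aafd8a_gt: Kuhn partition of unity on the boundary of the cube
-/

set_option autoImplicit false

open Topology RealInnerProductSpace

namespace Pool.Agent.MPaafd8a

namespace Kuhn

variable {D : ℕ}

/-- the gauge of the Kuhn triangulation at the lattice point `z` -/
private noncomputable def mu (z : Fin D → ℤ) (y : Fin D → ℝ) : ℝ :=
  ‖fun k => max 0 (y k - z k)‖ + ‖fun k => max 0 ((z k : ℝ) - y k)‖

/-- the hat function of the lattice point `z` -/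
private noncomputable def phi (z : Fin D → ℤ) (y : Fin D → ℝ) : ℝ := max 0 (1 - mu z y)

private theorem phi_cont (z : Fin D → ℤ) : Continuous (phi z) := by
  unfold phi mu
  refine continuous_const.max (continuous_const.sub (Continuous.add ?_ ?_))
  · exact (continuous_pi fun k => continuous_const.max ((continuous_apply k).sub continuous_const)).norm
  · exact (continuous_pi fun k => continuous_const.max (continuous_const.sub (continuous_apply k))).norm

private theorem phi_nonneg (z : Fin D → ℤ) (y : Fin D → ℝ) : 0 ≤ phi z y := le_max_left _ _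

private theorem le_one (z : Fin D → ℤ) (y : Fin D → ℝ) (k : Fin D) :
    y k - z k ≤ ‖fun k => max 0 (y k - z k)‖ := by
  have h1 := norm_le_pi_norm (fun k => max 0 (y k - z k)) k
  exact (le_max_right 0 _).trans ((le_abs_self _).trans h1)

private theorem le_two (z : Fin D → ℤ) (y : Fin D → ℝ) (k : Fin D) :
    (z k : ℝ) - y k ≤ ‖fun k => max 0 ((z k : ℝ) - y k)‖ := by
  have h1 := norm_le_pi_norm (fun k => max 0 ((z k : ℝ) - y k)) k
  exact (le_max_right 0 _).trans ((le_abs_self _).trans h1)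

private theorem mu_lt {z : Fin D → ℤ} {y : Fin D → ℝ} (h : 0 < phi z y) : mu z y < 1 := by
  unfold phi at h
  rcases lt_max_iff.1 h with h | h
  · exact absurd h (lt_irrefl 0)
  · linarith

private theorem pair_lt {z : Fin D → ℤ} {y : Fin D → ℝ} (h : 0 < phi z y) (k l : Fin D) :
    (y k - z k) + ((z l : ℝ) - y l) < 1 := by
  have h1 := mu_lt h
  unfold mu at h1
  have h2 := le_one z y k
  have h3 := le_two z y l
  linarith

private theorem one_lt {z : Fin D → ℤ} {y : Fin D → ℝ} (h : 0 < phi z y) (k : Fin D) :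
    y k - z k < 1 ∧ (z k : ℝ) - y k < 1 := by
  have h1 := mu_lt h
  unfold mu at h1
  have h2 := le_one z y k
  have h3 := le_two z y k
  have h4 := norm_nonneg (fun k => max 0 (y k - z k))
  have h5 := norm_nonneg (fun k => max 0 ((z k : ℝ) - y k))
  constructor <;> linarith

private theorem phi_floor (y : Fin D → ℝ) : 0 < phi (fun k => ⌊y k⌋) y := by
  unfold phi mu
  refine lt_max_of_lt_right ?_
  have h1 : ‖fun k => max 0 (y k - ((⌊y k⌋ : ℤ) : ℝ))‖ < 1 := by
    rw [pi_norm_lt_iff one_pos]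
    intro k
    have h2 := Int.floor_le (y k)
    have h3 := Int.lt_floor_add_one (y k)
    rw [max_eq_right (by linarith), Real.norm_eq_abs, abs_of_nonneg (by linarith)]
    linarith
  have h2 : (fun k => max 0 (((⌊y k⌋ : ℤ) : ℝ) - y k)) = (0 : Fin D → ℝ) := by
    funext k
    have h2 := Int.floor_le (y k)
    exact max_eq_left (by linarith)
  rw [h2, norm_zero]
  linarith

private theorem bnd {z : Fin D → ℤ} {y : Fin D → ℝ} (h : 0 < phi z y) (k : Fin D) :
    ⌊y k⌋ ≤ z k ∧ z k ≤ ⌊y k⌋ + 1 := by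
  obtain ⟨h1, h2⟩ := one_lt h k
  constructor
  · have h3 : y k < ((z k + 1 : ℤ) : ℝ) := by
      push_cast
      linarith
    have h4 := Int.floor_lt.2 h3
    omega
  · have h3 : (z k : ℝ) < ((⌊y k⌋ + 2 : ℤ) : ℝ) := by
      have h5 := Int.lt_floor_add_one (y k)
      push_cast
      linarith
    have h4 : z k < ⌊y k⌋ + 2 := by exact_mod_cast h3
    omega

private theorem sum_inj {z z' : Fin D → ℤ} {y : Fin D → ℝ} (h : 0 < phi z y) (h' : 0 < phi z' y)
    (hs : ∑ k, z k ≤ ∑ k, z' k) (k : Fin D) : z k ≤ z' k := by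
  by_contra hk
  rw [not_le] at hk
  obtain ⟨l, hl⟩ : ∃ l, z l < z' l := by
    by_contra hc
    push Not at hc
    have h1 : ∑ k, z' k < ∑ k, z k := Finset.sum_lt_sum (fun i _ => hc i) ⟨k, Finset.mem_univ k, hk⟩
    omega
  have h1 := pair_lt h l k
  have h2 := pair_lt h' k l
  have h3 : ((z' k + 1 : ℤ) : ℝ) ≤ z k := by exact_mod_cast hk
  have h4 : ((z l + 1 : ℤ) : ℝ) ≤ z' l := by exact_mod_cast hl
  push_cast at h3 h4
  linarith

private theorem card_le {y : Fin D → ℝ} {k₀ : Fin D} (hk : ∃ m : ℤ, y k₀ = m) (S : Finset (Fin D → ℤ))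
    (hS : ∀ z ∈ S, 0 < phi z y) : S.card ≤ D := by
  obtain ⟨m, hm⟩ := hk
  have h0 : ∀ z ∈ S, z k₀ = ⌊y k₀⌋ := by
    intro z hz
    obtain ⟨h1, h2⟩ := one_lt (hS z hz) k₀
    rw [hm] at h1 h2 ⊢
    rw [Int.floor_intCast]
    have h3 : (m : ℝ) < ((z k₀ + 1 : ℤ) : ℝ) := by
      push_cast
      linarith
    have h4 : (z k₀ : ℝ) < ((m + 1 : ℤ) : ℝ) := by
      push_cast
      linarith
    have h5 : m < z k₀ + 1 := by exact_mod_cast h3
    have h6 : z k₀ < m + 1 := by exact_mod_cast h4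
    omega
  have h1 : ∀ z ∈ S, 0 ≤ ∑ k, (z k - ⌊y k⌋) ∧ ∑ k, (z k - ⌊y k⌋) < D := by
    intro z hz
    constructor
    · refine Finset.sum_nonneg fun k _ => ?_
      have := (bnd (hS z hz) k).1
      omega
    · have h2 : ∑ k, (z k - ⌊y k⌋) < ∑ _k : Fin D, (1 : ℤ) := by
        refine Finset.sum_lt_sum (fun k _ => ?_) ⟨k₀, Finset.mem_univ _, ?_⟩
        · have := (bnd (hS z hz) k).2
          omega
        · rw [h0 z hz]
          omega
      simpa using h2
  have h2 : S.card ≤ (Finset.range D).card := by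
    refine Finset.card_le_card_of_injOn (fun z => (∑ k, (z k - ⌊y k⌋)).toNat) ?_ ?_
    · intro z hz
      rw [Finset.mem_coe] at hz
      rw [Finset.mem_coe, Finset.mem_range]
      have := h1 z hz
      show (∑ k, (z k - ⌊y k⌋)).toNat < D
      omega
    · intro z hz z' hz' hzz
      rw [Finset.mem_coe] at hz hz'
      have a1 := (h1 z hz).1
      have a2 := (h1 z' hz').1
      have hzz' : (∑ k, (z k - ⌊y k⌋)).toNat = (∑ k, (z' k - ⌊y k⌋)).toNat := hzz
      have a3 : ∑ k, (z k - ⌊y k⌋) = ∑ k, (z' k - ⌊y k⌋) := by omega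
      rw [Finset.sum_sub_distrib, Finset.sum_sub_distrib] at a3
      have a4 : ∑ k, z k = ∑ k, z' k := by omega
      funext k
      exact le_antisymm (sum_inj (hS z hz) (hS z' hz') a4.le k) (sum_inj (hS z' hz') (hS z hz) a4.ge k)
  rwa [Finset.card_range] at h2

end Kuhn

open Kuhn in
theorem pKuhn : SKuhn := by
  intro D η hη
  obtain ⟨M, hM⟩ := exists_nat_gt (2 / η)
  have hM0 : (0 : ℝ) < M := lt_trans (by positivity) hM
  have hM2 : 2 / (M : ℝ) < η := by
    rw [div_lt_iff₀ hη] at hM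
    rw [div_lt_iff₀ hM0]
    linarith
  classical
  set S : Finset (Fin D → ℤ) := Fintype.piFinset (fun _ => Finset.Icc (-((M : ℤ) + 1)) ((M : ℤ) + 1)) with hS
  set y : CSph D → Fin D → ℝ := fun x k => M * (x : Fin D → ℝ) k with hy
  have hyc : Continuous y := continuous_pi fun k => continuous_const.mul ((continuous_apply k).comp continuous_subtype_val)
  have hx1 : ∀ (x : CSph D) (k : Fin D), |(x : Fin D → ℝ) k| ≤ 1 := by
    intro x k
    have h1 := norm_le_pi_norm (x : Fin D → ℝ) k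
    have h2 : ‖(x : Fin D → ℝ)‖ = 1 := mem_sphere_zero_iff_norm.1 x.2
    rw [h2] at h1
    exact h1
  have hfl : ∀ x : CSph D, (fun k => ⌊y x k⌋) ∈ S := by
    intro x
    rw [hS, Fintype.mem_piFinset]
    intro k
    have h1 := abs_le.1 (hx1 x k)
    have h2 : -(M : ℝ) ≤ y x k := by
      simp only [hy]
      nlinarith
    have h3 : y x k ≤ M := by
      simp only [hy]
      nlinarith
    rw [Finset.mem_Icc]
    constructor
    · rw [Int.le_floor]
      push_cast
      linarith
    · have h4 : ((⌊y x k⌋ : ℤ) : ℝ) ≤ ((M + 1 : ℤ) : ℝ) := by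
        push_cast
        have := Int.floor_le (y x k)
        linarith
      exact_mod_cast h4
  have hpos : ∀ x : CSph D, 0 < ∑ z : S, phi z.1 (y x) := by
    intro x
    refine Finset.sum_pos' (fun z _ => phi_nonneg _ _) ⟨⟨_, hfl x⟩, Finset.mem_univ _, ?_⟩
    exact phi_floor (y x)
  have hphi : ∀ (z : S) (x : CSph D), 0 < phi z.1 (y x) / ∑ z' : S, phi z'.1 (y x) → 0 < phi z.1 (y x) := by
    intro z x h
    rcases (phi_nonneg z.1 (y x)).lt_or_eq with h1 | h1
    · exact h1
    · rw [← h1, zero_div] at h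
      exact absurd h (lt_irrefl 0)
  refine ⟨S, inferInstance, fun z x => phi z.1 (y x) / ∑ z' : S, phi z'.1 (y x), ?_, ?_, ?_, ?_, ?_⟩
  · intro z
    refine Continuous.div ((phi_cont z.1).comp hyc) ?_ fun x => (hpos x).ne'
    exact continuous_finsetSum _ fun z' _ => (phi_cont z'.1).comp hyc
  · intro z x
    exact div_nonneg (phi_nonneg _ _) (hpos x).le
  · intro x
    rw [← Finset.sum_div]
    exact div_self (hpos x).ne'
  · intro z x x' h h'
    have h1 := hphi z x h
    have h2 := hphi z x' h'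
    rw [Subtype.dist_eq, dist_pi_lt_iff hη]
    intro k
    obtain ⟨a1, a2⟩ := one_lt h1 k
    obtain ⟨b1, b2⟩ := one_lt h2 k
    simp only [hy] at a1 a2 b1 b2
    have h3 : |(M : ℝ) * ((x : Fin D → ℝ) k - (x' : Fin D → ℝ) k)| < 2 := by
      rw [abs_lt]
      constructor <;> linarith
    rw [abs_mul, abs_of_pos hM0] at h3
    rw [Real.dist_eq]
    refine lt_trans ?_ hM2
    rw [lt_div_iff₀ hM0]
    linarith
  · intro x
    obtain ⟨k₀, hk₀⟩ : ∃ k₀ : Fin D, ¬ ‖(x : Fin D → ℝ) k₀‖ < 1 := by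
      by_contra hc
      push Not at hc
      have h1 := (pi_norm_lt_iff (x := (x : Fin D → ℝ)) one_pos).2 hc
      have h2 : ‖(x : Fin D → ℝ)‖ = 1 := mem_sphere_zero_iff_norm.1 x.2
      rw [h2] at h1
      exact lt_irrefl _ h1
    have hk1 : |(x : Fin D → ℝ) k₀| = 1 := le_antisymm (hx1 x k₀) (not_lt.1 hk₀)
    have hm : ∃ m : ℤ, y x k₀ = m := by
      rcases (abs_eq zero_le_one).1 hk1 with h1 | h1
      · exact ⟨M, by simp only [hy]; rw [h1]; push_cast; ring⟩
      · exact ⟨-M, by simp only [hy]; rw [h1]; push_cast; ring⟩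
    have h1 := card_le hm ((sp (fun a : S => phi a.1 (y x) / ∑ z' : S, phi z'.1 (y x))).map
      (Function.Embedding.subtype _)) ?_
    · rwa [Finset.card_map] at h1
    · intro z hz
      rw [Finset.mem_map] at hz
      obtain ⟨a, ha, rfl⟩ := hz
      exact hphi a x ((mem_sp (f := fun a : S => phi a.1 (y x) / ∑ z' : S, phi z'.1 (y x)) (a := a)).1 ha)

end Pool.Agent.MPaafd8a
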