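import Pool.Agent.Lib.MP_aafd8a_gt.Spec3

/-!
# MP_aafd8a_gt, third part: maxima of quadratic functions on the sphere
-/

set_option autoImplicit false

open Topology RealInnerProductSpace

namespace Pool.Agent.MPaafd8a

namespace LagAux

variable {n : ℕ}

theorem lim_pos (f : ℝ → ℝ) (hf : Continuous f) (h : ∀ τ > 0, 0 ≤ f τ) : 0 ≤ f 0 := by
  have h1 : Filter.Tendsto f (𝓝[>] 0) (𝓝 (f 0)) :=
    (hf.tendsto 0).mono_left nhdsWithin_le_nhds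
  refine ge_of_tendsto h1 ?_
  filter_upwards [self_mem_nhdsWithin] with τ hτ
  exact h τ hτ

/-- the expansion of a quadratic function along a line -/
theorem expand (a : Eu n) (S : Eu n →L[ℝ] Eu n) (hS : ∀ x y, ⟪S x, y⟫ = ⟪x, S y⟫) (z u : Eu n)
    (t : ℝ) : ⟪a, z + t • u⟫ + ⟪S (z + t • u), z + t • u⟫ =
      (⟪a, z⟫ + ⟪S z, z⟫) + t * ⟪a + (2 : ℝ) • S z, u⟫ + t ^ 2 * ⟪S u, u⟫ := by
  have h1 : ⟪S u, z⟫ = ⟪S z, u⟫ := by rw [hS, real_inner_comm]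
  simp only [map_add, map_smul, inner_add_left, inner_add_right, real_inner_smul_left,
    real_inner_smul_right]
  rw [h1]
  ring

/-- the reflected point -/
theorem refl_norm (z u : Eu n) (hz : ‖z‖ = 1) (hu : u ≠ 0) :
    ‖z + (-2 * ⟪u, z⟫ / ‖u‖ ^ 2) • u‖ = 1 := by
  have hu' : ‖u‖ ^ 2 ≠ 0 := pow_ne_zero 2 (norm_ne_zero_iff.2 hu)
  have h1 : ‖z + (-2 * ⟪u, z⟫ / ‖u‖ ^ 2) • u‖ ^ 2 = 1 := by
    rw [← real_inner_self_eq_norm_sq]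
    simp only [inner_add_left, inner_add_right, real_inner_smul_left, real_inner_smul_right]
    rw [real_inner_self_eq_norm_sq, real_inner_self_eq_norm_sq, hz, real_inner_comm u z]
    field_simp
    ring
  have h2 : 0 ≤ ‖z + (-2 * ⟪u, z⟫ / ‖u‖ ^ 2) • u‖ := norm_nonneg _
  nlinarith

/-- the basic inequality at a maximum -/
theorem star (a : Eu n) (S : Eu n →L[ℝ] Eu n) (hS : ∀ x y, ⟪S x, y⟫ = ⟪x, S y⟫) (z₀ : Sph n)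
    (hmax : ∀ z, qd (a, S) z ≤ qd (a, S) z₀) (u : Eu n) :
    2 * ⟪u, (z₀ : Eu n)⟫ ^ 2 * ⟪S u, u⟫ ≤
      ⟪u, (z₀ : Eu n)⟫ * ‖u‖ ^ 2 * ⟪a + (2 : ℝ) • S (z₀ : Eu n), u⟫ := by
  by_cases hu : u = 0
  · rw [hu]
    simp
  have hu' : 0 < ‖u‖ ^ 2 := pow_pos (norm_pos_iff.2 hu) 2
  have hz : ‖(z₀ : Eu n)‖ = 1 := mem_sphere_zero_iff_norm.1 z₀.2
  have h1 := hmax ⟨(z₀ : Eu n) + (-2 * ⟪u, (z₀ : Eu n)⟫ / ‖u‖ ^ 2) • u,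
    mem_sphere_zero_iff_norm.2 (refl_norm _ u hz hu)⟩
  have h2 : ⟪a, (z₀ : Eu n) + (-2 * ⟪u, (z₀ : Eu n)⟫ / ‖u‖ ^ 2) • u⟫ +
      ⟪S ((z₀ : Eu n) + (-2 * ⟪u, (z₀ : Eu n)⟫ / ‖u‖ ^ 2) • u),
        (z₀ : Eu n) + (-2 * ⟪u, (z₀ : Eu n)⟫ / ‖u‖ ^ 2) • u⟫ ≤
      ⟪a, (z₀ : Eu n)⟫ + ⟪S (z₀ : Eu n), (z₀ : Eu n)⟫ := h1
  rw [expand a S hS] at h2
  have h3 : (-2 * ⟪u, (z₀ : Eu n)⟫ / ‖u‖ ^ 2) * ⟪a + (2 : ℝ) • S (z₀ : Eu n), u⟫ +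
      (-2 * ⟪u, (z₀ : Eu n)⟫ / ‖u‖ ^ 2) ^ 2 * ⟪S u, u⟫ ≤ 0 := by linarith
  have h4 : (-2 * ⟪u, (z₀ : Eu n)⟫ / ‖u‖ ^ 2) * ⟪a + (2 : ℝ) • S (z₀ : Eu n), u⟫ +
      (-2 * ⟪u, (z₀ : Eu n)⟫ / ‖u‖ ^ 2) ^ 2 * ⟪S u, u⟫ =
      (2 / (‖u‖ ^ 2) ^ 2) * (2 * ⟪u, (z₀ : Eu n)⟫ ^ 2 * ⟪S u, u⟫ -
      ⟪u, (z₀ : Eu n)⟫ * ‖u‖ ^ 2 * ⟪a + (2 : ℝ) • S (z₀ : Eu n), u⟫) := by
    field_simp
    ring
  rw [h4] at h3
  have h5 : 0 < 2 / (‖u‖ ^ 2) ^ 2 := by positivity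
  by_contra hcon
  push Not at hcon
  have h6 := mul_pos h5 (sub_pos.2 hcon)
  linarith

/-- the gradient at a maximum is nonnegative on the orthogonal complement -/
theorem grad_nonneg (a : Eu n) (S : Eu n →L[ℝ] Eu n) (hS : ∀ x y, ⟪S x, y⟫ = ⟪x, S y⟫)
    (z₀ : Sph n) (hmax : ∀ z, qd (a, S) z ≤ qd (a, S) z₀) (u : Eu n)
    (hu : ⟪u, (z₀ : Eu n)⟫ = 0) : 0 ≤ ⟪a + (2 : ℝ) • S (z₀ : Eu n), u⟫ := by
  by_cases hu0 : u = 0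
  · rw [hu0, inner_zero_right]
  have hu' : 0 < ‖u‖ ^ 2 := pow_pos (norm_pos_iff.2 hu0) 2
  have hz : ‖(z₀ : Eu n)‖ = 1 := mem_sphere_zero_iff_norm.1 z₀.2
  have h1 := lim_pos (fun τ => ‖u + τ • (z₀ : Eu n)‖ ^ 2 *
      ⟪a + (2 : ℝ) • S (z₀ : Eu n), u + τ • (z₀ : Eu n)⟫ -
      2 * τ * ⟪S (u + τ • (z₀ : Eu n)), u + τ • (z₀ : Eu n)⟫) (by fun_prop) (by
    intro τ hτ
    have h2 := star a S hS z₀ hmax (u + τ • (z₀ : Eu n))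
    have h3 : ⟪u + τ • (z₀ : Eu n), (z₀ : Eu n)⟫ = τ := by
      rw [inner_add_left, real_inner_smul_left, hu, real_inner_self_eq_norm_sq, hz]
      ring
    rw [h3] at h2
    have h4 : 0 ≤ τ * (‖u + τ • (z₀ : Eu n)‖ ^ 2 *
      ⟪a + (2 : ℝ) • S (z₀ : Eu n), u + τ • (z₀ : Eu n)⟫ -
      2 * τ * ⟪S (u + τ • (z₀ : Eu n)), u + τ • (z₀ : Eu n)⟫) := by linarith
    exact nonneg_of_mul_nonneg_right h4 hτ)
  simp only [zero_smul, add_zero, mul_zero, zero_mul, sub_zero] at h1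
  exact nonneg_of_mul_nonneg_right h1 hu'

end LagAux

open LagAux in
theorem pLag : SLag := by
  intro n a S hS z₀ hmax
  have hz : ‖(z₀ : Eu n)‖ = 1 := mem_sphere_zero_iff_norm.1 z₀.2
  set h : Eu n := a + (2 : ℝ) • S (z₀ : Eu n) with hh
  have horth : ∀ u : Eu n, ⟪u, (z₀ : Eu n)⟫ = 0 → ⟪h, u⟫ = 0 := by
    intro u hu
    have h1 := grad_nonneg a S hS z₀ hmax u hu
    have h2 := grad_nonneg a S hS z₀ hmax (-u) (by rw [inner_neg_left, hu, neg_zero])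
    rw [inner_neg_right] at h2
    exact le_antisymm (by linarith) h1
  have hΛ : h = (2 * (⟪h, (z₀ : Eu n)⟫ / 2)) • (z₀ : Eu n) := by
    have h1 : ⟪h - ⟪h, (z₀ : Eu n)⟫ • (z₀ : Eu n), (z₀ : Eu n)⟫ = 0 := by
      rw [inner_sub_left, real_inner_smul_left, real_inner_self_eq_norm_sq, hz]
      ring
    have h2 := horth _ h1
    have h3 : ⟪h - ⟪h, (z₀ : Eu n)⟫ • (z₀ : Eu n), h - ⟪h, (z₀ : Eu n)⟫ • (z₀ : Eu n)⟫ = 0 := by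
      conv_lhs => rw [inner_sub_left]
      rw [h2, real_inner_smul_left,
        real_inner_comm (h - ⟪h, (z₀ : Eu n)⟫ • (z₀ : Eu n)) (z₀ : Eu n), h1]
      ring
    have h4 := inner_self_eq_zero.1 h3
    rw [mul_div_cancel₀ _ (two_ne_zero)]
    exact sub_eq_zero.1 h4
  set Λ : ℝ := ⟪h, (z₀ : Eu n)⟫ / 2 with hΛdef
  have hle1 : ∀ u : Eu n, ⟪u, (z₀ : Eu n)⟫ ≠ 0 → ⟪S u, u⟫ ≤ Λ * ‖u‖ ^ 2 := by
    intro u hu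
    have h1 := star a S hS z₀ hmax u
    rw [← hh, hΛ, real_inner_smul_left, real_inner_comm u (z₀ : Eu n)] at h1
    have h2 : 0 < 2 * ⟪u, (z₀ : Eu n)⟫ ^ 2 := by positivity
    have h3 : 2 * ⟪u, (z₀ : Eu n)⟫ ^ 2 * ⟪S u, u⟫ ≤
        2 * ⟪u, (z₀ : Eu n)⟫ ^ 2 * (Λ * ‖u‖ ^ 2) := by
      refine h1.trans (le_of_eq ?_)
      ring
    exact le_of_mul_le_mul_left h3 h2
  have hle : ∀ u : Eu n, ⟪S u, u⟫ ≤ Λ * ‖u‖ ^ 2 := by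
    intro u
    by_cases hu : ⟪u, (z₀ : Eu n)⟫ = 0
    · have h1 := lim_pos (fun τ => Λ * ‖u + τ • (z₀ : Eu n)‖ ^ 2 -
        ⟪S (u + τ • (z₀ : Eu n)), u + τ • (z₀ : Eu n)⟫) (by fun_prop) (by
        intro τ hτ
        have h3 : ⟪u + τ • (z₀ : Eu n), (z₀ : Eu n)⟫ = τ := by
          rw [inner_add_left, real_inner_smul_left, hu, real_inner_self_eq_norm_sq, hz]
          ring
        have h4 := hle1 (u + τ • (z₀ : Eu n)) (by rw [h3]; exact ne_of_gt hτ)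
        exact sub_nonneg.2 h4)
      simp only [zero_smul, add_zero] at h1
      linarith
    · exact hle1 u hu
  refine ⟨Λ, hΛ, hle, ?_⟩
  intro z hzmax
  have hz1 : ‖(z : Eu n)‖ = 1 := mem_sphere_zero_iff_norm.1 z.2
  set d : Eu n := (z : Eu n) - z₀ with hd
  have heq : qd (a, S) z = qd (a, S) z₀ := le_antisymm (hmax z) (hzmax z₀)
  have hzd : (z : Eu n) = (z₀ : Eu n) + (1 : ℝ) • d := by
    rw [hd, one_smul]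
    abel
  have h1 : ⟪a, (z : Eu n)⟫ + ⟪S (z : Eu n), (z : Eu n)⟫ =
      ⟪a, (z₀ : Eu n)⟫ + ⟪S (z₀ : Eu n), (z₀ : Eu n)⟫ := heq
  rw [hzd, expand a S hS, ← hh, hΛ, real_inner_smul_left] at h1
  -- `2 ⟪z₀, d⟫ = - ‖d‖ ^ 2`
  have h2 : 2 * ⟪(z₀ : Eu n), d⟫ = -‖d‖ ^ 2 := by
    have h3 : ‖(z : Eu n)‖ ^ 2 = ‖(z₀ : Eu n)‖ ^ 2 + 2 * ⟪(z₀ : Eu n), d⟫ + ‖d‖ ^ 2 := by
      rw [hzd, one_smul]
      exact norm_add_sq_real _ _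
    rw [hz, hz1] at h3
    linarith
  have hQ : ⟪S d, d⟫ = Λ * ‖d‖ ^ 2 := by
    have h4 : 2 * Λ * ⟪(z₀ : Eu n), d⟫ = -(Λ * ‖d‖ ^ 2) := by
      calc 2 * Λ * ⟪(z₀ : Eu n), d⟫ = Λ * (2 * ⟪(z₀ : Eu n), d⟫) := by ring
        _ = _ := by rw [h2]; ring
    linarith
  -- polarization
  have h5 : ∀ u : Eu n, 0 ≤ 2 * (Λ * ⟪d, u⟫ - ⟪S d, u⟫) := by
    intro u
    have h6 := lim_pos (fun τ => 2 * (Λ * ⟪d, u⟫ - ⟪S d, u⟫) +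
      τ * (Λ * ‖u‖ ^ 2 - ⟪S u, u⟫)) (by fun_prop) (by
      intro τ hτ
      have h7 := hle (d + τ • u)
      have h8 : ‖d + τ • u‖ ^ 2 = ‖d‖ ^ 2 + 2 * τ * ⟪d, u⟫ + τ ^ 2 * ‖u‖ ^ 2 := by
        rw [norm_add_sq_real, real_inner_smul_right, norm_smul, mul_pow, Real.norm_eq_abs,
          sq_abs]
        ring
      have h9 : ⟪S (d + τ • u), d + τ • u⟫ = ⟪S d, d⟫ + 2 * τ * ⟪S d, u⟫ + τ ^ 2 * ⟪S u, u⟫ := by
        have h10 : ⟪S u, d⟫ = ⟪S d, u⟫ := by rw [hS, real_inner_comm]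
        simp only [map_add, map_smul, inner_add_left, inner_add_right, real_inner_smul_left,
          real_inner_smul_right]
        rw [h10]
        ring
      rw [h8, h9, hQ] at h7
      have h11 : 0 ≤ τ * (2 * (Λ * ⟪d, u⟫ - ⟪S d, u⟫) + τ * (Λ * ‖u‖ ^ 2 - ⟪S u, u⟫)) := by
        linarith
      exact nonneg_of_mul_nonneg_right h11 hτ)
    simpa using h6
  have h12 := h5 (S d - Λ • d)
  have h13 : Λ * ⟪d, S d - Λ • d⟫ - ⟪S d, S d - Λ • d⟫ = -⟪S d - Λ • d, S d - Λ • d⟫ := by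
    conv_rhs => rw [inner_sub_left, real_inner_smul_left]
    ring
  rw [h13, real_inner_self_eq_norm_sq] at h12
  have h14 : ‖S d - Λ • d‖ ^ 2 = 0 := le_antisymm (by linarith) (sq_nonneg _)
  have h15 : ‖S d - Λ • d‖ = 0 := by simpa using h14
  exact sub_eq_zero.1 (norm_eq_zero.1 h15)

end Pool.Agent.MPaafd8a
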