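import Pool.Agent.Lib.MP_aafd8a_gt.Spec

/-!
# MP_aafd8a_gt: layers (`SLay`)
-/

set_option autoImplicit false

namespace Pool.Agent.MPaafd8a

theorem pLay : SLay := by
  classical
  intro A _ θ hθ
  refine ⟨fun L f => max 0 (L.fold min θ f - Lᶜ.fold max 0 f), ?_, ?_, ?_⟩
  · intro L
    have h1 : ∀ L : Finset A, Continuous (fun f : A → ℝ => L.fold min θ f) := by
      intro L
      induction L using Finset.induction_on with
      | empty =>
        simp only [Finset.fold_empty]
        exact continuous_const
      | insert a s ha ih =>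
        simp only [Finset.fold_insert ha]
        exact (continuous_apply a).min ih
    have h2 : ∀ L : Finset A, Continuous (fun f : A → ℝ => L.fold max 0 f) := by
      intro L
      induction L using Finset.induction_on with
      | empty =>
        simp only [Finset.fold_empty]
        exact continuous_const
      | insert a s ha ih =>
        simp only [Finset.fold_insert ha]
        exact (continuous_apply a).max ih
    exact continuous_const.max ((h1 L).sub (h2 Lᶜ))
  · intro L f
    exact le_max_left _ _
  · intro f _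
    have key : ∀ L : Finset A, 0 < max 0 (L.fold min θ f - Lᶜ.fold max 0 f) →
        Lᶜ.fold max 0 f < L.fold min θ f := by
      intro L h
      rcases lt_max_iff.1 h with h | h
      · exact absurd h (lt_irrefl _)
      · exact sub_pos.1 h
    have hmin : ∀ (L : Finset A) (a : A), a ∈ L → L.fold min θ f ≤ f a := fun L a ha =>
      (Finset.fold_min_le _).2 (Or.inr ⟨a, ha, le_rfl⟩)
    have hmax : ∀ (L : Finset A) (a : A), a ∉ L → f a ≤ Lᶜ.fold max 0 f := fun L a ha =>
      (Finset.le_fold_max _).2 (Or.inr ⟨a, Finset.mem_compl.2 ha, le_rfl⟩)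
    have hthe : ∀ L : Finset A, L.fold min θ f ≤ θ := fun L =>
      (Finset.fold_min_le _).2 (Or.inl le_rfl)
    have hzer : ∀ L : Finset A, 0 ≤ Lᶜ.fold max 0 f := fun L =>
      (Finset.le_fold_max _).2 (Or.inl le_rfl)
    have hA : ∀ L : Finset A, 0 < max 0 (L.fold min θ f - Lᶜ.fold max 0 f) →
        (∀ a ∈ L, 0 < f a) ∧ ∀ a, θ ≤ f a → a ∈ L := by
      intro L h
      have hk := key L h
      refine ⟨fun a ha => lt_of_le_of_lt (hzer L) (lt_of_lt_of_le hk (hmin L a ha)), fun a ha => ?_⟩
      by_contra hc
      exact absurd ha (not_le.2 (lt_of_le_of_lt (hmax L a hc) (lt_of_lt_of_le hk (hthe L))))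
    have hup : up θ f ⊆ sp f := fun a ha => mem_sp.2 (lt_of_lt_of_le hθ (mem_up.1 ha))
    refine ⟨hA, ⟨up θ f, ?_⟩, ?_⟩
    · refine lt_max_of_lt_right (sub_pos.2 ?_)
      refine (Finset.fold_max_lt _).2 ⟨?_, ?_⟩
      · exact (Finset.lt_fold_min _).2 ⟨hθ, fun x hx => lt_of_lt_of_le hθ (mem_up.1 hx)⟩
      · intro x hx
        have hx' : f x < θ := by
          by_contra hc
          exact (Finset.mem_compl.1 hx) (mem_up.2 (not_lt.1 hc))
        exact (Finset.lt_fold_min _).2 ⟨hx', fun z hz => lt_of_lt_of_le hx' (mem_up.1 hz)⟩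
    · intro 𝒮 h𝒮
      have hchain : ∀ L ∈ 𝒮, ∀ L' ∈ 𝒮, L.card = L'.card → L = L' := by
        intro L hL L' hL' hc
        by_contra hne
        have h1 : ∃ a, a ∈ L ∧ a ∉ L' := by
          by_contra h
          push Not at h
          exact hne (Finset.eq_of_subset_of_card_le h (le_of_eq hc.symm))
        have h2 : ∃ b, b ∈ L' ∧ b ∉ L := by
          by_contra h
          push Not at h
          exact hne (Finset.eq_of_subset_of_card_le h (le_of_eq hc)).symm
        obtain ⟨a, ha, ha'⟩ := h1
        obtain ⟨b, hb, hb'⟩ := h2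
        have e1 : f b < f a :=
          lt_of_le_of_lt (hmax L b hb') (lt_of_lt_of_le (key L (h𝒮 L hL)) (hmin L a ha))
        have e2 : f a < f b :=
          lt_of_le_of_lt (hmax L' a ha') (lt_of_lt_of_le (key L' (h𝒮 L' hL')) (hmin L' b hb))
        exact lt_asymm e1 e2
      have hcard : 𝒮.card ≤ (Finset.Icc (up θ f).card (sp f).card).card := by
        refine Finset.card_le_card_of_injOn Finset.card ?_ ?_
        · intro L hL
          have hL' := hA L (h𝒮 L hL)
          refine Finset.mem_coe.2 (Finset.mem_Icc.2 ⟨?_, ?_⟩)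
          · exact Finset.card_le_card fun a ha => hL'.2 a (mem_up.1 ha)
          · exact Finset.card_le_card fun a ha => mem_sp.2 (hL'.1 a ha)
        · intro L hL L' hL' hc
          exact hchain L hL L' hL' hc
      rw [Nat.card_Icc] at hcard
      have := Finset.card_le_card hup
      omega

end Pool.Agent.MPaafd8a
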