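import Pool.Agent.Lib.MP_aafd8a_gt.Spec3

/-!
# MP_aafd8a_gt: limits of the quadratic functions
-/

set_option autoImplicit false

open Topology RealInnerProductSpace

namespace Pool.Agent.MPaafd8a

namespace LimM

theorem qd_cont {n : ℕ} (w : Eu n × (Eu n →L[ℝ] Eu n)) : Continuous (qd w) := by
  have h1 : Continuous (fun z : Sph n => (z : Eu n)) := continuous_subtype_val
  unfold qd
  exact (continuous_const.inner h1).add ((w.2.continuous.comp h1).inner h1)

theorem exists_max {n : ℕ} (w : Eu n × (Eu n →L[ℝ] Eu n)) :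
    ∃ z₀ : Sph n, ∀ z, qd w z ≤ qd w z₀ := by
  haveI : CompactSpace (Sph n) := isCompact_iff_compactSpace.1 (isCompact_sphere (0 : Eu n) 1)
  haveI : Nonempty (Sph n) := (NormedSpace.sphere_nonempty.2 zero_le_one).to_subtype
  obtain ⟨z₀, -, h⟩ := isCompact_univ.exists_isMaxOn Set.univ_nonempty (qd_cont w).continuousOn
  exact ⟨z₀, fun z => h (Set.mem_univ z)⟩

end LimM

open LimM in
theorem pLim (hLag : SLag) : SLim := by
  intro n A M M' hM hM' hM1 hM2 hne hMM
  obtain ⟨z₀, hz₀⟩ := exists_max (A, M - M')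
  refine ⟨z₀, hz₀, ?_⟩
  have hS : ∀ x y : Eu n, ⟪(M - M') x, y⟫ = ⟪x, (M - M') y⟫ := by
    intro x y
    rw [sub_apply, sub_apply, inner_sub_left,
      inner_sub_right, hM, hM']
  obtain ⟨Λ, -, h2, h3⟩ := hLag n A (M - M') hS z₀ hz₀
  have hM'M : ∀ u : Eu n, M' (M u) = 0 := by
    intro u
    have h4 : ⟪M' (M u), M' (M u)⟫ = 0 := by
      rw [hM', hM, hMM, inner_zero_right]
    exact inner_self_eq_zero.1 h4
  have hΛ : 0 < Λ := by
    obtain ⟨u, hu⟩ : ∃ u, M u ≠ 0 := by
      by_contra hc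
      push Not at hc
      exact hne (ContinuousLinearMap.ext hc)
    have h5 : 0 < ⟪M (M u), M u⟫ := by
      have h6 := hM1 (M u)
      rcases lt_or_ge 0 ⟪M (M u), M u⟫ with h7 | h7
      · exact h7
      · exfalso
        have h8 : ‖M (M u)‖ ^ 2 = 0 := le_antisymm (h6.trans h7) (sq_nonneg _)
        have h9 : M (M u) = 0 := by
          rw [← norm_eq_zero]
          exact pow_eq_zero_iff (two_ne_zero) |>.1 h8
        have h10 : ⟪M u, M u⟫ = 0 := by
          rw [hM, h9, inner_zero_right]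
        exact hu (inner_self_eq_zero.1 h10)
    have h11 := h2 (M u)
    rw [sub_apply, hM'M, sub_zero] at h11
    have h12 : 0 < ‖M u‖ ^ 2 := by
      have := norm_pos_iff.2 hu
      positivity
    by_contra h13
    nlinarith [mul_nonneg (neg_nonneg.2 (not_lt.1 h13)) h12.le]
  intro z hz
  have h4 := h3 z hz
  set d : Eu n := (z : Eu n) - z₀ with hd
  rw [sub_apply] at h4
  have h5 := congrArg M' h4
  rw [map_sub, hM'M, map_smul, zero_sub] at h5
  have h6 := congrArg (fun x => ⟪x, M' d⟫) h5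
  simp only [inner_neg_left, real_inner_smul_left, real_inner_self_eq_norm_sq] at h6
  have h7 := hM2 (M' d)
  have h8 : Λ * ‖M' d‖ ^ 2 ≤ 0 := by
    rw [← h6]
    linarith
  have h9 : ‖M' d‖ ^ 2 = 0 := by
    refine le_antisymm ?_ (sq_nonneg _)
    by_contra h10
    have h11 := mul_pos hΛ (not_le.1 h10)
    linarith
  rw [← norm_eq_zero]
  exact pow_eq_zero_iff (two_ne_zero) |>.1 h9

end Pool.Agent.MPaafd8a
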