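import Pool.Agent.Lib.MP_aafd8a_gt.Spec3

/-!
# MP_aafd8a_gt, third part: lower bound
-/

set_option autoImplicit false

open Topology RealInnerProductSpace

namespace Pool.Agent.MPaafd8a

theorem pLow : SSub → SShrink → SDown → SSect → SCube → SLow := by
  intro hSub hShrink hDown hSect hCube n hn c hc hc0 hc2
  refine ⟨⟨vtx _ ⟨EuclideanSpace.single 0 1, by simp⟩⟩, fun i hi y => hCube _ i ?_ y⟩
  intro F
  have hdim : i + 2 ≤ dm n := by
    unfold dm
    omega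
  obtain ⟨c₀, h₀, hc₀, hc₀c, -, hsect⟩ := hSect n hn c hc hc0
  set c₁ : ℝ := min c₀ (c / 2) with hc₁
  have hc₁0 : 0 < c₁ := lt_min hc₀ (by positivity)
  have h₁ : -1 < c₁ := by linarith
  have hc₁c₀ : c₁ ≤ c₀ := min_le_left _ _
  have hc₁c : c₁ < c := (min_le_right _ _).trans_lt (by linarith)
  obtain ⟨c', hc', hc'c, hface⟩ := hShrink n c hc (CSph (i + 1)) F
  obtain ⟨F', hF'⟩ := hSub (Sph n) _ (capK n c' hc') (CSph (i + 1)) F hface
  rcases le_or_gt c' c₁ with hle | hgt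
  · obtain ⟨F₀, hF₀⟩ := hSub (Sph n) _ (capK n c₀ h₀) (CSph (i + 1)) F
      (fun x => capFace_mono (hface x) (hle.trans hc₁c₀))
    exact hsect i hdim F₀ F fun x => (hF₀ x).symm
  · obtain ⟨f₀, f₁, hf, ⟨H⟩⟩ := hDown n hn c₁ c' h₁ hc' hc₁0 (hc'c.trans_le hc2) (hc₁c.trans_le hc2)
      (CSph (i + 1)) F' hgt.le
    obtain ⟨H', hH'⟩ := hSub (Sph n) _ (capK n c hc) (unitInterval × CSph (i + 1)) H.toContinuousMap
      (fun x => capFace_mono (H.toContinuousMap x).2.2.2 hc'c.le)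
    let f₁' : C(CSph (i + 1), Geo (capK n c hc)) :=
      ⟨fun x => H' (1, x), H'.continuous.comp (by fun_prop)⟩
    have hf₁' : ∀ x, (f₁' x).1 = (f₀ x).1 := by
      intro x
      have h1 : (f₁' x).1 = (H (1, x)).1 := hH' (1, x)
      rw [h1, H.apply_one, hf]
    have hhom : F.Homotopic f₁' := by
      refine ⟨⟨H', fun x => ?_, fun x => rfl⟩⟩
      apply Subtype.ext
      have h1 : (H' (0, x)).1 = (H (0, x)).1 := hH' (0, x)
      have h2 : (H (0, x)).1 = (F' x).1 := by rw [H.apply_zero]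
      exact (h1.trans h2).trans (hF' x)
    obtain ⟨f₀', hf₀'⟩ := hSub (Sph n) _ (capK n c₀ h₀) (CSph (i + 1)) f₀
      (fun x => capFace_mono (f₀ x).2.2.2 hc₁c₀)
    obtain ⟨y', hy'⟩ := hsect i hdim f₀' f₁' fun x => by rw [hf₁', hf₀']
    exact ⟨y', hhom.trans hy'⟩

end Pool.Agent.MPaafd8a
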