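import Pool.Agent.Lib.MP_aafd8a_gt.Spec

/-!
# The main theorem
-/

set_option autoImplicit false

open Topology RealInnerProductSpace

namespace Pool.Agent.MPaafd8a

theorem pMain : SStart → SMove → SCube → SFace → SCov → SMar → SMain := by
  intro hStart hMove hCube hFace hCov hMar n r h0 hn h1 h2
  have hcov : n + 2 ≤ covNum n (Real.pi - r) := hCov n (Real.pi - r) (by linarith) (by linarith)
  refine ⟨hcov, ?_, ?_⟩
  · have h3 : (Metric.sphere (0 : Eu n) 1).Nonempty := NormedSpace.sphere_nonempty.2 zero_le_one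
    obtain ⟨y, hy⟩ := h3
    exact ⟨vtx (cech n r h0) ⟨y, hy⟩⟩
  · intro i hi
    obtain ⟨hK, hsm⟩ := hFace n r h0 h2
    have hc : 0 < -Real.cos r := by
      have := Real.cos_neg_of_pi_div_two_lt_of_lt h1 (by linarith)
      linarith
    set N := covNum n (Real.pi - r) with hN
    obtain ⟨η, hη, hM⟩ := hMar n (N - 1) (-Real.cos r) (fun σ hσ hcard => hsm σ hσ (by omega))
    refine hCube (Geo (cech n r h0)) i fun F => ?_
    obtain ⟨A, B, _, _, f, p, w, u, G, hf, hp, hf0, hp0, hs, hv, hcnt, hG, hFG⟩ :=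
      hStart n (-Real.cos r) (cech n r h0) (N - 1) (i + 1) η hc (by omega) hη hK (by omega) F
    have hcomp : CompactSpace (CSph (i + 1)) := isCompact_iff_compactSpace.1 (isCompact_sphere _ _)
    obtain ⟨y, hy⟩ := hMove n (-Real.cos r) (cech n r h0) (N - 1) η hn (by omega) hη hM hK (CSph (i + 1)) A B f p w u G
      hf hp hf0 hp0 hs hv hcnt hG
    exact ⟨y, hFG.trans hy⟩

end Pool.Agent.MPaafd8a
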