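import Pool.Agent.Lib.MP_aafd8a_gt.Spec

set_option autoImplicit false

open Topology RealInnerProductSpace

namespace Pool.Agent.MPaafd8a

theorem pMar : SMar := by
  classical
  intro n m c h
  rcases Nat.eq_zero_or_pos m with rfl | hm
  · refine ⟨1, one_pos, ?_⟩
    intro P hP hc
    have := Finset.card_pos.mpr hP
    exact absurd this (by omega)
  -- cover
  let A : Sph n → Set (Fin m → Sph n) := fun y => {u | ∀ k, ⟪((u k : Sph n) : Eu n), (y : Eu n)⟫ < c}
  have hAo : ∀ y, IsOpen (A y) := by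
    intro y
    have h1 : A y = ⋂ k, {u : Fin m → Sph n | ⟪((u k : Sph n) : Eu n), (y : Eu n)⟫ < c} := by
      ext u
      simp [A]
    rw [h1]
    apply isOpen_iInter_of_finite
    intro k
    refine isOpen_lt ?_ continuous_const
    exact (continuous_subtype_val.comp (continuous_apply k)).inner continuous_const
  have hcov : (Set.univ : Set (Fin m → Sph n)) ⊆ ⋃ y, A y := by
    intro u _
    obtain ⟨-, y, hy⟩ := h (Finset.univ.image u) ⟨u ⟨0, hm⟩, Finset.mem_image_of_mem _ (Finset.mem_univ _)⟩ (by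
      calc (Finset.univ.image u).card ≤ (Finset.univ : Finset (Fin m)).card := Finset.card_image_le
        _ = m := by simp)
    exact Set.mem_iUnion.mpr ⟨y, fun k => hy _ (Finset.mem_image_of_mem _ (Finset.mem_univ _))⟩
  obtain ⟨η, hη, hL⟩ := lebesgue_number_lemma_of_metric isCompact_univ hAo hcov
  refine ⟨η, hη, ?_⟩
  intro P hP hcard σ hσ hclose
  obtain ⟨p0, hp0⟩ := hP
  have hu : ∃ u : Fin m → Sph n, ∀ p ∈ P, ∃ k, u k = p := by
    let e := P.equivFin
    refine ⟨fun k => if hk : k.1 < P.card then (e.symm ⟨k.1, hk⟩).1 else p0, ?_⟩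
    intro p hp
    have hlt := (e ⟨p, hp⟩).2
    refine ⟨⟨(e ⟨p, hp⟩).1, by omega⟩, ?_⟩
    simp
  obtain ⟨u, hu⟩ := hu
  obtain ⟨y, hy⟩ := hL u (Set.mem_univ u)
  refine ⟨hσ, y, ?_⟩
  intro x hx
  obtain ⟨p, hp, hd⟩ := hclose x hx
  obtain ⟨k, rfl⟩ := hu p hp
  have hm' : Function.update u k x ∈ A y := by
    apply hy
    rw [Metric.mem_ball, dist_pi_lt_iff hη]
    intro j
    by_cases hj : j = k
    · subst hj
      rw [Function.update_self]
      exact hd
    · rw [Function.update_of_ne hj, dist_self]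
      exact hη
  have h2 := hm' k
  rw [Function.update_self] at h2
  exact h2

end Pool.Agent.MPaafd8a
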