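import Pool.Agent.Lib.MP_aafd8a_gt.Spec3

/-!
# MP_aafd8a_gt: moments, bounds and averages
-/

set_option autoImplicit false

open Topology RealInnerProductSpace

namespace Pool.Agent.MPaafd8a

namespace MoAux

variable {n : ℕ}

theorem nrm (v : Sph n) : ‖(v : Eu n)‖ = 1 := mem_sphere_zero_iff_norm.1 v.2

theorem mo_apply (p : Sph n →₀ ℝ) (z : Eu n) :
    mo p z = ∑ v ∈ p.support, p v • (⟪(v : Eu n), z⟫ • (v : Eu n)) := by
  unfold mo Finsupp.sum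
  rw [_root_.sum_apply]
  rfl

theorem inner_mo (p : Sph n →₀ ℝ) (x y : Eu n) :
    ⟪mo p x, y⟫ = ∑ v ∈ p.support, p v * (⟪(v : Eu n), x⟫ * ⟪(v : Eu n), y⟫) := by
  rw [mo_apply, sum_inner]
  refine Finset.sum_congr rfl fun v _ => ?_
  rw [real_inner_smul_left, real_inner_smul_left]

theorem symm (p : Sph n →₀ ℝ) (x y : Eu n) : ⟪mo p x, y⟫ = ⟪x, mo p y⟫ := by
  rw [real_inner_comm (mo p y) x, inner_mo, inner_mo]
  exact Finset.sum_congr rfl fun v _ => by ring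

theorem nonneg {p : Sph n →₀ ℝ} (hp : Pw p) (z : Eu n) : 0 ≤ ⟪mo p z, z⟫ := by
  rw [inner_mo]
  exact Finset.sum_nonneg fun v _ => mul_nonneg (hp.1 v) (mul_self_nonneg _)

theorem sum_one {p : Sph n →₀ ℝ} (hp : Pw p) : ∑ v ∈ p.support, p v = 1 := hp.2

theorem le_norm {p : Sph n →₀ ℝ} (hp : Pw p) (z : Eu n) : ⟪mo p z, z⟫ ≤ ‖z‖ ^ 2 := by
  rw [inner_mo]
  have h1 : ∀ v ∈ p.support, p v * (⟪(v : Eu n), z⟫ * ⟪(v : Eu n), z⟫) ≤ p v * ‖z‖ ^ 2 := by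
    intro v _
    refine mul_le_mul_of_nonneg_left ?_ (hp.1 v)
    have h2 := abs_real_inner_le_norm (v : Eu n) z
    rw [nrm, one_mul] at h2
    rw [← sq, ← sq_abs]
    exact pow_le_pow_left₀ (abs_nonneg _) h2 2
  refine (Finset.sum_le_sum h1).trans ?_
  rw [← Finset.sum_mul, sum_one hp, one_mul]

theorem norm_sq {p : Sph n →₀ ℝ} (hp : Pw p) (z : Eu n) : ‖mo p z‖ ^ 2 ≤ ⟪mo p z, z⟫ := by
  have h1 := nonneg hp (z - mo p z)
  have h2 := le_norm hp (mo p z)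
  have h3 : ⟪mo p (z - mo p z), z - mo p z⟫ =
      ⟪mo p z, z⟫ - 2 * ‖mo p z‖ ^ 2 + ⟪mo p (mo p z), mo p z⟫ := by
    rw [map_sub, inner_sub_left, inner_sub_right, inner_sub_right, symm p (mo p z) z,
      real_inner_self_eq_norm_sq]
    ring
  rw [h3] at h1
  linarith

theorem bar_le {p : Sph n →₀ ℝ} (hp : Pw p) : ‖bar p‖ ≤ 1 := by
  unfold bar Finsupp.sum
  refine (norm_sum_le _ _).trans ?_
  have h1 : ∀ v ∈ p.support, ‖p v • (v : Eu n)‖ = p v := by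
    intro v _
    rw [norm_smul, nrm, mul_one, Real.norm_of_nonneg (hp.1 v)]
  rw [Finset.sum_congr rfl h1, sum_one hp]

theorem mo_le {p : Sph n →₀ ℝ} (hp : Pw p) : ‖mo p‖ ≤ 1 := by
  refine ContinuousLinearMap.opNorm_le_bound _ zero_le_one fun z => ?_
  rw [one_mul]
  have h1 := (norm_sq hp z).trans (le_norm hp z)
  exact (pow_le_pow_iff_left₀ (norm_nonneg _) (norm_nonneg _) two_ne_zero).1 h1

theorem trace_one {p : Sph n →₀ ℝ} (hp : Pw p) :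
    LinearMap.trace ℝ (Eu n) (mo p : Eu n →ₗ[ℝ] Eu n) = 1 := by
  have h1 : (mo p : Eu n →ₗ[ℝ] Eu n) = ∑ v ∈ p.support,
      p v • ((innerSL ℝ (v : Eu n) : Eu n →ₗ[ℝ] ℝ).smulRight (v : Eu n)) := by
    apply LinearMap.ext
    intro z
    rw [LinearMap.sum_apply]
    exact mo_apply p z
  rw [h1, map_sum]
  have h2 : ∀ v ∈ p.support, LinearMap.trace ℝ (Eu n)
      (p v • ((innerSL ℝ (v : Eu n) : Eu n →ₗ[ℝ] ℝ).smulRight (v : Eu n))) = p v := by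
    intro v _
    rw [map_smul, LinearMap.trace_smulRight]
    have h3 : (innerSL ℝ (v : Eu n) : Eu n →ₗ[ℝ] ℝ) (v : Eu n) = 1 := by
      show ⟪(v : Eu n), (v : Eu n)⟫ = 1
      rw [real_inner_self_eq_norm_sq, nrm, one_pow]
    rw [h3, smul_eq_mul, mul_one]
  rw [Finset.sum_congr rfl h2, sum_one hp]

theorem ex_eq (p : Sph n →₀ ℝ) (f : Sph n → ℝ) : ex p f = ∑ v ∈ p.support, p v * f v := rfl

theorem pos_of_mem {p : Sph n →₀ ℝ} (hp : Pw p) {v : Sph n} (hv : v ∈ p.support) : 0 < p v :=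
  lt_of_le_of_ne (hp.1 v) (Ne.symm (Finsupp.mem_support_iff.1 hv))

theorem supp_ne {p : Sph n →₀ ℝ} (hp : Pw p) : p.support.Nonempty := by
  by_contra h
  rw [Finset.not_nonempty_iff_eq_empty] at h
  have h1 := sum_one hp
  rw [h, Finset.sum_empty] at h1
  exact zero_ne_one h1

theorem av_le {p : Sph n →₀ ℝ} (hp : Pw p) (f : Sph n → ℝ) : ∃ v, 0 < p v ∧ f v ≤ ex p f := by
  by_contra h
  push Not at h
  have h1 : ∑ v ∈ p.support, p v * ex p f < ∑ v ∈ p.support, p v * f v :=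
    Finset.sum_lt_sum_of_nonempty (supp_ne hp) fun v hv =>
      mul_lt_mul_of_pos_left (h v (pos_of_mem hp hv)) (pos_of_mem hp hv)
  rw [← Finset.sum_mul, sum_one hp, one_mul, ← ex_eq] at h1
  exact lt_irrefl _ h1

theorem le_av {p : Sph n →₀ ℝ} (hp : Pw p) (f : Sph n → ℝ) : ∃ v, 0 < p v ∧ ex p f ≤ f v := by
  by_contra h
  push Not at h
  have h1 : ∑ v ∈ p.support, p v * f v < ∑ v ∈ p.support, p v * ex p f :=
    Finset.sum_lt_sum_of_nonempty (supp_ne hp) fun v hv =>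
      mul_lt_mul_of_pos_left (h v (pos_of_mem hp hv)) (pos_of_mem hp hv)
  rw [← Finset.sum_mul, sum_one hp, one_mul, ← ex_eq] at h1
  exact lt_irrefl _ h1

theorem ex_bar (p : Sph n →₀ ℝ) (z : Eu n) : ex p (fun v => ⟪z, (v : Eu n)⟫) = ⟪z, bar p⟫ := by
  rw [ex_eq]
  unfold bar Finsupp.sum
  rw [inner_sum]
  exact Finset.sum_congr rfl fun v _ => by rw [real_inner_smul_right]

theorem ex_mo (p : Sph n →₀ ℝ) (z : Eu n) :
    ex p (fun v => ⟪(v : Eu n), z⟫ ^ 2) = ⟪mo p z, z⟫ := by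
  rw [ex_eq, inner_mo]
  exact Finset.sum_congr rfl fun v _ => by rw [sq]

theorem dm_mem {p q : Sph n →₀ ℝ} (hp : Pw p) (hq : Pw q) (η : ℝ) : Dm η p q ∈ W0 n := by
  rw [mem_W0]
  constructor
  · intro x y
    show ⟪η • (mo p x - mo q x), y⟫ = ⟪x, η • (mo p y - mo q y)⟫
    rw [real_inner_smul_left, real_inner_smul_right, inner_sub_left, inner_sub_right, symm, symm]
  · have h1 : ((Dm η p q).2 : Eu n →ₗ[ℝ] Eu n) =
        η • ((mo p : Eu n →ₗ[ℝ] Eu n) - (mo q : Eu n →ₗ[ℝ] Eu n)) := rfl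
    rw [h1, map_smul, map_sub, trace_one hp, trace_one hq, sub_self, smul_zero]

end MoAux

open MoAux

theorem pMo : SMo := by
  intro n p q hp hq
  exact ⟨dm_mem hp hq, bar_le hp, mo_le hp, symm p, nonneg hp, norm_sq hp, trace_one hp,
    fun f => ⟨av_le hp f, le_av hp f⟩, ex_bar p, ex_mo p⟩

end Pool.Agent.MPaafd8a
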