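import Pool.Agent.Lib.MP_aafd8a_gt.Spec3

/-!
# Moments of compatible weights
-/

set_option autoImplicit false

open Topology RealInnerProductSpace

namespace Pool.Agent.MPaafd8a

namespace MomAux

variable {n : ℕ}

theorem ex_add (p : Sph n →₀ ℝ) (f g : Sph n → ℝ) :
    ex p (fun v => f v + g v) = ex p f + ex p g := by
  unfold ex Finsupp.sum
  rw [← Finset.sum_add_distrib]
  exact Finset.sum_congr rfl fun v _ => by ring

theorem ex_mul (p : Sph n →₀ ℝ) (c : ℝ) (f : Sph n → ℝ) :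
    ex p (fun v => c * f v) = c * ex p f := by
  unfold ex Finsupp.sum
  rw [Finset.mul_sum]
  exact Finset.sum_congr rfl fun v _ => by ring

theorem ex_const {p : Sph n →₀ ℝ} (hp : Pw p) (c : ℝ) : ex p (fun _ => c) = c := by
  have h1 := hp.2
  unfold Finsupp.sum at h1
  unfold ex Finsupp.sum
  rw [← Finset.sum_mul, h1, one_mul]

theorem ex_mono {p : Sph n →₀ ℝ} (hp : Pw p) {f g : Sph n → ℝ} (h : ∀ v, 0 < p v → f v ≤ g v) :
    ex p f ≤ ex p g := by
  unfold ex Finsupp.sum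
  apply Finset.sum_le_sum
  intro v hv
  have h1 : 0 < p v := lt_of_le_of_ne (hp.1 v) (Ne.symm (Finsupp.mem_support_iff.1 hv))
  exact mul_le_mul_of_nonneg_left (h v h1) h1.le

theorem inner_bar (q : Sph n →₀ ℝ) (z : Eu n) : ⟪bar q, z⟫ = ex q (fun y => ⟪(y : Eu n), z⟫) := by
  unfold bar ex Finsupp.sum
  rw [sum_inner]
  exact Finset.sum_congr rfl fun v _ => by rw [real_inner_smul_left]

theorem inner_mo (q : Sph n →₀ ℝ) (z : Eu n) :
    ⟪mo q z, z⟫ = ex q (fun y => ⟪(y : Eu n), z⟫ ^ 2) := by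
  unfold mo ex Finsupp.sum
  rw [sum_apply, sum_inner]
  refine Finset.sum_congr rfl fun v _ => ?_
  rw [smul_apply, ContinuousLinearMap.smulRight_apply, innerSL_apply_apply,
    real_inner_smul_left, real_inner_smul_left]
  ring

theorem ex_comm (p q : Sph n →₀ ℝ) (F : Sph n → Sph n → ℝ) :
    ex p (fun v => ex q (fun y => F v y)) = ex q (fun y => ex p (fun v => F v y)) := by
  unfold ex Finsupp.sum
  simp only [Finset.mul_sum]
  rw [Finset.sum_comm]
  exact Finset.sum_congr rfl fun v _ => Finset.sum_congr rfl fun y _ => by ring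

/-- the formula for the difference of the means -/
theorem formula {p q : Sph n →₀ ℝ} (hp : Pw p) (hq : Pw q) :
    ex p (gq p q) - ex q (gq p q) =
      (ex p (fun v => ⟪mo p (v : Eu n), (v : Eu n)⟫) - c2 n) +
      (ex q (fun v => ⟪mo q (v : Eu n), (v : Eu n)⟫) - c2 n) +
      (1 - c2 n) * (‖bar p‖ ^ 2 + ‖bar q‖ ^ 2) +
      2 * ex p (fun v => ex q (fun y => (1 + ⟪(v : Eu n), (y : Eu n)⟫) *
        (c2 n - ⟪(v : Eu n), (y : Eu n)⟫))) := by
  have hg : ∀ z : Sph n, gq p q z = (⟪mo p (z : Eu n), (z : Eu n)⟫ +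
      (-1) * ⟪mo q (z : Eu n), (z : Eu n)⟫) +
      ((1 - c2 n) * ⟪(z : Eu n), bar p⟫ + (-(1 - c2 n)) * ⟪(z : Eu n), bar q⟫) := by
    intro z
    unfold gq
    rw [sub_apply, inner_sub_left, inner_sub_left,
      real_inner_comm (z : Eu n) (bar p), real_inner_comm (z : Eu n) (bar q)]
    ring
  have hex : ∀ r : Sph n →₀ ℝ, ex r (gq p q) =
      (ex r (fun v => ⟪mo p (v : Eu n), (v : Eu n)⟫) +
        (-1) * ex r (fun v => ⟪mo q (v : Eu n), (v : Eu n)⟫)) +
      ((1 - c2 n) * ⟪bar r, bar p⟫ + (-(1 - c2 n)) * ⟪bar r, bar q⟫) := by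
    intro r
    have h1 : gq p q = fun z : Sph n => (⟪mo p (z : Eu n), (z : Eu n)⟫ +
      (-1) * ⟪mo q (z : Eu n), (z : Eu n)⟫) +
      ((1 - c2 n) * ⟪(z : Eu n), bar p⟫ + (-(1 - c2 n)) * ⟪(z : Eu n), bar q⟫) := funext hg
    rw [h1, ex_add, ex_add, ex_add, ex_mul, ex_mul, ex_mul, ← inner_bar, ← inner_bar]
  have hW : ex p (fun v => ⟪mo q (v : Eu n), (v : Eu n)⟫) =
      ex q (fun v => ⟪mo p (v : Eu n), (v : Eu n)⟫) := by
    simp only [inner_mo]
    rw [ex_comm]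
    simp only [real_inner_comm]
  have hE : ex p (fun v => ex q (fun y => (1 + ⟪(v : Eu n), (y : Eu n)⟫) *
        (c2 n - ⟪(v : Eu n), (y : Eu n)⟫))) =
      c2 n + ((c2 n - 1) * ⟪bar p, bar q⟫ +
        (-1) * ex p (fun v => ⟪mo q (v : Eu n), (v : Eu n)⟫)) := by
    have h1 : ∀ v y : Sph n, (1 + ⟪(v : Eu n), (y : Eu n)⟫) * (c2 n - ⟪(v : Eu n), (y : Eu n)⟫) =
        c2 n + ((c2 n - 1) * ⟪(y : Eu n), (v : Eu n)⟫ + (-1) * ⟪(y : Eu n), (v : Eu n)⟫ ^ 2) := by
      intro v y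
      rw [real_inner_comm (y : Eu n) (v : Eu n)]
      ring
    simp only [h1]
    simp only [ex_add, ex_mul, ex_const hq, ex_const hp, ← inner_bar, ← inner_mo]
    have h2 : ex p (fun v => ⟪bar q, (v : Eu n)⟫) = ⟪bar p, bar q⟫ := by
      rw [inner_bar]
      simp only [real_inner_comm]
    rw [h2]
  rw [hex p, hex q, hE, ← hW, real_inner_self_eq_norm_sq, real_inner_self_eq_norm_sq,
    real_inner_comm (bar p) (bar q)]
  ring

theorem inner_le_one (v y : Sph n) : -1 ≤ ⟪(v : Eu n), (y : Eu n)⟫ := by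
  have h1 : ‖(v : Eu n)‖ = 1 := mem_sphere_zero_iff_norm.1 v.2
  have h2 : ‖(y : Eu n)‖ = 1 := mem_sphere_zero_iff_norm.1 y.2
  have h3 := abs_real_inner_le_norm (v : Eu n) (y : Eu n)
  rw [h1, h2, mul_one] at h3
  exact (abs_le.1 h3).1

theorem part1 (hW : SWelch) (hn : 1 ≤ n) {p q : Sph n →₀ ℝ} (hp : Pw p) (hq : Pw q) (c : ℝ)
    (hc0 : 0 ≤ c) (hc : c ≤ c2 n) (h : Cpt2 c p q) :
    2 * (c2 n - c) ≤ ex p (gq p q) - ex q (gq p q) := by
  have hc2 : c2 n ≤ 1 / 2 := by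
    unfold c2
    have h1 : (1 : ℝ) ≤ n := by exact_mod_cast hn
    apply one_div_le_one_div_of_le <;> linarith
  have hE : (c2 n - c) * (1 + ⟪bar p, bar q⟫) ≤
      ex p (fun v => ex q (fun y => (1 + ⟪(v : Eu n), (y : Eu n)⟫) *
        (c2 n - ⟪(v : Eu n), (y : Eu n)⟫))) := by
    have h1 : (c2 n - c) * (1 + ⟪bar p, bar q⟫) =
        ex p (fun v => ex q (fun y => (c2 n - c) + (c2 n - c) * ⟪(y : Eu n), (v : Eu n)⟫)) := by
      simp only [ex_add, ex_mul, ex_const hq, ex_const hp, ← inner_bar]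
      have h2 : ex p (fun v => ⟪bar q, (v : Eu n)⟫) = ⟪bar p, bar q⟫ := by
        rw [inner_bar]
        simp only [real_inner_comm]
      rw [h2]
      ring
    rw [h1]
    apply ex_mono hp
    intro v hv
    apply ex_mono hq
    intro y hy
    have h3 := h v y hv hy
    have h4 := inner_le_one v y
    rw [real_inner_comm (v : Eu n) (y : Eu n)]
    nlinarith
  rw [formula hp hq]
  have h1 := hW n p hp
  have h2 := hW n q hq
  have h3 : -(‖bar p‖ ^ 2 + ‖bar q‖ ^ 2) / 2 ≤ ⟪bar p, bar q⟫ := by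
    have h4 := abs_real_inner_le_norm (bar p) (bar q)
    have h5 := (abs_le.1 h4).1
    nlinarith [sq_nonneg (‖bar p‖ - ‖bar q‖)]
  have h4 : 0 ≤ ‖bar p‖ ^ 2 + ‖bar q‖ ^ 2 := by positivity
  nlinarith [mul_nonneg (sub_nonneg.2 hc) (sub_nonneg.2 h3), mul_nonneg h4 hc0,
    mul_nonneg h4 (sub_nonneg.2 hc2)]

end MomAux

open MomAux in
theorem pMom : SWelch → SMom := by
  intro hW n hn p q hp hq
  refine ⟨fun c hc0 hc h => part1 hW hn hp hq c hc0 hc h, fun h => ?_⟩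
  have hc2 : 0 < c2 n := by
    unfold c2
    positivity
  let S : Finset ℝ := insert 0 ((p.support ×ˢ q.support).image
    (fun e => ⟪(e.1 : Eu n), (e.2 : Eu n)⟫))
  have hS : S.Nonempty := Finset.insert_nonempty _ _
  have hmax : S.max' hS < c2 n := by
    rw [Finset.max'_lt_iff]
    intro s hs
    rw [Finset.mem_insert] at hs
    rcases hs with rfl | hs
    · exact hc2
    · obtain ⟨e, he, rfl⟩ := Finset.mem_image.1 hs
      rw [Finset.mem_product] at he
      exact h e.1 e.2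
        (lt_of_le_of_ne (hp.1 _) (Ne.symm (Finsupp.mem_support_iff.1 he.1)))
        (lt_of_le_of_ne (hq.1 _) (Ne.symm (Finsupp.mem_support_iff.1 he.2)))
  obtain ⟨c, hc1, hc⟩ := exists_between hmax
  have h0 : 0 ≤ c := (Finset.le_max' S 0 (Finset.mem_insert_self _ _)).trans hc1.le
  have hC : Cpt2 c p q := by
    intro v y hv hy
    refine lt_of_le_of_lt (Finset.le_max' S _ ?_) hc1
    apply Finset.mem_insert_of_mem
    exact Finset.mem_image.2 ⟨(v, y), Finset.mem_product.2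
      ⟨Finsupp.mem_support_iff.2 hv.ne', Finsupp.mem_support_iff.2 hy.ne'⟩, rfl⟩
  have := part1 hW hn hp hq c h0 hc.le hC
  linarith

end Pool.Agent.MPaafd8a
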