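import Pool.Agent.Lib.MP_aafd8a_gt.Spec2

set_option autoImplicit false

open Topology RealInnerProductSpace

namespace Pool.Agent.MPaafd8a

private theorem Mono_mono {Y : Type} [TopologicalSpace Y] {k k' : ℤ} (h : k ≤ k')
    (hk : ConnAtLeast k' Y) : ConnAtLeast k Y :=
  ⟨hk.1, fun i hi y => hk.2 i (hi.trans h) y⟩

private theorem Mono_claim (h1 : SMain) (h2 : SFace) (h3 : SPr) (h4 : SCol) (h5 : SSml) (h6 : SCMon)
    (n : ℕ) (hn : 1 ≤ n) (r r' : ℝ) (h0 : 0 < r) (h0' : 0 < r') (hrr : r < r')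
    (hr' : r' < Real.pi) (hr2 : Real.pi / 2 < r')
    (hc : r ≤ Real.pi / 2 ∨ Real.pi - r' ≤ (Real.pi - r) / 2) (k : ℤ)
    (hk : ConnAtLeast k (Geo (cech n r h0))) : ConnAtLeast (k + n + 1) (Geo (cech n r' h0')) := by
  obtain ⟨hN, hcon⟩ := h1 n r' h0' hn hr2 hr'
  have hr : r < Real.pi := hrr.trans hr'
  suffices hle : k + 3 ≤ (covNum n (Real.pi - r') : ℤ) from Mono_mono (by linarith) hcon
  rcases lt_or_ge k 0 with hk0 | hk0
  · have : (n : ℤ) + 2 ≤ (covNum n (Real.pi - r') : ℤ) := by exact_mod_cast hN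
    have hn' : (1 : ℤ) ≤ (n : ℤ) := by exact_mod_cast hn
    linarith
  · obtain ⟨m, rfl⟩ := Int.eq_ofNat_of_zero_le hk0
    have hcos : -1 < -Real.cos r := by
      have : Real.cos r < Real.cos 0 := Real.cos_lt_cos_of_nonneg_of_le_pi le_rfl hr.le h0
      rw [Real.cos_zero] at this
      linarith
    have hK := (h2 n r h0 hr).1
    obtain ⟨P, hP⟩ := h3 n (-Real.cos r) (cech n r h0) hcos hK m hk
    rcases hc with hc | hc
    · have hc0 : -Real.cos r ≤ 0 := by
        have := Real.cos_nonneg_of_neg_pi_div_two_le_of_le (x := r) (by linarith [Real.pi_pos]) hc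
        linarith
      have h7 := h5 n (-Real.cos r) hc0 (cech n r h0) hK (m + 2) P hP
      have h8 : m + 3 ≤ covNum n (Real.pi - r') := by omega
      exact_mod_cast h8
    · have h7 := h4 n r h0 hr (cech n r h0) hK (m + 2) P hP
      have h9 := h6 n (Real.pi - r') ((Real.pi - r) / 2) (by linarith) hc
      have h8 : m + 3 ≤ covNum n (Real.pi - r') := by omega
      exact_mod_cast h8

theorem pMono : SMain → SFace → SPr → SCol → SSml → SCMon → SMono := by
  intro h1 h2 h3 h4 h5 h6 n hn r r' h0 h0' hrr hr' hr2 hc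
  have key : conn (Geo (cech n r h0)) ≤
      conn (Geo (cech n r' h0')) - (((n : ℝ) + 1 : ℝ) : EReal) := by
    apply sSup_le
    rintro x ⟨k, hk, rfl⟩
    rw [EReal.le_sub_iff_add_le (Or.inl (EReal.coe_ne_bot _)) (Or.inl (EReal.coe_ne_top _))]
    apply le_sSup
    refine ⟨k + n + 1, Mono_claim h1 h2 h3 h4 h5 h6 n hn r r' h0 h0' hrr hr' hr2 hc k hk, ?_⟩
    rw [← EReal.coe_add]
    push_cast
    rw [add_assoc]
  rwa [EReal.le_sub_iff_add_le (Or.inl (EReal.coe_ne_bot _)) (Or.inl (EReal.coe_ne_top _))] at key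

end Pool.Agent.MPaafd8a
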