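import Pool.Agent.Lib.MP_aafd8a_gt.Spec

/-!
# MP_aafd8a_gt: second half of the homotopy
-/

set_option autoImplicit false

open Topology RealInnerProductSpace

namespace Pool.Agent.MPaafd8a

theorem pMove : SHom → SMk → SPth → SMove := by
  classical
  intro hHom hMk hPth n c K m η hn hm hη hMar hK X _ _ A B _ _ f p w u G hf hp hf0 hp0 hsum hclu hcnt hG
  choose v hv using hclu
  have star : ∀ P : Finset (Sph n), P.Nonempty → P.card ≤ m → ∀ σ : Finset (Sph n), σ.Nonempty →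
      (∀ x ∈ σ, ∃ p ∈ P, dist x p < η) → σ ∈ K :=
    fun P hP hc σ hσ h => (hK σ).2 (hMar P hP hc σ hσ h)
  let Ctl : (A → Sph n) → C(X, Geo K) → Prop := fun ρ F =>
    ∀ x z, 0 < (F x).1 z → (∃ a, 0 < f a x ∧ ρ a = z) ∨ ∃ b, 0 < p b x ∧ u b = z
  have key : ∀ (ρ ρ' : A → Sph n), (∀ a, dist (ρ a) (ρ' a) < η) → ∀ (x : X) (σ : Finset (Sph n)), σ.Nonempty →
      (∀ z ∈ σ, (∃ a, 0 < f a x ∧ (ρ a = z ∨ ρ' a = z)) ∨ ∃ b, 0 < p b x ∧ u b = z) → σ ∈ K := by
    intro ρ ρ' hρ x σ hσ h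
    apply star (insert (v x) ((sp (fun a => f a x)).image ρ)) (Finset.insert_nonempty _ _) ?_ σ hσ
    · intro z hz
      rcases h z hz with ⟨a, ha, ha' | ha'⟩ | ⟨b, hb, hb'⟩
      · refine ⟨ρ a, Finset.mem_insert_of_mem (Finset.mem_image_of_mem ρ (mem_sp.2 ha)), ?_⟩
        rw [ha', dist_self]
        exact hη
      · refine ⟨ρ a, Finset.mem_insert_of_mem (Finset.mem_image_of_mem ρ (mem_sp.2 ha)), ?_⟩
        rw [← ha', dist_comm]
        exact hρ a
      · refine ⟨v x, Finset.mem_insert_self _ _, ?_⟩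
        rw [← hb']
        exact hv x b hb
    · refine (Finset.card_insert_le _ _).trans (le_trans (Nat.add_le_add_right Finset.card_image_le 1) (hcnt x))
  have hom : ∀ (ρ ρ' : A → Sph n), (∀ a, dist (ρ a) (ρ' a) < η) → ∀ F F' : C(X, Geo K), Ctl ρ F → Ctl ρ' F' →
      F.Homotopic F' := by
    intro ρ ρ' hρ F F' hF hF'
    apply hHom (Sph n) K X F F'
    intro x σ hσ h
    apply key ρ ρ' hρ x σ hσ
    intro z hz
    rcases h z hz with h1 | h1
    · rcases hF x z h1 with ⟨a, ha, ha'⟩ | hb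
      · exact Or.inl ⟨a, ha, Or.inl ha'⟩
      · exact Or.inr hb
    · rcases hF' x z h1 with ⟨a, ha, ha'⟩ | hb
      · exact Or.inl ⟨a, ha, Or.inr ha'⟩
      · exact Or.inr hb
  have mk : ∀ ρ : A → Sph n, ∃ F : C(X, Geo K), Ctl ρ F := by
    intro ρ
    obtain ⟨F, hF⟩ := hMk (Sph n) K X (A ⊕ B) (Sum.elim f p) (Sum.elim ρ u) (by
      rintro (a | b)
      · exact hf a
      · exact hp b) (by
      rintro (a | b) x
      · exact hf0 a x
      · exact hp0 b x) (by
      intro x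
      rw [Fintype.sum_sum_type]
      exact hsum x) (by
      intro x σ hσ h
      apply key ρ ρ (fun a => by rw [dist_self]; exact hη) x σ hσ
      intro z hz
      obtain ⟨i, hi, hi'⟩ := h z hz
      rcases i with a | b
      · exact Or.inl ⟨a, hi, Or.inl hi'⟩
      · exact Or.inr ⟨b, hi, hi'⟩)
    refine ⟨F, fun x z hz => ?_⟩
    obtain ⟨i, hi, hi'⟩ := hF x z hz
    rcases i with a | b
    · exact Or.inl ⟨a, hi, hi'⟩
    · exact Or.inr ⟨b, hi, hi'⟩
  have v₀ : Sph n := ⟨EuclideanSpace.single 0 1, by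
    rw [mem_sphere_zero_iff_norm, PiLp.norm_single, norm_one]⟩
  obtain ⟨M, pos, hpos0, hposM, hpos⟩ := hPth n hn η hη v₀ (Finset.univ.image w)
  have hW : ∀ a, w a ∈ Finset.univ.image w := fun a => Finset.mem_image_of_mem w (Finset.mem_univ a)
  have ind : ∀ t : ℕ, ∃ F : C(X, Geo K), Ctl (fun a => pos t (w a)) F ∧ G.Homotopic F := by
    intro t
    induction t with
    | zero =>
      refine ⟨G, fun x z hz => ?_, ContinuousMap.Homotopic.refl G⟩
      rcases hG x z hz with ⟨a, ha, ha'⟩ | hb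
      · exact Or.inl ⟨a, ha, (hpos0 _ (hW a)).trans ha'⟩
      · exact Or.inr hb
    | succ t ih =>
      obtain ⟨F, hF, hGF⟩ := ih
      obtain ⟨F', hF'⟩ := mk (fun a => pos (t + 1) (w a))
      exact ⟨F', hF', hGF.trans (hom _ _ (fun a => hpos t _ (hW a)) F F' hF hF')⟩
  obtain ⟨F, hF, hGF⟩ := ind M
  refine ⟨vtx K v₀, hGF.trans ?_⟩
  apply hHom (Sph n) K X F
  intro x σ hσ h
  apply star {v x, v₀} ⟨v x, Finset.mem_insert_self _ _⟩ ((Finset.card_le_two).trans hm) σ hσ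
  intro z hz
  rcases h z hz with h1 | h1
  · rcases hF x z h1 with ⟨a, ha, ha'⟩ | ⟨b, hb, hb'⟩
    · refine ⟨v₀, by simp, ?_⟩
      have h2 : z = v₀ := ha'.symm.trans (hposM _ (hW a))
      rw [h2, dist_self]
      exact hη
    · refine ⟨v x, by simp, ?_⟩
      rw [← hb']
      exact hv x b hb
  · refine ⟨v₀, by simp, ?_⟩
    have h2 : z = v₀ := by
      by_contra hne
      have h3 : ((ContinuousMap.const X (vtx K v₀)) x).1 z = 0 := by
        show Finsupp.single v₀ (1 : ℝ) z = 0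
        exact Finsupp.single_eq_of_ne (fun hh => hne hh)
      rw [h3] at h1
      exact lt_irrefl _ h1
    rw [h2, dist_self]
    exact hη

end Pool.Agent.MPaafd8a
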