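import Pool.Agent.Lib.MP_aafd8a_gt.Spec3

/-!
# MP_aafd8a_gt: null homotopy in a vector space minus the origin
-/

set_option autoImplicit false

open Topology RealInnerProductSpace

namespace Pool.Agent.MPaafd8a

namespace NHAux

/-- the weight of `h` -/
noncomputable def ca (t : unitInterval) : ℝ := max 0 (1 - 2 * (t : ℝ))

/-- the weight of the end point -/
noncomputable def cc (t : unitInterval) : ℝ := max 0 (2 * (t : ℝ) - 1)

theorem ca_cont : Continuous ca := by
  unfold ca
  fun_prop

theorem cc_cont : Continuous cc := by
  unfold cc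
  fun_prop

end NHAux

open NHAux in
theorem pNH : SKuhn → SGenV → SNH := by
  intro hKuhn hGenV D k hkD h hne
  classical
  have hXne : Nonempty (CSph (k + 1)) := by
    have h1 : (Metric.sphere (0 : Fin (k + 1) → ℝ) 1).Nonempty :=
      NormedSpace.sphere_nonempty.mpr zero_le_one
    exact h1.to_subtype
  obtain ⟨x₀, -, hx₀⟩ := (isCompact_univ (X := CSph (k + 1))).exists_isMinOn Set.univ_nonempty
    (h.continuous.norm.continuousOn)
  set κ : ℝ := ‖h x₀‖ with hκ
  have hκ0 : 0 < κ := norm_pos_iff.mpr (hne x₀)
  have hκle : ∀ x, κ ≤ ‖h x‖ := fun x => hx₀ (Set.mem_univ x)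
  have huc := CompactSpace.uniformContinuous_of_continuous h.continuous
  obtain ⟨η, hη, hηh⟩ := Metric.uniformContinuous_iff.1 huc (κ / 4) (by positivity)
  obtain ⟨A, hA, ψ, hψc, hψ0, hψ1, hψη, hψcard⟩ := hKuhn (k + 1) η hη
  set ha : A → Fin D → ℝ := fun a => if H : ∃ x, 0 < ψ a x then h H.choose else 0 with hha
  set hO : Option A → Fin D → ℝ := fun o => o.elim 0 ha with hhO
  obtain ⟨w, hw1, hw2⟩ := hGenV D (Option A) hO (κ / 4) (by positivity)
  have hclose : ∀ a x, 0 < ψ a x → ‖w (some a) - h x‖ ≤ κ / 2 := by
    intro a x hax
    have hex : ∃ x, 0 < ψ a x := ⟨x, hax⟩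
    have h1 : hO (some a) = h hex.choose := by
      change ha a = _
      rw [hha]
      exact dif_pos hex
    have h2 := hw1 (some a)
    rw [h1, dist_eq_norm] at h2
    have h3 := hηh (hψη a _ _ hex.choose_spec hax)
    rw [dist_eq_norm] at h3
    calc ‖w (some a) - h x‖ = ‖(w (some a) - h hex.choose) + (h hex.choose - h x)‖ := by
          congr 1
          abel
      _ ≤ ‖w (some a) - h hex.choose‖ + ‖h hex.choose - h x‖ := norm_add_le _ _
      _ ≤ κ / 2 := by linarith
  set g : CSph (k + 1) → Fin D → ℝ := fun x => ∑ a, ψ a x • w (some a) with hg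
  have hgc : Continuous g := by
    rw [hg]
    refine continuous_finset_sum _ ?_
    intro a _
    exact (hψc a).smul continuous_const
  have hgh : ∀ x, ‖g x - h x‖ ≤ κ / 2 := by
    intro x
    have h1 : g x - h x = ∑ a, ψ a x • (w (some a) - h x) := by
      simp only [smul_sub, Finset.sum_sub_distrib]
      rw [← Finset.sum_smul, hψ1, one_smul]
    rw [h1]
    refine (norm_sum_le _ _).trans ?_
    have h2 : ∀ a ∈ (Finset.univ : Finset A), ‖ψ a x • (w (some a) - h x)‖ ≤ ψ a x * (κ / 2) := by
      intro a _
      rw [norm_smul, Real.norm_of_nonneg (hψ0 a x)]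
      rcases (hψ0 a x).eq_or_lt with h3 | h3
      · rw [← h3, zero_mul, zero_mul]
      · exact mul_le_mul_of_nonneg_left (hclose a x h3) h3.le
    refine (Finset.sum_le_sum h2).trans (le_of_eq ?_)
    rw [← Finset.sum_mul, hψ1, one_mul]
  have hcont : Continuous (fun z : unitInterval × CSph (k + 1) =>
      ca z.1 • h z.2 + (1 - ca z.1 - cc z.1) • g z.2 + cc z.1 • w none) := by
    have h1 := ca_cont.comp (continuous_fst (X := unitInterval) (Y := CSph (k + 1)))
    have h2 := cc_cont.comp (continuous_fst (X := unitInterval) (Y := CSph (k + 1)))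
    have h3 := h.continuous.comp (continuous_snd (X := unitInterval) (Y := CSph (k + 1)))
    have h4 := hgc.comp (continuous_snd (X := unitInterval) (Y := CSph (k + 1)))
    exact ((h1.smul h3).add (((continuous_const.sub h1).sub h2).smul h4)).add
      (h2.smul continuous_const)
  refine ⟨⟨_, hcont⟩, w none, ?_, ?_, ?_⟩
  · intro x
    change ca 0 • h x + (1 - ca 0 - cc 0) • g x + cc 0 • w none = h x
    have h1 : ca 0 = 1 := by
      unfold ca
      norm_num
    have h2 : cc 0 = 0 := by
      unfold cc
      norm_num
    rw [h1, h2, one_smul, zero_smul, sub_self, sub_zero, zero_smul, add_zero, add_zero]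
  · intro x
    change ca 1 • h x + (1 - ca 1 - cc 1) • g x + cc 1 • w none = w none
    have h1 : ca 1 = 0 := by
      unfold ca
      norm_num
    have h2 : cc 1 = 1 := by
      unfold cc
      norm_num
    rw [h1, h2, one_smul, zero_smul, sub_zero, sub_self, zero_smul, add_zero, zero_add]
  · intro t x
    change ca t • h x + (1 - ca t - cc t) • g x + cc t • w none ≠ 0
    rcases le_total (t : ℝ) (1 / 2) with ht | ht
    · have h1 : cc t = 0 := by
        unfold cc
        exact max_eq_left (by linarith)
      have h2 : ca t = 1 - 2 * (t : ℝ) := by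
        unfold ca
        exact max_eq_right (by linarith)
      have ht0 : (0 : ℝ) ≤ t := t.2.1
      rw [h1, h2, zero_smul, add_zero]
      intro h3
      have h4 : h x = -((2 * (t : ℝ)) • (g x - h x)) := by
        have h5 : (1 - 2 * (t : ℝ)) • h x + (1 - (1 - 2 * (t : ℝ)) - 0) • g x =
            h x + (2 * (t : ℝ)) • (g x - h x) := by
          module
        rw [h5] at h3
        exact eq_neg_of_add_eq_zero_left h3
      have h5 := hκle x
      rw [h4, norm_neg, norm_smul, Real.norm_of_nonneg (by positivity)] at h5
      have h6 := hgh x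
      have h7 : 2 * (t : ℝ) * ‖g x - h x‖ ≤ 1 * (κ / 2) :=
        mul_le_mul (by linarith) h6 (norm_nonneg _) zero_le_one
      linarith
    · have h1 : ca t = 0 := by
        unfold ca
        exact max_eq_left (by linarith)
      have ht1 : (t : ℝ) ≤ 1 := t.2.2
      have hcc0 : 0 ≤ cc t := le_max_left _ _
      rw [h1, zero_smul, zero_add, sub_zero]
      set c : ℝ := cc t with hc
      intro h3
      set G : Option A → ℝ := fun o => o.elim c (fun a => (1 - c) * ψ a x) with hG
      have hspm : ∀ a, a ∉ sp (fun a => ψ a x) → ψ a x = 0 := by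
        intro a ha'
        by_contra h4
        apply ha'
        rw [mem_sp]
        exact lt_of_le_of_ne (hψ0 a x) (Ne.symm h4)
      set S : Finset (Option A) := insert none ((sp (fun a => ψ a x)).map Function.Embedding.some)
        with hS
      have hScard : S.card ≤ D := by
        refine (Finset.card_insert_le _ _).trans ?_
        rw [Finset.card_map]
        have := hψcard x
        omega
      have hli := Fintype.linearIndependent_iff.mp (hw2 S hScard) (fun i => G i.1)
      have hsum : ∑ i : S, G i.1 • w i.1 = 0 := by
        rw [Finset.sum_coe_sort S (fun i => G i • w i)]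
        have h4 : ∑ i ∈ S, G i • w i = ∑ i, G i • w i := by
          refine Finset.sum_subset (Finset.subset_univ S) ?_
          intro i _ hi
          rcases i with _ | a
          · exact absurd (Finset.mem_insert_self _ _) hi
          · have h5 : a ∉ sp (fun a => ψ a x) := by
              intro h6
              apply hi
              rw [hS]
              exact Finset.mem_insert_of_mem (Finset.mem_map.mpr ⟨a, h6, rfl⟩)
            have h6 : G (some a) = 0 := by
              change (1 - c) * ψ a x = 0
              rw [hspm a h5, mul_zero]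
            rw [h6, zero_smul]
        rw [h4, Fintype.sum_option]
        change c • w none + ∑ a, ((1 - c) * ψ a x) • w (some a) = 0
        rw [← h3, hg, Finset.smul_sum, add_comm]
        congr 1
        refine Finset.sum_congr rfl ?_
        intro a _
        rw [smul_smul]
      have hz := hli hsum
      have hc0 : c = 0 := hz ⟨none, Finset.mem_insert_self _ _⟩
      have hall : ∀ a, ψ a x = 0 := by
        intro a
        by_cases h5 : a ∈ sp (fun a => ψ a x)
        · have h6 := hz ⟨some a, Finset.mem_insert_of_mem (Finset.mem_map.mpr ⟨a, h5, rfl⟩)⟩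
          change (1 - c) * ψ a x = 0 at h6
          rw [hc0, sub_zero, one_mul] at h6
          exact h6
        · exact hspm a h5
      have h7 := hψ1 x
      rw [Finset.sum_eq_zero (fun a _ => hall a)] at h7
      exact zero_ne_one h7

end Pool.Agent.MPaafd8a
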