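import Pool.Agent.Lib.MP_aafd8a_gt.Spec3

/-!
# MP_aafd8a_gt, third part: near maxima have a witness
-/

set_option autoImplicit false

open Topology RealInnerProductSpace Filter

namespace Pool.Agent.MPaafd8a

namespace NearAux

variable {n : ℕ}

theorem qd_smul (t : ℝ) (w : Eu n × (Eu n →L[ℝ] Eu n)) (z : Sph n) : qd (t • w) z = t * qd w z := by
  unfold qd
  change ⟪t • w.1, (z : Eu n)⟫ + ⟪t • w.2 (z : Eu n), (z : Eu n)⟫ = _
  rw [real_inner_smul_left, real_inner_smul_left]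
  ring

theorem tendsto_qd {v : ℕ → Eu n × (Eu n →L[ℝ] Eu n)} {w : Eu n × (Eu n →L[ℝ] Eu n)}
    {z : ℕ → Sph n} {z₀ : Sph n} (hv : Tendsto v atTop (𝓝 w)) (hz : Tendsto z atTop (𝓝 z₀)) :
    Tendsto (fun j => qd (v j) (z j)) atTop (𝓝 (qd w z₀)) := by
  have h1 : Tendsto (fun j => ((z j : Sph n) : Eu n)) atTop (𝓝 (z₀ : Eu n)) :=
    (continuous_subtype_val.tendsto z₀).comp hz
  have h2 : Tendsto (fun j => (v j).1) atTop (𝓝 w.1) := (continuous_fst.tendsto w).comp hv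
  have h3 : Tendsto (fun j => (v j).2) atTop (𝓝 w.2) := (continuous_snd.tendsto w).comp hv
  have h4 : Tendsto (fun j => (v j).2 ((z j : Sph n) : Eu n)) atTop (𝓝 (w.2 (z₀ : Eu n))) := by
    have hc : Continuous fun p : (Eu n →L[ℝ] Eu n) × Eu n => p.1 p.2 :=
      isBoundedBilinearMap_apply.continuous
    exact (hc.tendsto (w.2, (z₀ : Eu n))).comp (h3.prodMk_nhds h1)
  unfold qd
  exact (h2.inner h1).add (h4.inner h1)

end NearAux

open NearAux

theorem pNear : SEig → SNear := by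
  intro hEig n c hc
  by_contra hcon
  push Not at hcon
  have hprop : ProperSpace (Eu n × (Eu n →L[ℝ] Eu n)) := FiniteDimensional.proper ℝ _
  -- a normalised sequence
  have hseq : ∀ j : ℕ, ∃ v : Eu n × (Eu n →L[ℝ] Eu n), v ∈ W0 n ∧ ‖v‖ = 1 ∧ ∀ y : Sph n,
      ∃ z : Sph n, (∀ z', qd v z' ≤ qd v z + 1 / ((j : ℝ) + 1)) ∧ c ≤ ⟪(z : Eu n), (y : Eu n)⟫ := by
    intro j
    obtain ⟨w, hw, hw0, h1⟩ := hcon (1 / ((j : ℝ) + 1)) (by positivity)
    have hwn : 0 < ‖w‖ := norm_pos_iff.mpr hw0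
    refine ⟨‖w‖⁻¹ • w, (W0 n).smul_mem _ hw, ?_, fun y => ?_⟩
    · rw [norm_smul, norm_inv, norm_norm, inv_mul_cancel₀ hwn.ne']
    · obtain ⟨z, h2, h3⟩ := h1 y
      refine ⟨z, fun z' => ?_, h3⟩
      rw [qd_smul, qd_smul]
      have h4 := mul_le_mul_of_nonneg_left (h2 z') (inv_nonneg.mpr hwn.le)
      refine h4.trans (le_of_eq ?_)
      field_simp
  choose v hvW hv1 hvz using hseq
  obtain ⟨w, hw, φ, hφ, hlim⟩ := (isCompact_sphere (0 : Eu n × (Eu n →L[ℝ] Eu n)) 1).tendsto_subseq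
    (x := v) (fun j => by rw [mem_sphere_zero_iff_norm]; exact hv1 j)
  rw [mem_sphere_zero_iff_norm] at hw
  have hwW : w ∈ W0 n := by
    have hcl : IsClosed ((W0 n : Submodule ℝ _) : Set (Eu n × (Eu n →L[ℝ] Eu n))) :=
      Submodule.closed_of_finiteDimensional _
    exact hcl.mem_of_tendsto hlim (Eventually.of_forall fun j => hvW _)
  have hw0 : w ≠ 0 := by
    intro h
    rw [h, norm_zero] at hw
    exact zero_ne_one hw
  obtain ⟨y, hy⟩ := hEig n w hwW hw0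
  choose z hz1 hz2 using fun j => hvz (φ j) y
  obtain ⟨z₀, -, ψ, hψ, hlim2⟩ := (isCompact_univ (X := Sph n)).tendsto_subseq
    (x := z) (fun j => Set.mem_univ _)
  have hlim1 : Tendsto (fun j => v (φ (ψ j))) atTop (𝓝 w) := hlim.comp hψ.tendsto_atTop
  have hqlim : Tendsto (fun j => qd (v (φ (ψ j))) (z (ψ j))) atTop (𝓝 (qd w z₀)) :=
    tendsto_qd hlim1 hlim2
  have hε : Tendsto (fun j : ℕ => 1 / ((φ (ψ j) : ℝ) + 1)) atTop (𝓝 0) :=
    tendsto_one_div_add_atTop_nhds_zero_nat.comp (hφ.tendsto_atTop.comp hψ.tendsto_atTop)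
  have hmax : ∀ z', qd w z' ≤ qd w z₀ := by
    intro z'
    have h1 : Tendsto (fun j => qd (v (φ (ψ j))) z') atTop (𝓝 (qd w z')) :=
      tendsto_qd hlim1 tendsto_const_nhds
    have h2 := hqlim.add hε
    rw [add_zero] at h2
    exact le_of_tendsto_of_tendsto' h1 h2 fun j => hz1 (ψ j) z'
  have h1 := hy z₀ hmax
  have h2 : c ≤ ⟪(z₀ : Eu n), (y : Eu n)⟫ := by
    have h3 : Tendsto (fun j => ⟪((z (ψ j) : Sph n) : Eu n), (y : Eu n)⟫) atTop
        (𝓝 ⟪(z₀ : Eu n), (y : Eu n)⟫) := by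
      have h4 : Continuous fun x : Sph n => ⟪(x : Eu n), (y : Eu n)⟫ :=
        continuous_subtype_val.inner continuous_const
      exact (h4.tendsto z₀).comp hlim2
    exact ge_of_tendsto' h3 fun j => hz2 (ψ j)
  linarith

end Pool.Agent.MPaafd8a
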