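import Pool.Agent.Lib.MP_aafd8a_gt.Spec2

/-!
# MP_aafd8a_gt: antipodally compatible spheres
-/

set_option autoImplicit false

open Topology RealInnerProductSpace

namespace Pool.Agent.MPaafd8a

private lemma Pr_abs (x : CSph 1) : |x.1 0| = 1 := by
  have h := x.2
  rw [mem_sphere_zero_iff_norm] at h
  have h1 : ‖x.1‖ = |x.1 0| := by
    apply le_antisymm
    · refine (pi_norm_le_iff_of_nonneg (abs_nonneg _)).2 ?_
      intro i
      rw [Subsingleton.elim i 0, Real.norm_eq_abs]
    · have := norm_le_pi_norm x.1 0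
      rwa [Real.norm_eq_abs] at this
  rw [← h1, h]

private lemma Pr_clopen : IsClopen {x : CSph 1 | 0 < x.1 0} := by
  have hcont : Continuous (fun x : CSph 1 => x.1 0) := (continuous_apply 0).comp continuous_subtype_val
  refine ⟨?_, isOpen_lt continuous_const hcont⟩
  have : {x : CSph 1 | 0 < x.1 0} = {x : CSph 1 | 1 ≤ x.1 0} := by
    ext x
    simp only [Set.mem_setOf_eq]
    constructor
    · intro h
      have h1 := Pr_abs x
      rw [abs_of_pos h] at h1
      exact h1.ge
    · intro h
      linarith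
  rw [this]
  exact isClosed_le continuous_const hcont

private lemma Pr_vtx {n : ℕ} {K : AbstractSimplicialComplex (Sph n)} {v w : Sph n} (h : 0 < (vtx K v).1 w) : w = v := by
  classical
  by_contra hne
  have h1 : (vtx K v).1 w = 0 := by
    unfold vtx
    rw [Finsupp.single_apply, if_neg (fun h => hne h.symm)]
  rw [h1] at h
  exact lt_irrefl _ h

private lemma Pr_inner {n : ℕ} (v : Sph n) : ⟪(v : Eu n), ((-v : Sph n) : Eu n)⟫ = -1 := by
  have h := v.2
  rw [mem_sphere_zero_iff_norm] at h
  have h1 : ((-v : Sph n) : Eu n) = -(v : Eu n) := rfl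
  rw [h1, inner_neg_right, real_inner_self_eq_norm_sq, h]
  norm_num

private lemma Pr_base {n : ℕ} {c : ℝ} (hc : -1 < c) (K : AbstractSimplicialComplex (Sph n)) (v : Sph n) :
    ∃ P : C(CSph 1, Geo K), Anti c P := by
  classical
  refine ⟨⟨fun x => if 0 < x.1 0 then vtx K v else vtx K (-v), ?_⟩, ?_⟩
  · refine continuous_if ?_ continuousOn_const continuousOn_const
    intro a ha
    rw [Pr_clopen.frontier_eq] at ha
    exact absurd ha (Set.notMem_empty a)
  · intro x u w hu hw
    have hx := Pr_abs x
    have hnx : ((-x : CSph 1).1 0) = -(x.1 0) := rfl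
    simp only [ContinuousMap.coe_mk] at hu hw
    rw [hnx] at hw
    by_cases h : 0 < x.1 0
    · have h2 : ¬ 0 < -(x.1 0) := by linarith
      rw [if_pos h] at hu
      rw [if_neg h2] at hw
      rw [Pr_vtx hu, Pr_vtx hw, Pr_inner]
      exact hc
    · have h2 : 0 < -(x.1 0) := by
        rcases (abs_eq (zero_le_one)).1 hx with h3 | h3
        · rw [h3] at h
          exact absurd one_pos h
        · rw [h3]
          norm_num
      rw [if_neg h] at hu
      rw [if_pos h2] at hw
      rw [Pr_vtx hu, Pr_vtx hw, real_inner_comm, Pr_inner]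
      exact hc

theorem pPr : SFil → SHemi → SNul → SPr := by
  intro hFil hHemi hNul n c K hc hK k hconn
  obtain ⟨p⟩ := hconn.1
  obtain ⟨v, -⟩ := support_nonempty_of_sum p.2.2.1
  have main : ∀ d : ℕ, d ≤ k + 1 → ∃ P : C(CSph (d + 1), Geo K), Anti c P := by
    intro d
    induction d with
    | zero =>
      intro _
      exact Pr_base hc K v
    | succ d ih =>
      intro hd
      obtain ⟨P, hP⟩ := ih (by omega)
      obtain ⟨y, hy⟩ := hNul (Geo K) d (fun x => hconn.2 d (by exact_mod_cast (by omega : d ≤ k)) x) P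
      obtain ⟨b, hb⟩ := hFil n c K hK (CSph (d + 1)) P (P.comp ⟨fun x => -x, continuous_neg⟩) y hP hy
      exact hHemi n c K d P (P.comp ⟨fun x => -x, continuous_neg⟩) y b (fun x => rfl) hb
  exact main (k + 1) le_rfl

end Pool.Agent.MPaafd8a
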