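import Pool.Agent.Lib.MP_aafd8a_gt.Spec3

/-!
# MP_aafd8a_gt: moving one pair of points
-/

set_option autoImplicit false

open Topology RealInnerProductSpace

namespace Pool.Agent.MPaafd8a

theorem pPt : SPt := by
  intro n v y ξ ζ c C s δ hc0 hc1 hξ hζ hs hsC hδ h
  have hv : ‖(v : Eu n)‖ = 1 := mem_sphere_zero_iff_norm.1 v.2
  have hy : ‖(y : Eu n)‖ = 1 := mem_sphere_zero_iff_norm.1 y.2
  have hC : 0 ≤ C := (norm_nonneg ξ).trans hξ
  set t : ℝ := ⟪(v : Eu n), (y : Eu n)⟫ with ht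
  set α : ℝ := ⟪(v : Eu n), ζ⟫ with hα
  set β : ℝ := ⟪ξ, (y : Eu n)⟫ with hβ
  set μ : ℝ := ⟪(v : Eu n), ξ⟫ with hμ
  set ν : ℝ := ⟪(y : Eu n), ζ⟫ with hν
  set γ : ℝ := ⟪ξ, ζ⟫ with hγ
  set a : ℝ := ‖(v : Eu n) + s • ξ‖ with ha
  set b : ℝ := ‖(y : Eu n) - s • ζ‖ with hb
  have hμC : |μ| ≤ C := by
    refine (abs_real_inner_le_norm _ _).trans ?_
    rw [hv, one_mul]
    exact hξ
  have hνC : |ν| ≤ C := by
    refine (abs_real_inner_le_norm _ _).trans ?_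
    rw [hy, one_mul]
    exact hζ
  have hγC : |γ| ≤ C * C :=
    (abs_real_inner_le_norm _ _).trans (mul_le_mul hξ hζ (norm_nonneg _) hC)
  have ha1 : 1 + s * μ ≤ a := by
    have h1 : ⟪(v : Eu n), (v : Eu n) + s • ξ⟫ = 1 + s * μ := by
      rw [inner_add_right, real_inner_self_eq_norm_sq, hv, inner_smul_right, ← hμ]
      norm_num
    rw [← h1]
    refine (real_inner_le_norm _ _).trans ?_
    rw [hv, one_mul]
  have hb1 : 1 - s * ν ≤ b := by
    have h1 : ⟪(y : Eu n), (y : Eu n) - s • ζ⟫ = 1 - s * ν := by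
      rw [inner_sub_right, real_inner_self_eq_norm_sq, hy, inner_smul_right, ← hν]
      norm_num
    rw [← h1]
    refine (real_inner_le_norm _ _).trans ?_
    rw [hy, one_mul]
  have ha2 : a ≤ 3 / 2 := by
    refine (norm_add_le _ _).trans ?_
    rw [hv, norm_smul, Real.norm_of_nonneg hs]
    nlinarith [mul_le_mul_of_nonneg_left hξ hs]
  have hb2 : b ≤ 3 / 2 := by
    refine (norm_sub_le _ _).trans ?_
    rw [hy, norm_smul, Real.norm_of_nonneg hs]
    nlinarith [mul_le_mul_of_nonneg_left hζ hs]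
  have hsμ : |s * μ| ≤ 1 / 2 := by
    rw [abs_mul, abs_of_nonneg hs]
    exact (mul_le_mul_of_nonneg_left hμC hs).trans hsC
  have hsν : |s * ν| ≤ 1 / 2 := by
    rw [abs_mul, abs_of_nonneg hs]
    exact (mul_le_mul_of_nonneg_left hνC hs).trans hsC
  have h3 := abs_le.1 hsμ
  have h4 := abs_le.1 hsν
  have ha3 : 1 / 2 ≤ a := by linarith [h3.1]
  have hb3 : 1 / 2 ≤ b := by linarith [h4.2]
  refine ⟨ha3, hb3, ?_⟩
  have hin : ⟪(v : Eu n) + s • ξ, (y : Eu n) - s • ζ⟫ = t - s * α + s * β - s ^ 2 * γ := by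
    rw [inner_add_left, inner_sub_right, inner_sub_right, inner_smul_right, inner_smul_right,
      real_inner_smul_left, real_inner_smul_left]
    ring
  rw [hin]
  have hab : (1 + s * μ) * (1 - s * ν) ≤ a * b :=
    mul_le_mul ha1 hb1 (by linarith [h4.2]) (by linarith)
  have hcab : c * ((1 + s * μ) * (1 - s * ν)) ≤ c * (a * b) := mul_le_mul_of_nonneg_left hab hc0
  have hμν : |μ * ν| ≤ C * C := by
    rw [abs_mul]
    exact mul_le_mul hμC hνC (abs_nonneg _) hC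
  have h5 : -(C * C) ≤ γ := (abs_le.1 hγC).1
  have h6 : μ * ν ≤ C * C := (abs_le.1 hμν).2
  have hs2 : 0 ≤ s ^ 2 := sq_nonneg s
  have h7 : -(s ^ 2 * γ) ≤ s ^ 2 * (C * C) := by nlinarith
  have h8 : c * (s ^ 2 * (μ * ν)) ≤ s ^ 2 * (C * C) := by
    have h9 : s ^ 2 * (μ * ν) ≤ s ^ 2 * (C * C) := mul_le_mul_of_nonneg_left h6 hs2
    have h10 : c * (s ^ 2 * (μ * ν)) ≤ c * (s ^ 2 * (C * C)) := mul_le_mul_of_nonneg_left h9 hc0
    have h11 : c * (s ^ 2 * (C * C)) ≤ 1 * (s ^ 2 * (C * C)) :=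
      mul_le_mul_of_nonneg_right hc1 (mul_nonneg hs2 (mul_nonneg hC hC))
    linarith
  have h12 : t - s * α + s * β - s ^ 2 * γ - c * (a * b) ≤ -δ := by
    have h13 : c * ((1 + s * μ) * (1 - s * ν)) =
        c + s * (c * (μ - ν)) - c * (s ^ 2 * (μ * ν)) := by ring
    have h14 : s * (α - β + c * (μ - ν)) = s * α - s * β + s * (c * (μ - ν)) := by ring
    rw [h13] at hcab
    rw [h14] at h
    nlinarith
  have hab2 : a * b ≤ 9 / 4 := by nlinarith
  have h15 : 4 / 9 * δ * (a * b) ≤ δ := by nlinarith [mul_le_mul_of_nonneg_left hab2 hδ]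
  have h16 : (c - 4 / 9 * δ) * (a * b) = c * (a * b) - 4 / 9 * δ * (a * b) := by ring
  rw [h16]
  linarith

end Pool.Agent.MPaafd8a
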