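import Pool.Agent.Lib.MP_aafd8a_gt.Spec

set_option autoImplicit false

open Topology RealInnerProductSpace

namespace Pool.Agent.MPaafd8a

theorem pPth : SPth := by
  classical
  intro n hn η hη v₀ W
  have hrank : 1 < Module.rank ℝ (Eu n) := by
    rw [← Module.finrank_eq_rank, finrank_euclideanSpace_fin]
    exact_mod_cast (by omega : 1 < n + 1)
  have hpc : IsPathConnected (Metric.sphere (0 : Eu n) 1) := isPathConnected_sphere hrank 0 zero_le_one
  haveI : PathConnectedSpace (Sph n) := isPathConnected_iff_pathConnectedSpace.1 hpc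
  let γ : (w : Sph n) → Path w v₀ := fun w => PathConnectedSpace.somePath w v₀
  have hun : ∀ w : Sph n, ∃ δ > 0, ∀ s t : unitInterval, dist s t < δ → dist (γ w s) (γ w t) < η := by
    intro w
    have h := CompactSpace.uniformContinuous_of_continuous (γ w).continuous
    rw [Metric.uniformContinuous_iff] at h
    obtain ⟨δ, hδ, h⟩ := h η hη
    exact ⟨δ, hδ, fun s t hst => h hst⟩
  choose δ hδ hδ' using hun
  have hN : ∀ w : Sph n, ∃ N : ℕ, (1 : ℝ) / (N + 1) < δ w := fun w => exists_nat_one_div_lt (hδ w)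
  choose N hN using hN
  let M : ℕ := W.sup N + 1
  have hM0 : (0 : ℝ) < (M : ℝ) := by
    have : (0 : ℕ) < M := Nat.succ_pos _
    exact_mod_cast this
  have hM : ∀ w ∈ W, (1 : ℝ) / M < δ w := by
    intro w hw
    refine lt_of_le_of_lt ?_ (hN w)
    apply one_div_le_one_div_of_le
    · positivity
    · have : N w ≤ W.sup N := Finset.le_sup hw
      have h2 : N w + 1 ≤ M := Nat.succ_le_succ this
      exact_mod_cast h2
  refine ⟨M, fun t w => γ w (Set.projIcc 0 1 zero_le_one ((t : ℝ) / M)), ?_, ?_, ?_⟩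
  · intro w _
    have : (((0 : ℕ) : ℝ) / M) = 0 := by simp
    simp only [this]
    rw [Set.projIcc_left]
    exact (γ w).source
  · intro w _
    have : ((M : ℝ) / M) = 1 := div_self hM0.ne'
    simp only [this]
    rw [Set.projIcc_right]
    exact (γ w).target
  · intro t w hw
    apply hδ'
    refine lt_of_le_of_lt ?_ (hM w hw)
    rw [Subtype.dist_eq, Real.dist_eq]
    refine (Set.abs_projIcc_sub_projIcc (zero_le_one' ℝ)).trans ?_
    rw [← sub_div]
    have : (t : ℝ) - ((t + 1 : ℕ) : ℝ) = -1 := by push_cast; ring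
    rw [this, abs_div, abs_neg, abs_one, abs_of_pos hM0]

end Pool.Agent.MPaafd8a
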