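import Pool.Agent.Lib.MP_aafd8a_gt.Spec

/-!
# MP_aafd8a_gt: the section q
-/

set_option autoImplicit false

open Topology RealInnerProductSpace

namespace Pool.Agent.MPaafd8a

namespace Sec

/-- the witnesses of the set of indices `L` -/
private def O {n : ℕ} (c : ℝ) {A : Type} (w : A → Sph n) (L : Finset A) : Set (Sph n) :=
  {y | ∀ a ∈ L, ⟪(w a : Eu n), (y : Eu n)⟫ < c}

private theorem O_open {n : ℕ} (c : ℝ) {A : Type} (w : A → Sph n) (L : Finset A) : IsOpen (O c w L) := by
  have h : O c w L = ⋂ a ∈ L, {y : Sph n | ⟪(w a : Eu n), (y : Eu n)⟫ < c} := by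
    ext y
    simp only [O, Set.mem_setOf_eq, Set.mem_iInter]
  rw [h]
  refine isOpen_biInter_finset fun a _ => ?_
  exact isOpen_lt (continuous_const.inner continuous_subtype_val) continuous_const

private theorem C_closed {X : Type} [TopologicalSpace X] {A : Type} [Fintype A] {ψ : A → X → ℝ} {θ : ℝ}
    (hψ : ∀ a, Continuous (ψ a)) (m : ℕ) : IsClosed {x | m ≤ (up θ (fun a => ψ a x)).card} := by
  classical
  have h : {x | m ≤ (up θ (fun a => ψ a x)).card} =
      ⋃ S ∈ (Finset.univ.filter (fun S : Finset A => m ≤ S.card)), ⋂ a ∈ S, {x | θ ≤ ψ a x} := by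
    ext x
    simp only [Set.mem_setOf_eq, Set.mem_iUnion, Set.mem_iInter, Finset.mem_filter, Finset.mem_univ, true_and,
      exists_prop]
    constructor
    · intro hx
      exact ⟨_, hx, fun a ha => (mem_up (f := fun a => ψ a x)).1 ha⟩
    · rintro ⟨S, hS, h⟩
      exact hS.trans (Finset.card_le_card fun a ha => mem_up.2 (h a ha))
  rw [h]
  refine isClosed_biUnion_finset fun S _ => ?_
  exact isClosed_biInter fun a _ => isClosed_le continuous_const (hψ a)

end Sec

open Sec in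
theorem pSec : SLay → SGen → SSec := by
  intro hLay hGen n c m X _ _ A _ ψ w θ hθ hψc hψ0 hψθ hface hcard
  classical
  obtain ⟨β, hβc, hβ0, hβ⟩ := hLay A θ hθ
  obtain ⟨z₀⟩ : Nonempty (Sph n) := by
    have h1 : (Metric.sphere (0 : Eu n) 1).Nonempty := by
      have : Nontrivial (Eu n) := inferInstance
      exact NormedSpace.sphere_nonempty.2 zero_le_one
    exact h1.to_subtype
  obtain ⟨y, hyO, hyL⟩ := hGen n (Finset A) (fun L => if (O c w L).Nonempty then O c w L else Set.univ)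
    (fun L => by
      by_cases h : (O c w L).Nonempty
      · simp only [if_pos h]
        exact O_open c w L
      · simp only [if_neg h]
        exact isOpen_univ)
    (fun L => by
      by_cases h : (O c w L).Nonempty
      · simp only [if_pos h]
        exact h
      · simp only [if_neg h]
        exact ⟨z₀, Set.mem_univ _⟩)
  set b : Finset A → X → ℝ := fun L x => β L (fun a => ψ a x) with hb
  have hbc : ∀ L, Continuous (b L) := fun L => (hβc L).comp (continuous_pi fun a => hψc a)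
  have hb0 : ∀ L x, 0 ≤ b L x := fun L x => hβ0 L _
  set q : X → Eu n := fun x => ∑ L, b L x • (y L : Eu n) with hq
  have hqc : Continuous q := continuous_finsetSum _ fun L _ => (hbc L).smul continuous_const
  -- nonzero on the closed set
  have hne : ∀ x, m ≤ (up θ (fun a => ψ a x)).card → q x ≠ 0 := by
    intro x hx h0
    obtain ⟨-, ⟨L₀, hL₀⟩, h3⟩ := hβ (fun a => ψ a x) (fun a => hψ0 a x)
    set T : Finset (Finset A) := Finset.univ.filter (fun L => 0 < b L x) with hT
    have hT1 := h3 T (fun L hL => (Finset.mem_filter.1 hL).2)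
    have hT2 := hcard x
    have hT3 : T.card ≤ n + 1 := by omega
    have hli := Fintype.linearIndependent_iff.1 (hyL T hT3) (fun L => b L.1 x)
    have hsum : ∑ L : T, b L.1 x • (y L.1 : Eu n) = 0 := by
      rw [Finset.sum_coe_sort T (fun L => b L x • (y L : Eu n))]
      refine Eq.trans ?_ h0
      refine Finset.sum_subset (Finset.subset_univ T) fun L _ hL => ?_
      have h4 : ¬ 0 < b L x := fun h => hL (Finset.mem_filter.2 ⟨Finset.mem_univ _, h⟩)
      have h5 : b L x = 0 := le_antisymm (not_lt.1 h4) (hb0 L x)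
      rw [h5, zero_smul]
    have h6 := hli hsum ⟨L₀, Finset.mem_filter.2 ⟨Finset.mem_univ _, hL₀⟩⟩
    have h7 : 0 < b L₀ x := hL₀
    have h8 : b L₀ x = 0 := h6
    exact h7.ne' h8
  -- the constant
  obtain ⟨κ, hκ, hκq⟩ : ∃ κ : ℝ, 0 < κ ∧ ∀ x, m ≤ (up θ (fun a => ψ a x)).card → κ ≤ ‖q x‖ := by
    rcases Set.eq_empty_or_nonempty {x | m ≤ (up θ (fun a => ψ a x)).card} with he | hne'
    · refine ⟨1, one_pos, fun x hx => ?_⟩
      have h1 : x ∈ {x | m ≤ (up θ (fun a => ψ a x)).card} := hx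
      rw [he] at h1
      exact absurd h1 (Set.notMem_empty x)
    · obtain ⟨x₀, hx₀, hmin⟩ := (C_closed hψc m).isCompact.exists_isMinOn hne' hqc.norm.continuousOn
      exact ⟨‖q x₀‖, norm_pos_iff.2 (hne x₀ hx₀), fun x hx => hmin hx⟩
  refine ⟨q, κ, hqc, hκ, hκq, ?_⟩
  intro x hx
  have h1 : 0 < ⟪q x, q x⟫ := by
    rw [real_inner_self_eq_norm_sq]
    exact pow_pos (norm_pos_iff.2 hx) 2
  have h2 : ⟪q x, q x⟫ = ∑ L, b L x * ⟪q x, (y L : Eu n)⟫ := by
    nth_rewrite 2 [hq]
    rw [inner_sum]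
    exact Finset.sum_congr rfl fun L _ => real_inner_smul_right _ _ _
  rw [h2] at h1
  obtain ⟨L, hL⟩ : ∃ L, 0 < b L x * ⟪q x, (y L : Eu n)⟫ := by
    by_contra hc
    push Not at hc
    exact absurd h1 (not_lt.2 (Finset.sum_nonpos fun L _ => hc L))
  have hLb : 0 < b L x := by
    rcases (hb0 L x).lt_or_eq with h | h
    · exact h
    · rw [← h, zero_mul] at hL
      exact absurd hL (lt_irrefl 0)
  have hLi : 0 < ⟪q x, (y L : Eu n)⟫ := (mul_pos_iff_of_pos_left hLb).1 hL
  obtain ⟨h3, -, -⟩ := hβ (fun a => ψ a x) (fun a => hψ0 a x)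
  obtain ⟨h4, h5⟩ := h3 L hLb
  obtain ⟨a₀, ha₀⟩ := hψθ x
  have hLne : L.Nonempty := ⟨a₀, h5 a₀ ha₀⟩
  obtain ⟨-, z, hz⟩ := hface x (L.image w) (hLne.image w) (fun v hv => by
    obtain ⟨a, ha, rfl⟩ := Finset.mem_image.1 hv
    exact ⟨a, h4 a ha, rfl⟩)
  have hO : (O c w L).Nonempty := ⟨z, fun a ha => hz (w a) (Finset.mem_image_of_mem w ha)⟩
  have h6 := hyO L
  simp only [if_pos hO] at h6
  exact ⟨y L, hLi, fun a ha => h6 a (h5 a ha)⟩

end Pool.Agent.MPaafd8a
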