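import Pool.Agent.Lib.MP_aafd8a_gt.Spec3

/-! # MP_aafd8a_gt, third part: small `c` (`pSect`) -/

set_option autoImplicit false

open Topology RealInnerProductSpace Filter

namespace Pool.Agent.MPaafd8a

namespace SectX

theorem nv {n : ℕ} (v : Sph n) : ‖(v : Eu n)‖ = 1 := mem_sphere_zero_iff_norm.1 v.2

/-- Normalisation of a family of nonnegative functions. -/
theorem normal {X A : Type} [TopologicalSpace X] [Fintype A] (h : A → X → ℝ)
    (hc : ∀ a, Continuous (h a)) (h0 : ∀ a x, 0 ≤ h a x) (hp : ∀ x, ∃ a, 0 < h a x) :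
    ∃ p : A → X → ℝ, (∀ a, Continuous (p a)) ∧ (∀ a x, 0 ≤ p a x) ∧ (∀ x, ∑ a, p a x = 1) ∧
      ∀ a x, 0 < p a x → 0 < h a x := by
  have hs : ∀ x, 0 < ∑ a, h a x := by
    intro x
    obtain ⟨a, ha⟩ := hp x
    exact Finset.sum_pos' (fun a _ => h0 a x) ⟨a, Finset.mem_univ a, ha⟩
  refine ⟨fun a x => h a x / ∑ b, h b x, fun a => ?_, fun a x => ?_, fun x => ?_, fun a x hx => ?_⟩
  · exact (hc a).div (continuous_finsetSum _ fun b _ => hc b) (fun x => (hs x).ne')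
  · exact div_nonneg (h0 a x) (hs x).le
  · change ∑ a, h a x / ∑ b, h b x = 1
    rw [← Finset.sum_div]
    exact div_self (hs x).ne'
  · by_contra hn
    have h1 : h a x = 0 := le_antisymm (not_lt.1 hn) (h0 a x)
    have h2 : (0 : ℝ) < h a x / ∑ b, h b x := hx
    rw [h1, zero_div] at h2
    exact lt_irrefl _ h2

theorem bar_eq {n : ℕ} {T : Finset (Sph n)} {p : Sph n →₀ ℝ} (h : p.support ⊆ T) : bar p = ∑ v ∈ T, p v • (v : Eu n) := by
  unfold bar
  exact Finsupp.sum_of_support_subset _ h _ fun v _ => zero_smul ℝ _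

theorem mo_eq {n : ℕ} {T : Finset (Sph n)} {p : Sph n →₀ ℝ} (h : p.support ⊆ T) :
    mo p = ∑ v ∈ T, p v • (innerSL ℝ (v : Eu n)).smulRight (v : Eu n) := by
  unfold mo
  exact Finsupp.sum_of_support_subset _ h _ fun v _ => zero_smul ℝ ((innerSL ℝ (v : Eu n)).smulRight (v : Eu n))

theorem cont_bar {n : ℕ} {X : Type} [TopologicalSpace X] {T : Finset (Sph n)} {p : X → Sph n →₀ ℝ} (h : ∀ x, (p x).support ⊆ T)
    (hc : ∀ v, Continuous fun x => p x v) : Continuous fun x => bar (p x) := by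
  have h1 : (fun x => bar (p x)) = fun x => ∑ v ∈ T, p x v • (v : Eu n) := funext fun x => bar_eq (h x)
  rw [h1]
  exact continuous_finsetSum _ fun v _ => (hc v).smul continuous_const

theorem cont_mo {n : ℕ} {X : Type} [TopologicalSpace X] {T : Finset (Sph n)} {p : X → Sph n →₀ ℝ} (h : ∀ x, (p x).support ⊆ T)
    (hc : ∀ v, Continuous fun x => p x v) : Continuous fun x => mo (p x) := by
  have h1 : (fun x => mo (p x)) = fun x => ∑ v ∈ T, p x v • (innerSL ℝ (v : Eu n)).smulRight (v : Eu n) :=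
    funext fun x => mo_eq (h x)
  rw [h1]
  exact continuous_finsetSum _ fun v _ => (hc v).smul continuous_const

theorem spos {n : ℕ} {K : AbstractSimplicialComplex (Sph n)} (p : Geo K) {v : Sph n} (h : v ∈ p.1.support) : 0 < p.1 v :=
  lt_of_le_of_ne (p.2.1 v) (Ne.symm (Finsupp.mem_support_iff.1 h))

theorem smem {n : ℕ} {K : AbstractSimplicialComplex (Sph n)} (p : Geo K) {v : Sph n} (h : 0 < p.1 v) : v ∈ p.1.support :=
  Finsupp.mem_support_iff.2 h.ne'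

theorem exmax {Y B : Type} [TopologicalSpace Y] [Fintype B] [Nonempty B] (f : B → Y → ℝ) (hf : ∀ b, Continuous (f b)) :
    ∃ m : Y → ℝ, Continuous m ∧ (∀ b y, f b y ≤ m y) ∧ ∀ y, ∃ b, m y = f b y := by
  refine ⟨fun y => Finset.univ.sup' Finset.univ_nonempty (fun b => f b y), ?_, fun b y => ?_, fun y => ?_⟩
  · exact Continuous.finset_sup'_apply Finset.univ_nonempty fun b _ => hf b
  · exact Finset.le_sup' (fun b => f b y) (Finset.mem_univ b)
  · obtain ⟨b, -, hb⟩ := Finset.exists_mem_eq_sup' Finset.univ_nonempty (fun b => f b y)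
    exact ⟨b, hb⟩

theorem qd_cont {n : ℕ} (z : Sph n) : Continuous fun w : Eu n × (Eu n →L[ℝ] Eu n) => qd w z := by
  unfold qd
  have hclm : Continuous (fun w : (Eu n →L[ℝ] Eu n) × Eu n => w.1 w.2) := isBoundedBilinearMap_apply.continuous
  exact (continuous_fst.inner continuous_const).add ((hclm.comp (continuous_snd.prodMk continuous_const)).inner continuous_const)

theorem qd_lip {n : ℕ} (w : Eu n × (Eu n →L[ℝ] Eu n)) (z z' : Sph n) : qd w z ≤ qd w z' + 3 * ‖w‖ * dist z z' := by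
  have h1 : ‖w.1‖ ≤ ‖w‖ := norm_fst_le w
  have h2 : ‖w.2‖ ≤ ‖w‖ := norm_snd_le w
  have h3 : dist z z' = ‖(z : Eu n) - z'‖ := by
    rw [← dist_eq_norm]
    rfl
  have h4 : qd w z = qd w z' + ⟪w.1, (z : Eu n) - z'⟫ + ⟪w.2 ((z : Eu n) - z'), (z : Eu n)⟫ + ⟪w.2 (z' : Eu n), (z : Eu n) - z'⟫ := by
    unfold qd
    rw [map_sub, inner_sub_left, inner_sub_right, inner_sub_right]
    ring
  obtain ⟨d, hd⟩ : ∃ d, d = (z : Eu n) - z' := ⟨_, rfl⟩
  rw [h3, h4, ← hd]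
  have e1 : ⟪w.1, d⟫ ≤ ‖w‖ * ‖d‖ :=
    (real_inner_le_norm _ _).trans (mul_le_mul_of_nonneg_right h1 (norm_nonneg _))
  have e2 : ⟪w.2 d, (z : Eu n)⟫ ≤ ‖w‖ * ‖d‖ := by
    refine (real_inner_le_norm _ _).trans ?_
    rw [nv, mul_one]
    exact (w.2.le_opNorm d).trans (mul_le_mul_of_nonneg_right h2 (norm_nonneg _))
  have e3 : ⟪w.2 (z' : Eu n), d⟫ ≤ ‖w‖ * ‖d‖ := by
    refine (real_inner_le_norm _ _).trans (mul_le_mul_of_nonneg_right ?_ (norm_nonneg _))
    have := w.2.le_opNorm (z' : Eu n)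
    rw [nv, mul_one] at this
    exact this.trans h2
  linarith

theorem c2_pos (n : ℕ) : 0 < c2 n := by unfold c2; positivity

end SectX

open SectX

theorem pSect : SCrd → SCpt → SHom → SMk → SNet → SCut → SSub → SMom → SMo → SDim → SNear → SFin → SNH → SSect := by
  intro hCrd hCpt hHom hMk hNet hCut hSub hMom hMo hDim hNear hFin hNH n hn c hc hcpos
  classical
  obtain ⟨η, hη0, hη1, ε, hε, c₀', hc₀', hfin⟩ := hFin n c hcpos
  obtain ⟨c₀, hc₀⟩ : ∃ c₀ : ℝ, c₀ = min c₀' (min c (c2 n)) := ⟨_, rfl⟩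
  have hc₀pos : 0 < c₀ := by rw [hc₀]; exact lt_min hc₀' (lt_min hcpos (c2_pos n))
  have hc₀1 : c₀ ≤ c₀' := by rw [hc₀]; exact min_le_left _ _
  have hc₀2 : c₀ ≤ c := by rw [hc₀]; exact (min_le_right _ _).trans (min_le_left _ _)
  have hc₀3 : c₀ ≤ c2 n := by rw [hc₀]; exact (min_le_right _ _).trans (min_le_right _ _)
  have h₀ : -1 < c₀ := by linarith
  refine ⟨c₀, h₀, hc₀pos, hc₀2, hc₀3, ?_⟩
  intro k hk f₀ f₁ h₁
  obtain ⟨g, q, hgf, hgq⟩ := hCut n c₀ (capK n c₀ h₀) (fun σ => Iff.rfl) (CSph (k + 1)) f₀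
  obtain ⟨ε₁, hε₁, hnear⟩ := hNear n c hcpos
  obtain ⟨ε₃, hε₃⟩ : ∃ ε₃ : ℝ, ε₃ = min ε₁ (ε / 4) := ⟨_, rfl⟩
  have hε₃pos : 0 < ε₃ := by rw [hε₃]; exact lt_min hε₁ (by positivity)
  have hε₃1 : ε₃ ≤ ε₁ := by rw [hε₃]; exact min_le_left _ _
  have hε₃2 : ε₃ ≤ ε / 4 := by rw [hε₃]; exact min_le_right _ _
  obtain ⟨T₁, hT₁⟩ := hCpt _ _ _ (isCompact_range g.continuous)
  obtain ⟨T₂, hT₂⟩ := hCpt _ _ _ (isCompact_range q.continuous)
  have hgT : ∀ x, (g x).1.support ⊆ T₁ := fun x => hT₁ _ (Set.mem_range_self x)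
  have hqT : ∀ x, (q x).1.support ⊆ T₂ := fun x => hT₂ _ (Set.mem_range_self x)
  have hgc : ∀ v, Continuous fun x => (g x).1 v := fun v => (hCrd _ _ v).comp g.continuous
  have hqc : ∀ v, Continuous fun x => (q x).1 v := fun v => (hCrd _ _ v).comp q.continuous
  have hbar : Continuous fun x => bar (g x).1 - bar (q x).1 := (cont_bar hgT hgc).sub (cont_bar hqT hqc)
  have hmo : Continuous fun x => mo (g x).1 - mo (q x).1 := (cont_mo hgT hgc).sub (cont_mo hqT hqc)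
  have hDmc : Continuous fun x => Dm η (g x).1 (q x).1 := hbar.prodMk (hmo.const_smul η)
  have hDm0 : ∀ x, Dm η (g x).1 (q x).1 ∈ W0 n := fun x => (hMo n _ _ (pw_of_geo (g x)) (pw_of_geo (q x))).1 η
  have hDmne : ∀ x, Dm η (g x).1 (q x).1 ≠ 0 := by
    intro x h
    have e1 : bar (g x).1 - bar (q x).1 = 0 := congrArg Prod.fst h
    have e2 : η • (mo (g x).1 - mo (q x).1) = 0 := congrArg Prod.snd h
    have e3 : mo (g x).1 - mo (q x).1 = 0 := (smul_eq_zero.1 e2).resolve_left hη0.ne'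
    have e4 := (hMom n hn _ _ (pw_of_geo (g x)) (pw_of_geo (q x))).2 (fun v w hv hw => (hgq x v w hv hw).trans_le hc₀3)
    have e5 : gq (g x).1 (q x).1 = fun _ => 0 := by
      funext z
      unfold gq
      rw [e1, e3, zero_apply]
      simp only [inner_zero_left, mul_zero, add_zero]
    rw [e5] at e4
    unfold ex at e4
    simp only [mul_zero, Finsupp.sum, Finset.sum_const_zero, sub_zero] at e4
    exact lt_irrefl _ e4
  have hDmn : ∀ x, ‖Dm η (g x).1 (q x).1‖ ≤ 4 := by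
    intro x
    obtain ⟨-, b1, b2, -⟩ := hMo n _ _ (pw_of_geo (g x)) (pw_of_geo (g x))
    obtain ⟨-, b3, b4, -⟩ := hMo n _ _ (pw_of_geo (q x)) (pw_of_geo (q x))
    rw [norm_prod_le_iff]
    refine ⟨?_, ?_⟩
    · change ‖bar (g x).1 - bar (q x).1‖ ≤ 4
      have := norm_sub_le (bar (g x).1) (bar (q x).1)
      linarith
    · change ‖η • (mo (g x).1 - mo (q x).1)‖ ≤ 4
      rw [norm_smul, Real.norm_eq_abs, abs_of_pos hη0]
      have e1 := norm_sub_le (mo (g x).1) (mo (q x).1)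
      have e2 := norm_nonneg (mo (g x).1 - mo (q x).1)
      nlinarith
  -- the null homotopy of the moments
  have hfr : Module.finrank ℝ (W0 n) = Module.finrank ℝ (Fin (dm n) → ℝ) := by
    rw [hDim n, Module.finrank_fin_fun]
  obtain ⟨e⟩ : Nonempty (W0 n ≃L[ℝ] (Fin (dm n) → ℝ)) := 
    FiniteDimensional.nonempty_continuousLinearEquiv_of_finrank_eq (𝕜 := ℝ) (E := W0 n) (F := Fin (dm n) → ℝ) hfr
  obtain ⟨h, hh⟩ : ∃ h : C(CSph (k + 1), Fin (dm n) → ℝ), ∀ x, h x = e ⟨Dm η (g x).1 (q x).1, hDm0 x⟩ :=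
    ⟨⟨fun x => e ⟨Dm η (g x).1 (q x).1, hDm0 x⟩, e.continuous.comp (hDmc.subtype_mk hDm0)⟩, fun x => rfl⟩
  obtain ⟨H, w₁, H0, H1, Hne⟩ := hNH (dm n) k hk h (by
    intro x h0
    rw [hh] at h0
    have e1 := e.map_eq_zero_iff.1 h0
    exact hDmne x (congrArg Subtype.val e1))
  obtain ⟨W, hW⟩ : ∃ W : unitInterval × CSph (k + 1) → Eu n × (Eu n →L[ℝ] Eu n), ∀ z, W z = (e.symm (H z) : W0 n).1 :=
    ⟨fun z => (e.symm (H z) : W0 n).1, fun z => rfl⟩
  have hWc : Continuous W := by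
    have e1 : W = fun z => (e.symm (H z) : W0 n).1 := funext hW
    rw [e1]
    exact continuous_subtype_val.comp (e.symm.continuous.comp H.continuous)
  have hWm : ∀ z, W z ∈ W0 n := fun z => by
    rw [hW]
    exact (e.symm (H z)).2
  have hWne : ∀ z, W z ≠ 0 := by
    intro z hz
    rw [hW] at hz
    have e1 : e.symm (H z) = 0 := Subtype.ext hz
    exact Hne z.1 z.2 (e.symm.map_eq_zero_iff.1 e1)
  have hW0 : ∀ x, W (0, x) = Dm η (g x).1 (q x).1 := by
    intro x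
    rw [hW, H0, hh, ContinuousLinearEquiv.symm_apply_apply]
  obtain ⟨w₂, hw₂⟩ : ∃ w₂ : Eu n × (Eu n →L[ℝ] Eu n), w₂ = (e.symm w₁ : W0 n).1 := ⟨_, rfl⟩
  have hW1 : ∀ x, W (1, x) = w₂ := by
    intro x
    rw [hW, H1, hw₂]
  -- the net
  obtain ⟨B, hB, u, χ, χc, χ0, χ1, χd⟩ := hNet n (ε₃ / 6) (by positivity)
  have hnet : ∀ z : Sph n, ∃ b, dist (u b) z < ε₃ / 6 := by
    intro z
    obtain ⟨b, -, hb⟩ : ∃ b ∈ Finset.univ, 0 < χ b z := by
      by_contra hno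
      push Not at hno
      have e2 := Finset.sum_nonpos (s := Finset.univ) hno
      rw [χ1] at e2
      exact absurd e2 (not_le.2 one_pos)
    exact ⟨b, χd b z hb⟩
  obtain ⟨z₀⟩ : Nonempty (Sph n) := by
    obtain ⟨v, hv⟩ := NormedSpace.sphere_nonempty (E := Eu n) (x := 0) (r := 1) |>.2 zero_le_one
    exact ⟨⟨v, hv⟩⟩
  have : Nonempty B := ⟨(hnet z₀).choose⟩
  obtain ⟨m, mc, mle, mex⟩ := exmax (Y := Eu n × (Eu n →L[ℝ] Eu n)) (B := B) (fun b w => qd w (u b)) (fun b => qd_cont (u b))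
  obtain ⟨r, hr⟩ : ∃ r : B → Eu n × (Eu n →L[ℝ] Eu n) → ℝ,
      r = fun b w => max 0 (qd w (u b) - m w + (ε₃ / 2) * ‖w‖) := ⟨_, rfl⟩
  have rc : ∀ b, Continuous (r b) := by
    intro b
    rw [hr]
    exact continuous_const.max (((qd_cont (u b)).sub mc).add (continuous_const.mul continuous_norm))
  have r0 : ∀ b w, 0 ≤ r b w := by
    intro b w
    rw [hr]
    exact le_max_left _ _
  have rex : ∀ w, w ≠ 0 → ∃ b, 0 < r b w := by
    intro w hw
    obtain ⟨b, hb⟩ := mex w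
    refine ⟨b, ?_⟩
    rw [hr]
    refine lt_max_of_lt_right ?_
    rw [hb]
    have := norm_pos_iff.2 hw
    change 0 < qd w (u b) - qd w (u b) + ε₃ / 2 * ‖w‖
    rw [sub_self, zero_add]
    positivity
  have rnear : ∀ b w, 0 < r b w → ∀ z', qd w z' ≤ qd w (u b) + ε₃ * ‖w‖ := by
    intro b w hb z'
    rw [hr] at hb
    have e1 : 0 < qd w (u b) - m w + (ε₃ / 2) * ‖w‖ := by
      rcases lt_max_iff.1 hb with e | e
      · exact absurd e (lt_irrefl _)
      · exact e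
    obtain ⟨b', hb'⟩ := hnet z'
    have e2 := qd_lip w z' (u b')
    rw [dist_comm] at e2
    have e3 : 3 * ‖w‖ * dist (u b') z' ≤ 3 * ‖w‖ * (ε₃ / 6) :=
      mul_le_mul_of_nonneg_left hb'.le (by positivity)
    have e4 := mle b' w
    change qd w (u b') ≤ m w at e4
    nlinarith
  -- the section
  obtain ⟨P, Pc, P0, P1, Pp⟩ := normal (X := unitInterval × CSph (k + 1)) (A := B) (fun b z => r b (W z))
    (fun b => (rc b).comp hWc) (fun b z => r0 _ _) (fun z => rex _ (hWne z))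
  have hface : ∀ w, w ∈ W0 n → w ≠ 0 → ∃ y : Sph n, ∀ b, 0 < r b w → ⟪(u b : Eu n), (y : Eu n)⟫ < c := by
    intro w hw hw'
    obtain ⟨y, hy⟩ := hnear w hw hw'
    refine ⟨y, fun b hb => hy (u b) fun z' => (rnear b w hb z').trans ?_⟩
    have := mul_le_mul_of_nonneg_right hε₃1 (norm_nonneg w)
    linarith
  obtain ⟨F, hF⟩ := hMk _ (capK n c hc) (unitInterval × CSph (k + 1)) B P u Pc P0 P1 (by
    intro z σ hσ hv
    obtain ⟨y, hy⟩ := hface (W z) (hWm z) (hWne z)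
    refine ⟨hσ, y, fun w hw => ?_⟩
    obtain ⟨b, hb, rfl⟩ := hv w hw
    exact hy b (Pp b z hb))
  obtain ⟨F1, hF1⟩ : ∃ F1 : C(CSph (k + 1), Geo (capK n c hc)), ∀ x, F1 x = F (1, x) :=
    ⟨⟨fun x => F (1, x), F.continuous.comp (continuous_const.prodMk continuous_id)⟩, fun x => rfl⟩
  obtain ⟨F0, hF0⟩ : ∃ F0 : C(CSph (k + 1), Geo (capK n c hc)), ∀ x, F0 x = F (0, x) :=
    ⟨⟨fun x => F (0, x), F.continuous.comp (continuous_const.prodMk continuous_id)⟩, fun x => rfl⟩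
  -- the map `g` seen in the larger complex
  obtain ⟨g', hg'⟩ := hSub _ (capK n c₀ h₀) (capK n c hc) (CSph (k + 1)) g fun x =>
    capFace_mono (g x).2.2.2 hc₀2
  have J1 : f₁.Homotopic g' := by
    refine hHom _ _ _ f₁ g' fun x σ hσ hv => ?_
    refine face_of_subset _ (f₁ x).2.2.2 (fun v hv' => ?_) hσ
    rcases hv v hv' with h | h
    · exact smem _ h
    · rw [hg'] at h
      have e1 := hgf x v h
      rw [← h₁] at e1
      exact smem _ e1
  have J2 : g'.Homotopic F0 := by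
    refine hHom _ _ _ g' F0 fun x σ hσ hv => ?_
    obtain ⟨y, hy, hy'⟩ := hfin (g x).1 (q x).1 (pw_of_geo (g x)) (pw_of_geo (q x))
      (fun v w hv hw => (hgq x v w hv hw).trans_le hc₀1)
    refine ⟨hσ, y, fun w hw => ?_⟩
    rcases hv w hw with h | h
    · rw [hg'] at h
      exact (hgq x w y h hy).trans_le hc₀2
    · rw [hF0] at h
      obtain ⟨b, hb, rfl⟩ := hF _ _ h
      have e1 : 0 < r b (W (0, x)) := Pp b _ hb
      rw [hW0] at e1
      refine hy' (u b) fun z' => (rnear b _ e1 z').trans ?_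
      have e2 := hDmn x
      have e3 := norm_nonneg (Dm η (g x).1 (q x).1)
      nlinarith
  have J3 : F0.Homotopic F1 := ⟨⟨F, fun x => (hF0 x).symm, fun x => (hF1 x).symm⟩⟩
  have hw₂m : w₂ ∈ W0 n := by
    rw [hw₂]
    exact (e.symm w₁).2
  have hw₂ne : w₂ ≠ 0 := by
    obtain ⟨v, hv⟩ := NormedSpace.sphere_nonempty (E := Fin (k + 1) → ℝ) (x := 0) (r := 1) |>.2 zero_le_one
    rw [← hW1 ⟨v, hv⟩]
    exact hWne _
  obtain ⟨b₀, hb₀⟩ := rex w₂ hw₂ne
  obtain ⟨y₂, hy₂⟩ := hface w₂ hw₂m hw₂ne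
  have J4 : F1.Homotopic (ContinuousMap.const _ (vtx (capK n c hc) (u b₀))) := by
    refine hHom _ _ _ _ _ fun x σ hσ hv => ?_
    refine ⟨hσ, y₂, fun w hw => ?_⟩
    rcases hv w hw with h | h
    · rw [hF1] at h
      obtain ⟨b, hb, rfl⟩ := hF _ _ h
      have e1 : 0 < r b (W (1, x)) := Pp b _ hb
      rw [hW1] at e1
      exact hy₂ b e1
    · change 0 < (Finsupp.single (u b₀) (1 : ℝ)) w at h
      rw [Finsupp.single_apply] at h
      split_ifs at h with e1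
      · rw [← e1]
        exact hy₂ b₀ hb₀
      · exact absurd h (lt_irrefl _)
  exact ⟨_, ((J1.trans J2).trans J3).trans J4⟩

end Pool.Agent.MPaafd8a
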