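import Pool.Agent.Lib.MP_aafd8a_gt.Spec3

/-!
# MP_aafd8a_gt: a margin
-/

set_option autoImplicit false

open Topology RealInnerProductSpace

namespace Pool.Agent.MPaafd8a

theorem Shrink.one {n : ℕ} {c : ℝ} (hc : -1 < c) (σ : Finset (Sph n)) :
    ∃ g : ℝ, -1 < g ∧ g < c ∧ (CapFace n c σ → CapFace n g σ) := by
  by_cases h : CapFace n c σ
  · obtain ⟨hne, y, hy⟩ := h
    obtain ⟨x₀, hx₀, hmax⟩ := σ.exists_max_image (fun x : Sph n => ⟪(x : Eu n), (y : Eu n)⟫) hne
    have h0 := hy x₀ hx₀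
    refine ⟨max ((c - 1) / 2) ((⟪(x₀ : Eu n), (y : Eu n)⟫ + c) / 2), ?_, ?_, fun _ => ⟨hne, y, ?_⟩⟩
    · exact lt_max_of_lt_left (by linarith)
    · exact max_lt (by linarith) (by linarith)
    · intro x hx
      refine lt_max_of_lt_right ?_
      have h1 := hmax x hx
      linarith
  · exact ⟨(c - 1) / 2, by linarith, by linarith, fun h' => absurd h' h⟩

theorem pShrink : SCpt → SShrink := by
  classical
  intro hCpt n c hc X _ _ h
  obtain ⟨T, hT⟩ := hCpt (Sph n) (capK n c hc) (Set.range h) (isCompact_range h.continuous)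
  choose g hg1 hg2 hg3 using fun σ : Finset (Sph n) => Shrink.one (n := n) hc σ
  have hne : T.powerset.Nonempty := ⟨∅, Finset.empty_mem_powerset T⟩
  refine ⟨T.powerset.sup' hne g, ?_, ?_, ?_⟩
  · exact (hg1 ∅).trans_le (Finset.le_sup' g (Finset.empty_mem_powerset T))
  · rw [Finset.sup'_lt_iff]
    exact fun σ _ => hg2 σ
  · intro x
    have h1 : (h x).1.support ∈ T.powerset := Finset.mem_powerset.2 (hT (h x) ⟨x, rfl⟩)
    exact capFace_mono (hg3 _ (h x).2.2.2) (Finset.le_sup' g h1)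

end Pool.Agent.MPaafd8a
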