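import Pool.Agent.Lib.MP_aafd8a_gt.Spec2

/-!
# MP_aafd8a_gt: small radius, by the Borsuk-Ulam theorem
-/

set_option autoImplicit false

open Topology RealInnerProductSpace

namespace Pool.Agent.MPaafd8a

namespace Sml

/-- extension by zero -/
private def ext (m D : ℕ) (y : Fin m → ℝ) (j : Fin D) : ℝ := if h : (j : ℕ) < m then y ⟨j, h⟩ else 0

private theorem ext_cont (m D : ℕ) : Continuous (ext m D) := by
  refine continuous_pi fun j => ?_
  by_cases h : (j : ℕ) < m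
  · have h1 : (fun y : Fin m → ℝ => ext m D y j) = fun y => y ⟨j, h⟩ := by
      funext y
      exact dif_pos h
    rw [h1]
    exact continuous_apply _
  · have h1 : (fun y : Fin m → ℝ => ext m D y j) = fun _ => 0 := by
      funext y
      exact dif_neg h
    rw [h1]
    exact continuous_const

private theorem ext_neg (m D : ℕ) (y : Fin m → ℝ) : ext m D (-y) = - ext m D y := by
  funext j
  unfold ext
  by_cases h : (j : ℕ) < m
  · simp [h]
  · simp [h]

private theorem ext_ne (m D : ℕ) (hmD : m ≤ D) {y : Fin m → ℝ} (hy : y ≠ 0) : ext m D y ≠ 0 := by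
  intro h
  apply hy
  funext i
  have h1 := congrFun h ⟨i, lt_of_lt_of_le i.2 hmD⟩
  unfold ext at h1
  simpa using h1

/-- the normalised extension -/
private noncomputable def nrm (m D : ℕ) (hmD : m ≤ D) (y : {y : Fin m → ℝ // y ≠ 0}) : CSph D :=
  ⟨‖ext m D y.1‖⁻¹ • ext m D y.1, by
    rw [mem_sphere_zero_iff_norm, norm_smul, norm_inv, norm_norm]
    exact inv_mul_cancel₀ (norm_ne_zero_iff.2 (ext_ne m D hmD y.2))⟩

private theorem nrm_cont (m D : ℕ) (hmD : m ≤ D) : Continuous (nrm m D hmD) := by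
  refine Continuous.subtype_mk ?_ _
  have h1 : Continuous fun y : {y : Fin m → ℝ // y ≠ 0} => ext m D y.1 := (ext_cont m D).comp continuous_subtype_val
  exact (h1.norm.inv₀ fun y => norm_ne_zero_iff.2 (ext_ne m D hmD y.2)).smul h1

private theorem nrm_neg (m D : ℕ) (hmD : m ≤ D) (y : {y : Fin m → ℝ // y ≠ 0}) (h : -y.1 ≠ 0) :
    nrm m D hmD ⟨-y.1, h⟩ = - nrm m D hmD y := by
  apply Subtype.ext
  change ‖ext m D (-y.1)‖⁻¹ • ext m D (-y.1) = -(‖ext m D y.1‖⁻¹ • ext m D y.1)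
  rw [ext_neg, norm_neg, smul_neg]

end Sml

open Sml in
theorem pSml : BU.SBU → SCrd → SCpt → SSml := by
  intro hBU hCrd hCpt n c hc K _ D P hP
  by_contra hD
  have hmD : (n + 1) + 1 ≤ D := by omega
  obtain ⟨T, hT⟩ := hCpt (Sph n) K (Set.range P) (isCompact_range P.continuous)
  have hTx : ∀ x, (P x).1.support ⊆ T := fun x => hT _ ⟨x, rfl⟩
  have hsum : ∀ x, ∑ v ∈ T, (P x).1 v = 1 := by
    intro x
    exact (Finsupp.sum_of_support_subset _ (hTx x) (fun _ a => a) (fun _ _ => rfl)).symm.trans (P x).2.2.1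
  have hnn : ∀ x v, 0 ≤ (P x).1 v := fun x v => (P x).2.1 v
  obtain ⟨Ψ, hΨ⟩ : ∃ Ψ : CSph D → (Fin (n + 1) → ℝ), Ψ = fun x i =>
      ∑ v ∈ T, ((P x).1 v - (P (-x)).1 v) * (v : Eu n) i := ⟨_, rfl⟩
  have hΨc : Continuous Ψ := by
    rw [hΨ]
    refine continuous_pi fun i => continuous_finsetSum _ fun v _ => ?_
    have h1 : Continuous fun x : CSph D => (P x).1 v := (hCrd (Sph n) K v).comp P.continuous
    have h2 : Continuous fun x : CSph D => (P (-x)).1 v := h1.comp continuous_neg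
    exact (h1.sub h2).mul continuous_const
  have hΨn : ∀ x, Ψ (-x) = - Ψ x := by
    intro x
    rw [hΨ]
    funext i
    beta_reduce
    rw [neg_neg, Pi.neg_apply, ← Finset.sum_neg_distrib]
    apply Finset.sum_congr rfl
    intro v _
    ring
  have hΨ0 : ∀ x, Ψ x ≠ 0 := by
    intro x hx
    obtain ⟨z, hz⟩ : ∃ z : Eu n, z = ∑ v ∈ T, (P x).1 v • (v : Eu n) := ⟨_, rfl⟩
    have hz2 : z = ∑ v ∈ T, (P (-x)).1 v • (v : Eu n) := by
      rw [hz, ← sub_eq_zero, ← Finset.sum_sub_distrib]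
      ext i
      have h1 := congrFun hx i
      rw [hΨ] at h1
      simp only [← sub_smul, WithLp.ofLp_sum, Finset.sum_apply, WithLp.ofLp_smul, Pi.smul_apply, smul_eq_mul,
        WithLp.ofLp_zero, Pi.zero_apply] at h1 ⊢
      exact h1
    have h1 : ⟪z, z⟫ = ∑ v ∈ T, ∑ w ∈ T, (P x).1 v * (P (-x)).1 w * ⟪(v : Eu n), (w : Eu n)⟫ := by
      conv_lhs => rw [hz2]
      conv_lhs => rw [inner_sum]
      have h2 : ∀ w ∈ T, ⟪z, (P (-x)).1 w • (w : Eu n)⟫ =
          ∑ v ∈ T, (P x).1 v * (P (-x)).1 w * ⟪(v : Eu n), (w : Eu n)⟫ := by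
        intro w _
        rw [hz, sum_inner]
        apply Finset.sum_congr rfl
        intro v _
        rw [real_inner_smul_left, real_inner_smul_right]
        ring
      rw [← hz2, Finset.sum_congr rfl h2, Finset.sum_comm]
    have h3 : ∑ v ∈ T, ∑ w ∈ T, (P x).1 v * (P (-x)).1 w * (⟪(v : Eu n), (w : Eu n)⟫ - c) = ⟪z, z⟫ - c := by
      rw [h1]
      simp only [mul_sub, Finset.sum_sub_distrib]
      congr 1
      have h4 : ∀ v ∈ T, ∑ w ∈ T, (P x).1 v * (P (-x)).1 w * c = (P x).1 v * c := by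
        intro v _
        rw [← Finset.sum_mul, ← Finset.mul_sum, hsum, mul_one]
      rw [Finset.sum_congr rfl h4, ← Finset.sum_mul, hsum, one_mul]
    have hle : ∀ v w, (P x).1 v * (P (-x)).1 w * (⟪(v : Eu n), (w : Eu n)⟫ - c) ≤ 0 := by
      intro v w
      rcases (hnn x v).eq_or_lt with h | h
      · rw [← h]
        simp
      rcases (hnn (-x) w).eq_or_lt with h' | h'
      · rw [← h']
        simp
      have h5 := hP x v w h h'
      exact mul_nonpos_of_nonneg_of_nonpos (mul_nonneg h.le h'.le) (by linarith)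
    obtain ⟨v0, hv0, hv1⟩ : ∃ v ∈ T, 0 < (P x).1 v := by
      by_contra h
      push Not at h
      have := Finset.sum_nonpos h
      rw [hsum] at this
      linarith
    obtain ⟨w0, hw0, hw1⟩ : ∃ v ∈ T, 0 < (P (-x)).1 v := by
      by_contra h
      push Not at h
      have := Finset.sum_nonpos h
      rw [hsum] at this
      linarith
    have h6 : ∑ v ∈ T, ∑ w ∈ T, (P x).1 v * (P (-x)).1 w * (⟪(v : Eu n), (w : Eu n)⟫ - c) < 0 := by
      apply Finset.sum_neg' (fun v _ => Finset.sum_nonpos fun w _ => hle v w)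
      refine ⟨v0, hv0, ?_⟩
      apply Finset.sum_neg' (fun w _ => hle v0 w)
      refine ⟨w0, hw0, ?_⟩
      have h5 := hP x v0 w0 hv1 hw1
      exact mul_neg_of_pos_of_neg (mul_pos hv1 hw1) (by linarith)
    rw [h3] at h6
    have h7 : 0 ≤ ⟪z, z⟫ := real_inner_self_nonneg
    linarith
  -- Borsuk-Ulam
  obtain ⟨g, hg⟩ : ∃ g : (Fin (n + 1 + 1) → ℝ) → (Fin (n + 1) → ℝ),
      g = fun y => if h : y = 0 then 0 else Ψ (nrm _ D hmD ⟨y, h⟩) := ⟨_, rfl⟩
  have hg1 : ∀ y (h : y ≠ 0), g y = Ψ (nrm _ D hmD ⟨y, h⟩) := by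
    intro y h
    rw [hg]
    exact dif_neg h
  have hg0 : g 0 = 0 := by
    rw [hg]
    exact dif_pos rfl
  have hgc : ContinuousOn g {0}ᶜ := by
    rw [continuousOn_iff_continuous_domRestrict]
    have h1 : Set.domRestrict {0}ᶜ g = fun y => Ψ (nrm _ D hmD ⟨y.1, y.2⟩) := by
      funext y
      exact hg1 y.1 y.2
    rw [h1]
    exact hΨc.comp ((nrm_cont _ D hmD).comp (continuous_subtype_val.subtype_mk _))
  have hgn : ∀ y, g (-y) = - g y := by
    intro y
    by_cases h : y = 0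
    · rw [h, neg_zero, hg0, neg_zero]
    · have h' : -y ≠ 0 := neg_ne_zero.2 h
      rw [hg1 y h, hg1 (-y) h', ← hΨn, ← nrm_neg _ D hmD ⟨y, h⟩ h']
  obtain ⟨y, hy, hy0⟩ := hBU (n + 1) g hgc hgn
  rw [hg1 y hy] at hy0
  exact hΨ0 _ hy0

end Pool.Agent.MPaafd8a
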