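import Pool.Agent.Lib.MP_aafd8a_gt.Defs

/-!
# MP_aafd8a_gt: statements

GOAL (`SMain`): for `n ≥ 1`, `π / 2 < r < π` the Cech complex of the open balls of radius `r` of the `n`-sphere is
`(N + n - 2)`-connected, `N ≥ n + 2` the least number of closed balls of radius `π - r` which cover the sphere.

Every statement is a proposition `SName`; the module `Name.lean` proves `pName : SName`, or, if the docstring says (from
`SA`, `SB`), the implication `SA → SB → SName` (other statements are hypotheses). Definitions: `Defs.lean`.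

The constant `c = - cos r > 0`. A finite nonempty set `σ` is a face iff there is a witness `y` with `⟪x, y⟫ < c` for all
`x ∈ σ` (`CapFace n c σ`).
-/

set_option autoImplicit false

open Topology RealInnerProductSpace

namespace Pool.Agent.MPaafd8a

/-! ## The realization -/

/-- **Coordinates are continuous** (30 lines). `continuous_iSup_dom`, `continuous_coinduced_dom`: it is enough that
`q ↦ (simplexMap K σ hσ q).1 v` is continuous on `stdSimplex ℝ σ`; it is `q.1 ⟨v, h⟩` if `h : v ∈ σ` (`ext0_mem`), else `0`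
(`ext0_notMem`). -/
def SCrd : Prop :=
  ∀ (V : Type) (K : AbstractSimplicialComplex V) (v : V), Continuous (fun p : Geo K => p.1 v)

/-- **Maps into a finite subcomplex** (80 lines). PROOF. For a face `σ ⊆ T` let `X_σ = {x | ∀ v ∈ T, v ∉ σ → (h x).1 v = 0}`,
a closed set. Every `x` is in `X_σ` for `σ = (h x).1.support`. By `LocallyFinite.continuous` (finite index type
`{σ // σ ∈ T.powerset ∧ σ ∈ K}`, `locallyFinite_of_finite`) it is enough that `h` is continuous on `X_σ`
(`continuousOn_iff_continuous_restrict`): the restriction of `h` to `X_σ` is `simplexMap K σ hσ ∘ g` with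
`g x = ⟨fun v => (h x).1 v, ...⟩ : stdSimplex ℝ σ` (the values outside `σ` are zero, so the sum over `σ` is one), `g` is
continuous (`Continuous.subtype_mk`, `continuous_pi`), and `simplexMap K σ hσ` is continuous: `continuous_iff_le_induced`,
`le_iSup`, i.e. `continuous_coinduced_rng` followed by `continuous_iSup_rng`. -/
def SCon : Prop :=
  ∀ (V : Type) (K : AbstractSimplicialComplex V) (X : Type) [TopologicalSpace X] (T : Finset V) (h : X → Geo K),
    (∀ x, (h x).1.support ⊆ T) → (∀ v, Continuous fun x => (h x).1 v) → Continuous h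

/-- **A compact set lies in a finite subcomplex** (90 lines). PROOF. Let `S = (fun p => p.1.support) '' C`, a set of faces. Claim: `S` is finite; then `T` = the union of the
members of `S`. For `τ ∈ S` choose `P τ ∈ C` with support `τ` (`P` is injective on `S`, as `(P τ).1.support = τ`). CLOSED: every subset `A` of `P '' S` is closed in `Geo K`: by
`isClosed_iSup_iff`, `isClosed_coinduced` it is enough that `simplexMap K σ hσ ⁻¹' A` is closed in `stdSimplex ℝ σ`. It is finite, hence closed: `simplexMap K σ hσ` is injective, and a point of `A` in its image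
has support contained in `σ` (`ext0_support`), so it is `P τ` for some `τ ∈ σ.powerset`: finitely many. So `P '' S` is a closed subset of the compact `C`, hence compact, and all its
subsets are closed, so it is discrete (`IsCompact.finite`, or: an infinite compact set has an accumulation point). So `P '' S` is finite, and `S` is finite by injectivity (`Set.Finite.of_finite_image`). -/
def SCpt : Prop :=
  ∀ (V : Type) (K : AbstractSimplicialComplex V) (C : Set (Geo K)), IsCompact C →
    ∃ T : Finset V, ∀ p ∈ C, p.1.support ⊆ T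

/-- **Straight line homotopy** (from `SCrd`, `SCon`, `SCpt`; 80 lines). PROOF. By `SCpt` there is a finite `T` which contains the supports of all `f x`, `g x` (`isCompact_range`). Put
`H (t, x) = (1 - t) • (f x).1 + t • (g x).1`: coordinates nonnegative, sum `1` (`Finsupp.sum_add_index'`, `Finsupp.sum_smul_index'`, or sum over `T` with `Finsupp.sum_of_support_subset`), every `v` in its support has
`0 < (f x).1 v` or `0 < (g x).1 v`, so the support is a face. `H` is continuous by `SCon` (coordinates: `SCrd` composed with `f`, `g`), `H (0, x) = f x`, `H (1, x) = g x`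
(`ContinuousMap.Homotopy`). -/
def SHom : Prop :=
  ∀ (V : Type) (K : AbstractSimplicialComplex V) (X : Type) [TopologicalSpace X] [CompactSpace X] (f g : C(X, Geo K)),
    (∀ x (σ : Finset V), σ.Nonempty → (∀ v ∈ σ, 0 < (f x).1 v ∨ 0 < (g x).1 v) → σ ∈ K) → f.Homotopic g

/-- **Maps given by weights** (from `SCon`; 60 lines). PROOF. `F x = ∑ a, Finsupp.single (u a) (p a x)`. Coordinate `v`: `∑ a, if u a = v then p a x else 0`, nonnegative and continuous; the sum of all
coordinates is `∑ a, p a x = 1` (`Finsupp.sum` is additive on nonnegative/any functions: `map_sum` for `Finsupp.liftAddHom` or sum over `T = Finset.univ.image u`); a positive coordinate `v` has some `a` with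
`u a = v`, `0 < p a x`; support contained in `T`; the support is a face by the hypothesis (it is nonempty by `support_nonempty_of_sum`). -/
def SMk : Prop :=
  ∀ (V : Type) (K : AbstractSimplicialComplex V) (X : Type) [TopologicalSpace X] (A : Type) [Fintype A]
    (p : A → X → ℝ) (u : A → V), (∀ a, Continuous (p a)) → (∀ a x, 0 ≤ p a x) → (∀ x, ∑ a, p a x = 1) →
    (∀ x (σ : Finset V), σ.Nonempty → (∀ v ∈ σ, ∃ a, 0 < p a x ∧ u a = v) → σ ∈ K) →
    ∃ F : C(X, Geo K), ∀ x v, 0 < (F x).1 v → ∃ a, 0 < p a x ∧ u a = v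

/-! ## Fine partitions of unity on the boundary of the cube -/

/-- **Kuhn partition of unity** (150 lines). On the boundary of the `D`-cube: functions of small support, at most `D` of
them positive at every point. PROOF. If `D = 0` the sphere is empty (take `A = Empty`; or the general proof works). Let `M : ℕ`, `M ≥ 1`, `2 / M < η`. For `y : Fin D → ℝ`, `z : Fin D → ℤ` let `μ y z = ‖fun k => max 0 (y k - z k)‖ + ‖fun k => max 0 (z k - y k)‖`
(sup norms) and `φ z y = max 0 (1 - μ y z)`, a continuous function of `y`. (1) `0 < φ z y` implies `|y k - z k| < 1` for all `k`, and more: `(y k - z k) + (z l - y l) < 1` for all `k, l`. (2) `φ ⌊y⌋ y > 0`: the first norm is `< 1` (`pi_norm_lt_iff`), the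
second is `0`. (3) If some `y k₀` is an integer then at most `D` indices `z` have `φ z y > 0`: `z k ∈ {⌊y k⌋, ⌊y k⌋ + 1}` and `z k₀ = y k₀` by (1), so `s(z) = ∑ k, (z k - ⌊y k⌋) ∈ {0, ..., D - 1}`; and `s` is injective on these `z`:
if `z, z'` both have `φ > 0` then `z ≤ z'` or `z' ≤ z` pointwise (otherwise `z k > z' k`, `z l < z' l` for some `k, l`, and adding `(z k - y k) + (y l - z l) < 1` and `(z' l - y l) + (y k - z' k) < 1` gives `(z k - z' k) + (z' l - z l) < 2`,
but both brackets are integers `≥ 1`), and if moreover the sums are equal then `z = z'`. INDEX SET: `A` = the subtype of the finite set `Fintype.piFinset (fun _ => Finset.Icc (-(M + 1)) (M + 1))` of `z`;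
for `x` in the sphere `y = M x` has `|y k| ≤ M` and some `|x k₀| = 1` (the sup norm is attained), so `y k₀ = ± M` is an integer. `ψ z x = φ z (M x) / ∑ z', φ z' (M x)`: the denominator is positive by (2) (`⌊M x⌋` is in `A`). Small supports:
`φ z (M x), φ z (M x') > 0` imply `|M x k - M x' k| < 2`, so `dist x x' < 2 / M < η` (`dist_pi_lt_iff`). -/
def SKuhn : Prop :=
  ∀ (D : ℕ) (η : ℝ), 0 < η → ∃ (A : Type) (_ : Fintype A) (ψ : A → CSph D → ℝ),
    (∀ a, Continuous (ψ a)) ∧ (∀ a x, 0 ≤ ψ a x) ∧ (∀ x, ∑ a, ψ a x = 1) ∧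
    (∀ a x x', 0 < ψ a x → 0 < ψ a x' → dist x x' < η) ∧ ∀ x, (sp (fun a => ψ a x)).card ≤ D

/-- **Simplicial approximation** (from `SCrd`, `SKuhn`; 70 lines). PROOF. If `CSph D` is empty take `A = Empty`. Otherwise `V` is nonempty (the support of `F x` is nonempty). The sets `{x | 0 < (F x).1 v}`, `v : V`, are open (`SCrd`) and cover the compact space
`CSph D` (`support_nonempty_of_sum`, values `≥ 0`). `lebesgue_number_lemma_of_metric` (for `Set.univ`): there is `η > 0` such that every ball of radius `η` is contained in one of them. Take `A, ψ` from `SKuhn` for `η`. For `a` such that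
some `x₀` has `0 < ψ a x₀` choose `x₀` and `w a` with `ball x₀ η ⊆ {x | 0 < (F x).1 (w a)}`; if `0 < ψ a x` then `dist x x₀ < η`. For the other `a` take any `w a`. -/
def SApp : Prop :=
  ∀ (V : Type) (K : AbstractSimplicialComplex V) (D : ℕ) (F : C(CSph D, Geo K)),
    ∃ (A : Type) (_ : Fintype A) (ψ : A → CSph D → ℝ) (w : A → V),
      (∀ a, Continuous (ψ a)) ∧ (∀ a x, 0 ≤ ψ a x) ∧ (∀ x, ∑ a, ψ a x = 1) ∧
      (∀ a x, 0 < ψ a x → 0 < (F x).1 (w a)) ∧ ∀ x, (sp (fun a => ψ a x)).card ≤ D

/-- **Layers** (120 lines). PROOF. `β L f = max 0 (L.fold min θ f - Lᶜ.fold max 0 f)` (`min (θ, min_L f) - max (0, max_(outside L) f)`), continuous in `f` (induction on the finite set for the two folds, `Finset.fold_insert`). `0 < β L f` iff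
`Lᶜ.fold max 0 f < L.fold min θ f`; use `Finset.lt_fold_min`, `Finset.fold_max_lt`, `Finset.le_fold_max`, `Finset.fold_min_le`, ... Let `0 < β L f`. If `a ∈ L` then `0 ≤ fold max < fold min ≤ f a`. If `θ ≤ f a` and `a ∉ L` then `f a ≤ fold max < fold min ≤ θ`, a contradiction.
Existence: `L = up θ f` has `fold min = θ` and `fold max < θ`. Count: let `𝒮` be a set of such `L`. It is a chain: if `a ∈ L \ L'`, `b ∈ L' \ L` then `f b < f a` (from `L`) and `f a < f b` (from `L'`). All members contain `up θ f` and are contained in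
`sp f`, and different members of a chain have different cardinalities, so `L ↦ L.card` maps `𝒮` injectively into `Finset.Icc (up θ f).card (sp f).card` (`Finset.card_le_card_of_injOn`, `Nat.card_Icc`); if `𝒮` is empty use `up θ f ⊆ sp f`. -/
def SLay : Prop :=
  ∀ (A : Type) [Fintype A] (θ : ℝ), 0 < θ → ∃ β : Finset A → (A → ℝ) → ℝ,
    (∀ L, Continuous (β L)) ∧ (∀ L f, 0 ≤ β L f) ∧ ∀ f : A → ℝ, (∀ a, 0 ≤ f a) →
      (∀ L, 0 < β L f → (∀ a ∈ L, 0 < f a) ∧ ∀ a, θ ≤ f a → a ∈ L) ∧
      (∃ L, 0 < β L f) ∧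
      (∀ 𝒮 : Finset (Finset A), (∀ L ∈ 𝒮, 0 < β L f) → 𝒮.card + (up θ f).card ≤ (sp f).card + 1)

/-! ## The sphere -/

/-- **Generic choice of witnesses** (120 lines). PROOF. Induction on the finite set of indices (`Finset.induction_on` for: for every `J : Finset ι` there is `y : ι → Sph n`, `y i ∈ O i` for `i ∈ J`, and for every `S ⊆ J` with `S.card ≤ n + 1` the vectors `y i`,
`i ∈ S`, are linearly independent; at the end `J = univ`). STEP `J ∪ {j}`: for every `S ⊆ J` with `S.card ≤ n` the span of `{y i | i ∈ S}` is a subspace of dimension `≤ n`, so a proper subspace of `Eu n` (`finrank = n + 1`), its complement is open and dense (a proper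
subspace has empty interior, `Submodule.eq_top_of_nonempty_interior'`), so the finite intersection `G` of these complements (over `S ∈ J.powerset`) is open and dense (`dense_biInter_of_isOpen`, or induction with `Dense.inter_of_isOpen_left`). The cone
`{x : Eu n | x ≠ 0 ∧ normalised x ∈ O j}` over the open nonempty set `O j` is open and nonempty (the map `x ↦ ‖x‖⁻¹ • x` from `{x // x ≠ 0}` to `Sph n` is continuous), so it contains a point of `G`; its normalisation `y j` is in `O j` and not in any of the spans (they are closed under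
scaling). If `S ⊆ J ∪ {j}`, `S.card ≤ n + 1`, `j ∈ S`: `S \ {j}` is independent with `≤ n` elements and `y j` is not in its span (`LinearIndependent` for `insert`: `linearIndepOn_insert` / `LinearIndepOn.insert`). Use `LinearIndepOn ℝ (fun i => (y i : Eu n)) S` internally. -/
def SGen : Prop :=
  ∀ (n : ℕ) (ι : Type) [Fintype ι] (O : ι → Set (Sph n)), (∀ i, IsOpen (O i)) → (∀ i, (O i).Nonempty) →
    ∃ y : ι → Sph n, (∀ i, y i ∈ O i) ∧
      ∀ S : Finset ι, S.card ≤ n + 1 → LinearIndependent ℝ (fun i : S => (y i : Eu n))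

/-- **Margin** (70 lines). PROOF. If `m = 0` every `η` works. Let `m ≥ 1`. The compact metric space `Fin m → Sph n` is covered by the open sets `A_y = {u | ∀ k, ⟪u k, y⟫ < c}`, `y : Sph n`: for `u` the set `σ = Finset.univ.image u` is nonempty with at most `m` elements. By
`lebesgue_number_lemma_of_metric` there is `η > 0` such that for all `u` there is `y` with `ball u η ⊆ A_y`. Let `P` be nonempty with `P.card ≤ m`; choose `u : Fin m → Sph n` with range `P` (e.g. `P.equivFin` and a default element; only `P ⊆ range u` is needed, values in `P`)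
and `y` for `u`. Let `x` satisfy `dist x p < η`, `p = u k`. The function `u' = Function.update u k x` is in `ball u η` (`dist_pi_lt_iff`), so `⟪x, y⟫ = ⟪u' k, y⟫ < c`. -/
def SMar : Prop :=
  ∀ (n m : ℕ) (c : ℝ), (∀ σ : Finset (Sph n), σ.Nonempty → σ.card ≤ m → CapFace n c σ) → ∃ η > 0, Margin n c m η

/-- **Paths to one point** (60 lines). PROOF. `Sph n` is path connected for `n ≥ 1` (`isPathConnected_sphere`, rank `n + 1 > 1`; for the subtype: `isPathConnected_iff_pathConnectedSpace`). For `w : Sph n` let `γ_w` be a path from `w` to `v₀` (`Path w v₀`, a continuous map on `unitInterval`). It is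
uniformly continuous (compact), so there is `δ_w > 0` with `dist s t < δ_w → dist (γ_w s) (γ_w t) < η`. `M : ℕ`, `1 / M < δ_w` for all `w ∈ W`, `M ≥ 1`. `pos t w = (γ_w).extend (t / M)`: (`Path.extend`, or `γ_w (Set.projIcc 0 1 zero_le_one (t / M))`); `pos 0 w = w`, `pos M w = v₀`, and
consecutive arguments (projected to `[0, 1]`) have distance `≤ 1 / M`. -/
def SPth : Prop :=
  ∀ n : ℕ, 1 ≤ n → ∀ η : ℝ, 0 < η → ∀ (v₀ : Sph n) (W : Finset (Sph n)), ∃ (M : ℕ) (pos : ℕ → Sph n → Sph n),
    (∀ w ∈ W, pos 0 w = w) ∧ (∀ w ∈ W, pos M w = v₀) ∧ ∀ t, ∀ w ∈ W, dist (pos t w) (pos (t + 1) w) < η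

/-- **Nets** (50 lines). PROOF. `Sph n` is compact: a finite set `B ⊆ Sph n` with `Sph n = ⋃ b ∈ B, ball b η` (`finite_cover_balls_of_compact`, or `IsCompact.elim_nhds_subcover`). `g b v = max 0 (η - dist b v)`, continuous, nonnegative, positive iff `dist b v < η`; the sum over `b` is positive at every `v`.
`χ b v = g b v / ∑ b', g b' v`, index type the subtype of `B`, `u` the inclusion. -/
def SNet : Prop :=
  ∀ (n : ℕ) (η : ℝ), 0 < η → ∃ (B : Type) (_ : Fintype B) (u : B → Sph n) (χ : B → Sph n → ℝ),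
    (∀ b, Continuous (χ b)) ∧ (∀ b v, 0 ≤ χ b v) ∧ (∀ v, ∑ b, χ b v = 1) ∧ ∀ b v, 0 < χ b v → dist (u b) v < η

/-- **The section** (from `SLay`, `SGen`; 150 lines). PROOF. Let `β` be as in `SLay`, `b L x = β L (fun a => ψ a x)`. For `L : Finset A` let `O L = {y : Sph n | ∀ a ∈ L, ⟪w a, y⟫ < c}`, an open set; if it is empty replace it by `univ` (`Sph n` is nonempty). If some `x` has `0 < ψ a x` for all `a ∈ L` and `L` is
nonempty, then `O L` is nonempty by hypothesis for `σ = L.image w`. Choose `y L ∈ O L` by `SGen` (index type `Finset A`). `q x = ∑ L, b L x • (y L : Eu n)`, continuous. WITNESS: if `q x ≠ 0` then `0 < ⟪q x, q x⟫ = ∑ L, b L x * ⟪q x, y L⟫`, so some `L` has `0 < b L x` and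
`0 < ⟪q x, y L⟫`; `L` contains all `a` with `θ ≤ ψ a x` (so it is nonempty) and `0 < ψ a x` for `a ∈ L`, so `⟪w a, y L⟫ < c` for `a ∈ L`. Take `y = y L`. KAPPA: the set `C = {x | m ≤ (up θ (fun a => ψ a x)).card}` is closed: it is the union over the `S : Finset A` with `m ≤ S.card` of the closed
sets `{x | ∀ a ∈ S, θ ≤ ψ a x}`. On `C`, `q x ≠ 0`: the set `𝒮` of the `L` with `0 < b L x` is nonempty and has at most `(m + n) + 1 - m = n + 1` elements, so the `y L`, `L ∈ 𝒮`, are linearly independent, and `q x = ∑ L ∈ 𝒮, b L x • y L` is a nontrivial combination. If `C` is empty take `κ = 1`,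
otherwise `κ` = the minimum of the continuous positive function `‖q x‖` on the compact set `C` (`IsCompact.exists_isMinOn`). -/
def SSec : Prop :=
  ∀ (n : ℕ) (c : ℝ) (m : ℕ) (X : Type) [TopologicalSpace X] [CompactSpace X] (A : Type) [Fintype A]
    (ψ : A → X → ℝ) (w : A → Sph n) (θ : ℝ), 0 < θ → (∀ a, Continuous (ψ a)) → (∀ a x, 0 ≤ ψ a x) →
    (∀ x, ∃ a, θ ≤ ψ a x) →
    (∀ x (σ : Finset (Sph n)), σ.Nonempty → (∀ v ∈ σ, ∃ a, 0 < ψ a x ∧ w a = v) → CapFace n c σ) →
    (∀ x, (sp (fun a => ψ a x)).card ≤ m + n) →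
    ∃ (q : X → Eu n) (κ : ℝ), Continuous q ∧ 0 < κ ∧
      (∀ x, m ≤ (up θ (fun a => ψ a x)).card → κ ≤ ‖q x‖) ∧
      ∀ x, q x ≠ 0 → ∃ y : Sph n, 0 < ⟪q x, (y : Eu n)⟫ ∧ ∀ a, θ ≤ ψ a x → ⟪(w a : Eu n), (y : Eu n)⟫ < c

/-- **The moving point** (70 lines). PROOF. For `q x ≠ 0` let `v x = - ‖q x‖⁻¹ • q x ∈ Sph n`. `p b x = min 1 (‖q x‖ / κ) * χ b (v x)` if `q x ≠ 0`, `0` otherwise. Continuity (`continuous_iff_continuousAt`): at `x` with `q x ≠ 0`: on the open set `{q ≠ 0}` it is a composition of continuous maps (work on the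
subtype, `IsOpen.continuousAt_iff` / `ContinuousOn.continuousAt`). At `q x = 0`: `0 ≤ p b x' ≤ min 1 (‖q x'‖ / κ)` (as `0 ≤ χ ≤ 1`), which tends to `0` (`squeeze_zero`). The sum is `min 1 (‖q x‖ / κ)` (both sides are `0` if `q x = 0`). -/
def SVp : Prop :=
  ∀ (n : ℕ) (X : Type) [TopologicalSpace X] (q : X → Eu n), Continuous q → ∀ κ : ℝ, 0 < κ →
    ∀ (B : Type) [Fintype B] (χ : B → Sph n → ℝ), (∀ b, Continuous (χ b)) → (∀ b v, 0 ≤ χ b v) →
    (∀ v, ∑ b, χ b v = 1) → ∃ p : B → X → ℝ, (∀ b, Continuous (p b)) ∧ (∀ b x, 0 ≤ p b x) ∧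
      (∀ x, ∑ b, p b x = min 1 (‖q x‖ / κ)) ∧
      ∀ x, q x ≠ 0 → ∃ v : Sph n, q x = -(‖q x‖ • (v : Eu n)) ∧ ∀ b, 0 < p b x → 0 < χ b v

/-! ## Assembly -/

/-- **First half** (from `SHom`, `SMk`, `SApp`, `SNet`, `SSec`, `SVp`; 200 lines): `F` is homotopic to a map `G` whose supports consist of at most `m - 1` moving vertices `w a` and of a cluster of vertices near one point.
PROOF. Let `D ≥ 1` (`D = 0`: the space is empty, everything is vacuous: take `A = B = Empty`, `G = F`). `A, ψ, w` from `SApp`. `θ = 1 / (D + 1)`: for every `x` some `a` has `θ < ψ a x` (the sum of the at most `D` positive values is `1`). `g a x = max 0 (ψ a x - θ)`, `S x = ∑ a, g a x > 0`, `f₀ a x = g a x / S x`,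
positive iff `θ < ψ a x`. `F₀` from `SMk` for `f₀, w` (faces: the vertices `w a`, `0 < f₀ a x`, are in the support of `F x`, which is a face); `F` and `F₀` are homotopic by `SHom` (all vertices involved are in the support of `F x`). `q, κ` from `SSec` for `ψ, w, θ`
(hypothesis `CapFace`: the support of `F x` is a face and `hK`; `D ≤ m + n`). `B, u, χ` from `SNet` for `min η c`, `p` from `SVp`. `l x = 1 - min 1 (‖q x‖ / κ) ∈ [0, 1]`, `f a x = l x * f₀ a x`. `G` from `SMk` for the index type `A ⊕ B`, weights `f`, `p`, vertices `w`, `u`. FACES (for `SMk` and for the homotopy between `F₀` and `G`; it is enough to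
show that every nonempty `σ` whose elements are of the form `w a` with `θ < ψ a x` or `u b` with `0 < p b x` is a face): if `q x = 0` then all `p b x = 0` (their sum is `0`) and the elements are in the support of `F x`. If `q x ≠ 0` let `y` be as in `SSec`, `v` as in `SVp`: `⟪w a, y⟫ < c`, and `⟪v, y⟫ < 0` because `q x = -‖q x‖ v`, so
`⟪u b, y⟫ = ⟪v, y⟫ + ⟪u b - v, y⟫ < 0 + dist (u b) v < c`. COUNT: if `l x = 0` then `sp` is empty and `1 ≤ m`. If `l x > 0` then `‖q x‖ < κ`, so `(up θ ..).card < m`, and `sp (f · x) ⊆ up θ (ψ · x)`. CLUSTER: if `q x ≠ 0` take `v`; if `q x = 0` no `b` has `0 < p b x`, any point. -/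
def SStart : Prop :=
  ∀ (n : ℕ) (c : ℝ) (K : AbstractSimplicialComplex (Sph n)) (m D : ℕ) (η : ℝ), 0 < c → 1 ≤ m → 0 < η →
    (∀ σ, σ ∈ K ↔ CapFace n c σ) → D ≤ m + n → ∀ F : C(CSph D, Geo K),
    ∃ (A B : Type) (_ : Fintype A) (_ : Fintype B) (f : A → CSph D → ℝ) (p : B → CSph D → ℝ)
      (w : A → Sph n) (u : B → Sph n) (G : C(CSph D, Geo K)),
      (∀ a, Continuous (f a)) ∧ (∀ b, Continuous (p b)) ∧ (∀ a x, 0 ≤ f a x) ∧ (∀ b x, 0 ≤ p b x) ∧
      (∀ x, ∑ a, f a x + ∑ b, p b x = 1) ∧
      (∀ x, ∃ v : Sph n, ∀ b, 0 < p b x → dist (u b) v < η) ∧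
      (∀ x, (sp (fun a => f a x)).card + 1 ≤ m) ∧
      (∀ x v, 0 < (G x).1 v → (∃ a, 0 < f a x ∧ w a = v) ∨ ∃ b, 0 < p b x ∧ u b = v) ∧
      F.Homotopic G

/-- **Second half** (from `SHom`, `SMk`, `SPth`; 200 lines): such a map is homotopic to a constant map. PROOF. Let `v₀` be any point (`Sph n` is nonempty). FACES: (★) if `P` is a nonempty set of at most `m` points and every element of the nonempty `σ` is at distance `< η` from an element of `P`, then `σ ∈ K` (`hK`, `Margin`).
For a map `ρ : A → Sph n` let `H ρ` be the map from `SMk` for the index type `A ⊕ B`, weights `f`, `p`, vertices `ρ`, `u` (faces by (★) with `P = {v} ∪ {ρ a | 0 < f a x}`, `v` the centre of the cluster at `x`, at most `1 + (m - 1)` elements). `M, pos` from `SPth` for `η, v₀`, `W = Finset.univ.image w`; `ρ_t a = pos t (w a)`. By `SHom` and (★) (same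
`P` with `ρ = ρ_t`: the elements `ρ_(t+1) a` are at distance `< η` from `ρ_t a`) `H ρ_t` and `H ρ_(t+1)` are homotopic; `G` and `H ρ_0` are homotopic (`ρ_0 = w`). Induction on `t`: `G` is homotopic to `H ρ_M`, `ρ_M a = v₀`. Finally `H ρ_M` is homotopic to the constant map to the vertex `vtx K v₀`: `P = {v, v₀}`, `2 ≤ m`
(the support of `vtx K v₀` is `{v₀}`). -/
def SMove : Prop :=
  ∀ (n : ℕ) (c : ℝ) (K : AbstractSimplicialComplex (Sph n)) (m : ℕ) (η : ℝ), 1 ≤ n → 2 ≤ m → 0 < η → Margin n c m η →
    (∀ σ, σ ∈ K ↔ CapFace n c σ) → ∀ (X : Type) [TopologicalSpace X] [CompactSpace X]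
    (A B : Type) [Fintype A] [Fintype B] (f : A → X → ℝ) (p : B → X → ℝ) (w : A → Sph n) (u : B → Sph n)
    (G : C(X, Geo K)),
      (∀ a, Continuous (f a)) → (∀ b, Continuous (p b)) → (∀ a x, 0 ≤ f a x) → (∀ b x, 0 ≤ p b x) →
      (∀ x, ∑ a, f a x + ∑ b, p b x = 1) →
      (∀ x, ∃ v : Sph n, ∀ b, 0 < p b x → dist (u b) v < η) →
      (∀ x, (sp (fun a => f a x)).card + 1 ≤ m) →
      (∀ x v, 0 < (G x).1 v → (∃ a, 0 < f a x ∧ w a = v) ∨ ∃ b, 0 < p b x ∧ u b = v) →
      ∃ y, G.Homotopic (ContinuousMap.const X y)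

/-- **Homotopy groups from the boundary of the cube** (150 lines). PROOF. Let `f : Ω^ (Fin i) X x₀` (`GenLoop`); we show that `f` is homotopic to the constant loop relative to the boundary (then any two classes are equal: `Quotient.inductionOn₂`, `Quotient.sound`, `symm`, `trans`; `HomotopyGroup.Pi i X x₀ = HomotopyGroup (Fin i) X x₀`). Norms are sup norms. For
`u : CSph (i + 1)` let `u' = fun j : Fin i => u j.succ`. `F u = if u 0 ≤ - ‖u'‖ then f (fun j => Set.projIcc 0 1 _ ((u' j + 1) / 2)) else x₀`. Continuous by `Continuous.if_le`: if `u 0 = - ‖u'‖` then, as `‖u‖ = max |u 0| ‖u'‖ = 1`, `‖u'‖ = 1`, so (`i ≥ 1` and) some `|u' j| = 1` and the argument of `f` is in `Cube.boundary`, so the value is `x₀` (if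
`i = 0` then `‖u'‖ = 0` and `u 0 = 0` is impossible). Let `H : C(unitInterval × CSph (i + 1), X)` be a homotopy from `F` to the constant `y`. `E : Metric.closedBall (0 : Fin (i + 1) → ℝ) 1 → X`: `E x = H (2 - 2 ‖x‖, x / ‖x‖)` if `1 / 2 ≤ ‖x‖`, `E x = y` if `‖x‖ ≤ 1 / 2`; continuous (`continuous_if_le`), `E x = F x` if
`‖x‖ = 1`. (If you prefer, define `E` on all of `Fin (i + 1) → ℝ`, with the first coordinate of `H` projected to `[0, 1]`.) The homotopy is `G (t, z) = E (2 t - 1, 2 z - 1)` (`Fin.cons`), `t : I`, `z : Fin i → I`. `t = 0`: the norm is `1`, `F` has `u 0 = -1 ≤ - ‖u'‖` and the value `f z`. `t = 1`: `u 0 = 1 > - ‖u'‖`, value `x₀`. `z` in the boundary: some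
`|2 z j - 1| = 1`, the norm is `1`; if `u 0 ≤ - ‖u'‖ = -1` the value is `f z = x₀`, otherwise `x₀`. -/
def SCube : Prop :=
  ∀ (X : Type) [TopologicalSpace X] (i : ℕ),
    (∀ F : C(CSph (i + 1), X), ∃ y : X, F.Homotopic (ContinuousMap.const _ y)) →
    ∀ x : X, Subsingleton (HomotopyGroup.Pi i X x)

/-- **Faces of the Cech complex** (60 lines). PROOF. Unit vectors: `gd x y = Real.arccos ⟪x, y⟫` (`InnerProductGeometry.angle`, norms `1`). For `0 < r < π`: `gd x y < r` iff `cos r < ⟪x, y⟫` (`Real.arccos` is strictly decreasing on `[-1, 1]`, `Real.arccos_cos`; `|⟪x, y⟫| ≤ 1`) iff `⟪x, -y⟫ < - cos r`. Replace `y` by `-y ∈ Sph n`.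
Second part: `σ.card < covNum n (π - r)`, so the set `{-x | x ∈ σ}` (or `σ` itself) does not cover (`Nat.notMem_of_lt_sInf`): there is `y` with `π - r < gd x y` for all `x ∈ σ`, i.e. `⟪x, y⟫ < cos (π - r) = - cos r`. -/
def SFace : Prop :=
  ∀ (n : ℕ) (r : ℝ) (h0 : 0 < r), r < Real.pi →
    (∀ σ : Finset (Sph n), σ ∈ cech n r h0 ↔ CapFace n (-Real.cos r) σ) ∧
    ∀ σ : Finset (Sph n), σ.Nonempty → σ.card < covNum n (Real.pi - r) → CapFace n (-Real.cos r) σ

/-- **At least `n + 2` balls are needed** (100 lines). PROOF. (a) There is a finite cover: the open sets `{y | gd x y < ρ}`, `x : Sph n`, cover the compact sphere (`gd x x = 0`, `gd x ·` is continuous: `arccos` of the inner product), so `covNum n ρ` is attained (`Nat.sInf_mem`): `s.card = covNum n ρ`, `s` covers. (b) Suppose `s.card ≤ n + 1`. Claim: some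
`y : Sph n` has `⟪x, y⟫ ≤ 0` for all `x ∈ s`. The linear map `T : Eu n → (s → ℝ)`, `T y = (⟪x, y⟫)_x`: if it is not injective take a nonzero vector of the kernel and normalise it. If it is injective then `n + 1 = finrank (Eu n) ≤ s.card`, so `s.card = n + 1` and `T` is surjective (`LinearMap.injective_iff_surjective_of_finrank_eq_finrank`);
take `T y = -1` (`y ≠ 0` because `s` is nonempty: it covers a nonempty space) and normalise. Then `gd x y = arccos ⟪x, y⟫ ≥ π / 2 > ρ` for all `x ∈ s`: `y` is not covered, contradiction. -/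
def SCov : Prop :=
  ∀ (n : ℕ) (ρ : ℝ), 0 < ρ → ρ < Real.pi / 2 → n + 2 ≤ covNum n ρ

/-- **MAIN THEOREM** (from `SStart`, `SMove`, `SCube`, `SFace`, `SCov`, `SMar`; 60 lines). PROOF. `c = - cos r > 0`, `N = covNum n (π - r) ≥ n + 2 ≥ 3`, `m = N - 1 ≥ 2`, `K = cech n r _`. Every nonempty set of at most `m` points is a face (`SFace`). `η` from `SMar`. Let `i ≤ N + n - 2`, `D = i + 1 ≤ m + n`. Every `F : C(CSph D, Geo K)` is homotopic to a
constant map (`SStart`, `SMove`, `Homotopic.trans`). `SCube`. -/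
def SMain : Prop :=
  ∀ (n : ℕ) (r : ℝ) (h0 : 0 < r), 1 ≤ n → Real.pi / 2 < r → r < Real.pi →
    n + 2 ≤ covNum n (Real.pi - r) ∧
    ConnAtLeast ((covNum n (Real.pi - r) : ℤ) + n - 2) (Geo (cech n r h0))

end Pool.Agent.MPaafd8a
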