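import Pool.Agent.Lib.MP_aafd8a_gt.Spec
import Pool.Agent.Lib.BorsukUlam.Spec

/-!
# MP_aafd8a_gt, second part: upper bound and monotonicity. Statements

GOAL (`SMono`): `n ≥ 1`, `0 < r < r' < π`, `π / 2 < r'`, and `r ≤ π / 2` or `π - r' ≤ (π - r) / 2`: then
`conn (Cech r') ≥ conn (Cech r) + n + 1`.

The lower bound for `r'` is `SMain` (landed). The upper bound: if the Cech complex `K` of radius `r` is `k`-connected then there is a
map `P` from the sphere `CSph (k + 2)` (dimension `k + 1`) to `Geo K` such that the supports of `P x` and `P (-x)` are compatible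
(`Anti`), and such a map gives odd maps without zeros which contradict the Borsuk-Ulam theorem if `k` is too large.

Conventions as in `Spec.lean`: `SName` is a statement, `Name.lean` proves `pName : SName` or, (from `SA`, `SB`), `SA → SB → SName`.
-/

set_option autoImplicit false

open Topology RealInnerProductSpace

namespace Pool.Agent.MPaafd8a

/-- The supports of `p` and `q` are compatible: all inner products are `< c`. -/
def Comp {n : ℕ} (c : ℝ) {K : AbstractSimplicialComplex (Sph n)} (p q : Geo K) : Prop :=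
  ∀ v w : Sph n, 0 < p.1 v → 0 < q.1 w → ⟪(v : Eu n), (w : Eu n)⟫ < c

/-- Homotopy of pairs through compatible pairs. -/
def PH {n : ℕ} (c : ℝ) {K : AbstractSimplicialComplex (Sph n)} {X : Type} [TopologicalSpace X]
    (p q p' q' : C(X, Geo K)) : Prop :=
  ∃ (F : p.Homotopy p') (G : q.Homotopy q'), ∀ t x, Comp c (F (t, x)) (G (t, x))

/-- `P x` and `P (-x)` are compatible for all `x`. -/
def Anti {n : ℕ} (c : ℝ) {K : AbstractSimplicialComplex (Sph n)} {D : ℕ} (P : C(CSph D, Geo K)) : Prop :=
  ∀ x, Comp c (P x) (P (-x))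

/-- The connectivity of a space, a value in `[-∞, ∞]`: the supremum of all `k` with `ConnAtLeast k Y`. -/
noncomputable def conn (Y : Type) [TopologicalSpace Y] : EReal :=
  sSup {a : EReal | ∃ k : ℤ, ConnAtLeast k Y ∧ a = ((k : ℝ) : EReal)}

/-- **Straight line homotopy with control of the supports** (from `SCrd`, `SCon`, `SCpt`; 80 lines). PROOF as for `SHom` (module `Hom.lean` on main, copy it): `H (t, x) = (1 - t) f x + t g x`. -/
def SLin : Prop :=
  ∀ (V : Type) (K : AbstractSimplicialComplex V) (X : Type) [TopologicalSpace X] [CompactSpace X] (f g : C(X, Geo K)),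
    (∀ x (σ : Finset V), σ.Nonempty → (∀ v ∈ σ, 0 < (f x).1 v ∨ 0 < (g x).1 v) → σ ∈ K) →
    ∃ H : f.Homotopy g, ∀ t x v, 0 < (H (t, x)).1 v → 0 < (f x).1 v ∨ 0 < (g x).1 v

/-- **Truncation and witnesses** (from `SCrd`, `SCpt`, `SMk`; 150 lines). PROOF. `T` a finite set containing all supports of `P x` (`SCpt`, `isCompact_range`), `T` nonempty if `X` is nonempty (if `X` is empty take `f = q = P`). `θ = 1 / (T.card + 1)`. `g v x = max 0 ((P x).1 v - θ)` for `v ∈ T`; the sum over `T` is positive (some
`(P x).1 v ≥ 1 / T.card > θ`). `f` from `SMk` (index type the subtype of `T`, weights `g v x / ∑`): its support is contained in `{v | θ < (P x).1 v}`. The finitely many functions `x ↦ (P x).1 v`, `v ∈ T`, are uniformly continuous (`SCrd`, compact): `η > 0` with `dist x x' < η → |(P x).1 v - (P x').1 v| < θ`. A finite net `B ⊆ X` of mesh `η` with a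
partition of unity `β b x`, positive iff `dist x b < η` (as in `Net.lean`: `max 0 (η - dist x b)` divided by the sum). The support of `P b` is a face: choose a witness `y b` (`hK`). `q` from `SMk` (weights `β`, vertices `y`): if `0 < (f x).1 v` and `0 < β b x` then `θ < (P x).1 v`, so `0 < (P b).1 v` and `⟪v, y b⟫ < c`.
Faces for `q`: choose `v` with `0 < (f x).1 v` (exists); it is a witness for all `y b` with `0 < β b x` (symmetry of the inner product), `hK`. -/
def SCut : Prop :=
  ∀ (n : ℕ) (c : ℝ) (K : AbstractSimplicialComplex (Sph n)), (∀ σ, σ ∈ K ↔ CapFace n c σ) →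
    ∀ (X : Type) [MetricSpace X] [CompactSpace X] (P : C(X, Geo K)), ∃ f q : C(X, Geo K),
      (∀ x v, 0 < (f x).1 v → 0 < (P x).1 v) ∧ ∀ x, Comp c (f x) (q x)

/-- **Filling a pair** (from `SLin`, `SCut`; 180 lines). PROOF. `P : p.Homotopy (const a)` is a continuous map on the compact metric space `unitInterval × X`; `f, q'` from `SCut` for it; `f_t`, `q'_t` their restrictions to `{t} × X`. Chain of homotopies of pairs (each step is a `PH`, and `PH` is transitive: use `Homotopy.trans` for both, at the same times; `Homotopy.refl` in the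
constant component): (1) `(p, q) → (f_0, q)`: `SLin`, the support of `f_0 x` is contained in that of `p x`. (2) `(f_0, q) → (f_0, q'_0)`: `SLin`; the supports of `q x` and `q'_0 x` are both compatible with a vertex `v` of the support of `f_0 x`, so the union is a face with witness `v` (`hK`), and the homotopy stays compatible with `f_0`.
(3) `(f_0, q'_0) → (f_1, q'_1)`: the maps `f`, `q'` themselves. (4) the support of `f_1 x` is contained in the support of `a`, which is a face; let `y₀` be a witness of it and `b = vtx K y₀`: `(f_1, q'_1) → (f_1, const b)`: `SLin` as in (2). (5) `(f_1, const b) → (const a, const b)`: `SLin`, all supports are contained in the support of `a`. -/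
def SFil : Prop :=
  ∀ (n : ℕ) (c : ℝ) (K : AbstractSimplicialComplex (Sph n)), (∀ σ, σ ∈ K ↔ CapFace n c σ) →
    ∀ (X : Type) [MetricSpace X] [CompactSpace X] (p q : C(X, Geo K)) (a : Geo K), (∀ x, Comp c (p x) (q x)) →
      p.Homotopic (ContinuousMap.const X a) → ∃ b : Geo K, PH c p q (ContinuousMap.const X a) (ContinuousMap.const X b)

/-- **One dimension more** (180 lines). PROOF. Let `F, G` be the homotopies of the hypothesis, `F (0, x) = P x`, `G (0, x) = P (-x)`, `F (1, x) = a`, `G (1, x) = b`. For `u : CSph (d + 2)` let `u' : Fin (d + 1) → ℝ` be its tail (sup norms, `max |u 0| ‖u'‖ = 1`), and for `u' ≠ 0` `dir = ‖u'‖⁻¹ • u' ∈ CSph (d + 1)`. Define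
`P' u = F (|u 0|, dir)` if `0 ≤ u 0` and `1 / 2 ≤ ‖u'‖`; `a` if `0 ≤ u 0` and `‖u'‖ ≤ 1 / 2`; `G (|u 0|, -dir)` if `u 0 ≤ 0` and `1 / 2 ≤ ‖u'‖`; `b` if `u 0 ≤ 0` and `‖u'‖ ≤ 1 / 2`. The four closed sets cover the sphere and the definitions agree on the intersections: if `‖u'‖ < 1` then `|u 0| = 1` and `F (1, ·) = a`, `G (1, ·) = b`;
if `u 0 = 0` then `‖u'‖ = 1`, `F (0, dir) = P dir`, `G (0, -dir) = P (- -dir)`. Continuity: `continuous_if_le` twice, or `LocallyFinite.continuous` for the closed cover. COMPATIBILITY: if `0 ≤ u 0` then `P' u = F (|u 0|, dir)` and `P' (-u) = G (|u 0|, dir)` (resp. `a`, `b`; `Comp c a b` by the hypothesis at `t = 1` and any point of `CSph (d + 1)`, which is nonempty);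
if `u 0 ≤ 0` apply this to `-u` (`Comp` is symmetric, `real_inner_comm`). -/
def SHemi : Prop :=
  ∀ (n : ℕ) (c : ℝ) (K : AbstractSimplicialComplex (Sph n)) (d : ℕ) (P N : C(CSph (d + 1), Geo K)) (a b : Geo K),
    (∀ x, N x = P (-x)) → PH c P N (ContinuousMap.const _ a) (ContinuousMap.const _ b) →
    ∃ P' : C(CSph (d + 2), Geo K), Anti c P'

/-- **Spheres are contracted if the homotopy groups vanish** (200 lines). PROOF. CASE `d = 0`: `CSph 1` has the two points `1, -1`; since `π_0` is trivial, the constant maps `I^0 → X` with the values `F 1` and `F (-1)` are homotopic (`Quotient.exact` / `Subsingleton.elim` of the classes in `HomotopyGroup.Pi 0 X _`, or `HomotopyGroup.pi0EquivZerothHomotopy` and `ZerothHomotopy`), which gives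
a path and a homotopy from `F` to the constant `F 1`. CASE `d ≥ 1`: let `N : CSph (d + 1)` be the point `(1, 0)` and `θ : (Fin d → unitInterval) → CSph (d + 1)` be defined as follows: `y j = 2 z j - 1 ∈ [-1, 1]`, `s = ‖y‖` (sup norm); for `s ≤ 1 / 2`: `(-1, 2 y)`; for `1 / 2 ≤ s ≤ 3 / 4`: `(8 s - 5, y / s)` (first coordinate from `-1` to `1`);
for `3 / 4 ≤ s ≤ 1`: `(1, 4 (1 - s) (y / s))`. `θ` is continuous, surjective, `θ z = N` iff `z` is in `Cube.boundary` (`s = 1`), and `θ z = θ z'` implies `z = z'` or both are in the boundary. `f = F ∘ θ` is a `GenLoop` at `x₀ = F N`; by hypothesis there is a homotopy `H : I × (Fin d → I) → X` from `f` to the constant `x₀`, constant `x₀` on the boundary. `H`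
factors through the map `id × θ : I × (Fin d → I) → I × CSph (d + 1)`, which is a quotient map (a continuous surjection from a compact space to a Hausdorff space: `Continuous.isClosedMap`, `IsClosedMap.isQuotientMap`; `IsQuotientMap.lift` or `IsQuotientMap.continuous_iff`): this is a homotopy from `F` to the constant map. -/
def SNul : Prop :=
  ∀ (X : Type) [TopologicalSpace X] (d : ℕ), (∀ x : X, Subsingleton (HomotopyGroup.Pi d X x)) →
    ∀ F : C(CSph (d + 1), X), ∃ y : X, F.Homotopic (ContinuousMap.const _ y)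

/-- **Antipodally compatible spheres** (from `SFil`, `SHemi`, `SNul`; 80 lines). PROOF. Induction on `d ≤ k + 1`: there is `P : C(CSph (d + 1), Geo K)` with `Anti c P`. `d = 0`: `CSph 1` has two points `x` with `x 0 = 1` or `x 0 = -1`; choose `v : Sph n`, `P x = vtx K v` if `0 < x 0`, `vtx K (-v)` otherwise (continuous: `CSph 1` is discrete; e.g. both sets
`{0 < x 0}`, `{x 0 < 0}` are open), `⟪v, -v⟫ = -1 < c`. Step `d → d + 1`, `d ≤ k`: `P` is homotopic to a constant (`SNul`, `ConnAtLeast k`), `SFil` with `q = P ∘ (-·)`, then `SHemi`. -/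
def SPr : Prop :=
  ∀ (n : ℕ) (c : ℝ) (K : AbstractSimplicialComplex (Sph n)), -1 < c → (∀ σ, σ ∈ K ↔ CapFace n c σ) →
    ∀ k : ℕ, ConnAtLeast k (Geo K) → ∃ P : C(CSph (k + 2), Geo K), Anti c P

/-- **Colours** (from `BU.SBU`, `SCrd`, `SCpt`; 180 lines). PROOF. Let `δ = π - r`, `M = covNum n (δ / 2)`. The set in the definition of `covNum` is nonempty (compactness; first part of the proof of `SCov`, module `Cov.lean` on main), so there is `s` with `s.card = M` which covers by closed balls of radius `δ / 2`; enumerate `s` by `Fin M` and choose `col : Sph n → Fin M`, `gd (s (col x)) x ≤ δ / 2`. If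
`col v = col w` then `gd v w ≤ δ` (`InnerProductGeometry.angle_le_angle_add_angle` or the triangle inequality for angles of unit vectors), so `⟪v, w⟫ = cos (gd v w) ≥ cos δ = - cos r`. Hence the supports of `P x` and `P (-x)` have disjoint sets of colours. Let `T` be a finite set containing all supports, `ψ j x = ∑ v ∈ T with col v = j, ((P x).1 v - (P (-x)).1 v)`: continuous
(`SCrd`), odd, `∑ j, ψ j x = 1 - 1 = 0`, and not all `ψ j x` are zero (a colour of a vertex of the support of `P x`). Suppose `M ≤ D`. `M ≥ 1`. Apply `SBU` with `m = M - 1` to `g y = (ψ j (ι y / ‖ι y‖))_(j < M - 1)`, where `ι : (Fin M → ℝ) → (Fin D → ℝ)` is the extension by zero (injective, linear), `g 0 = 0`: it has a zero `y ≠ 0`, then also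
the last `ψ j` vanishes (the sum is zero), a contradiction. -/
def SCol : Prop :=
  ∀ (n : ℕ) (r : ℝ), 0 < r → r < Real.pi → ∀ (K : AbstractSimplicialComplex (Sph n)),
    (∀ σ, σ ∈ K ↔ CapFace n (-Real.cos r) σ) → ∀ (D : ℕ) (P : C(CSph D, Geo K)), Anti (-Real.cos r) P →
      D < covNum n ((Real.pi - r) / 2)

/-- **Small radius** (from `BU.SBU`, `SCrd`, `SCpt`; 120 lines). PROOF. `ψ x = ∑ v ∈ T, ((P x).1 v - (P (-x)).1 v) • (v : Eu n)` (`T` finite, containing all supports), continuous and odd. It has no zero: if `z = ∑ p_v v = ∑ q_w w` (`p, q` the coordinates of `P x`, `P (-x)`) then `0 ≤ ⟪z, z⟫ = ∑ p_v q_w ⟪v, w⟫ < c ≤ 0` (the weights `p_v q_w` have sum `1`).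
If `n + 2 ≤ D` apply `SBU` with `m = n + 1` to the composition with `(Fin (n + 2) → ℝ) → (Fin D → ℝ)` (extension by zero), normalisation, `ψ` and `Eu n → (Fin (n + 1) → ℝ)`. -/
def SSml : Prop :=
  ∀ (n : ℕ) (c : ℝ), c ≤ 0 → ∀ (K : AbstractSimplicialComplex (Sph n)), (∀ σ, σ ∈ K ↔ CapFace n c σ) →
    ∀ (D : ℕ) (P : C(CSph D, Geo K)), Anti c P → D ≤ n + 1

/-- **Covering numbers are monotone** (40 lines). PROOF. `covNum n ρ` is attained for `ρ > 0` (compactness, see `Cov.lean`); a cover by balls of radius `ρ ≤ ρ'` is a cover by balls of radius `ρ'` (`Nat.sInf_le`). -/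
def SCMon : Prop :=
  ∀ (n : ℕ) (ρ ρ' : ℝ), 0 < ρ → ρ ≤ ρ' → covNum n ρ' ≤ covNum n ρ

/-- **MONOTONICITY** (from `SMain`, `SFace`, `SPr`, `SCol`, `SSml`, `SCMon`; 120 lines). PROOF. CLAIM: `ConnAtLeast k (Geo (cech n r _))`, `k : ℤ`, implies `ConnAtLeast (k + n + 1) (Geo (cech n r' _))`. `N' = covNum n (π - r')`. By `SMain` it is enough that `k + n + 1 ≤ N' + n - 2`, i.e. `k + 3 ≤ N'`, and as `N' ≥ n + 2` this is clear for `k ≤ n - 1`, in particular for `k < 0`.
Let `k ≥ 0`, so `k` is a natural number. `P : C(CSph (k + 2), Geo K)` from `SPr` (`c = - cos r > -1`, `SFace`). If `r ≤ π / 2` then `c ≤ 0` and `SSml` gives `k + 2 ≤ n + 1`. If `π - r' ≤ (π - r) / 2` then `SCol` gives `k + 2 < covNum n ((π - r) / 2) ≤ N'` (`SCMon`). CONCLUSION for `conn` (`EReal`): let `a = conn (Geo (cech n r _))`. For every member `(k : EReal)` of the set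
defining `a`, `k + n + 1` is a member of the other set, so `k + (n + 1) ≤ conn (Geo (cech n r' _))`; take the supremum: `conn r + (n + 1) ≤ conn r'` follows from `a ≤ conn r' - (n + 1)` (`sSup_le`, `EReal.le_sub_iff_add_le` for the real number `n + 1`, or `EReal.add_le_of_le_sub`). -/
def SMono : Prop :=
  ∀ (n : ℕ), 1 ≤ n → ∀ (r r' : ℝ) (h0 : 0 < r) (h0' : 0 < r'), r < r' → r' < Real.pi → Real.pi / 2 < r' →
    (r ≤ Real.pi / 2 ∨ Real.pi - r' ≤ (Real.pi - r) / 2) →
    conn (Geo (cech n r h0)) + (((n : ℝ) + 1 : ℝ) : EReal) ≤ conn (Geo (cech n r' h0'))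

end Pool.Agent.MPaafd8a
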