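import Pool.Agent.Lib.MP_aafd8a_gt.Defs3

/-!
# MP_aafd8a_gt, third part: exact connectivity. Statements

GOAL (`SExact`): for `n ≥ 1`, `π / 2 < r`, `- cos r ≤ 1 / (n + 1)` (that is `r ≤ arccos (-1 / (n + 1))`) the connectivity of the Cech
complex of radius `r` of the `n`-sphere is exactly `n (n + 5) / 2 - 1`.

IDEA. `c = - cos r`. For two compatible probability weights `p`, `q` (all inner products `< c ≤ 1 / (n + 1)`) the first and second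
moments do not agree (`SMom`), because `(1 + t) (t - 1 / (n + 1)) ≤ 0` for `-1 ≤ t ≤ 1 / (n + 1)`. The difference of the moments is a
point of `W0 n` minus the origin, a space of dimension `dm n = n (n + 5) / 2 + 1`. Borsuk-Ulam gives the upper bound (`SUpper`). For the
lower bound the points of the supports are moved with the gradient of the quadratic function of this difference, which decreases `c`
(`SStepD`, `SDown`); for small `c` a map is homotopic to a map which only depends on the difference of the moments (`SFin`, `SSect`),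
and maps from spheres of dimension `< dm n - 1` to `W0 n` minus the origin are null homotopic (`SNH`).

Conventions as in `Spec.lean`: `SName` is a statement, `Name.lean` proves `pName : SName` or, (from `SA`, `SB`), `SA → SB → SName`.
Definitions: `Defs.lean`, `Defs3.lean`. Landed and usable by import: `pCrd, pCon, pCpt, pMk, pHom, pNet, pKuhn, pCube, pFace, pCut, pPr`
(take the corresponding statements as hypotheses in the order given in the docstring).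
-/

set_option autoImplicit false

open Topology RealInnerProductSpace

namespace Pool.Agent.MPaafd8a

/-! ## Maps to the realization -/

/-- **Change of the complex** (from `SCrd`, `SCon`, `SCpt`; 50 lines). PROOF. `h' x = ⟨(h x).1, ...⟩` (`(h x).2` and the hypothesis). By `SCpt` (`isCompact_range`) a finite `T` contains all supports; `SCon` gives continuity (coordinates: `SCrd`). -/
def SSub : Prop :=
  ∀ (V : Type) (K K' : AbstractSimplicialComplex V) (X : Type) [TopologicalSpace X] [CompactSpace X] (h : C(X, Geo K)),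
    (∀ x, (h x).1.support ∈ K') → ∃ h' : C(X, Geo K'), ∀ x, (h' x).1 = (h x).1

/-- **A margin** (from `SCpt`; 60 lines). PROOF. `T` a finite set containing all supports. For every `σ ∈ T.powerset` with `CapFace n c σ` choose a witness `y σ`; the finitely many numbers `⟪x, y σ⟫`, `x ∈ σ`, are `< c`; let `c'` be a number `< c`, `> -1`, which is larger than all of them (`Finset.exists_between`-style or induction over the finite
set of pairs: `Finset.exists_lt`..., e.g. take `c' = max ((c - 1) / 2) ((m + c) / 2)` with `m` the maximum; or use that a finite intersection of the sets `Set.Ioo a c` is nonempty). Every support is such a `σ`. -/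
def SShrink : Prop :=
  ∀ (n : ℕ) (c : ℝ) (hc : -1 < c) (X : Type) [TopologicalSpace X] [CompactSpace X] (h : C(X, Geo (capK n c hc))),
    ∃ c' : ℝ, -1 < c' ∧ c' < c ∧ ∀ x, CapFace n c' (h x).1.support

/-! ## Moments -/

/-- **Frame inequality** (80 lines). PROOF. In coordinates `v i` of `Eu n = EuclideanSpace ℝ (Fin (n + 1))`: `ex p (fun v => ⟪mo p v, v⟫) = ∑_v ∑_w p_v p_w ⟪v, w⟫^2 = ∑_(i,j) M_ij^2` with `M_ij = ∑_v p_v v_i v_j`, because `⟪v, w⟫^2 = ∑_(i,j) v_i v_j w_i w_j`.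
`∑_(i,j) M_ij^2 ≥ ∑_i M_ii^2 ≥ (∑_i M_ii)^2 / (n + 1)` (`inner_mul_le_norm_mul_norm` or `sq_sum_le_card_mul_sum_sq`), `∑_i M_ii = ∑_v p_v ‖v‖^2 = 1`. (Sums over a finite set: `Finsupp.sum` is by definition `∑ v ∈ p.support`.) -/
def SWelch : Prop :=
  ∀ (n : ℕ) (p : Sph n →₀ ℝ), Pw p → c2 n ≤ ex p (fun v => ⟪mo p (v : Eu n), (v : Eu n)⟫)

/-- **Moments of compatible weights** (from `SWelch`; 120 lines). PROOF. With `t = ⟪v, y⟫`, `B = ‖bar p‖^2 + ‖bar q‖^2`, `W_pp = ex p (⟪mo p v, v⟫)`, `W_pq = ex p (⟪mo q v, v⟫) = ex q (⟪mo p y, y⟫) = ∑∑ p_v q_y t^2`, `⟪bar p, bar q⟫ = ∑∑ p_v q_y t`, `ex p (⟪bar q, v⟫) = ⟪bar q, bar p⟫`: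
`ex p gq - ex q gq = W_pp + W_qq - 2 W_pq + (1 - c2) (B - 2 ⟪bar p, bar q⟫) = (W_pp - c2) + (W_qq - c2) + (1 - c2) B + 2 ∑∑ p_v q_y (1 + t) (c2 - t)` because `(1 + t) (c2 - t) = c2 + c2 t - t - t^2` and `∑∑ p_v q_y = 1`. (i) `t < c` gives `(1 + t) (c2 - t) ≥ (1 + t) (c2 - c)` (`t ≥ -1`), so the
expression is `≥ (1 - c2) B + 2 (c2 - c) (1 + ⟪bar p, bar q⟫) ≥ 2 (c2 - c) + B (1 - 2 c2 + c) ≥ 2 (c2 - c)`, as `⟪bar p, bar q⟫ ≥ -B / 2` and `c2 ≤ 1 / 2`. (ii) All terms are `≥ 0`; if the expression is `≤ 0` then `B = 0` and every term with `p_v, q_y > 0` has `(1 + t) (c2 - t) = 0`, so `t = -1`; then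
`⟪bar p, bar q⟫ = ∑∑ p_v q_y t = -1`, but `bar p = 0`. -/
def SMom : Prop :=
  ∀ (n : ℕ), 1 ≤ n → ∀ (p q : Sph n →₀ ℝ), Pw p → Pw q →
    (∀ c : ℝ, 0 ≤ c → c ≤ c2 n → Cpt2 c p q → 2 * (c2 n - c) ≤ ex p (gq p q) - ex q (gq p q)) ∧
    (Cpt2 (c2 n) p q → 0 < ex p (gq p q) - ex q (gq p q))

/-- **Moments are in `W0`, bounds, averages** (100 lines). PROOF. `mo p` is a combination of the symmetric operators `z ↦ ⟪v, z⟫ • v` of trace `‖v‖^2 = 1` (`LinearMap.trace_smulRight` or a computation in the standard basis), norm `≤ 1`, `⟪mo p z, z⟫ = ∑ p_v ⟪v, z⟫^2 ∈ [0, ‖z‖^2]`. Averages: some `y` in the support has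
`f y ≤ ex q f` (otherwise `ex q f > ex q f`), similarly `≥`. Last part: `‖mo p z‖^2 ≤ ⟪mo p z, z⟫` by Cauchy-Schwarz for the weights: `‖mo p z‖ = sup over unit u of ∑ p_v ⟪v, z⟫ ⟪v, u⟫`, `(∑ p_v ⟪v, z⟫ ⟪v, u⟫)^2 ≤ (∑ p_v ⟪v, z⟫^2) (∑ p_v ⟪v, u⟫^2) ≤ ⟪mo p z, z⟫`: take `u = mo p z / ‖mo p z‖`. -/
def SMo : Prop :=
  ∀ (n : ℕ) (p q : Sph n →₀ ℝ), Pw p → Pw q →
    (∀ η : ℝ, Dm η p q ∈ W0 n) ∧ ‖bar p‖ ≤ 1 ∧ ‖mo p‖ ≤ 1 ∧ (∀ x y : Eu n, ⟪mo p x, y⟫ = ⟪x, mo p y⟫) ∧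
    (∀ z : Eu n, 0 ≤ ⟪mo p z, z⟫) ∧ (∀ z : Eu n, ‖mo p z‖ ^ 2 ≤ ⟪mo p z, z⟫) ∧
    LinearMap.trace ℝ (Eu n) (mo p : Eu n →ₗ[ℝ] Eu n) = 1 ∧
    (∀ f : Sph n → ℝ, (∃ v, 0 < p v ∧ f v ≤ ex p f) ∧ ∃ v, 0 < p v ∧ ex p f ≤ f v) ∧
    (∀ z : Eu n, ex p (fun v => ⟪z, (v : Eu n)⟫) = ⟪z, bar p⟫) ∧
    (∀ z : Eu n, ex p (fun v => ⟪(v : Eu n), z⟫ ^ 2) = ⟪mo p z, z⟫)

/-- **Dimension** (150 lines). PROOF. `W0 n` is the product of `Eu n` and the space of symmetric operators of trace zero; an operator is symmetric iff its matrix in the standard orthonormal basis is symmetric; the map `(a, S) ↦ (a_i; S_ij for i < j; S_ii for i < n)` to `(Fin (n + 1) → ℝ) × ({e : Fin (n + 1) × Fin (n + 1) // e.1 < e.2} → ℝ) × (Fin n → ℝ)` is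
a linear equivalence (`S_nn = - ∑ S_ii`), and the dimension of the target is `(n + 1) + n (n + 1) / 2 + n`. Card of the pairs: `Finset.card` of `{e | e.1 < e.2}`, `Sym2`, `Finset.sum_range_id` or `Fintype.card_congr` with a sigma type. -/
def SDim : Prop := ∀ n : ℕ, Module.finrank ℝ (W0 n) = dm n

/-- **Upper bound** (from `BU.SBU`, `SCrd`, `SCpt`, `SMom`, `SMo`, `SDim`, `SPr`; 150 lines). PROOF. Suppose `ConnAtLeast (n (n + 5) / 2)`. `SPr` with `k = n (n + 5) / 2` gives `P : C(CSph (k + 2), Geo K)` with `Anti c P`, `k + 2 = dm n + 1`. For `x` in the sphere `Dm 1 (P x).1 (P (-x)).1 ∈ W0 n` is continuous in `x` (all supports are in a finite set, `SCpt`;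
finite sums of coordinates, `SCrd`), odd, and nonzero: if it is zero then `gq` is zero and `SMom` (ii) fails (`Cpt2 c` implies `Cpt2 (c2 n)`). Choose a linear equivalence of `W0 n` with `Fin (dm n) → ℝ` (`finrank`), compose with `y ↦ y / ‖y‖` for `y ≠ 0` (value `0` at `0`): contradiction to `SBU` with `m = dm n`. -/
def SUpper : Prop :=
  ∀ (n : ℕ), 1 ≤ n → ∀ (c : ℝ) (hc : -1 < c), c ≤ c2 n →
    ¬ ConnAtLeast ((n * (n + 5) / 2 : ℕ) : ℤ) (Geo (capK n c hc))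

/-! ## Moving points -/

/-- **One pair of points** (60 lines). PROOF. `⟪v + s ξ, y - s ζ⟫ = t + s (⟪ξ, y⟫ - ⟪v, ζ⟫) - s^2 ⟪ξ, ζ⟫` with `t = ⟪v, y⟫`. `‖v + s ξ‖ ≥ ⟪v + s ξ, v⟫ = 1 + s ⟪v, ξ⟫ ≥ 1 / 2`, `‖y - s ζ‖ ≥ 1 - s ⟪y, ζ⟫ ≥ 1 / 2`, so the product of the norms is `≥ 1 + s (⟪v, ξ⟫ - ⟪y, ζ⟫) - s^2 ⟪v, ξ⟫ ⟪y, ζ⟫`. With `κ = ⟪v, ζ⟫ - ⟪ξ, y⟫ + c (⟪v, ξ⟫ - ⟪y, ζ⟫)` and `0 ≤ c ≤ 1`:
`⟪v + s ξ, y - s ζ⟫ - c ‖v + s ξ‖ ‖y - s ζ‖ ≤ t - c - s κ + 2 s^2 C^2 ≤ -δ`. The product `N` of the norms is in `[1/4, 9/4]`; divide: the inner product of the normalised vectors is `≤ c - δ / N ≤ c - (4 / 9) δ` (`δ ≥ 0`). -/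
def SPt : Prop :=
  ∀ (n : ℕ) (v y : Sph n) (ξ ζ : Eu n) (c C s δ : ℝ), 0 ≤ c → c ≤ 1 → ‖ξ‖ ≤ C → ‖ζ‖ ≤ C → 0 ≤ s → s * C ≤ 1 / 2 → 0 ≤ δ →
    ⟪(v : Eu n), (y : Eu n)⟫ - c
      - s * (⟪(v : Eu n), ζ⟫ - ⟪ξ, (y : Eu n)⟫ + c * (⟪(v : Eu n), ξ⟫ - ⟪(y : Eu n), ζ⟫)) + 2 * s ^ 2 * C ^ 2 ≤ -δ →
    1 / 2 ≤ ‖(v : Eu n) + s • ξ‖ ∧ 1 / 2 ≤ ‖(y : Eu n) - s • ζ‖ ∧
    ⟪(v : Eu n) + s • ξ, (y : Eu n) - s • ζ⟫ ≤ (c - 4 / 9 * δ) * (‖(v : Eu n) + s • ξ‖ * ‖(y : Eu n) - s • ζ‖)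

/-- **One step down** (from `SCrd`, `SCpt`, `SHom`, `SMk`, `SNet`, `SCut`, `SSub`, `SMom`, `SMo`, `SPt`; 250 lines). PROOF. CONSTANTS: `κ₀ = 2 (c2 - c₁) > 0`, `C = 2 / c₀ + 2`, `s₀ = min (1 / (2 C)) (3 κ₀ / (16 C^2))`, `δ₀ = 3 s₀ κ₀ / 8`, `ε = 2 δ₀ / 9` (if `c - ε ≤ -1` were possible: `c - ε ≥ c₀ - ε > -1` because `ε ≤ 1`).
`f₀, q : C(X, Geo (capK n c _))` from `SCut` (supports of `f₀ x` inside those of `f x`, `Comp c (f₀ x) (q x)`). `T` finite, contains all supports (`SCpt`, `isCompact_range`). Finitely many pairs: there is `η₀ > 0` with `⟪v, y⟫ ≤ c - η₀` for all `v, y ∈ T` for which some `x` has `0 < f₀ x v`, `0 < q x y`. If `X` is empty the claim is trivial.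
Write `p = (f₀ x).1`, `q = (q x).1`, `G = gq p q`. WEIGHTS `A x v = p v * max 0 (G v - ex p G + κ₀ / 4)`, `v ∈ T`, continuous in `x`; the sum is positive (some `v` has `p v > 0`, `G v ≥ ex p G`); `Â = A / sum`. VECTORS `ξ_x z = (1 / c) • (mo p - mo q) z + ((1 - c2) / (1 + c)) • (bar p - bar q)`, norm `≤ C` for unit `z`. For `z = v`, `z = y`, `ξ = ξ_x v`,
`ζ = ξ_x y` the number `κ` of `SPt` is `G v - G y` (symmetry of `mo p - mo q`). POINTS `P s x v = (v + s ξ_x v) / ‖...‖ ∈ Sph n` for `s ∈ [0, s₀]`, continuous in `(s, x)`. If `A x v > 0` and `y` is a point with `q y > 0`, `G y ≤ ex q G` (`SMo`) then `G v - G y ≥ 2 (c2 - c) - κ₀ / 4 ≥ 3 κ₀ / 4` (`SMom`), so by `SPt` (`2 s^2 C^2 ≤ s * 3 κ₀ / 8`)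
with `y_s = (y - s ζ) / ‖...‖`: `⟪P s x v, y_s⟫ ≤ c - (4 / 9) η₀`, and for `s = s₀`: `≤ c - (4 / 9) δ₀ = c - 2 ε`. NET: `B, u, χ` from `SNet` for `ρ = min ((4 / 9) η₀) ε`. MAP `F : C(unitInterval × X, Geo (capK n c _))` from `SMk` for the index type `B`, vertices `u`, weights `p_b (t, x) = ∑_(v ∈ T) Â x v * χ b (P (t s₀) x v)`; faces: witness `y_s`,
`⟪u b, y_s⟫ < ⟪P s x v, y_s⟫ + ρ ≤ c`. At `t = 1` the supports are faces of `capK n (c - ε) _`: `SSub` gives `f'`, and `f'' = F (1, ·)`. HOMOTOPIES: `f ~ f₀` (`SHom`, supports), `f₀ ~ F (0, ·)` (`SHom`: elements `v` with `0 < p v` or `u b` with `dist (u b) v < ρ`, `A x v > 0`; witness a `y` as above), `F (0, ·) ~ F (1, ·)` by `F` itself. -/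
def SStepD : Prop :=
  ∀ (n : ℕ), 1 ≤ n → ∀ (c₀ c₁ : ℝ), 0 < c₀ → c₀ < c₁ → c₁ < c2 n → ∃ ε : ℝ, 0 < ε ∧ ε ≤ 1 ∧
    ∀ (c : ℝ) (hc : -1 < c) (hc' : -1 < c - ε), c₀ ≤ c → c ≤ c₁ → ∀ (X : Type) [MetricSpace X] [CompactSpace X]
      (f : C(X, Geo (capK n c hc))), ∃ (f' : C(X, Geo (capK n (c - ε) hc'))) (f'' : C(X, Geo (capK n c hc))),
        (∀ x, (f'' x).1 = (f' x).1) ∧ f.Homotopic f''

/-- **Down to small `c`** (from `SSub`, `SStepD`; 120 lines). PROOF. `ε` from `SStepD` for `c₀, c₁` (with `c₁ := max c ((c₀ + c2) / 2)`, so `c₀ < c₁ < c2`, `c ≤ c₁`). Claim for `m : ℕ`, by induction: the statement holds for all `c ≤ c₁` with `c ≤ c₀ + m ε`. `m = 0`, or generally `c ≤ c₀`: `f₀` from `SSub` (`capFace_mono`), `f₁ = f`. Step, `c₀ < c`: `f', f''` from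
`SStepD`; if `c - ε ≤ c₀` finish as in the case `m = 0` with `f'`, otherwise the induction hypothesis for `f'` and `c - ε` gives `f₀`, `f₁'` in `capK n (c - ε) _` with `f' ~ f₁'`; a homotopy `H : C(unitInterval × X, Geo (capK n (c - ε) _))` gives by `SSub` (`capFace_mono`) a map to `Geo (capK n c _)` with the same coordinates, a homotopy from `f''`
(the same coordinates as `f'`) to a map `f₁` with the coordinates of `f₁'`, i.e. of `f₀` (points of `Geo` are equal if the coordinates are: `Subtype.ext`). -/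
def SDown : Prop :=
  ∀ (n : ℕ), 1 ≤ n → ∀ (c₀ c : ℝ) (h₀ : -1 < c₀) (hc : -1 < c), 0 < c₀ → c < c2 n → c₀ < c2 n →
    ∀ (X : Type) [MetricSpace X] [CompactSpace X] (f : C(X, Geo (capK n c hc))), c₀ ≤ c →
      ∃ (f₀ : C(X, Geo (capK n c₀ h₀))) (f₁ : C(X, Geo (capK n c hc))), (∀ x, (f₁ x).1 = (f₀ x).1) ∧ f.Homotopic f₁

/-! ## Quadratic functions on the sphere -/

/-- **Maxima of quadratic functions** (120 lines). PROOF. Let `h = a + 2 S z₀`. For a unit vector `u` with `s = ⟪u, z₀⟫` the reflection `z = z₀ - 2 s u` is a unit vector and `qd z - qd z₀ = -2 s ⟪h, u⟫ + 4 s^2 ⟪S u, u⟫ ≤ 0`, so `⟪h, u⟫ ≥ 2 s ⟪S u, u⟫` if `s > 0`. For a unit vector `u₀` orthogonal to `z₀` take `u = (u₀ + τ z₀) / ‖...‖`, `τ → 0+`: `⟪h, u₀⟫ ≥ 0`,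
and the same for `-u₀`: `⟪h, u₀⟫ = 0`. So `h = 2 Λ z₀`, `2 Λ = ⟪h, z₀⟫`. Then `2 Λ s ≥ 2 s ⟪S u, u⟫`, `Λ ≥ ⟪S u, u⟫` for all unit `u` with `s > 0`, hence (replace `u` by `-u`; limit for `s = 0`) for all. IDENTITY (algebra with `a = 2 Λ z₀ - 2 S z₀`, unit vectors, symmetry): `qd z₀ - qd z = Λ ‖z - z₀‖^2 - ⟪S (z - z₀), z - z₀⟫`. LAST: if `z` is a
maximum too then `⟪(Λ - S) d, d⟫ = 0` for `d = z - z₀`, and a positive semidefinite symmetric form with `⟪Q d, d⟫ = 0` has `Q d = 0` (for all `u`, `τ`: `0 ≤ ⟪Q (d + τ u), d + τ u⟫ = 2 τ ⟪Q d, u⟫ + τ^2 ⟪Q u, u⟫`). -/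
def SLag : Prop :=
  ∀ (n : ℕ) (a : Eu n) (S : Eu n →L[ℝ] Eu n), (∀ x y, ⟪S x, y⟫ = ⟪x, S y⟫) → ∀ z₀ : Sph n, (∀ z, qd (a, S) z ≤ qd (a, S) z₀) →
    ∃ Λ : ℝ, a + (2 : ℝ) • S (z₀ : Eu n) = (2 * Λ) • (z₀ : Eu n) ∧ (∀ u : Eu n, ⟪S u, u⟫ ≤ Λ * ‖u‖ ^ 2) ∧
      ∀ z : Sph n, (∀ z', qd (a, S) z' ≤ qd (a, S) z) → S ((z : Eu n) - z₀) = Λ • ((z : Eu n) - z₀)

/-- **Maxima lie in a closed hemisphere** (from `SLag`; 70 lines). PROOF. `qd w` is continuous on the compact sphere: let `z₀` be a maximum, `Λ` from `SLag`, `Q = Λ - S`, `w = (a, S)`. If `Q = 0` then `S = Λ`, the trace is `(n + 1) Λ = 0`, so `Λ = 0`, `S = 0`, `a = 0`, a contradiction. So the kernel of `Q` is a proper subspace: there is a unit vector `y` orthogonal to it, and (sign)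
`⟪z₀, y⟫ ≤ 0`. For every maximum `z` the difference `z - z₀` is in the kernel, so `⟪z, y⟫ = ⟪z₀, y⟫ ≤ 0`. -/
def SEig : Prop :=
  ∀ (n : ℕ) (w : Eu n × (Eu n →L[ℝ] Eu n)), w ∈ W0 n → w ≠ 0 →
    ∃ y : Sph n, ∀ z : Sph n, (∀ z', qd w z' ≤ qd w z) → ⟪(z : Eu n), (y : Eu n)⟫ ≤ 0

/-- **Near maxima have a witness** (from `SEig`; 100 lines). PROOF. Otherwise for every `j : ℕ` there is `w_j ∈ W0 n`, `w_j ≠ 0`, without witness for `ε = 1 / (j + 1)`; both conditions are invariant under positive scaling, so let `‖w_j‖ = 1`. `W0 n` is finite dimensional, so a subsequence converges to `w ∈ W0 n`, `‖w‖ = 1`. `y` from `SEig` for `w`. For every `j` there is `z_j`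
with `qd w_j z' ≤ qd w_j z_j + 1 / (j + 1)` for all `z'` and `⟪z_j, y⟫ ≥ c`. A further subsequence converges to `z`, a maximum of `qd w` (`qd` is continuous in both variables), `⟪z, y⟫ ≥ c > 0`, a contradiction. -/
def SNear : Prop :=
  ∀ (n : ℕ) (c : ℝ), 0 < c → ∃ ε : ℝ, 0 < ε ∧ ∀ w : Eu n × (Eu n →L[ℝ] Eu n), w ∈ W0 n → w ≠ 0 →
    ∃ y : Sph n, ∀ z : Sph n, (∀ z', qd w z' ≤ qd w z + ε * ‖w‖) → ⟪(z : Eu n), (y : Eu n)⟫ < c

/-- **Limits** (from `SLag`; 100 lines). PROOF. `g = qd (A, M - M')`, `z₀` a maximum (compactness), `Λ` from `SLag` with `S = M - M'` (symmetric). `Λ > 0`: choose `u` with `M u ≠ 0` (`M ≠ 0`), `e = M u`; `M' e = 0` (`M' M = 0`: adjoint of `M M' = 0`), `⟪S e, e⟫ = ⟪M e, e⟫ > 0` (if `⟪M e, e⟫ = 0` then `‖M e‖^2 ≤ 0`, `M M u = 0`, `‖M u‖^2 = ⟪M M u, u⟫ = 0`).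
For a maximum `z` and `d = z - z₀`: `M d - M' d = Λ d`; apply `M'`: `- M' (M' d) = Λ M' d`, take the inner product with `M' d`: `- ⟪M' (M' d), M' d⟫ = Λ ‖M' d‖^2`, the left side is `≤ 0`, so `M' d = 0`. -/
def SLim : Prop :=
  ∀ (n : ℕ) (A : Eu n) (M M' : Eu n →L[ℝ] Eu n), (∀ x y, ⟪M x, y⟫ = ⟪x, M y⟫) → (∀ x y, ⟪M' x, y⟫ = ⟪x, M' y⟫) →
    (∀ z, ‖M z‖ ^ 2 ≤ ⟪M z, z⟫) → (∀ z, 0 ≤ ⟪M' z, z⟫) → M ≠ 0 → (∀ z, M (M' z) = 0) →
    ∃ z₀ : Sph n, (∀ z, qd (A, M - M') z ≤ qd (A, M - M') z₀) ∧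
      ∀ z : Sph n, (∀ z', qd (A, M - M') z' ≤ qd (A, M - M') z) → M' ((z : Eu n) - z₀) = 0

/-- **Final claim** (from `SMo`, `SLim`; 250 lines). PROOF by contradiction: for every `j`, with `η = 1 / (j + 1)`, `ε = c₀ = η^2`, there are `p, q` such that (★) every `y` with `0 < q y` has a `z` with `qd w z' ≤ qd w z + ε` for all `z'` and `c ≤ ⟪z, y⟫`, `w = Dm η p q = (a, η S)`, `a = bar p - bar q`, `S = mo p - mo q`, `‖S‖ ≤ 2`.
STEP 1: `‖a‖ ≤ R η` with `R` depending only on `c` (such that `1 / R + sqrt (10 / R) < c`). Suppose `‖a‖ > R η`. `⟪a, bar q⟫ = ⟪bar p, bar q⟫ - ‖bar q‖^2 ≤ c₀`, so some `y` with `0 < q y` has `⟪a, y⟫ ≤ c₀` (`SMo`). `z` from (★), `â = a / ‖a‖`: `‖a‖ - 2 η ≤ qd w â ≤ qd w z + ε ≤ ⟪a, z⟫ + 2 η + ε`, so `⟪â, z⟫ ≥ 1 - 5 η / ‖a‖ ≥ 1 - 5 / R`, `‖z - â‖^2 ≤ 10 / R`,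
`c ≤ ⟪z, y⟫ ≤ ⟪â, y⟫ + ‖z - â‖ ≤ c₀ / ‖a‖ + sqrt (10 / R) ≤ 1 / R + sqrt (10 / R)`, a contradiction.
STEP 2: `‖bar p‖^2 + ‖bar q‖^2 = ‖a‖^2 + 2 ⟪bar p, bar q⟫ ≤ R^2 η^2 + 2 η^2 → 0` (`⟪bar p, bar q⟫ ≤ c₀`). `ex q (⟪mo p y, y⟫) = ∑∑ p_v q_y t^2 ≤ ∑∑ p_v q_y (2 c₀ - t) = 2 c₀ - ⟪bar p, bar q⟫ → 0` (`t^2 ≤ |t| ≤ 2 c₀ - t` for `-1 ≤ t < c₀`). For every vector `u`: `‖mo p (mo q u)‖ ≤ ∑ q_y ‖u‖ ‖mo p y‖ ≤ ‖u‖ sqrt (ex q (‖mo p y‖^2)) ≤ ‖u‖ sqrt (ex q ⟪mo p y, y⟫) → 0`.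
STEP 3: for a subsequence `a / η → A`, `mo p → M`, `mo q → M'` (bounded, finite dimensional). `M, M'` satisfy the hypotheses of `SLim` (closed conditions; `M ≠ 0` as its trace is `1`). `z₀` from `SLim`. Let `U` be the kernel of `M'`, `P` the orthogonal projection to `U`, `K = 16 / c^2`. The mean over `q` of `⟪z₀, y⟫ + K ‖P y‖^2` is `⟪z₀, bar q⟫ + K ∑_i ⟪mo q f_i, f_i⟫`
(`f_i` an orthonormal basis of `U`) and tends to `K ∑_i ⟪M' f_i, f_i⟫ = 0`; so there are `y_j`, `0 < q y_j`, with `⟪z₀, y_j⟫ + K ‖P y_j‖^2 ≤ δ_j → 0`. `z_j` from (★) for `y_j`. For a subsequence `y_j → y`, `z_j → z`. `z` is a maximum of `qd (A, M - M')` (divide by `η`, `ε / η = η → 0`), `⟪z, y⟫ ≥ c`, `⟪z₀, y⟫ + K ‖P y‖^2 ≤ 0`, so `⟪z₀, y⟫ ≤ 0`, `‖P y‖^2 ≤ 1 / K`.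
`z - z₀ ∈ U`, `⟪z, y⟫ = ⟪z₀, y⟫ + ⟪z - z₀, P y⟫ ≤ 2 / sqrt K = c / 2 < c`, a contradiction. -/
def SFin : Prop :=
  ∀ (n : ℕ) (c : ℝ), 0 < c → ∃ η : ℝ, 0 < η ∧ η ≤ 1 ∧ ∃ ε : ℝ, 0 < ε ∧ ∃ c₀ : ℝ, 0 < c₀ ∧
    ∀ p q : Sph n →₀ ℝ, Pw p → Pw q → Cpt2 c₀ p q →
      ∃ y, 0 < q y ∧ ∀ z : Sph n, (∀ z', qd (Dm η p q) z' ≤ qd (Dm η p q) z + ε) → ⟪(z : Eu n), (y : Eu n)⟫ < c

/-! ## Maps to a vector space minus the origin -/

/-- **General position of vectors** (90 lines). PROOF. Induction on the finite set of indices as for `SGen` (module `Gen.lean` on main): for every `S` with at most `D - 1` elements the span of `{w i | i ∈ S}` is a proper subspace of `Fin D → ℝ`, its complement is open and dense, so there is `w j` in the ball around `h j` outside the finitely many spans. -/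
def SGenV : Prop :=
  ∀ (D : ℕ) (ι : Type) [Fintype ι] (h : ι → Fin D → ℝ) (δ : ℝ), 0 < δ → ∃ w : ι → Fin D → ℝ, (∀ i, dist (w i) (h i) < δ) ∧
    ∀ S : Finset ι, S.card ≤ D → LinearIndependent ℝ (fun i : S => w i)

/-- **Null homotopy** (from `SKuhn`, `SGenV`; 130 lines). PROOF. `κ > 0` with `κ ≤ ‖h x‖` for all `x` (compact), `η > 0` with `dist x x' < η → dist (h x) (h x') < κ / 4`. `A, ψ` from `SKuhn (k + 1) η`. For `a : A` let `h_a = h x_a` for some `x_a` with `0 < ψ a x_a` (if there is none, `h_a = 0`). `w` from `SGenV` for the index type `Option A` (`none ↦ 0`), `δ = κ / 4`. `ĥ x = ∑ a, ψ a x • w (some a)`: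
`‖ĥ x - h x‖ ≤ ∑ ψ a x ‖w_a - h x‖ < κ`, so the segment from `h x` to `ĥ x` avoids `0` (`‖·‖ ≥ ‖h x‖ - ‖ĥ x - h x‖ > 0`). The segment from `ĥ x` to `w none`: `(1 - t) ĥ x + t w none` is a combination of the at most `(k + 1) + 1 ≤ D` linearly independent vectors `w (some a)`, `0 < ψ a x`, and `w none`, with coefficients `(1 - t) ψ a x` and `t`, not all zero.
`H (t, x)` = first segment for `t ≤ 1 / 2`, second one for `t ≥ 1 / 2` (or `(ContinuousMap.Homotopy.trans)` in the subtype `{w // w ≠ 0}`). -/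
def SNH : Prop :=
  ∀ (D k : ℕ), k + 2 ≤ D → ∀ h : C(CSph (k + 1), Fin D → ℝ), (∀ x, h x ≠ 0) →
    ∃ (H : C(unitInterval × CSph (k + 1), Fin D → ℝ)) (w : Fin D → ℝ),
      (∀ x, H (0, x) = h x) ∧ (∀ x, H (1, x) = w) ∧ ∀ t x, H (t, x) ≠ 0

/-! ## Assembly -/

/-- **Small `c`** (from `SCrd`, `SCpt`, `SHom`, `SMk`, `SNet`, `SCut`, `SSub`, `SMom`, `SMo`, `SDim`, `SNear`, `SFin`, `SNH`; 250 lines). PROOF. `η, ε, c₀'` from `SFin` for `c`, `c₀ = min c₀' (min c (c2 n))`, `ε₁` from `SNear` for `c`, `ε₃ = min ε₁ (ε / 4)`. `f', q : C(X, Geo (capK n c₀ _))`, `X = CSph (k + 1)`, from `SCut` for `f₀`. `w x = Dm η (f' x).1 (q x).1 ∈ W0 n`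
(`SMo`), continuous (all supports are in a finite set), norm `≤ 4`, nonzero (if it is zero then `gq` is zero, contradicting `SMom` (ii), `c₀ ≤ c2`). `SNH` with `D = dm n` and a continuous linear equivalence `W0 n ≃ Fin D → ℝ` (`SDim`): `H : C(unitInterval × X, Eu n × (Eu n →L[ℝ] Eu n))` with values in `W0 n`, nonzero, `H (0, x) = w x`, `H (1, x) = w₁`.
NET `B, u, χ` from `SNet` for `ρ = ε₃ / 6` (`B` is nonempty, for every `z` some `b` has `dist (u b) z < ρ`). `m w = max_b qd w (u b)` (`Finset.sup'`), `r_b w = max 0 (qd w (u b) - m w + (ε₃ / 2) ‖w‖)`, continuous in `w`; for `w ≠ 0` the sum is positive; `r_b w > 0` implies `qd w z' ≤ qd w (u b) + ε₃ ‖w‖` for all `z'` (`|qd w z - qd w z'| ≤ 3 ‖w‖ dist z z'`).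
`Mm : C(unitInterval × X, Geo (capK n c _))` from `SMk` for the weights `r_b (H (t, x)) / sum`, vertices `u`; faces: `SNear`. HOMOTOPIES: `f₁ ~ f'` seen in `capK n c _` (`SSub`; `SHom`, supports inside those of `f₁ x`); `f' ~ Mm (0, ·)` by `SHom`: the elements are `v` with `0 < f' x v` or `u b` with `r_b (w x) > 0`; the `y` of `SFin` is a witness
(`ε₃ ‖w x‖ ≤ ε`); `Mm (0, ·) ~ Mm (1, ·)` by `Mm`; all supports of `Mm (1, ·)` are contained in `{u b | r_b w₁ > 0}`, a face (`SNear`): homotopic to the constant map to a vertex of this face (`SHom`). -/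
def SSect : Prop :=
  ∀ (n : ℕ), 1 ≤ n → ∀ (c : ℝ) (hc : -1 < c), 0 < c → ∃ (c₀ : ℝ) (h₀ : -1 < c₀), 0 < c₀ ∧ c₀ ≤ c ∧ c₀ ≤ c2 n ∧
    ∀ k : ℕ, k + 2 ≤ dm n → ∀ (f₀ : C(CSph (k + 1), Geo (capK n c₀ h₀))) (f₁ : C(CSph (k + 1), Geo (capK n c hc))),
      (∀ x, (f₁ x).1 = (f₀ x).1) → ∃ y, f₁.Homotopic (ContinuousMap.const _ y)

/-- **Lower bound** (from `SSub`, `SShrink`, `SDown`, `SSect`, `SCube`; 120 lines). PROOF. Nonempty: `vtx _ v`. By `SCube` it is enough: every `F : C(CSph (i + 1), Geo (capK n c _))`, `(i : ℤ) ≤ n (n + 5) / 2 - 1` (so `i + 2 ≤ dm n`), is homotopic to a constant map. `c₀` from `SSect` for `c`; replace it by `c₀' = min c₀ (c / 2)` if you need `c₀ < c2` (`SSub` turns a map to `capK n c₀'` into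
one to `capK n c₀`). `c' < c` from `SShrink`: `F` has the coordinates of a map `F'` to `Geo (capK n c' _)` (`SSub`). If `c' ≤ c₀'`: `SSub` and `SSect`. Otherwise `SDown` from `c' < c2` to `c₀'`: `F' ~ f₁'` in `capK n c' _`, the homotopy gives (`SSub`) a homotopy in `capK n c _` from `F` to `f₁` with the coordinates of `f₀`; then `SSect`. -/
def SLow : Prop :=
  ∀ (n : ℕ), 1 ≤ n → ∀ (c : ℝ) (hc : -1 < c), 0 < c → c ≤ c2 n →
    ConnAtLeast (((n * (n + 5) / 2 : ℕ) : ℤ) - 1) (Geo (capK n c hc))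

/-- **EXACT CONNECTIVITY** (from `SFace`, `SUpper`, `SLow`; 80 lines). PROOF. `cech n r h0 = capK n (- cos r) _` (the same faces: `SFace`; extensionality of `AbstractSimplicialComplex`), `0 < - cos r ≤ c2 n`, `- cos r > -1`. `conn` is the supremum of the `k` with `ConnAtLeast k`: `k = N - 1` is one, `N = n (n + 5) / 2` (the natural number division is exact: `n (n + 5)` is even), and every other `k` is
`≤ N - 1`, otherwise `ConnAtLeast N` (monotone in `k`) contradicts `SUpper`. `((N - 1 : ℤ) : ℝ) = n (n + 5) / 2 - 1`. -/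
def SExact : Prop :=
  ∀ (n : ℕ), 1 ≤ n → ∀ (r : ℝ) (h0 : 0 < r), Real.pi / 2 < r → r < Real.pi → -Real.cos r ≤ 1 / ((n : ℝ) + 1) →
    conn (Geo (cech n r h0)) = (((n : ℝ) * ((n : ℝ) + 5) / 2 - 1 : ℝ) : EReal)

end Pool.Agent.MPaafd8a
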