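import Pool.Agent.Lib.MP_aafd8a_gt.Spec

/-!
# MP_aafd8a_gt: first half of the homotopy
-/

set_option autoImplicit false

open Topology RealInnerProductSpace

namespace Pool.Agent.MPaafd8a

private theorem st_empty : IsEmpty (CSph 0) := by
  constructor
  intro x
  have h1 := x.2
  rw [mem_sphere_zero_iff_norm] at h1
  have h2 : (x : Fin 0 → ℝ) = 0 := Subsingleton.elim _ _
  rw [h2, norm_zero] at h1
  exact zero_ne_one h1

private theorem st_large {A : Type} [Fintype A] {D : ℕ} (f : A → ℝ) (h0 : ∀ a, 0 ≤ f a) (h1 : ∑ a, f a = 1)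
    (hD : (sp f).card ≤ D) : ∃ a, 1 / ((D : ℝ) + 1) < f a := by
  by_contra hcon
  push Not at hcon
  have hpos : (0 : ℝ) < (D : ℝ) + 1 := by positivity
  have h2 : ∑ a ∈ sp f, f a = 1 := by
    rw [← h1]
    apply Finset.sum_subset (Finset.subset_univ _)
    intro a _ ha
    rw [mem_sp, not_lt] at ha
    exact le_antisymm ha (h0 a)
  have h3 : ∑ a ∈ sp f, f a ≤ (sp f).card • (1 / ((D : ℝ) + 1)) := Finset.sum_le_card_nsmul _ _ _ (fun a _ => hcon a)
  rw [h2, nsmul_eq_mul] at h3
  have h4 : ((sp f).card : ℝ) ≤ D := by exact_mod_cast hD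
  have h5 : ((sp f).card : ℝ) * (1 / ((D : ℝ) + 1)) ≤ D * (1 / ((D : ℝ) + 1)) :=
    mul_le_mul_of_nonneg_right h4 (by positivity)
  have h6 : (D : ℝ) * (1 / ((D : ℝ) + 1)) < 1 := by
    rw [mul_one_div, div_lt_one hpos]
    linarith
  linarith

theorem pStart : SHom → SMk → SApp → SNet → SSec → SVp → SStart := by
  intro hHom hMk hApp hNet hSec hVp n c K m D η hc hm hη hK hD F
  by_cases hD0 : D = 0
  · subst hD0
    have := st_empty
    exact ⟨Empty, Empty, inferInstance, inferInstance, fun a => a.elim, fun b => b.elim, fun a => a.elim,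
      fun b => b.elim, F, fun a => a.elim, fun b => b.elim, fun a => a.elim, fun b => b.elim,
      fun x => isEmptyElim x, fun x => isEmptyElim x, fun x => isEmptyElim x, fun x => isEmptyElim x,
      ContinuousMap.Homotopic.refl F⟩
  obtain ⟨A, _, ψ, w, hψc, hψ0, hψ1, hψF, hψD⟩ := hApp (Sph n) K D F
  have hDpos : (0 : ℝ) < (D : ℝ) + 1 := by positivity
  obtain ⟨θ, hθdef⟩ : ∃ θ : ℝ, θ = 1 / ((D : ℝ) + 1) := ⟨_, rfl⟩
  have hθ : 0 < θ := by rw [hθdef]; positivity
  have hex : ∀ x, ∃ a, θ < ψ a x := by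
    intro x
    rw [hθdef]
    exact st_large (fun a => ψ a x) (fun a => hψ0 a x) (hψ1 x) (hψD x)
  -- the truncated weights
  let g : A → CSph D → ℝ := fun a x => max 0 (ψ a x - θ)
  have hgc : ∀ a, Continuous (g a) := fun a => continuous_const.max ((hψc a).sub continuous_const)
  have hg0 : ∀ a x, 0 ≤ g a x := fun a x => le_max_left _ _
  have hgpos : ∀ a x, 0 < g a x ↔ θ < ψ a x := by
    intro a x
    change 0 < max 0 (ψ a x - θ) ↔ _
    rw [lt_max_iff]
    constructor
    · rintro (h | h)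
      · exact absurd h (lt_irrefl _)
      · linarith
    · intro h
      right
      linarith
  have hS : ∀ x, 0 < ∑ a, g a x := by
    intro x
    obtain ⟨a, ha⟩ := hex x
    exact Finset.sum_pos' (fun b _ => hg0 b x) ⟨a, Finset.mem_univ a, (hgpos a x).2 ha⟩
  have hSc : Continuous (fun x => ∑ a, g a x) := continuous_finsetSum _ (fun a _ => hgc a)
  let f₀ : A → CSph D → ℝ := fun a x => g a x / ∑ b, g b x
  have hf₀c : ∀ a, Continuous (f₀ a) := fun a => (hgc a).div hSc (fun x => (hS x).ne')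
  have hf₀0 : ∀ a x, 0 ≤ f₀ a x := fun a x => div_nonneg (hg0 a x) (hS x).le
  have hf₀1 : ∀ x, ∑ a, f₀ a x = 1 := by
    intro x
    change ∑ a, g a x / ∑ b, g b x = 1
    rw [← Finset.sum_div, div_self (hS x).ne']
  have hf₀pos : ∀ a x, 0 < f₀ a x → θ < ψ a x := by
    intro a x h
    by_contra hcon
    have h1 : g a x = 0 := by
      apply le_antisymm _ (hg0 a x)
      rw [← not_lt, hgpos]
      exact hcon
    have h2 : f₀ a x = 0 := by
      change g a x / _ = 0
      rw [h1, zero_div]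
    rw [h2] at h
    exact lt_irrefl _ h
  -- the support of `F x`
  have hsupp : ∀ x v, 0 < (F x).1 v → v ∈ (F x).1.support := fun x v h => Finsupp.mem_support_iff.2 h.ne'
  have hface0 : ∀ x (σ : Finset (Sph n)), σ.Nonempty → (∀ v ∈ σ, 0 < (F x).1 v) → σ ∈ K := by
    intro x σ hσ h
    exact face_of_subset K (F x).2.2.2 (fun v hv => hsupp x v (h v hv)) hσ
  obtain ⟨F₀, hF₀⟩ := hMk (Sph n) K (CSph D) A f₀ w hf₀c hf₀0 hf₀1 (by
    intro x σ hσ h
    refine hface0 x σ hσ fun v hv => ?_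
    obtain ⟨a, ha, rfl⟩ := h v hv
    exact hψF a x (hθ.trans (hf₀pos a x ha)))
  have hF₀' : ∀ x v, 0 < (F₀ x).1 v → ∃ a, θ < ψ a x ∧ w a = v := by
    intro x v h
    obtain ⟨a, ha, hv⟩ := hF₀ x v h
    exact ⟨a, hf₀pos a x ha, hv⟩
  have hom0 : F.Homotopic F₀ := by
    refine hHom (Sph n) K (CSph D) F F₀ ?_
    intro x σ hσ h
    refine hface0 x σ hσ fun v hv => ?_
    rcases h v hv with h1 | h1
    · exact h1
    · obtain ⟨a, ha, rfl⟩ := hF₀' x v h1
      exact hψF a x (hθ.trans ha)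
  obtain ⟨q, κ, hqc, hκ, hqκ, hqy⟩ := hSec n c m (CSph D) A ψ w θ hθ hψc hψ0 (fun x => by
      obtain ⟨a, ha⟩ := hex x
      exact ⟨a, ha.le⟩) (by
      intro x σ hσ h
      rw [← hK]
      refine hface0 x σ hσ fun v hv => ?_
      obtain ⟨a, ha, rfl⟩ := h v hv
      exact hψF a x ha) (fun x => (hψD x).trans hD)
  obtain ⟨B, _, u, χ, hχc, hχ0, hχ1, hχd⟩ := hNet n (min η c) (lt_min hη hc)
  obtain ⟨p, hpc, hp0, hp1, hpv⟩ := hVp n (CSph D) q hqc κ hκ B χ hχc hχ0 hχ1
  -- the cut-off
  let l : CSph D → ℝ := fun x => 1 - min 1 (‖q x‖ / κ)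
  have hlc : Continuous l := continuous_const.sub (continuous_const.min (hqc.norm.div_const κ))
  have hl0 : ∀ x, 0 ≤ l x := fun x => sub_nonneg.2 (min_le_left _ _)
  let f : A → CSph D → ℝ := fun a x => l x * f₀ a x
  have hfc : ∀ a, Continuous (f a) := fun a => hlc.mul (hf₀c a)
  have hf0 : ∀ a x, 0 ≤ f a x := fun a x => mul_nonneg (hl0 x) (hf₀0 a x)
  have hfsum : ∀ x, ∑ a, f a x + ∑ b, p b x = 1 := by
    intro x
    change ∑ a, l x * f₀ a x + _ = 1
    rw [← Finset.mul_sum, hf₀1, hp1, mul_one]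
    change 1 - min 1 (‖q x‖ / κ) + _ = 1
    ring
  have hfpos : ∀ a x, 0 < f a x → 0 < l x ∧ θ < ψ a x := by
    intro a x h
    have h1 : 0 < l x := by
      rcases (hl0 x).lt_or_eq with h1 | h1
      · exact h1
      · exfalso
        have h2 : f a x = 0 := by
          change l x * f₀ a x = 0
          rw [← h1, zero_mul]
        rw [h2] at h
        exact lt_irrefl _ h
    refine ⟨h1, hf₀pos a x ?_⟩
    rcases (hf₀0 a x).lt_or_eq with h2 | h2
    · exact h2
    · exfalso
      have h3 : f a x = 0 := by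
        change l x * f₀ a x = 0
        rw [← h2, mul_zero]
      rw [h3] at h
      exact lt_irrefl _ h
  -- the main face condition
  have hface : ∀ x (σ : Finset (Sph n)), σ.Nonempty →
      (∀ v ∈ σ, (∃ a, θ < ψ a x ∧ w a = v) ∨ ∃ b, 0 < p b x ∧ u b = v) → σ ∈ K := by
    intro x σ hσ h
    by_cases hq : q x = 0
    · refine hface0 x σ hσ fun v hv => ?_
      rcases h v hv with ⟨a, ha, rfl⟩ | ⟨b, hb, -⟩
      · exact hψF a x (hθ.trans ha)
      · exfalso
        have h1 := hp1 x
        rw [hq, norm_zero, zero_div, min_eq_right zero_le_one] at h1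
        have h2 := (Finset.sum_eq_zero_iff_of_nonneg (fun b _ => hp0 b x)).1 h1 b (Finset.mem_univ b)
        rw [h2] at hb
        exact lt_irrefl _ hb
    · rw [hK]
      obtain ⟨y, hy1, hy2⟩ := hqy x hq
      obtain ⟨v, hv1, hv2⟩ := hpv x hq
      refine ⟨hσ, y, fun z hz => ?_⟩
      rcases h z hz with ⟨a, ha, rfl⟩ | ⟨b, hb, rfl⟩
      · exact hy2 a ha.le
      · have h1 : ⟪(v : Eu n), (y : Eu n)⟫ < 0 := by
          rw [hv1, inner_neg_left, real_inner_smul_left] at hy1
          have h2 : ‖q x‖ * ⟪(v : Eu n), (y : Eu n)⟫ < 0 := by linarith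
          by_contra h3
          rw [not_lt] at h3
          exact absurd h2 (not_lt.2 (mul_nonneg (norm_nonneg _) h3))
        have h2 : dist (u b) v < c := (hχd b v (hv2 b hb)).trans_le (min_le_right _ _)
        have h3 : ⟪(u b : Eu n) - (v : Eu n), (y : Eu n)⟫ ≤ dist (u b) v := by
          refine (real_inner_le_norm _ _).trans ?_
          have h4 : ‖(y : Eu n)‖ = 1 := mem_sphere_zero_iff_norm.1 y.2
          rw [h4, mul_one, Subtype.dist_eq, dist_eq_norm]
        have h5 : ⟪(u b : Eu n), (y : Eu n)⟫ = ⟪(v : Eu n), (y : Eu n)⟫ + ⟪(u b : Eu n) - (v : Eu n), (y : Eu n)⟫ := by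
          rw [← inner_add_left, add_sub_cancel]
        rw [h5]
        linarith
  -- the map `G`
  obtain ⟨G, hG⟩ := hMk (Sph n) K (CSph D) (A ⊕ B) (Sum.elim f p) (Sum.elim w u)
    (by rintro (a | b)
        · exact hfc a
        · exact hpc b)
    (by rintro (a | b) x
        · exact hf0 a x
        · exact hp0 b x)
    (by intro x
        rw [Fintype.sum_sum_type]
        exact hfsum x)
    (by
      intro x σ hσ h
      refine hface x σ hσ fun v hv => ?_
      obtain ⟨a | b, hab, rfl⟩ := h v hv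
      · exact Or.inl ⟨a, (hfpos a x hab).2, rfl⟩
      · exact Or.inr ⟨b, hab, rfl⟩)
  have hG' : ∀ x v, 0 < (G x).1 v → (∃ a, 0 < f a x ∧ w a = v) ∨ ∃ b, 0 < p b x ∧ u b = v := by
    intro x v h
    obtain ⟨a | b, hab, hv⟩ := hG x v h
    · exact Or.inl ⟨a, hab, hv⟩
    · exact Or.inr ⟨b, hab, hv⟩
  have hom1 : F₀.Homotopic G := by
    refine hHom (Sph n) K (CSph D) F₀ G ?_
    intro x σ hσ h
    refine hface x σ hσ fun v hv => ?_
    rcases h v hv with h1 | h1
    · exact Or.inl (hF₀' x v h1)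
    · rcases hG' x v h1 with ⟨a, ha, hv'⟩ | h2
      · exact Or.inl ⟨a, (hfpos a x ha).2, hv'⟩
      · exact Or.inr h2
  refine ⟨A, B, inferInstance, inferInstance, f, p, w, u, G, hfc, hpc, hf0, hp0, hfsum, ?_, ?_, hG', hom0.trans hom1⟩
  · intro x
    by_cases hq : q x = 0
    · obtain ⟨y, -⟩ : ∃ y : Sph n, True := by
        obtain ⟨v, hv⟩ := support_nonempty_of_sum (F x).2.2.1
        exact ⟨v, trivial⟩
      refine ⟨y, fun b hb => ?_⟩
      exfalso
      have h1 := hp1 x
      rw [hq, norm_zero, zero_div, min_eq_right zero_le_one] at h1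
      have h2 := (Finset.sum_eq_zero_iff_of_nonneg (fun b _ => hp0 b x)).1 h1 b (Finset.mem_univ b)
      rw [h2] at hb
      exact lt_irrefl _ hb
    · obtain ⟨v, -, hv2⟩ := hpv x hq
      exact ⟨v, fun b hb => (hχd b v (hv2 b hb)).trans_le (min_le_left _ _)⟩
  · intro x
    by_cases hl : 0 < l x
    · have h1 : ‖q x‖ < κ := by
        have h2 : min 1 (‖q x‖ / κ) < 1 := by
          change 0 < 1 - _ at hl
          linarith
        rw [min_lt_iff] at h2
        rcases h2 with h2 | h2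
        · exact absurd h2 (lt_irrefl _)
        · rwa [div_lt_one hκ] at h2
      have h2 : (up θ (fun a => ψ a x)).card < m := by
        by_contra h3
        rw [not_lt] at h3
        exact absurd (hqκ x h3) (not_le.2 h1)
      have h3 : (sp (fun a => f a x)).card ≤ (up θ (fun a => ψ a x)).card := by
        apply Finset.card_le_card
        intro a ha
        rw [mem_sp] at ha
        rw [mem_up]
        exact (hfpos a x ha).2.le
      omega
    · have h1 : sp (fun a => f a x) = ∅ := by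
        rw [Finset.eq_empty_iff_forall_notMem]
        intro a ha
        rw [mem_sp] at ha
        exact hl (hfpos a x ha).1
      rw [h1, Finset.card_empty]
      omega

end Pool.Agent.MPaafd8a
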