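import Pool.Agent.Lib.MP_aafd8a_gt.Spec3

/-! # MP_aafd8a_gt, third part: one step down (`pStepD`) -/

set_option autoImplicit false

open Topology RealInnerProductSpace Filter

namespace Pool.Agent.MPaafd8a

namespace StepX

theorem nv {n : ℕ} (v : Sph n) : ‖(v : Eu n)‖ = 1 := mem_sphere_zero_iff_norm.1 v.2

/-- Normalisation of a family of nonnegative functions. -/
theorem normal {X A : Type} [TopologicalSpace X] [Fintype A] (h : A → X → ℝ)
    (hc : ∀ a, Continuous (h a)) (h0 : ∀ a x, 0 ≤ h a x) (hp : ∀ x, ∃ a, 0 < h a x) :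
    ∃ p : A → X → ℝ, (∀ a, Continuous (p a)) ∧ (∀ a x, 0 ≤ p a x) ∧ (∀ x, ∑ a, p a x = 1) ∧
      ∀ a x, 0 < p a x → 0 < h a x := by
  have hs : ∀ x, 0 < ∑ a, h a x := by
    intro x
    obtain ⟨a, ha⟩ := hp x
    exact Finset.sum_pos' (fun a _ => h0 a x) ⟨a, Finset.mem_univ a, ha⟩
  refine ⟨fun a x => h a x / ∑ b, h b x, fun a => ?_, fun a x => ?_, fun x => ?_, fun a x hx => ?_⟩
  · exact (hc a).div (continuous_finsetSum _ fun b _ => hc b) (fun x => (hs x).ne')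
  · exact div_nonneg (h0 a x) (hs x).le
  · change ∑ a, h a x / ∑ b, h b x = 1
    rw [← Finset.sum_div]
    exact div_self (hs x).ne'
  · by_contra hn
    have h1 : h a x = 0 := le_antisymm (not_lt.1 hn) (h0 a x)
    have h2 : (0 : ℝ) < h a x / ∑ b, h b x := hx
    rw [h1, zero_div] at h2
    exact lt_irrefl _ h2

theorem margin {α : Type} (S : Finset α) (g : α → ℝ) : ∃ η : ℝ, 0 < η ∧ ∀ a ∈ S, 0 < g a → η ≤ g a := by
  classical
  induction S using Finset.induction_on with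
  | empty => exact ⟨1, one_pos, fun a ha => absurd ha (Finset.notMem_empty a)⟩
  | insert b S hb ih =>
    obtain ⟨η, h0, h1⟩ := ih
    rcases le_or_gt (g b) 0 with h2 | h2
    · refine ⟨η, h0, fun a ha hp => ?_⟩
      rcases Finset.mem_insert.1 ha with rfl | ha
      · exact absurd hp (not_lt.2 h2)
      · exact h1 a ha hp
    · refine ⟨min η (g b), lt_min h0 h2, fun a ha hp => ?_⟩
      rcases Finset.mem_insert.1 ha with rfl | ha
      · exact min_le_right _ _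
      · exact (min_le_left _ _).trans (h1 a ha hp)

theorem mkSph {n : ℕ} {Y : Type} [TopologicalSpace Y] (w : Y → Eu n) (hw : Continuous w) (h0 : ∀ y, w y ≠ 0) :
    ∃ F : Y → Sph n, Continuous F ∧ ∀ y, (F y : Eu n) = ‖w y‖⁻¹ • w y := by
  refine ⟨fun y => ⟨‖w y‖⁻¹ • w y, ?_⟩, ?_, fun y => rfl⟩
  · rw [mem_sphere_zero_iff_norm, norm_smul, norm_inv, norm_norm, inv_mul_cancel₀ (norm_ne_zero_iff.2 (h0 y))]
  · exact ((hw.norm.inv₀ fun y => norm_ne_zero_iff.2 (h0 y)).smul hw).subtype_mk _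

theorem bar_eq {n : ℕ} {T : Finset (Sph n)} {p : Sph n →₀ ℝ} (h : p.support ⊆ T) : bar p = ∑ v ∈ T, p v • (v : Eu n) := by
  unfold bar
  exact Finsupp.sum_of_support_subset _ h _ fun v _ => zero_smul ℝ _

theorem mo_eq {n : ℕ} {T : Finset (Sph n)} {p : Sph n →₀ ℝ} (h : p.support ⊆ T) :
    mo p = ∑ v ∈ T, p v • (innerSL ℝ (v : Eu n)).smulRight (v : Eu n) := by
  unfold mo
  exact Finsupp.sum_of_support_subset _ h _ fun v _ => zero_smul ℝ ((innerSL ℝ (v : Eu n)).smulRight (v : Eu n))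

theorem ex_eq {n : ℕ} {T : Finset (Sph n)} {p : Sph n →₀ ℝ} (h : p.support ⊆ T) (f : Sph n → ℝ) :
    ex p f = ∑ v ∈ T, p v * f v := by
  unfold ex
  exact Finsupp.sum_of_support_subset _ h _ fun v _ => zero_mul _

/-- The direction of the motion. -/
noncomputable def xi {n : ℕ} (c : ℝ) (p q : Sph n →₀ ℝ) (z : Eu n) : Eu n :=
  (1 / c) • (mo p - mo q) z + ((1 - c2 n) / (1 + c)) • (bar p - bar q)

theorem c2_pos (n : ℕ) : 0 < c2 n := by unfold c2; positivity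

theorem c2_le {n : ℕ} (hn : 1 ≤ n) : c2 n ≤ 1 / 2 := by
  unfold c2
  have : (1 : ℝ) ≤ n := by exact_mod_cast hn
  apply one_div_le_one_div_of_le
  · norm_num
  · linarith

theorem xi_norm (hMo : SMo) {n : ℕ} (hn : 1 ≤ n) {c₀ c : ℝ} (h0 : 0 < c₀) (hc : c₀ ≤ c) {p q : Sph n →₀ ℝ} (hp : Pw p) (hq : Pw q)
    (z : Sph n) : ‖xi c p q (z : Eu n)‖ ≤ 2 / c₀ + 2 := by
  obtain ⟨-, b1, b2, -⟩ := hMo n p p hp hp
  obtain ⟨-, b3, b4, -⟩ := hMo n q q hq hq
  have hcp : 0 < c := lt_of_lt_of_le h0 hc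
  have e1 : ‖(mo p - mo q) (z : Eu n)‖ ≤ 2 := by
    have h1 := (mo p - mo q).le_opNorm (z : Eu n)
    have h2 := norm_sub_le (mo p) (mo q)
    rw [nv, mul_one] at h1
    linarith
  have e2 : ‖bar p - bar q‖ ≤ 2 := by
    have h2 := norm_sub_le (bar p) (bar q)
    linarith
  have e3 : 1 / c ≤ 1 / c₀ := one_div_le_one_div_of_le h0 hc
  have e4 : (1 - c2 n) / (1 + c) ≤ 1 := by
    rw [div_le_one (by linarith)]
    have := c2_pos n
    linarith
  have e5 : 0 ≤ (1 - c2 n) / (1 + c) := div_nonneg (by have := c2_le hn; linarith) (by linarith)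
  unfold xi
  refine (norm_add_le _ _).trans ?_
  rw [norm_smul, norm_smul, Real.norm_eq_abs, Real.norm_eq_abs, abs_of_nonneg e5, abs_of_nonneg (by positivity : (0 : ℝ) ≤ 1 / c)]
  have e6 : 1 / c * ‖(mo p - mo q) (z : Eu n)‖ ≤ 1 / c₀ * 2 :=
    mul_le_mul e3 e1 (norm_nonneg _) (by positivity)
  have e7 : (1 - c2 n) / (1 + c) * ‖bar p - bar q‖ ≤ 1 * 2 :=
    mul_le_mul e4 e2 (norm_nonneg _) (by norm_num)
  have e8 : 1 / c₀ * 2 = 2 / c₀ := by ring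
  linarith

theorem xi_kappa (hMo : SMo) {n : ℕ} {c : ℝ} (hc : 0 < c) {p q : Sph n →₀ ℝ} (hp : Pw p) (hq : Pw q)
    (v y : Sph n) : ⟪(v : Eu n), xi c p q (y : Eu n)⟫ - ⟪xi c p q (v : Eu n), (y : Eu n)⟫
      + c * (⟪(v : Eu n), xi c p q (v : Eu n)⟫ - ⟪(y : Eu n), xi c p q (y : Eu n)⟫) = gq p q v - gq p q y := by
  obtain ⟨-, -, -, s1, -⟩ := hMo n p p hp hp
  obtain ⟨-, -, -, s2, -⟩ := hMo n q q hq hq
  have hs : ∀ x z : Eu n, ⟪(mo p - mo q) x, z⟫ = ⟪x, (mo p - mo q) z⟫ := by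
    intro x z
    rw [sub_apply, sub_apply, inner_sub_left, inner_sub_right, s1, s2]
  unfold gq
  obtain ⟨S, hS⟩ : ∃ S, S = mo p - mo q := ⟨_, rfl⟩
  obtain ⟨a, ha⟩ : ∃ a, a = bar p - bar q := ⟨_, rfl⟩
  have hx : ∀ z, xi c p q z = (1 / c) • S z + ((1 - c2 n) / (1 + c)) • a := by
    intro z
    rw [hS, ha]
    rfl
  rw [← hS] at hs ⊢
  rw [← ha]
  rw [hx, hx]
  simp only [inner_add_left, inner_add_right, real_inner_smul_left, real_inner_smul_right]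
  rw [hs (v : Eu n) (y : Eu n), hs (v : Eu n) (v : Eu n), hs (y : Eu n) (y : Eu n), real_inner_comm (v : Eu n) a,
    real_inner_comm (y : Eu n) a]
  have h1 : c ≠ 0 := hc.ne'
  have h2 : 1 + c ≠ 0 := by positivity
  field_simp
  ring

/-- The estimate for one pair of weights. -/
theorem pair (hMom : SMom) (hMo : SMo) (hPt : SPt) {n : ℕ} (hn : 1 ≤ n) {c₀ c₁ c κ₀ C s₀ η₀ : ℝ} (h0 : 0 < c₀) (h1 : c₀ ≤ c)
    (h2 : c ≤ c₁) (h3 : c₁ < c2 n) (hκ : κ₀ = 2 * (c2 n - c₁)) (hC : C = 2 / c₀ + 2) (hs1 : s₀ * C ≤ 1 / 2)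
    (hs2 : 16 * C ^ 2 * s₀ ≤ 3 * κ₀) (hη : 0 ≤ η₀) {p q : Sph n →₀ ℝ} (hp : Pw p) (hq : Pw q)
    (hcp : ∀ v y : Sph n, 0 < p v → 0 < q y → ⟪(v : Eu n), (y : Eu n)⟫ ≤ c - η₀) (hcp' : Cpt2 c p q) {s : ℝ} (hs : 0 ≤ s) (hss : s ≤ s₀) :
    ∃ ys : Sph n, ∀ v : Sph n, 0 < p v → 0 < gq p q v - ex p (gq p q) + κ₀ / 4 →
      ∀ w : Sph n, (w : Eu n) = ‖(v : Eu n) + s • xi c p q (v : Eu n)‖⁻¹ • ((v : Eu n) + s • xi c p q (v : Eu n)) →
        ⟪(w : Eu n), (ys : Eu n)⟫ ≤ c - 4 / 9 * (η₀ + 3 * s * κ₀ / 8) := by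
  have hcpos : 0 < c := lt_of_lt_of_le h0 h1
  have hc2 := c2_le hn
  have hCpos : 0 < C := by rw [hC]; positivity
  have hκpos : 0 < κ₀ := by rw [hκ]; linarith
  obtain ⟨y, hy, hy'⟩ := ((hMo n q q hq hq).2.2.2.2.2.2.2.1 (gq p q)).1
  have hm := (hMom n hn p q hp hq).1 c hcpos.le (by linarith) hcp'
  have hsC : s * C ≤ 1 / 2 := (mul_le_mul_of_nonneg_right hss hCpos.le).trans hs1
  have hxn := fun z => xi_norm hMo hn h0 h1 hp hq z
  rw [← hC] at hxn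
  have hyn : 1 / 2 ≤ ‖(y : Eu n) - s • xi c p q (y : Eu n)‖ := by
    have e1 := norm_sub_norm_le (y : Eu n) (s • xi c p q (y : Eu n))
    rw [nv, norm_smul, Real.norm_eq_abs, abs_of_nonneg hs] at e1
    have e2 := mul_le_mul_of_nonneg_left (hxn y) hs
    linarith
  have hyne : (y : Eu n) - s • xi c p q (y : Eu n) ≠ 0 := by
    intro h
    rw [h, norm_zero] at hyn
    norm_num at hyn
  refine ⟨⟨‖(y : Eu n) - s • xi c p q (y : Eu n)‖⁻¹ • ((y : Eu n) - s • xi c p q (y : Eu n)), ?_⟩, fun v hv hv' w hw => ?_⟩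
  · rw [mem_sphere_zero_iff_norm, norm_smul, norm_inv, norm_norm, inv_mul_cancel₀ (norm_ne_zero_iff.2 hyne)]
  have e3 : 3 * κ₀ / 4 ≤ gq p q v - gq p q y := by linarith
  have e4 := hcp v y hv hy
  have e5 : s * (3 * κ₀ / 4) ≤ s * (gq p q v - gq p q y) := mul_le_mul_of_nonneg_left e3 hs
  have e6 : 2 * s ^ 2 * C ^ 2 ≤ s * (3 * κ₀ / 8) := by
    have e7 : 16 * C ^ 2 * s ≤ 3 * κ₀ :=
      (mul_le_mul_of_nonneg_left hss (by positivity)).trans hs2
    nlinarith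
  obtain ⟨p1, p2, p3⟩ := hPt n v y (xi c p q (v : Eu n)) (xi c p q (y : Eu n)) c C s (η₀ + 3 * s * κ₀ / 8) hcpos.le (by linarith)
    (hxn v) (hxn y) hs hsC (by positivity) (by rw [xi_kappa hMo hcpos hp hq]; linarith)
  change ⟪(w : Eu n), ‖(y : Eu n) - s • xi c p q (y : Eu n)‖⁻¹ • ((y : Eu n) - s • xi c p q (y : Eu n))⟫ ≤ _
  rw [hw, real_inner_smul_left, real_inner_smul_right]
  obtain ⟨N1, hN1⟩ : ∃ N, N = ‖(v : Eu n) + s • xi c p q (v : Eu n)‖ := ⟨_, rfl⟩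
  obtain ⟨N2, hN2⟩ : ∃ N, N = ‖(y : Eu n) - s • xi c p q (y : Eu n)‖ := ⟨_, rfl⟩
  rw [← hN1] at p1 p3 ⊢
  rw [← hN2] at p2 p3 ⊢
  have hN1p : 0 < N1 := by linarith
  have hN2p : 0 < N2 := by linarith
  have e8 : N1⁻¹ * (N2⁻¹ * ⟪(v : Eu n) + s • xi c p q (v : Eu n), (y : Eu n) - s • xi c p q (y : Eu n)⟫)
      = ⟪(v : Eu n) + s • xi c p q (v : Eu n), (y : Eu n) - s • xi c p q (y : Eu n)⟫ / (N1 * N2) := by
    field_simp
  rw [e8, div_le_iff₀ (mul_pos hN1p hN2p)]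
  exact p3

theorem cont_bar {n : ℕ} {X : Type} [TopologicalSpace X] {T : Finset (Sph n)} {p : X → Sph n →₀ ℝ} (h : ∀ x, (p x).support ⊆ T)
    (hc : ∀ v, Continuous fun x => p x v) : Continuous fun x => bar (p x) := by
  have h1 : (fun x => bar (p x)) = fun x => ∑ v ∈ T, p x v • (v : Eu n) := funext fun x => bar_eq (h x)
  rw [h1]
  exact continuous_finsetSum _ fun v _ => (hc v).smul continuous_const

theorem cont_mo {n : ℕ} {X : Type} [TopologicalSpace X] {T : Finset (Sph n)} {p : X → Sph n →₀ ℝ} (h : ∀ x, (p x).support ⊆ T)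
    (hc : ∀ v, Continuous fun x => p x v) : Continuous fun x => mo (p x) := by
  have h1 : (fun x => mo (p x)) = fun x => ∑ v ∈ T, p x v • (innerSL ℝ (v : Eu n)).smulRight (v : Eu n) :=
    funext fun x => mo_eq (h x)
  rw [h1]
  exact continuous_finsetSum _ fun v _ => (hc v).smul continuous_const

theorem spos {n : ℕ} {K : AbstractSimplicialComplex (Sph n)} (p : Geo K) {v : Sph n} (h : v ∈ p.1.support) : 0 < p.1 v :=
  lt_of_le_of_ne (p.2.1 v) (Ne.symm (Finsupp.mem_support_iff.1 h))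

theorem smem {n : ℕ} {K : AbstractSimplicialComplex (Sph n)} (p : Geo K) {v : Sph n} (h : 0 < p.1 v) : v ∈ p.1.support :=
  Finsupp.mem_support_iff.2 h.ne'

end StepX

open StepX

theorem pStepD : SCrd → SCpt → SHom → SMk → SNet → SCut → SSub → SMom → SMo → SPt → SStepD := by
  intro hCrd hCpt hHom hMk hNet hCut hSub hMom hMo hPt n hn c₀ c₁ h0 h01 h12
  classical
  obtain ⟨κ₀, hκ⟩ : ∃ κ₀ : ℝ, κ₀ = 2 * (c2 n - c₁) := ⟨_, rfl⟩
  obtain ⟨C, hC⟩ : ∃ C : ℝ, C = 2 / c₀ + 2 := ⟨_, rfl⟩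
  have hκpos : 0 < κ₀ := by rw [hκ]; linarith
  have hκ1 : κ₀ ≤ 1 := by
    have := c2_le hn
    rw [hκ]
    linarith
  have hC2 : 2 ≤ C := by
    rw [hC]
    have : 0 ≤ 2 / c₀ := by positivity
    linarith
  obtain ⟨s₀, hs₀⟩ : ∃ s₀ : ℝ, s₀ = min (1 / (2 * C)) (3 * κ₀ / (16 * C ^ 2)) := ⟨_, rfl⟩
  have hs₀pos : 0 < s₀ := by rw [hs₀]; exact lt_min (by positivity) (by positivity)
  have hs1 : s₀ * C ≤ 1 / 2 := by
    have e1 : s₀ ≤ 1 / (2 * C) := by rw [hs₀]; exact min_le_left _ _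
    have e2 : s₀ * C ≤ 1 / (2 * C) * C := mul_le_mul_of_nonneg_right e1 (by linarith)
    have e3 : 1 / (2 * C) * C = 1 / 2 := by
      have : C ≠ 0 := by linarith
      field_simp
    linarith
  have hs2 : 16 * C ^ 2 * s₀ ≤ 3 * κ₀ := by
    have e1 : s₀ ≤ 3 * κ₀ / (16 * C ^ 2) := by rw [hs₀]; exact min_le_right _ _
    rw [le_div_iff₀ (by positivity)] at e1
    linarith
  obtain ⟨ε, hε⟩ : ∃ ε : ℝ, ε = s₀ * κ₀ / 12 := ⟨_, rfl⟩
  have hεpos : 0 < ε := by rw [hε]; positivity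
  have hε1 : ε ≤ 1 := by
    rw [hε]
    have e1 : s₀ * 2 ≤ 1 / 2 := (mul_le_mul_of_nonneg_left hC2 hs₀pos.le).trans hs1
    nlinarith
  refine ⟨ε, hεpos, hε1, ?_⟩
  intro c hc hc' hc0 hc1 X _ _ f
  obtain ⟨g, q, hgf, hgq⟩ := hCut n c (capK n c hc) (fun σ => Iff.rfl) X f
  obtain ⟨T₁, hT₁⟩ := hCpt _ _ _ (isCompact_range g.continuous)
  obtain ⟨T₂, hT₂⟩ := hCpt _ _ _ (isCompact_range q.continuous)
  obtain ⟨T, hT⟩ : ∃ T : Finset (Sph n), T = T₁ ∪ T₂ := ⟨_, rfl⟩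
  have hgT : ∀ x, (g x).1.support ⊆ T := fun x => by
    rw [hT]
    exact (hT₁ _ (Set.mem_range_self x)).trans Finset.subset_union_left
  have hqT : ∀ x, (q x).1.support ⊆ T := fun x => by
    rw [hT]
    exact (hT₂ _ (Set.mem_range_self x)).trans Finset.subset_union_right
  obtain ⟨η₀, hη₀, hη₀'⟩ := margin (T ×ˢ T) (fun a : Sph n × Sph n => c - ⟪(a.1 : Eu n), (a.2 : Eu n)⟫)
  have hpair : ∀ x, ∀ v y : Sph n, 0 < (g x).1 v → 0 < (q x).1 y → ⟪(v : Eu n), (y : Eu n)⟫ ≤ c - η₀ := by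
    intro x v y hv hy
    have e1 := hη₀' (v, y) (Finset.mem_product.2 ⟨hgT x (smem _ hv), hqT x (smem _ hy)⟩) (sub_pos.2 (hgq x v y hv hy))
    change η₀ ≤ c - ⟪(v : Eu n), (y : Eu n)⟫ at e1
    linarith
  -- continuity of the coordinates and moments
  have hgc : ∀ v, Continuous fun x => (g x).1 v := fun v => (hCrd _ _ v).comp g.continuous
  have hqc : ∀ v, Continuous fun x => (q x).1 v := fun v => (hCrd _ _ v).comp q.continuous
  have hbar : Continuous fun x => bar (g x).1 - bar (q x).1 := (cont_bar hgT hgc).sub (cont_bar hqT hqc)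
  have hmo : Continuous fun x => mo (g x).1 - mo (q x).1 := (cont_mo hgT hgc).sub (cont_mo hqT hqc)
  have hclm : Continuous (fun w : (Eu n →L[ℝ] Eu n) × Eu n => w.1 w.2) := isBoundedBilinearMap_apply.continuous
  have hmoz : ∀ z : Eu n, Continuous fun x => (mo (g x).1 - mo (q x).1) z := fun z =>
    hclm.comp (hmo.prodMk continuous_const)
  have hG : ∀ v : Sph n, Continuous fun x => gq (g x).1 (q x).1 v := by
    intro v
    unfold gq
    exact ((hmoz _).inner continuous_const).add (continuous_const.mul (hbar.inner continuous_const))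
  have hexG : Continuous fun x => ex (g x).1 (gq (g x).1 (q x).1) := by
    have e1 : (fun x => ex (g x).1 (gq (g x).1 (q x).1)) = fun x => ∑ v ∈ T, (g x).1 v * gq (g x).1 (q x).1 v :=
      funext fun x => ex_eq (hgT x) _
    rw [e1]
    exact continuous_finsetSum _ fun v _ => (hgc v).mul (hG v)
  have hxi : ∀ v : Sph n, Continuous fun x => xi c (g x).1 (q x).1 (v : Eu n) := by
    intro v
    unfold xi
    exact ((hmoz _).const_smul (1 / c)).add (hbar.const_smul ((1 - c2 n) / (1 + c)))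
  -- the moving points
  have hcpos : 0 < c := lt_of_lt_of_le h0 hc0
  have hPtE : ∀ v : Sph n, ∃ F : unitInterval × X → Sph n, Continuous F ∧ ∀ a, (F a : Eu n)
      = ‖(v : Eu n) + ((a.1 : ℝ) * s₀) • xi c (g a.2).1 (q a.2).1 (v : Eu n)‖⁻¹
        • ((v : Eu n) + ((a.1 : ℝ) * s₀) • xi c (g a.2).1 (q a.2).1 (v : Eu n)) := by
    intro v
    refine mkSph (fun a : unitInterval × X => (v : Eu n) + ((a.1 : ℝ) * s₀) • xi c (g a.2).1 (q a.2).1 (v : Eu n)) ?_ ?_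
    · have e0 : Continuous fun a : unitInterval × X => (a.1 : ℝ) * s₀ :=
        (continuous_subtype_val.comp continuous_fst).mul continuous_const
      exact continuous_const.add (e0.smul ((hxi v).comp continuous_snd))
    · intro a h
      have e1 := xi_norm hMo hn h0 hc0 (pw_of_geo (g a.2)) (pw_of_geo (q a.2)) v
      rw [← hC] at e1
      have e2 : (v : Eu n) = -(((a.1 : ℝ) * s₀) • xi c (g a.2).1 (q a.2).1 (v : Eu n)) := eq_neg_of_add_eq_zero_left h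
      have e3 := congrArg norm e2
      rw [nv, norm_neg, norm_smul, Real.norm_eq_abs, abs_of_nonneg (mul_nonneg a.1.2.1 hs₀pos.le)] at e3
      have e4 : (a.1 : ℝ) * s₀ ≤ s₀ := by
        have := a.1.2.2
        nlinarith
      have e5 : (a.1 : ℝ) * s₀ * ‖xi c (g a.2).1 (q a.2).1 (v : Eu n)‖ ≤ s₀ * C :=
        mul_le_mul e4 e1 (norm_nonneg _) hs₀pos.le
      linarith
  choose Pt hPtc hPtv using hPtE
  -- the net
  obtain ⟨ρ, hρ⟩ : ∃ ρ : ℝ, ρ = min (4 / 9 * η₀) ε := ⟨_, rfl⟩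
  have hρpos : 0 < ρ := by rw [hρ]; exact lt_min (by positivity) hεpos
  have hρ1 : ρ ≤ 4 / 9 * η₀ := by rw [hρ]; exact min_le_left _ _
  have hρ2 : ρ ≤ ε := by rw [hρ]; exact min_le_right _ _
  obtain ⟨B, hB, u, χ, χc, χ0, χ1, χd⟩ := hNet n ρ hρpos
  -- the weights
  obtain ⟨Aw, hAw⟩ : ∃ Aw : Sph n → X → ℝ, Aw = fun v x => (g x).1 v * max 0 (gq (g x).1 (q x).1 v - ex (g x).1 (gq (g x).1 (q x).1) + κ₀ / 4) :=
    ⟨_, rfl⟩
  have hAwc : ∀ v, Continuous (Aw v) := by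
    intro v
    rw [hAw]
    exact (hgc v).mul (continuous_const.max (((hG v).sub hexG).add continuous_const))
  have hAw0 : ∀ v x, 0 ≤ Aw v x := by
    intro v x
    rw [hAw]
    exact mul_nonneg ((g x).2.1 v) (le_max_left _ _)
  have hAwp : ∀ v x, 0 < Aw v x → 0 < (g x).1 v ∧ 0 < gq (g x).1 (q x).1 v - ex (g x).1 (gq (g x).1 (q x).1) + κ₀ / 4 := by
    intro v x h
    rw [hAw] at h
    change 0 < (g x).1 v * max 0 (gq (g x).1 (q x).1 v - ex (g x).1 (gq (g x).1 (q x).1) + κ₀ / 4) at h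
    have e1 : 0 < (g x).1 v := by
      by_contra hn
      have : (g x).1 v = 0 := le_antisymm (not_lt.1 hn) ((g x).2.1 v)
      rw [this, zero_mul] at h
      exact lt_irrefl _ h
    refine ⟨e1, ?_⟩
    by_contra hn
    rw [max_eq_left (not_lt.1 hn), mul_zero] at h
    exact lt_irrefl _ h
  obtain ⟨P, Pc, P0, P1, Pp⟩ := normal (X := unitInterval × X) (A := {v // v ∈ T} × B)
    (fun a z => Aw a.1.1 z.2 * χ a.2 (Pt a.1.1 z))
    (fun a => ((hAwc a.1.1).comp continuous_snd).mul ((χc a.2).comp (hPtc a.1.1)))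
    (fun a z => mul_nonneg (hAw0 _ _) (χ0 _ _))
    (fun z => by
      obtain ⟨v, hv, hv'⟩ := ((hMo n _ _ (pw_of_geo (g z.2)) (pw_of_geo (g z.2))).2.2.2.2.2.2.2.1 (gq (g z.2).1 (q z.2).1)).2
      have e1 : 0 < Aw v z.2 := by
        rw [hAw]
        exact mul_pos hv (lt_max_of_lt_right (by linarith))
      obtain ⟨b, -, hb⟩ : ∃ b ∈ Finset.univ, 0 < χ b (Pt v z) := by
        by_contra hno
        push Not at hno
        have e2 := Finset.sum_nonpos (s := Finset.univ) hno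
        rw [χ1] at e2
        exact absurd e2 (not_le.2 one_pos)
      exact ⟨(⟨v, hgT _ (smem _ hv)⟩, b), mul_pos e1 hb⟩)
  have Pp' : ∀ (a : {v // v ∈ T} × B) (z : unitInterval × X), 0 < P a z →
      0 < Aw a.1.1 z.2 ∧ dist (u a.2) (Pt a.1.1 z) < ρ := by
    intro a z h
    have e1 : 0 < Aw a.1.1 z.2 * χ a.2 (Pt a.1.1 z) := Pp a z h
    have e2 : 0 < Aw a.1.1 z.2 := by
      by_contra hn
      have : Aw a.1.1 z.2 = 0 := le_antisymm (not_lt.1 hn) (hAw0 _ _)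
      rw [this, zero_mul] at e1
      exact lt_irrefl _ e1
    refine ⟨e2, χd _ _ ?_⟩
    by_contra hn
    have : χ a.2 (Pt a.1.1 z) = 0 := le_antisymm (not_lt.1 hn) (χ0 _ _)
    rw [this, mul_zero] at e1
    exact lt_irrefl _ e1
  have hdist : ∀ (a b y : Sph n) (r : ℝ), dist a b < r → ⟪(a : Eu n), (y : Eu n)⟫ < ⟪(b : Eu n), (y : Eu n)⟫ + r := by
    intro a b y r h
    have e1 : ⟪(a : Eu n), (y : Eu n)⟫ = ⟪(b : Eu n), (y : Eu n)⟫ + ⟪(a : Eu n) - b, (y : Eu n)⟫ := by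
      rw [inner_sub_left]
      ring
    have e2 := real_inner_le_norm ((a : Eu n) - b) (y : Eu n)
    rw [nv, mul_one, ← dist_eq_norm] at e2
    have e3 : dist (a : Eu n) (b : Eu n) = dist a b := rfl
    linarith
  -- the witness for the moved points
  have hwit : ∀ z : unitInterval × X, ∃ ys : Sph n, ∀ a : {v // v ∈ T} × B, 0 < P a z →
      ⟪(u a.2 : Eu n), (ys : Eu n)⟫ < c - 4 / 9 * (η₀ + 3 * ((z.1 : ℝ) * s₀) * κ₀ / 8) + ρ := by
    intro z
    have e4 : (z.1 : ℝ) * s₀ ≤ s₀ := by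
      have := z.1.2.2
      nlinarith
    obtain ⟨ys, hys⟩ := pair hMom hMo hPt hn h0 hc0 hc1 h12 hκ hC hs1 hs2 hη₀.le (pw_of_geo (g z.2)) (pw_of_geo (q z.2))
      (hpair z.2) (hgq z.2) (mul_nonneg z.1.2.1 hs₀pos.le) e4
    refine ⟨ys, fun a ha => ?_⟩
    obtain ⟨e1, e2⟩ := Pp' a z ha
    obtain ⟨e3, e5⟩ := hAwp _ _ e1
    have e6 := hys a.1.1 e3 e5 (Pt a.1.1 z) (hPtv a.1.1 z)
    have e7 := hdist (u a.2) (Pt a.1.1 z) ys ρ e2
    linarith
  obtain ⟨F, hF⟩ := hMk _ (capK n c hc) (unitInterval × X) ({v // v ∈ T} × B) P (fun a => u a.2) Pc P0 P1 (by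
    intro z σ hσ hv
    obtain ⟨ys, hys⟩ := hwit z
    refine ⟨hσ, ys, fun w hw => ?_⟩
    obtain ⟨a, ha, rfl⟩ := hv w hw
    have e1 := hys a ha
    have e2 : 0 ≤ 3 * ((z.1 : ℝ) * s₀) * κ₀ / 8 := by
      have := z.1.2.1
      positivity
    linarith)
  -- the end map
  obtain ⟨F1, hF1⟩ : ∃ F1 : C(X, Geo (capK n c hc)), ∀ x, F1 x = F (1, x) :=
    ⟨⟨fun x => F (1, x), F.continuous.comp (continuous_const.prodMk continuous_id)⟩, fun x => rfl⟩
  obtain ⟨F0, hF0⟩ : ∃ F0 : C(X, Geo (capK n c hc)), ∀ x, F0 x = F (0, x) :=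
    ⟨⟨fun x => F (0, x), F.continuous.comp (continuous_const.prodMk continuous_id)⟩, fun x => rfl⟩
  obtain ⟨f', hf'⟩ := hSub _ (capK n c hc) (capK n (c - ε) hc') X F1 (by
    intro x
    obtain ⟨ys, hys⟩ := hwit (1, x)
    refine ⟨support_nonempty_of_sum (F1 x).2.2.1, ys, fun w hw => ?_⟩
    have e1 := spos _ hw
    rw [hF1] at e1
    obtain ⟨a, ha, rfl⟩ := hF _ _ e1
    have e2 := hys a ha
    have e3 : (((1 : unitInterval) : ℝ)) = 1 := rfl
    change ⟪(u a.2 : Eu n), (ys : Eu n)⟫ < c - 4 / 9 * (η₀ + 3 * (((1 : unitInterval) : ℝ) * s₀) * κ₀ / 8) + ρ at e2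
    rw [e3, one_mul] at e2
    have e4 : 4 / 9 * (η₀ + 3 * s₀ * κ₀ / 8) = 4 / 9 * η₀ + 2 * ε := by
      rw [hε]
      ring
    have e5 : 0 ≤ 4 / 9 * η₀ := by positivity
    linarith)
  refine ⟨f', F1, fun x => (hf' x).symm, ?_⟩
  -- homotopies
  have H1 : f.Homotopic g := by
    refine hHom _ _ _ f g fun x σ hσ hv => ?_
    refine face_of_subset _ (f x).2.2.2 (fun v hv' => ?_) hσ
    rcases hv v hv' with h | h
    · exact smem _ h
    · exact smem _ (hgf x v h)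
  have H2 : g.Homotopic F0 := by
    refine hHom _ _ _ g F0 fun x σ hσ hv => ?_
    obtain ⟨y, hy, -⟩ := ((hMo n _ _ (pw_of_geo (q x)) (pw_of_geo (q x))).2.2.2.2.2.2.2.1 (fun _ => 0)).1
    refine ⟨hσ, y, fun w hw => ?_⟩
    rcases hv w hw with h | h
    · have := hpair x w y h hy
      linarith
    · rw [hF0] at h
      obtain ⟨a, ha, rfl⟩ := hF _ _ h
      obtain ⟨e1, e2⟩ := Pp' a _ ha
      obtain ⟨e3, -⟩ := hAwp _ _ e1
      have e4 : (Pt a.1.1 ((0 : unitInterval), x) : Eu n) = (a.1.1 : Eu n) := by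
        rw [hPtv]
        have e5 : (((0 : unitInterval) : ℝ)) = 0 := rfl
        change ‖(a.1.1 : Eu n) + (((0 : unitInterval) : ℝ) * s₀) • xi c (g x).1 (q x).1 (a.1.1 : Eu n)‖⁻¹
          • ((a.1.1 : Eu n) + (((0 : unitInterval) : ℝ) * s₀) • xi c (g x).1 (q x).1 (a.1.1 : Eu n)) = _
        rw [e5, zero_mul, zero_smul, add_zero, nv, inv_one, one_smul]
      have e6 : Pt a.1.1 ((0 : unitInterval), x) = a.1.1 := Subtype.ext e4
      rw [e6] at e2
      have e7 := hdist (u a.2) a.1.1 y ρ e2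
      have e8 := hpair x a.1.1 y e3 hy
      linarith
  have H3 : F0.Homotopic F1 := ⟨⟨F, fun x => (hF0 x).symm, fun x => (hF1 x).symm⟩⟩
  exact (H1.trans H2).trans H3

end Pool.Agent.MPaafd8a
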