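import Pool.Agent.Lib.MP_aafd8a_gt.Spec3

/-! # MP_aafd8a_gt, third part: upper bound by the Borsuk-Ulam theorem (`pUpper`) -/

set_option autoImplicit false

open Topology RealInnerProductSpace Filter

namespace Pool.Agent.MPaafd8a

namespace UpperX

theorem bar_eq {n : ℕ} {T : Finset (Sph n)} {p : Sph n →₀ ℝ} (h : p.support ⊆ T) : bar p = ∑ v ∈ T, p v • (v : Eu n) := by
  unfold bar
  exact Finsupp.sum_of_support_subset _ h _ fun v _ => zero_smul ℝ _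

theorem mo_eq {n : ℕ} {T : Finset (Sph n)} {p : Sph n →₀ ℝ} (h : p.support ⊆ T) :
    mo p = ∑ v ∈ T, p v • (innerSL ℝ (v : Eu n)).smulRight (v : Eu n) := by
  unfold mo
  exact Finsupp.sum_of_support_subset _ h _ fun v _ => zero_smul ℝ ((innerSL ℝ (v : Eu n)).smulRight (v : Eu n))

theorem cont_bar {n : ℕ} {X : Type} [TopologicalSpace X] {T : Finset (Sph n)} {p : X → Sph n →₀ ℝ} (h : ∀ x, (p x).support ⊆ T)
    (hc : ∀ v, Continuous fun x => p x v) : Continuous fun x => bar (p x) := by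
  have h1 : (fun x => bar (p x)) = fun x => ∑ v ∈ T, p x v • (v : Eu n) := funext fun x => bar_eq (h x)
  rw [h1]
  exact continuous_finsetSum _ fun v _ => (hc v).smul continuous_const

theorem cont_mo {n : ℕ} {X : Type} [TopologicalSpace X] {T : Finset (Sph n)} {p : X → Sph n →₀ ℝ} (h : ∀ x, (p x).support ⊆ T)
    (hc : ∀ v, Continuous fun x => p x v) : Continuous fun x => mo (p x) := by
  have h1 : (fun x => mo (p x)) = fun x => ∑ v ∈ T, p x v • (innerSL ℝ (v : Eu n)).smulRight (v : Eu n) :=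
    funext fun x => mo_eq (h x)
  rw [h1]
  exact continuous_finsetSum _ fun v _ => (hc v).smul continuous_const

theorem core (hBU : BU.SBU) (hCrd : SCrd) (hCpt : SCpt) (hMom : SMom) (hMo : SMo) {n : ℕ} (hn : 1 ≤ n) {c : ℝ} (hc : -1 < c)
    (hc2 : c ≤ c2 n) (m : ℕ) (hm : Module.finrank ℝ (W0 n) = m) (P : C(CSph (m + 1), Geo (capK n c hc))) (hP : Anti c P) : False := by
  obtain ⟨T, hT⟩ := hCpt _ _ _ (isCompact_range P.continuous)
  have hPT : ∀ x, (P x).1.support ⊆ T := fun x => hT _ (Set.mem_range_self x)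
  have hPc : ∀ v, Continuous fun x => (P x).1 v := fun v => (hCrd _ _ v).comp P.continuous
  have hPc' : ∀ v, Continuous fun x => (P (-x)).1 v := fun v => (hPc v).comp continuous_neg
  have hDmc : Continuous fun x => Dm 1 (P x).1 (P (-x)).1 :=
    ((cont_bar hPT hPc).sub (cont_bar (fun x => hPT (-x)) hPc')).prodMk
      (((cont_mo hPT hPc).sub (cont_mo (fun x => hPT (-x)) hPc')).const_smul (1 : ℝ))
  have hDm0 : ∀ x, Dm 1 (P x).1 (P (-x)).1 ∈ W0 n := fun x => (hMo n _ _ (pw_of_geo (P x)) (pw_of_geo (P (-x)))).1 1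
  have hDmne : ∀ x, Dm 1 (P x).1 (P (-x)).1 ≠ 0 := by
    intro x h
    have e1 : bar (P x).1 - bar (P (-x)).1 = 0 := congrArg Prod.fst h
    have e2 : (1 : ℝ) • (mo (P x).1 - mo (P (-x)).1) = 0 := congrArg Prod.snd h
    have e3 : mo (P x).1 - mo (P (-x)).1 = 0 := (smul_eq_zero.1 e2).resolve_left one_ne_zero
    have e4 := (hMom n hn _ _ (pw_of_geo (P x)) (pw_of_geo (P (-x)))).2 (fun v w hv hw => (hP x v w hv hw).trans_le hc2)
    have e5 : gq (P x).1 (P (-x)).1 = fun _ => 0 := by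
      funext z
      unfold gq
      rw [e1, e3, zero_apply]
      simp only [inner_zero_left, mul_zero, add_zero]
    rw [e5] at e4
    unfold ex at e4
    simp only [mul_zero, Finsupp.sum, Finset.sum_const_zero, sub_zero] at e4
    exact lt_irrefl _ e4
  have hneg : ∀ p q : Sph n →₀ ℝ, Dm 1 q p = -Dm 1 p q := by
    intro p q
    unfold Dm
    rw [Prod.neg_mk, neg_sub, one_smul, one_smul, neg_sub]
  have hDmneg : ∀ x, Dm 1 (P (-x)).1 (P (- -x)).1 = -Dm 1 (P x).1 (P (-x)).1 := by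
    intro x
    rw [neg_neg]
    exact hneg _ _
  obtain ⟨Ψ, hΨ⟩ : ∃ Ψ : CSph (m + 1) → W0 n, ∀ x, Ψ x = ⟨Dm 1 (P x).1 (P (-x)).1, hDm0 x⟩ :=
    ⟨fun x => ⟨Dm 1 (P x).1 (P (-x)).1, hDm0 x⟩, fun x => rfl⟩
  have hΨc : Continuous Ψ := by
    have e1 : Ψ = fun x => ⟨Dm 1 (P x).1 (P (-x)).1, hDm0 x⟩ := funext hΨ
    rw [e1]
    exact hDmc.subtype_mk hDm0
  have hΨne : ∀ x, Ψ x ≠ 0 := by
    intro x h
    rw [hΨ] at h
    exact hDmne x (congrArg Subtype.val h)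
  have hΨneg : ∀ x, Ψ (-x) = -Ψ x := by
    intro x
    apply Subtype.ext
    rw [hΨ, hΨ]
    exact hDmneg x
  have hfr : Module.finrank ℝ (W0 n) = Module.finrank ℝ (Fin m → ℝ) := by
    rw [hm, Module.finrank_fin_fun]
  obtain ⟨e⟩ : Nonempty (W0 n ≃L[ℝ] (Fin m → ℝ)) :=
    FiniteDimensional.nonempty_continuousLinearEquiv_of_finrank_eq (𝕜 := ℝ) (E := W0 n) (F := Fin m → ℝ) hfr
  have hmem : ∀ y : Fin (m + 1) → ℝ, y ≠ 0 → ‖y‖⁻¹ • y ∈ Metric.sphere (0 : Fin (m + 1) → ℝ) 1 := by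
    intro y hy
    rw [mem_sphere_zero_iff_norm, norm_smul, norm_inv, norm_norm, inv_mul_cancel₀ (norm_ne_zero_iff.2 hy)]
  classical
  obtain ⟨g, hg⟩ : ∃ g : (Fin (m + 1) → ℝ) → (Fin m → ℝ),
      g = fun y => if h : y = 0 then 0 else e (Ψ (⟨‖y‖⁻¹ • y, hmem y h⟩ : CSph (m + 1))) := ⟨_, rfl⟩
  have hg1 : ∀ y (h : y ≠ 0), g y = e (Ψ (⟨‖y‖⁻¹ • y, hmem y h⟩ : CSph (m + 1))) := by
    intro y h
    rw [hg]
    exact dif_neg h
  have hg0 : g 0 = 0 := by
    rw [hg]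
    exact dif_pos rfl
  have hgc : ContinuousOn g {0}ᶜ := by
    rw [continuousOn_iff_continuous_domRestrict]
    have e1 : Continuous fun y : ({0}ᶜ : Set (Fin (m + 1) → ℝ)) => ‖y.1‖⁻¹ • y.1 :=
      (continuous_subtype_val.norm.inv₀ fun y => norm_ne_zero_iff.2 y.2).smul continuous_subtype_val
    have e2 : Continuous fun y : ({0}ᶜ : Set (Fin (m + 1) → ℝ)) => (⟨‖y.1‖⁻¹ • y.1, hmem y.1 y.2⟩ : CSph (m + 1)) :=
      e1.subtype_mk _
    have e3 : Continuous fun y : ({0}ᶜ : Set (Fin (m + 1) → ℝ)) => e (Ψ (⟨‖y.1‖⁻¹ • y.1, hmem y.1 y.2⟩ : CSph (m + 1))) :=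
      e.continuous.comp (hΨc.comp e2)
    exact e3.congr fun y => (hg1 y.1 y.2).symm
  have hgn : ∀ y, g (-y) = -g y := by
    intro y
    rcases eq_or_ne y 0 with rfl | hy
    · rw [neg_zero, hg0, neg_zero]
    · rw [hg1 y hy, hg1 (-y) (neg_ne_zero.2 hy)]
      have e1 : (⟨‖-y‖⁻¹ • -y, hmem (-y) (neg_ne_zero.2 hy)⟩ : CSph (m + 1))
          = -(⟨‖y‖⁻¹ • y, hmem y hy⟩ : CSph (m + 1)) := by
        apply Subtype.ext
        change ‖-y‖⁻¹ • -y = -(‖y‖⁻¹ • y)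
        rw [norm_neg, smul_neg]
      rw [e1, hΨneg]
      apply eq_neg_of_add_eq_zero_right
      rw [← map_add e]
      have e5 : ∀ a : W0 n, a + -a = 0 := fun a => Subtype.ext (add_neg_cancel a.1)
      exact (congrArg e (e5 _)).trans (map_zero e)
  obtain ⟨y, hy, hy'⟩ := hBU m g hgc hgn
  rw [hg1 y hy] at hy'
  exact hΨne _ (e.map_eq_zero_iff.1 hy')

end UpperX

open UpperX

theorem pUpper : BU.SBU → SCrd → SCpt → SMom → SMo → SDim → SPr → SUpper := by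
  intro hBU hCrd hCpt hMom hMo hDim hPr n hn c hc hc2 hconn
  obtain ⟨P, hP⟩ := hPr n c (capK n c hc) hc (fun σ => Iff.rfl) (n * (n + 5) / 2) hconn
  exact core hBU hCrd hCpt hMom hMo hn hc hc2 (n * (n + 5) / 2 + 1) (hDim n) P hP

end Pool.Agent.MPaafd8a
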