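import Pool.Agent.Lib.MP_aafd8a_gt.Spec

/-!
# MP_aafd8a_gt, module Vp: the moving point
-/

set_option autoImplicit false

open Topology RealInnerProductSpace Filter

namespace Pool.Agent.MPaafd8a

/-- The point opposite to the direction of `z`. -/
private noncomputable def vp_dir {n : ℕ} (z : {z : Eu n // z ≠ 0}) : Sph n :=
  ⟨-(‖z.1‖⁻¹ • z.1), by
    rw [mem_sphere_zero_iff_norm, norm_neg, norm_smul, norm_inv, norm_norm]
    exact inv_mul_cancel₀ (norm_ne_zero_iff.2 z.2)⟩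

private theorem vp_dir_cont (n : ℕ) : Continuous (vp_dir : {z : Eu n // z ≠ 0} → Sph n) := by
  have h1 : Continuous (fun z : {z : Eu n // z ≠ 0} => ‖z.1‖) := continuous_norm.comp continuous_subtype_val
  have h2 : Continuous (fun z : {z : Eu n // z ≠ 0} => ‖z.1‖⁻¹) := h1.inv₀ (fun z => norm_ne_zero_iff.2 z.2)
  have h3 : Continuous (fun z : {z : Eu n // z ≠ 0} => -(‖z.1‖⁻¹ • z.1)) := (h2.smul continuous_subtype_val).neg
  exact h3.subtype_mk _

/-- The weight as a function of the vector. -/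
private noncomputable def vp_P {n : ℕ} (κ : ℝ) (χ : Sph n → ℝ) (z : Eu n) : ℝ := by
  classical
  exact if h : z = 0 then 0 else min 1 (‖z‖ / κ) * χ (vp_dir ⟨z, h⟩)

private theorem vp_P_zero {n : ℕ} (κ : ℝ) (χ : Sph n → ℝ) : vp_P κ χ (0 : Eu n) = 0 := by
  unfold vp_P
  rw [dif_pos rfl]

private theorem vp_P_ne {n : ℕ} (κ : ℝ) (χ : Sph n → ℝ) {z : Eu n} (h : z ≠ 0) :
    vp_P κ χ z = min 1 (‖z‖ / κ) * χ (vp_dir ⟨z, h⟩) := by
  unfold vp_P
  rw [dif_neg h]

private theorem vp_min_nonneg {κ : ℝ} (hκ : 0 < κ) (a : ℝ) (ha : 0 ≤ a) : 0 ≤ min 1 (a / κ) :=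
  le_min zero_le_one (div_nonneg ha hκ.le)

private theorem vp_P_nonneg {n : ℕ} {κ : ℝ} (hκ : 0 < κ) (χ : Sph n → ℝ) (h0 : ∀ v, 0 ≤ χ v) (z : Eu n) :
    0 ≤ vp_P κ χ z := by
  by_cases h : z = 0
  · rw [h, vp_P_zero]
  · rw [vp_P_ne κ χ h]
    exact mul_nonneg (vp_min_nonneg hκ _ (norm_nonneg z)) (h0 _)

private theorem vp_P_le {n : ℕ} {κ : ℝ} (hκ : 0 < κ) (χ : Sph n → ℝ) (h1 : ∀ v, χ v ≤ 1) (z : Eu n) :
    vp_P κ χ z ≤ min 1 (‖z‖ / κ) := by
  by_cases h : z = 0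
  · rw [h, vp_P_zero]
    exact vp_min_nonneg hκ _ (norm_nonneg _)
  · rw [vp_P_ne κ χ h]
    exact mul_le_of_le_one_right (vp_min_nonneg hκ _ (norm_nonneg z)) (h1 _)

private theorem vp_P_cont {n : ℕ} {κ : ℝ} (hκ : 0 < κ) (χ : Sph n → ℝ) (hc : Continuous χ) (h0 : ∀ v, 0 ≤ χ v)
    (h1 : ∀ v, χ v ≤ 1) : Continuous (vp_P κ χ) := by
  rw [continuous_iff_continuousAt]
  intro z
  by_cases h : z = 0
  · subst h
    unfold ContinuousAt
    rw [vp_P_zero]
    have hg : Tendsto (fun z : Eu n => min 1 (‖z‖ / κ)) (𝓝 0) (𝓝 0) := by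
      have h2 : Continuous (fun z : Eu n => min 1 (‖z‖ / κ)) :=
        continuous_const.min (continuous_norm.div_const κ)
      have h3 := h2.tendsto (0 : Eu n)
      rw [norm_zero, zero_div, min_eq_right (zero_le_one (α := ℝ))] at h3
      exact h3
    exact squeeze_zero (vp_P_nonneg hκ χ h0) (vp_P_le hκ χ h1) hg
  · have h2 : ContinuousOn (vp_P κ χ) {z : Eu n | z ≠ 0} := by
      rw [continuousOn_iff_continuous_domRestrict]
      have h3 : ({z : Eu n | z ≠ 0}.domRestrict (vp_P κ χ)) =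
          fun z : {z : Eu n // z ≠ 0} => min 1 (‖z.1‖ / κ) * χ (vp_dir z) := by
        funext z
        exact vp_P_ne κ χ z.2
      rw [h3]
      exact (continuous_const.min ((continuous_norm.comp continuous_subtype_val).div_const κ)).mul
        (hc.comp (vp_dir_cont n))
    exact h2.continuousAt (isOpen_ne.mem_nhds h)

theorem pVp : SVp := by
  intro n X _ q hq κ hκ B _ χ hc h0 h1
  have hle : ∀ b v, χ b v ≤ 1 := by
    intro b v
    rw [← h1 v]
    exact Finset.single_le_sum (f := fun b => χ b v) (fun b _ => h0 b v) (Finset.mem_univ b)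
  refine ⟨fun b x => vp_P κ (χ b) (q x), ?_, ?_, ?_, ?_⟩
  · intro b
    exact (vp_P_cont hκ (χ b) (hc b) (h0 b) (hle b)).comp hq
  · intro b x
    exact vp_P_nonneg hκ (χ b) (h0 b) (q x)
  · intro x
    by_cases h : q x = 0
    · have h2 : ∀ b, vp_P κ (χ b) (q x) = 0 := by
        intro b
        rw [h, vp_P_zero]
      rw [Finset.sum_congr rfl fun b _ => h2 b, Finset.sum_const_zero, h, norm_zero, zero_div,
        min_eq_right (zero_le_one (α := ℝ))]
    · have h2 : ∀ b, vp_P κ (χ b) (q x) = min 1 (‖q x‖ / κ) * χ b (vp_dir ⟨q x, h⟩) := by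
        intro b
        exact vp_P_ne κ (χ b) h
      rw [Finset.sum_congr rfl fun b _ => h2 b, ← Finset.mul_sum, h1, mul_one]
  · intro x hx
    refine ⟨vp_dir ⟨q x, hx⟩, ?_, ?_⟩
    · change q x = -(‖q x‖ • -(‖q x‖⁻¹ • q x))
      rw [smul_neg, neg_neg, smul_smul, mul_inv_cancel₀ (norm_ne_zero_iff.2 hx), one_smul]
    · intro b hb
      change 0 < vp_P κ (χ b) (q x) at hb
      rw [vp_P_ne κ (χ b) hx] at hb
      exact pos_of_mul_pos_right hb (vp_min_nonneg hκ _ (norm_nonneg _))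

end Pool.Agent.MPaafd8a
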