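import Pool.Agent.Lib.MP_aafd8a_gt.Spec3

/-!
# MP_aafd8a_gt: the frame inequality
-/

set_option autoImplicit false

open Topology RealInnerProductSpace

namespace Pool.Agent.MPaafd8a

namespace Welch

theorem inner_sum {n : ℕ} (x y : Eu n) : ⟪x, y⟫ = ∑ i, x i * y i := by
  rw [PiLp.inner_apply]
  refine Finset.sum_congr rfl fun i _ => ?_
  simp [mul_comm]

theorem inner_mo {n : ℕ} (p : Sph n →₀ ℝ) (z : Eu n) :
    ⟪mo p z, z⟫ = ∑ w ∈ p.support, p w * ⟪(w : Eu n), z⟫ ^ 2 := by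
  have h1 : mo p z = ∑ w ∈ p.support, p w • (⟪(w : Eu n), z⟫ • (w : Eu n)) := by
    unfold mo Finsupp.sum
    rw [ContinuousLinearMap.sum_apply]
    rfl
  rw [h1, sum_inner]
  refine Finset.sum_congr rfl fun w _ => ?_
  rw [real_inner_smul_left, real_inner_smul_left]
  ring

theorem key {n : ℕ} (p : Sph n →₀ ℝ) :
    ex p (fun v => ⟪mo p (v : Eu n), (v : Eu n)⟫) =
      ∑ i, ∑ j, (∑ v ∈ p.support, p v * ((v : Eu n) i * (v : Eu n) j)) ^ 2 := by
  have h1 : ∀ i j : Fin (n + 1), (∑ v ∈ p.support, p v * ((v : Eu n) i * (v : Eu n) j)) ^ 2 =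
      ∑ v ∈ p.support, ∑ w ∈ p.support, (p v * ((v : Eu n) i * (v : Eu n) j)) *
        (p w * ((w : Eu n) i * (w : Eu n) j)) := by
    intro i j
    rw [sq, Finset.sum_mul_sum]
  have h2 : ex p (fun v => ⟪mo p (v : Eu n), (v : Eu n)⟫) =
      ∑ v ∈ p.support, ∑ w ∈ p.support, ∑ i, ∑ j, (p v * ((v : Eu n) i * (v : Eu n) j)) *
        (p w * ((w : Eu n) i * (w : Eu n) j)) := by
    unfold ex Finsupp.sum
    refine Finset.sum_congr rfl fun v _ => ?_
    change p v * ⟪mo p (v : Eu n), (v : Eu n)⟫ = _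
    rw [inner_mo, Finset.mul_sum]
    refine Finset.sum_congr rfl fun w _ => ?_
    rw [inner_sum, sq, Finset.sum_mul_sum, Finset.mul_sum, Finset.mul_sum]
    refine Finset.sum_congr rfl fun i _ => ?_
    rw [Finset.mul_sum, Finset.mul_sum]
    refine Finset.sum_congr rfl fun j _ => ?_
    ring
  rw [h2]
  simp_rw [h1]
  have h3 : ∀ i : Fin (n + 1), (∑ j, ∑ v ∈ p.support, ∑ w ∈ p.support,
      (p v * ((v : Eu n) i * (v : Eu n) j)) * (p w * ((w : Eu n) i * (w : Eu n) j))) =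
      ∑ v ∈ p.support, ∑ w ∈ p.support, ∑ j,
        (p v * ((v : Eu n) i * (v : Eu n) j)) * (p w * ((w : Eu n) i * (w : Eu n) j)) := by
    intro i
    rw [Finset.sum_comm]
    refine Finset.sum_congr rfl fun v _ => ?_
    rw [Finset.sum_comm]
  rw [Finset.sum_congr rfl fun i _ => h3 i]
  conv_rhs => rw [Finset.sum_comm]
  refine Finset.sum_congr rfl fun v _ => ?_
  conv_rhs => rw [Finset.sum_comm]

end Welch

open Welch in
theorem pWelch : SWelch := by
  intro n p hp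
  rw [key]
  have h1 : ∑ i, (∑ v ∈ p.support, p v * ((v : Eu n) i * (v : Eu n) i)) = 1 := by
    rw [Finset.sum_comm]
    refine Eq.trans ?_ hp.2
    unfold Finsupp.sum
    refine Finset.sum_congr rfl fun v _ => ?_
    rw [← Finset.mul_sum, ← inner_sum, real_inner_self_eq_norm_sq, mem_sphere_zero_iff_norm.1 v.2]
    ring
  have h2 : (∑ i, (∑ v ∈ p.support, p v * ((v : Eu n) i * (v : Eu n) i))) ^ 2 ≤
      (Finset.univ : Finset (Fin (n + 1))).card *
        ∑ i, (∑ v ∈ p.support, p v * ((v : Eu n) i * (v : Eu n) i)) ^ 2 :=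
    sq_sum_le_card_mul_sum_sq
  rw [h1, Finset.card_univ, Fintype.card_fin] at h2
  have h3 : (∑ i, (∑ v ∈ p.support, p v * ((v : Eu n) i * (v : Eu n) i)) ^ 2) ≤
      ∑ i, ∑ j, (∑ v ∈ p.support, p v * ((v : Eu n) i * (v : Eu n) j)) ^ 2 := by
    refine Finset.sum_le_sum fun i _ => ?_
    exact Finset.single_le_sum (f := fun j =>
      (∑ v ∈ p.support, p v * ((v : Eu n) i * (v : Eu n) j)) ^ 2) (fun j _ => sq_nonneg _)
      (Finset.mem_univ i)
  refine le_trans ?_ h3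
  unfold c2
  rw [div_le_iff₀ (by positivity)]
  push_cast at h2
  linarith

end Pool.Agent.MPaafd8a
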